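import Pool.Agent.Lib.EI.Trig

/-!
MODULE Pow4 (1.5 h). The fourth moment of a function in the lowest eigenspace.

Proof. `VV c x = A x.1 + B x.2` (`VV_eq`), `A r = c 0 sin r + c 1 cos r`, `B r = c 2 sin r + c 3 cos r`.
Expand `(A+B)⁴ = A⁴ + 4A³B + 6A²B² + 4AB³ + B⁴`, `tint_add`/`tint_const_mul` and `tint_prod`
(`Trig.lean`): `tint (fun x => φ x.1 * χ x.2) = (∫ φ) (∫ χ)` over `0..2π`. Needed one dimensional
integrals over a period: `∫ A = 0`, `∫ A³ = 0` (only one factor has to vanish: `∫ B = 0` and `∫ A = 0`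
are enough, since `4A³B` has `∫ B = 0` and `4AB³` has `∫ A = 0`), `∫ A² = π (c0² + c1²)`,
`∫ A⁴ = (3π/4) (c0² + c1²)²`. For `A⁴` either expand (with `∫ sin⁴ = ∫ cos⁴ = 3π/4`,
`∫ sin² cos² = π/4`, `∫ sin³ cos = ∫ sin cos³ = 0`) or find an explicit antiderivative and use
`intervalIntegral.integral_eq_sub_of_hasDerivAt`. (Antiderivatives as polynomials in `sin, cos` and `r`:
`sin² = (r - sin cos)/2`; `sin⁴: 3r/8 - (3/8) sin cos - (1/4) sin³ cos`;
`cos⁴: 3r/8 + (3/8) sin cos + (1/4) sin cos³`; `sin² cos²: r/8 - (sin cos - 2 sin³ cos)/8`;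
`sin³ cos: sin⁴/4`; `sin cos³: -cos⁴/4`.) The values at `0` and `2π` are trivial (`sin = 0`).
Result: `2π·(3π/4)P1² + 6 (πP1)(πP2) + 2π (3π/4) P2² = (3π²/2)((P1+P2)² + 2 P1 P2)`.
-/

set_option autoImplicit false

open MeasureTheory Set

namespace Pool.Agent.Lib.EI

private theorem pow4_int4 (p q : ℝ) :
    ∫ r in (0 : ℝ)..2 * Real.pi, (p * Real.sin r + q * Real.cos r) ^ 4 =
      3 * Real.pi / 4 * (p ^ 2 + q ^ 2) ^ 2 := by
  have hd : ∀ r ∈ uIcc (0 : ℝ) (2 * Real.pi), HasDerivAt (fun r : ℝ =>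
      p ^ 4 * (3 / 8 * r - 3 / 8 * (Real.sin r * Real.cos r) - 1 / 4 * (Real.sin r ^ 3 * Real.cos r))
      + p ^ 3 * q * Real.sin r ^ 4
      + 6 * p ^ 2 * q ^ 2 * (1 / 8 * r - 1 / 8 * (Real.sin r * Real.cos r)
        + 1 / 4 * (Real.sin r ^ 3 * Real.cos r))
      - p * q ^ 3 * Real.cos r ^ 4
      + q ^ 4 * (3 / 8 * r + 3 / 8 * (Real.sin r * Real.cos r)
        + 1 / 4 * (Real.sin r * Real.cos r ^ 3)))
      ((p * Real.sin r + q * Real.cos r) ^ 4) r := by
    intro r _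
    have hs := Real.hasDerivAt_sin r
    have hc := Real.hasDerivAt_cos r
    have hi := hasDerivAt_id' r
    have hsc := hs.mul hc
    have hs3c := (hs.pow 3).mul hc
    have hsc3 := hs.mul (hc.pow 3)
    have h := (((((((hi.const_mul (3 / 8)).sub (hsc.const_mul (3 / 8))).sub
      (hs3c.const_mul (1 / 4))).const_mul (p ^ 4)).add ((hs.pow 4).const_mul (p ^ 3 * q))).add
      ((((hi.const_mul (1 / 8)).sub (hsc.const_mul (1 / 8))).add
      (hs3c.const_mul (1 / 4))).const_mul (6 * p ^ 2 * q ^ 2))).sub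
      ((hc.pow 4).const_mul (p * q ^ 3))).add
      ((((hi.const_mul (3 / 8)).add (hsc.const_mul (3 / 8))).add
      (hsc3.const_mul (1 / 4))).const_mul (q ^ 4))
    refine h.congr_deriv ?_
    simp only [Pi.pow_apply]
    push_cast
    linear_combination (p ^ 4 * (3 / 8 + 3 / 4 * Real.sin r ^ 2) +
      6 * p ^ 2 * q ^ 2 * (1 / 8 + 1 / 4 * Real.sin r ^ 2) +
      q ^ 4 * (3 / 8 + 3 / 4 * Real.cos r ^ 2)) * (-(Real.sin_sq_add_cos_sq r))
  rw [intervalIntegral.integral_eq_sub_of_hasDerivAt hd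
    (Continuous.intervalIntegrable (by fun_prop) _ _)]
  simp only [Real.sin_two_pi, Real.cos_two_pi, Real.sin_zero, Real.cos_zero]
  ring

private theorem pow4_int2 (p q : ℝ) :
    ∫ r in (0 : ℝ)..2 * Real.pi, (p * Real.sin r + q * Real.cos r) ^ 2 =
      Real.pi * (p ^ 2 + q ^ 2) := by
  have hd : ∀ r ∈ uIcc (0 : ℝ) (2 * Real.pi), HasDerivAt (fun r : ℝ =>
      p ^ 2 * (1 / 2 * r - 1 / 2 * (Real.sin r * Real.cos r)) + p * q * Real.sin r ^ 2
      + q ^ 2 * (1 / 2 * r + 1 / 2 * (Real.sin r * Real.cos r)))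
      ((p * Real.sin r + q * Real.cos r) ^ 2) r := by
    intro r _
    have hs := Real.hasDerivAt_sin r
    have hc := Real.hasDerivAt_cos r
    have hi := hasDerivAt_id' r
    have hsc := hs.mul hc
    have h := ((((hi.const_mul (1 / 2)).sub (hsc.const_mul (1 / 2))).const_mul (p ^ 2)).add
      ((hs.pow 2).const_mul (p * q))).add
      (((hi.const_mul (1 / 2)).add (hsc.const_mul (1 / 2))).const_mul (q ^ 2))
    refine h.congr_deriv ?_
    push_cast
    linear_combination ((p ^ 2 + q ^ 2) / 2) * (-(Real.sin_sq_add_cos_sq r))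
  rw [intervalIntegral.integral_eq_sub_of_hasDerivAt hd
    (Continuous.intervalIntegrable (by fun_prop) _ _)]
  simp only [Real.sin_two_pi, Real.cos_two_pi, Real.sin_zero, Real.cos_zero]
  ring

private theorem pow4_int1 (p q : ℝ) :
    ∫ r in (0 : ℝ)..2 * Real.pi, (p * Real.sin r + q * Real.cos r) = 0 := by
  have hd : ∀ r ∈ uIcc (0 : ℝ) (2 * Real.pi), HasDerivAt (fun r : ℝ =>
      q * Real.sin r - p * Real.cos r) (p * Real.sin r + q * Real.cos r) r := by
    intro r _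
    have h := ((Real.hasDerivAt_sin r).const_mul q).sub ((Real.hasDerivAt_cos r).const_mul p)
    refine h.congr_deriv ?_
    ring
  rw [intervalIntegral.integral_eq_sub_of_hasDerivAt hd
    (Continuous.intervalIntegrable (by fun_prop) _ _)]
  simp only [Real.sin_two_pi, Real.cos_two_pi, Real.sin_zero, Real.cos_zero]
  ring

private theorem pow4_tint {A B : ℝ → ℝ} (hA : Continuous A) (hB : Continuous B) :
    tint (fun x => (A x.1 + B x.2) ^ 4) =
      (∫ r in (0 : ℝ)..2 * Real.pi, A r ^ 4) * (2 * Real.pi) +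
      4 * ((∫ r in (0 : ℝ)..2 * Real.pi, A r ^ 3) * ∫ r in (0 : ℝ)..2 * Real.pi, B r) +
      6 * ((∫ r in (0 : ℝ)..2 * Real.pi, A r ^ 2) * ∫ r in (0 : ℝ)..2 * Real.pi, B r ^ 2) +
      4 * ((∫ r in (0 : ℝ)..2 * Real.pi, A r) * ∫ r in (0 : ℝ)..2 * Real.pi, B r ^ 3) +
      (2 * Real.pi) * (∫ r in (0 : ℝ)..2 * Real.pi, B r ^ 4) := by
  have h1 : (fun x : ℝ × ℝ => (A x.1 + B x.2) ^ 4) = fun x => (((A x.1 ^ 4 * 1 +
      4 * (A x.1 ^ 3 * B x.2)) + 6 * (A x.1 ^ 2 * B x.2 ^ 2)) + 4 * (A x.1 * B x.2 ^ 3)) +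
      1 * B x.2 ^ 4 := by
    funext x; ring
  rw [h1, tint_add (by fun_prop) (by fun_prop), tint_add (by fun_prop) (by fun_prop),
    tint_add (by fun_prop) (by fun_prop), tint_add (by fun_prop) (by fun_prop),
    tint_const_mul, tint_const_mul, tint_const_mul,
    tint_prod (φ := fun r => A r ^ 4) (χ := fun _ => 1) (by fun_prop) (by fun_prop),
    tint_prod (φ := fun r => A r ^ 3) (χ := fun r => B r) (by fun_prop) (by fun_prop),
    tint_prod (φ := fun r => A r ^ 2) (χ := fun r => B r ^ 2) (by fun_prop) (by fun_prop),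
    tint_prod (φ := fun r => A r) (χ := fun r => B r ^ 3) (by fun_prop) (by fun_prop),
    tint_prod (φ := fun _ => 1) (χ := fun r => B r ^ 4) (by fun_prop) (by fun_prop), int_one]

theorem tint_VV_pow4 (c : Fin 4 → ℝ) : tint (fun x => VV c x ^ 4) = 3 * Real.pi ^ 2 / 2 *
    ((c 0 ^ 2 + c 1 ^ 2 + c 2 ^ 2 + c 3 ^ 2) ^ 2 +
      2 * (c 0 ^ 2 + c 1 ^ 2) * (c 2 ^ 2 + c 3 ^ 2)) := by
  have h1 : (fun x => VV c x ^ 4) = fun x : ℝ × ℝ => ((fun r => c 0 * Real.sin r +
      c 1 * Real.cos r) x.1 + (fun r => c 2 * Real.sin r + c 3 * Real.cos r) x.2) ^ 4 := by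
    funext x
    rw [VV_eq]
    ring
  rw [h1, pow4_tint (A := fun r => c 0 * Real.sin r + c 1 * Real.cos r)
    (B := fun r => c 2 * Real.sin r + c 3 * Real.cos r) (by fun_prop) (by fun_prop), pow4_int4, pow4_int4, pow4_int2, pow4_int2,
    pow4_int1, pow4_int1]
  ring

private theorem pow4_s4 : ∫ r in (0 : ℝ)..2 * Real.pi, Real.sin r ^ 4 = 3 * Real.pi / 4 := by
  have h := pow4_int4 1 0
  simp only [one_mul, zero_mul, add_zero, one_pow, ne_eq, OfNat.ofNat_ne_zero, not_false_eq_true,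
    zero_pow, mul_one] at h
  exact h

private theorem pow4_s2 : ∫ r in (0 : ℝ)..2 * Real.pi, Real.sin r ^ 2 = Real.pi := by
  have h := pow4_int2 1 0
  simp only [one_mul, zero_mul, add_zero, one_pow, ne_eq, OfNat.ofNat_ne_zero, not_false_eq_true,
    zero_pow, mul_one] at h
  exact h

/-- `∫ (a sin x₁ + b sin x₂)³ sin x₁ = (3π²/2) a (a² + 2b²)` -/
theorem tint_V0_cube_s1 (a b : ℝ) :
    tint (fun x => (a * Real.sin x.1 + b * Real.sin x.2) ^ 3 * Real.sin x.1) =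
      3 * Real.pi ^ 2 / 2 * a * (a ^ 2 + 2 * b ^ 2) := by
  have h1 : (fun x : ℝ × ℝ => (a * Real.sin x.1 + b * Real.sin x.2) ^ 3 * Real.sin x.1) =
      fun x => ((a ^ 3 * (Real.sin x.1 ^ 4 * 1) + 3 * a ^ 2 * b * (Real.sin x.1 ^ 3 * Real.sin x.2))
      + 3 * a * b ^ 2 * (Real.sin x.1 ^ 2 * Real.sin x.2 ^ 2)) +
      b ^ 3 * (Real.sin x.1 * Real.sin x.2 ^ 3) := by
    funext x; ring
  rw [h1, tint_add (by fun_prop) (by fun_prop), tint_add (by fun_prop) (by fun_prop),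
    tint_add (by fun_prop) (by fun_prop),
    tint_const_mul, tint_const_mul, tint_const_mul, tint_const_mul,
    tint_prod (φ := fun r => Real.sin r ^ 4) (χ := fun _ => 1) (by fun_prop) (by fun_prop),
    tint_prod (φ := fun r => Real.sin r ^ 3) (χ := fun r => Real.sin r) (by fun_prop)
      (by fun_prop),
    tint_prod (φ := fun r => Real.sin r ^ 2) (χ := fun r => Real.sin r ^ 2) (by fun_prop)
      (by fun_prop),
    tint_prod (φ := fun r => Real.sin r) (χ := fun r => Real.sin r ^ 3) (by fun_prop)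
      (by fun_prop), int_one, int_sin, pow4_s4, pow4_s2]
  ring

/-- `∫ (a sin x₁ + b sin x₂)³ sin x₂ = (3π²/2) b (b² + 2a²)` -/
theorem tint_V0_cube_s2 (a b : ℝ) :
    tint (fun x => (a * Real.sin x.1 + b * Real.sin x.2) ^ 3 * Real.sin x.2) =
      3 * Real.pi ^ 2 / 2 * b * (b ^ 2 + 2 * a ^ 2) := by
  have h1 : (fun x : ℝ × ℝ => (a * Real.sin x.1 + b * Real.sin x.2) ^ 3 * Real.sin x.2) =
      fun x => ((b ^ 3 * (1 * Real.sin x.2 ^ 4) + 3 * b ^ 2 * a * (Real.sin x.1 * Real.sin x.2 ^ 3))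
      + 3 * b * a ^ 2 * (Real.sin x.1 ^ 2 * Real.sin x.2 ^ 2)) +
      a ^ 3 * (Real.sin x.1 ^ 3 * Real.sin x.2) := by
    funext x; ring
  rw [h1, tint_add (by fun_prop) (by fun_prop), tint_add (by fun_prop) (by fun_prop),
    tint_add (by fun_prop) (by fun_prop),
    tint_const_mul (b ^ 3), tint_const_mul (3 * b ^ 2 * a), tint_const_mul (3 * b * a ^ 2),
    tint_const_mul (a ^ 3),
    tint_prod (φ := fun _ => 1) (χ := fun r => Real.sin r ^ 4) (by fun_prop) (by fun_prop),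
    tint_prod (φ := fun r => Real.sin r) (χ := fun r => Real.sin r ^ 3) (by fun_prop)
      (by fun_prop),
    tint_prod (φ := fun r => Real.sin r ^ 2) (χ := fun r => Real.sin r ^ 2) (by fun_prop)
      (by fun_prop),
    tint_prod (φ := fun r => Real.sin r ^ 3) (χ := fun r => Real.sin r) (by fun_prop)
      (by fun_prop), int_one, int_sin, pow4_s4, pow4_s2]
  ring

end Pool.Agent.Lib.EI
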