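import Pool.Agent.Lib.EI.RDer
import Pool.Agent.Lib.EI.Pow4

/-!
MODULE Ampl (1.8 h). The amplitudes move only by `O(δ)` up to times of order `1/δ`.

Black boxes: `RR_deriv` (`RDer.lean`), `tint_VV_pow4` (`Pow4.lean`), `Ini.s_le`, `Ini.co_le`, `Ini.w_le`
(`Bnd.lean`), `mvt_bound` (`Time.lean`: `|φ t - φ 0| ≤ C t`).

Proof. Let `B = a + b + M`, `p = co (ψ t)`, `P1 = p0²+p1²`, `P2 = p2²+p3²`, `s = P1 + P2`,
`m4 = ∫ (VV p)⁴ = (3π²/2)(s² + 2 P1 P2)`, `w = lap (rem (ψ t))`, `lap (ψ t) = w - VV p` (`lap_rem`). Then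
`RR ψ t = ∫ V³ (w - V) + ¾ m4 = ∫ V³ w - ¼ m4`, `|∫ V³ w| ≤ 2π (4B)³ (2Mδ)` (`tint_cs`,
`nrm_le_of_bound`, `abs_VV_le`, `Ini.w_le`), also at time `0`. With `|RR ψ t - RR ψ 0| ≤ C₁ δ² t ≤ C₁ δ`
(as `δ t ≤ 1`): `|m4(t) - m4(0)| ≤ C₂ δ`.
`|s(t) - s(0)| ≤ M² δ² ≤ M² δ` (`Ini.s_le`, `s(0) = a²+b²` as `co (ψ 0) = ![a,0,b,0]`, `Ini.co0`),
`|s² - s(0)²| ≤ C₃ δ` (`s ≤ 4B²`). So `|P1 P2 - a² b²| ≤ C₄ δ`. With `y = P1 - P2`,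
`y² = s² - 4 P1 P2`, `y₀ = a² - b² > 0`: `|y² - y₀²| ≤ C₅ δ`; since `y ≥ 0` (hypothesis),
`|y - y₀| = |y² - y₀²| / (y + y₀) ≤ C₅ δ / (a² - b²)`. Finally `P1 = (s+y)/2`, `P2 = (s-y)/2`.
-/

set_option autoImplicit false

open MeasureTheory Set
open scoped ContDiff

namespace Pool.Agent.Lib.EI

namespace AmplAux

theorem RR_form {a b M δ T t : ℝ} {Φ : ℝ × ℝ → ℝ} {ψ : ℝ → ℝ × ℝ → ℝ} (h : Ini a b M δ T Φ ψ)
    (h0 : 0 ≤ t) (hT : t ≤ T) :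
    |RR ψ t + 1 / 4 * tint (fun x => VV (co (ψ t)) x ^ 4)| ≤
      2 * Real.pi * (4 * (a + b + M)) ^ 3 * (2 * M) * δ := by
  have hp : Per (ψ t) := h.sol.tper.per t
  have hw := h.w_le h0 hT
  have hV : Per (VV (co (ψ t))) := per_VV _
  have hr : Per (lap (rem (ψ t))) := (per_rem hp).lap
  have e1 : (fun x => VV (co (ψ t)) x ^ 3 * lap (ψ t) x) =
      fun x => VV (co (ψ t)) x ^ 3 * lap (rem (ψ t)) x - VV (co (ψ t)) x ^ 4 := by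
    funext x
    rw [congrFun (lap_rem hp) x]
    ring
  have hc : Continuous fun x => VV (co (ψ t)) x := hV.continuous
  have hc2 : Continuous fun x => lap (rem (ψ t)) x := hr.continuous
  have e2 : RR ψ t + 1 / 4 * tint (fun x => VV (co (ψ t)) x ^ 4) =
      tint (fun x => VV (co (ψ t)) x ^ 3 * lap (rem (ψ t)) x) := by
    unfold RR
    rw [e1, tint_sub (by fun_prop) (by fun_prop)]
    ring
  rw [e2]
  have hB : ∀ x, |VV (co (ψ t)) x| ≤ 4 * (a + b + M) := abs_VV_le (h.co_le h0 hT)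
  have hB3 : ∀ x, |VV (co (ψ t)) x ^ 3| ≤ (4 * (a + b + M)) ^ 3 := by
    intro x
    rw [abs_pow]
    exact pow_le_pow_left₀ (abs_nonneg _) (hB x) 3
  have hcs := tint_cs (f := fun x => VV (co (ψ t)) x ^ 3) (g := fun x => lap (rem (ψ t)) x)
    (by fun_prop) (by fun_prop)
  have hn := nrm_le_of_bound (f := fun x => VV (co (ψ t)) x ^ 3) (by fun_prop) hB3
  have hM := h.M_nonneg
  have hb := h.hb
  have hab := h.hab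
  calc |tint (fun x => VV (co (ψ t)) x ^ 3 * lap (rem (ψ t)) x)| ≤ _ := hcs
    _ ≤ (2 * Real.pi * (4 * (a + b + M)) ^ 3) * (2 * M * δ) :=
        mul_le_mul hn hw (nrm_nonneg _) (by
          have : 0 ≤ a + b + M := by linarith
          positivity)
    _ = _ := by ring

theorem final_alg {A B a2 b2 m C4 δ : ℝ} (hδ0 : 0 < δ) (hy : 0 < a2 - b2) (hb2 : 0 ≤ b2)
    (hm : 0 ≤ m) (hδ1 : δ ≤ 1)
    (hs : |(A + B) - (a2 + b2)| ≤ m * δ)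
    (hD : |((A + B) ^ 2 + 2 * A * B) - ((a2 + b2) ^ 2 + 2 * a2 * b2)| ≤ C4 * δ)
    (hC4 : 0 ≤ C4) (hAB : B ≤ A) :
    |A - a2| ≤ (m + (3 * m * (2 * (a2 + b2) + m) + 2 * C4) / (a2 - b2)) * δ ∧
    |B - b2| ≤ (m + (3 * m * (2 * (a2 + b2) + m) + 2 * C4) / (a2 - b2)) * δ := by
  set s := A + B with hsd
  set s0 := a2 + b2 with hs0
  have hs0pos : 0 ≤ s0 := by rw [hs0]; linarith
  have hmd : m * δ ≤ m := by nlinarith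
  have h1 : |s + s0| ≤ 2 * s0 + m := by
    rw [abs_le] at hs ⊢
    constructor <;> nlinarith [hs.1, hs.2]
  have h2 : |s ^ 2 - s0 ^ 2| ≤ m * δ * (2 * s0 + m) := by
    have : s ^ 2 - s0 ^ 2 = (s - s0) * (s + s0) := by ring
    rw [this, abs_mul]
    exact mul_le_mul hs h1 (abs_nonneg _) (by positivity)
  have h3 : (A - B) ^ 2 - (a2 - b2) ^ 2 = 3 * (s ^ 2 - s0 ^ 2) -
      2 * ((s ^ 2 + 2 * A * B) - (s0 ^ 2 + 2 * a2 * b2)) := by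
    rw [hsd, hs0]; ring
  have h4 : |(A - B) ^ 2 - (a2 - b2) ^ 2| ≤ (3 * m * (2 * s0 + m) + 2 * C4) * δ := by
    rw [h3]
    rw [abs_le] at h2 hD ⊢
    constructor <;> nlinarith [h2.1, h2.2, hD.1, hD.2]
  have h5 : |(A - B) - (a2 - b2)| ≤ (3 * m * (2 * s0 + m) + 2 * C4) / (a2 - b2) * δ := by
    have e : (A - B) ^ 2 - (a2 - b2) ^ 2 = ((A - B) - (a2 - b2)) * ((A - B) + (a2 - b2)) := by ring
    rw [e, abs_mul] at h4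
    have h6 : a2 - b2 ≤ |(A - B) + (a2 - b2)| := by
      rw [abs_of_nonneg (by linarith)]; linarith
    have h7 : |(A - B) - (a2 - b2)| * (a2 - b2) ≤ (3 * m * (2 * s0 + m) + 2 * C4) * δ :=
      (mul_le_mul_of_nonneg_left h6 (abs_nonneg _)).trans h4
    rw [div_mul_eq_mul_div, le_div_iff₀ hy]
    exact h7
  set K := (3 * m * (2 * s0 + m) + 2 * C4) / (a2 - b2) with hK
  have hA : A - a2 = ((s - s0) + ((A - B) - (a2 - b2))) / 2 := by rw [hsd, hs0]; ring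
  have hB : B - b2 = ((s - s0) - ((A - B) - (a2 - b2))) / 2 := by rw [hsd, hs0]; ring
  have hKpos : 0 ≤ K := by positivity
  have hKd : 0 ≤ K * δ := by positivity
  have hmd0 : 0 ≤ m * δ := by positivity
  rw [abs_le] at hs h5
  constructor
  · rw [hA, abs_le]
    constructor <;> nlinarith [hs.1, hs.2, h5.1, h5.2]
  · rw [hB, abs_le]
    constructor <;> nlinarith [hs.1, hs.2, h5.1, h5.2]

end AmplAux

open AmplAux in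
theorem ampl {a b M : ℝ} (hb : 0 < b) (hab : b < a) (hM : 0 ≤ M) : ∃ C, 0 ≤ C ∧
    ∀ (δ T : ℝ) (Φ : ℝ × ℝ → ℝ) (ψ : ℝ → ℝ × ℝ → ℝ), Ini a b M δ T Φ ψ →
      ∀ t, 0 ≤ t → t ≤ T → δ * t ≤ 1 →
        co (ψ t) 2 ^ 2 + co (ψ t) 3 ^ 2 ≤ co (ψ t) 0 ^ 2 + co (ψ t) 1 ^ 2 →
        |co (ψ t) 0 ^ 2 + co (ψ t) 1 ^ 2 - a ^ 2| ≤ C * δ ∧
          |co (ψ t) 2 ^ 2 + co (ψ t) 3 ^ 2 - b ^ 2| ≤ C * δ := by
  obtain ⟨C1, hC1, hR⟩ := RR_deriv hb hab hM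
  set K1 := 2 * Real.pi * (4 * (a + b + M)) ^ 3 * (2 * M) with hK1
  have hB0 : 0 ≤ a + b + M := by linarith
  have hK1' : 0 ≤ K1 := by positivity
  have hy : 0 < a ^ 2 - b ^ 2 := by nlinarith
  set C4 := 4 * C1 + 8 * K1 with hC4
  have hC4' : 0 ≤ C4 := by positivity
  refine ⟨M ^ 2 + (3 * M ^ 2 * (2 * (a ^ 2 + b ^ 2) + M ^ 2) + 2 * C4) / (a ^ 2 - b ^ 2),
    by positivity, ?_⟩
  intro δ T Φ ψ h t h0 hT hdt hle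
  have hδ0 := h.hδ0
  have hδ1 := h.hδ1
  have hT0 : 0 ≤ T := h0.trans hT
  -- RR
  choose! R' hR' using fun t (h0 : 0 ≤ t) (hT : t ≤ T) => hR δ T Φ ψ h t h0 hT
  have hmv := mvt_bound (φ := RR ψ) (φ' := R') (T := T) (C := C1 * δ ^ 2)
    (fun t h0 hT => (hR' t h0 hT).1) (fun t h0 hT => (hR' t h0 hT).2) t h0 hT
  have hmv2 : |RR ψ t - RR ψ 0| ≤ C1 * δ := by
    refine hmv.trans ?_
    have : C1 * δ ^ 2 * t = C1 * δ * (δ * t) := by ring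
    rw [this]
    calc C1 * δ * (δ * t) ≤ C1 * δ * 1 := mul_le_mul_of_nonneg_left hdt (by positivity)
      _ = C1 * δ := mul_one _
  have hft := RR_form h h0 hT
  have hf0 := RR_form h le_rfl hT0
  rw [← hK1] at hft hf0
  have hm4 : |tint (fun x => VV (co (ψ t)) x ^ 4) - tint (fun x => VV (co (ψ 0)) x ^ 4)| ≤
      C4 * δ := by
    rw [abs_le] at hft hf0 hmv2 ⊢
    rw [hC4]
    constructor <;> nlinarith [hft.1, hft.2, hf0.1, hf0.2, hmv2.1, hmv2.2]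
  rw [tint_VV_pow4, tint_VV_pow4, h.co0] at hm4
  have hpi : 1 ≤ 3 * Real.pi ^ 2 / 2 := by nlinarith [Real.pi_gt_three]
  have hs := h.s_le h0 hT
  rw [Fin.sum_univ_four] at hs
  have hs' : |((co (ψ t) 0 ^ 2 + co (ψ t) 1 ^ 2) + (co (ψ t) 2 ^ 2 + co (ψ t) 3 ^ 2)) -
      (a ^ 2 + b ^ 2)| ≤ M ^ 2 * δ := by
    have e : ((co (ψ t) 0 ^ 2 + co (ψ t) 1 ^ 2) + (co (ψ t) 2 ^ 2 + co (ψ t) 3 ^ 2)) -
      (a ^ 2 + b ^ 2) = (co (ψ t) 0 ^ 2 + co (ψ t) 1 ^ 2 + co (ψ t) 2 ^ 2 + co (ψ t) 3 ^ 2) -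
      (a ^ 2 + b ^ 2) := by ring
    rw [e]
    refine hs.trans ?_
    have : δ ^ 2 ≤ δ := by nlinarith
    exact mul_le_mul_of_nonneg_left this (by positivity)
  have hD : |(((co (ψ t) 0 ^ 2 + co (ψ t) 1 ^ 2) + (co (ψ t) 2 ^ 2 + co (ψ t) 3 ^ 2)) ^ 2 +
      2 * (co (ψ t) 0 ^ 2 + co (ψ t) 1 ^ 2) * (co (ψ t) 2 ^ 2 + co (ψ t) 3 ^ 2)) -
      ((a ^ 2 + b ^ 2) ^ 2 + 2 * a ^ 2 * b ^ 2)| ≤ C4 * δ := by
    refine le_trans ?_ hm4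
    simp only [Matrix.cons_val_zero, Matrix.cons_val_one, Matrix.cons_val]
    have e : 3 * Real.pi ^ 2 / 2 *
        ((co (ψ t) 0 ^ 2 + co (ψ t) 1 ^ 2 + co (ψ t) 2 ^ 2 + co (ψ t) 3 ^ 2) ^ 2 +
          2 * (co (ψ t) 0 ^ 2 + co (ψ t) 1 ^ 2) * (co (ψ t) 2 ^ 2 + co (ψ t) 3 ^ 2)) -
        3 * Real.pi ^ 2 / 2 *
        ((a ^ 2 + 0 ^ 2 + b ^ 2 + 0 ^ 2) ^ 2 + 2 * (a ^ 2 + 0 ^ 2) * (b ^ 2 + 0 ^ 2)) =
        3 * Real.pi ^ 2 / 2 *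
        ((((co (ψ t) 0 ^ 2 + co (ψ t) 1 ^ 2) + (co (ψ t) 2 ^ 2 + co (ψ t) 3 ^ 2)) ^ 2 +
          2 * (co (ψ t) 0 ^ 2 + co (ψ t) 1 ^ 2) * (co (ψ t) 2 ^ 2 + co (ψ t) 3 ^ 2)) -
          ((a ^ 2 + b ^ 2) ^ 2 + 2 * a ^ 2 * b ^ 2)) := by ring
    rw [e, abs_mul, abs_of_nonneg (by positivity : 0 ≤ 3 * Real.pi ^ 2 / 2)]
    exact le_mul_of_one_le_left (abs_nonneg _) hpi
  exact final_alg hδ0 hy (by positivity) (by positivity) hδ1 hs' hD hC4' hle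

end Pool.Agent.Lib.EI
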