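import Pool.Agent.Lib.EI.TrigDense

/-!
`Δ + 1` has dense range in the orthogonal complement of the constants and the lowest modes.
-/

set_option autoImplicit false

open MeasureTheory Set
open scoped ContDiff

namespace Pool.Agent.Lib.EI

private theorem hasFDerivAt_kx (k : ℤ × ℤ) (x : ℝ × ℝ) :
    HasFDerivAt (kx k) ((k.1 : ℝ) • ContinuousLinearMap.fst ℝ ℝ ℝ +
      (k.2 : ℝ) • ContinuousLinearMap.snd ℝ ℝ ℝ) x := by
  have h1 : HasFDerivAt (fun x : ℝ × ℝ => (k.1 : ℝ) * x.1)
      ((k.1 : ℝ) • ContinuousLinearMap.fst ℝ ℝ ℝ) x := hasFDerivAt_fst.const_mul _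
  have h2 : HasFDerivAt (fun x : ℝ × ℝ => (k.2 : ℝ) * x.2)
      ((k.2 : ℝ) • ContinuousLinearMap.snd ℝ ℝ ℝ) x := hasFDerivAt_snd.const_mul _
  exact h1.add h2

private theorem contDiff_kx (k : ℤ × ℤ) : ContDiff ℝ ∞ (kx k) := by
  unfold kx
  fun_prop

private theorem kx_per1 (k : ℤ × ℤ) (x y : ℝ) :
    kx k (x + 2 * Real.pi, y) = kx k (x, y) + (k.1 : ℝ) * (2 * Real.pi) := by
  unfold kx; ring

private theorem kx_per2 (k : ℤ × ℤ) (x y : ℝ) :
    kx k (x, y + 2 * Real.pi) = kx k (x, y) + (k.2 : ℝ) * (2 * Real.pi) := by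
  unfold kx; ring

private theorem per_ck (k : ℤ × ℤ) : Per fun x => Real.cos (kx k x) :=
  ⟨Real.contDiff_cos.comp (contDiff_kx k),
    fun x y => by simp only [kx_per1, Real.cos_add_int_mul_two_pi],
    fun x y => by simp only [kx_per2, Real.cos_add_int_mul_two_pi]⟩

private theorem per_sk (k : ℤ × ℤ) : Per fun x => Real.sin (kx k x) :=
  ⟨Real.contDiff_sin.comp (contDiff_kx k),
    fun x y => by simp only [kx_per1, Real.sin_add_int_mul_two_pi],
    fun x y => by simp only [kx_per2, Real.sin_add_int_mul_two_pi]⟩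

private theorem d1_ck (k : ℤ × ℤ) :
    d1 (fun x => Real.cos (kx k x)) = fun x => (-(k.1 : ℝ)) * Real.sin (kx k x) := by
  funext x
  unfold d1
  rw [((hasFDerivAt_kx k x).cos).fderiv]
  simp
  ring

private theorem d2_ck (k : ℤ × ℤ) :
    d2 (fun x => Real.cos (kx k x)) = fun x => (-(k.2 : ℝ)) * Real.sin (kx k x) := by
  funext x
  unfold d2
  rw [((hasFDerivAt_kx k x).cos).fderiv]
  simp
  ring

private theorem d1_sk (k : ℤ × ℤ) :
    d1 (fun x => Real.sin (kx k x)) = fun x => (k.1 : ℝ) * Real.cos (kx k x) := by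
  funext x
  unfold d1
  rw [((hasFDerivAt_kx k x).sin).fderiv]
  simp
  ring

private theorem d2_sk (k : ℤ × ℤ) :
    d2 (fun x => Real.sin (kx k x)) = fun x => (k.2 : ℝ) * Real.cos (kx k x) := by
  funext x
  unfold d2
  rw [((hasFDerivAt_kx k x).sin).fderiv]
  simp
  ring

private theorem lap_ck (k : ℤ × ℤ) : lap (fun x => Real.cos (kx k x)) =
    fun x => (-((k.1 : ℝ) ^ 2 + (k.2 : ℝ) ^ 2)) * Real.cos (kx k x) := by
  funext x
  unfold lap
  rw [d1_ck, d2_ck, d1_const_mul _ (per_sk k), d2_const_mul _ (per_sk k), d1_sk, d2_sk]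
  ring

private theorem lap_sk (k : ℤ × ℤ) : lap (fun x => Real.sin (kx k x)) =
    fun x => (-((k.1 : ℝ) ^ 2 + (k.2 : ℝ) ^ 2)) * Real.sin (kx k x) := by
  funext x
  unfold lap
  rw [d1_sk, d2_sk, d1_const_mul _ (per_ck k), d2_const_mul _ (per_ck k), d1_ck, d2_ck]
  ring

private theorem lap_zero' (c : ℝ) : lap (fun _ => c) = fun _ => 0 := by
  funext x
  unfold lap
  rw [d1_const, d2_const, d1_const, d2_const]
  simp

/-- Eigenfunctions with eigenvalue at most `-2` are orthogonal to the constants and the lowest modes. -/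
private theorem mode {h : ℝ × ℝ → ℝ} (hh : Per h) {l : ℝ} (hl : 2 ≤ l)
    (hlap : lap h = fun x => (-l) * h x) :
    tint h = 0 ∧ ∀ i, tint (fun x => h x * bas i x) = 0 := by
  constructor
  · have h1 := tint_lap_symm hh (per_const 1)
    rw [lap_zero', hlap] at h1
    simp only [mul_zero, mul_one] at h1
    rw [tint_zero, tint_const_mul] at h1
    have h2 : (-l) ≠ 0 := by linarith
    rcases mul_eq_zero.1 h1.symm with h3 | h3
    · exact absurd h3 h2
    · exact h3
  · intro i
    have h1 := tint_lap_symm hh (per_bas i)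
    rw [lap_bas, hlap] at h1
    have h2 : (fun x => h x * -bas i x) = fun x => (-1) * (h x * bas i x) := by
      funext x; ring
    have h3 : (fun x => (-l) * h x * bas i x) = fun x => (-l) * (h x * bas i x) := by
      funext x; ring
    rw [h2, h3, tint_const_mul, tint_const_mul] at h1
    have h4 : (l - 1) * tint (fun x => h x * bas i x) = 0 := by linarith
    rcases mul_eq_zero.1 h4 with h5 | h5
    · linarith
    · exact h5

/-- The low coefficients of a function orthogonal to the constants and the lowest modes vanish. -/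
private theorem low {H : ℝ × ℝ → ℝ} (h0 : tint H = 0)
    (h1 : ∀ i, tint (fun x => H x * bas i x) = 0) (k : ℤ × ℤ) (hk : k.1 ^ 2 + k.2 ^ 2 < 2) :
    fcA H k = 0 ∧ fcB H k = 0 := by
  obtain ⟨a, b⟩ := k
  have hk' : a ^ 2 + b ^ 2 < 2 := hk
  have ha : -1 ≤ a ∧ a ≤ 1 := by constructor <;> nlinarith [sq_nonneg b]
  have hb : -1 ≤ b ∧ b ≤ 1 := by constructor <;> nlinarith [sq_nonneg a]
  have e0 : tint (fun y => H y * Real.sin y.1) = 0 := h1 0
  have e1 : tint (fun y => H y * Real.cos y.1) = 0 := h1 1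
  have e2 : tint (fun y => H y * Real.sin y.2) = 0 := h1 2
  have e3 : tint (fun y => H y * Real.cos y.2) = 0 := h1 3
  have hz := tint_zero
  unfold fcA fcB kx
  obtain ⟨ha1, ha2⟩ := ha
  obtain ⟨hb1, hb2⟩ := hb
  interval_cases a <;> interval_cases b <;>
    first
    | (exfalso; norm_num at hk'; done)
    | (simp [Real.sin_neg, Real.cos_neg, mul_neg, tint_neg, h0, e0, e1, e2, e3, hz])

private theorem build {H : ℝ × ℝ → ℝ} (h0 : tint H = 0)
    (h1 : ∀ i, tint (fun x => H x * bas i x) = 0) (s : Finset (ℤ × ℤ)) :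
    ∃ Φ : ℝ × ℝ → ℝ, Per Φ ∧ tint Φ = 0 ∧ (∀ i, tint (fun x => Φ x * bas i x) = 0) ∧
      ∀ x, lap Φ x + Φ x =
        ∑ k ∈ s, (fcA H k * Real.cos (kx k x) + fcB H k * Real.sin (kx k x)) := by
  classical
  induction s using Finset.induction_on with
  | empty =>
    refine ⟨fun _ => 0, per_const 0, tint_zero, fun i => ?_, fun x => ?_⟩
    · simp only [zero_mul]
      exact tint_zero
    · rw [lap_zero']
      simp
  | insert k s hks ih =>
    obtain ⟨Φ, hP, hT, hB, hE⟩ := ih
    by_cases hk : k.1 ^ 2 + k.2 ^ 2 < 2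
    · obtain ⟨hA0, hB0⟩ := low h0 h1 k hk
      refine ⟨Φ, hP, hT, hB, fun x => ?_⟩
      rw [Finset.sum_insert hks, hE x, hA0, hB0]
      ring
    · push Not at hk
      set l : ℝ := (k.1 : ℝ) ^ 2 + (k.2 : ℝ) ^ 2 with hl
      have hl2 : 2 ≤ l := by
        rw [hl]
        exact_mod_cast hk
      set h : ℝ × ℝ → ℝ := fun x => fcA H k * Real.cos (kx k x) + fcB H k * Real.sin (kx k x)
        with hh
      have hper : Per h := ((per_ck k).const_mul _).add ((per_sk k).const_mul _)
      have hlap : lap h = fun x => (-l) * h x := by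
        rw [hh, lap_add ((per_ck k).const_mul _) ((per_sk k).const_mul _),
          lap_const_mul _ (per_ck k), lap_const_mul _ (per_sk k), lap_ck, lap_sk]
        funext x
        ring
      obtain ⟨hm0, hm1⟩ := mode hper hl2 hlap
      refine ⟨fun x => (1 / (1 - l)) * h x + Φ x, (hper.const_mul _).add hP, ?_, fun i => ?_,
        fun x => ?_⟩
      · rw [tint_add (hper.const_mul _).continuous hP.continuous, tint_const_mul, hm0, hT]
        ring
      · have e1 : (fun x => ((1 / (1 - l)) * h x + Φ x) * bas i x) =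
            fun x => (1 / (1 - l)) * (h x * bas i x) + Φ x * bas i x := by
          funext x; ring
        rw [e1, tint_add ((hper.mul (per_bas i)).const_mul _).continuous
          (hP.mul (per_bas i)).continuous, tint_const_mul, hm1 i, hB i]
        ring
      · rw [lap_add (hper.const_mul _) hP, lap_const_mul _ hper, hlap, Finset.sum_insert hks,
          ← hE x]
        have h3 : (1 - l) ≠ 0 := by linarith
        have h4 : (1 / (1 - l)) * ((-l) * h x) + lap Φ x + ((1 / (1 - l)) * h x + Φ x) =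
            (1 / (1 - l)) * ((1 - l) * h x) + (lap Φ x + Φ x) := by ring
        have h5 : (1 / (1 - l)) * ((1 - l) * h x) = h x := by
          field_simp
        show (1 / (1 - l)) * ((-l) * h x) + lap Φ x + ((1 / (1 - l)) * h x + Φ x) = _
        rw [h4, h5]

theorem approx {H : ℝ × ℝ → ℝ} (hH : Per H) (h0 : tint H = 0)
    (h1 : ∀ i, tint (fun x => H x * bas i x) = 0) {κ : ℝ} (hκ : 0 < κ) :
    ∃ Φ : ℝ × ℝ → ℝ, Per Φ ∧ tint Φ = 0 ∧ (∀ i, tint (fun x => Φ x * bas i x) = 0) ∧
      nrm (fun x => lap Φ x + Φ x - H x) ≤ κ := by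
  obtain ⟨s, hs⟩ := trig_dense hH hκ
  obtain ⟨Φ, hP, hT, hB, hE⟩ := build h0 h1 s
  refine ⟨Φ, hP, hT, hB, ?_⟩
  have e : (fun x => lap Φ x + Φ x - H x) = fun x => -(H x -
      ∑ k ∈ s, (fcA H k * Real.cos (kx k x) + fcB H k * Real.sin (kx k x))) := by
    funext x
    rw [hE x]
    ring
  rw [e]
  have e2 := nrm_neg (fun x => H x -
      ∑ k ∈ s, (fcA H k * Real.cos (kx k x) + fcB H k * Real.sin (kx k x)))
  rw [e2]
  exact hs

end Pool.Agent.Lib.EI
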