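import Pool.Agent.Lib.EI.Gap

/-!
MODULE Bnd (2 h). Consequences of the conservation laws for solutions starting at `V0 + δ Φ`
(structure `Ini` in `TRem.lean`).

Tools: `Cons.lean` (`Sol.quad`: `∫ ω (ω + ψ)` conserved, i.e. `qf (ψ t) = qf (ψ 0)`; `Sol.enstrophy`;
`Sol.energy`), `Gap.lean` (black box), `Trig.lean` (`co`, `VV`, `rem`, `tint_VV_VV`, `tint_rem_VV`,
`lap_rem`, `tint_lap_bas`), `TRem.lean` (`V0_eq_VV`, `nrm_br_le`, `gn_sq`, ...).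

Proofs (with `ω = lap (ψ t)`, `p = co (ψ t)`, `r = rem (ψ t)`, `w = lap r`, so `ω = w - VV p`).
* `psi0`: `ψ 0 = fun x => VV ![a,0,b,0] x + δ * Φ x`; `co` is linear in `f`, `co (VV c) = c` (`co_VV`),
  `co Φ = 0` (`orth_rem`). Then `rem (ψ 0) = δ Φ`, and (`qf_eq`, `qf_const_mul`) `qf (ψ 0) = δ² qf Φ`:
  by `qf_eq` `qf (ψ 0) = ∫ lap (δΦ) (lap (ψ 0) + ψ 0) = ∫ lap (δΦ) (lap (δΦ) + δΦ)` by `g_eq`.
* `q_le`: `qf (ψ t) = qf (ψ 0) = δ² qf Φ ≤ δ² ‖lap Φ‖² ≤ δ² M²` (`orth_qf`).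
* `w_le`: `‖w‖² ≤ 2 q ≤ 2 M² δ² ≤ (2 M δ)²`; `grad_le`, `g_le` from `gap_grad`, `gap_g`.
* `s_le`: `∫ ω² = 2π² Σ p_i² + ‖w‖²` (`∫ VV p * w = 0`: `∫ VV c * lap r = ∫ lap (VV c) * r = -∫ VV c * r = 0`
  by `tint_rem_VV`; `tint_VV_VV`), conserved; so
  `2π² (s(t) - s(0)) = ‖w(0)‖² - ‖w(t)‖²`, both in `[0, 2 M² δ²]`, hence `|s(t) - s(0)| ≤ M² δ²`
  (`π² ≥ 1`), `s(0) = a² + b²`.
* `co_le`: `p_i² ≤ s ≤ a² + b² + M² δ² ≤ (a + b + M)²`.
* `gpsi_le`: `gn (ψ t) = gn (ψ 0)` (`Sol.energy`) `≤ gn V0 + δ gn Φ` or directly: `gn (ψ 0)² = -∫ ψ₀ Δψ₀ =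
  2π²(a²+b²) + δ² gn Φ² ≤ 2π² (a²+b²) + M² ≤ 25 (a+b+M)²` (`orth_grad`; cross terms vanish by orthogonality).
* `dco_le`: `2π² co (ψ s) i = ∫ ψ bas_i = -∫ ω bas_i` (`tint_lap_bas`), whose derivative at `t ∈ [0,T]` is
  `-∫ (ω+ψ) {ψ, bas_i}` (`Sol.pair` with `k = bas i`). By uniqueness of derivatives (`hasDerivAt_co`)
  `2π² co (dt ψ t) i = -∫ (ω+ψ) {ψ, bas_i}`, and
  `|..| ≤ ‖ω+ψ‖ ‖{ψ, bas_i}‖ ≤ (M δ) (2 gn (ψ t)) ≤ 10 (a+b+M) M δ` by `nrm_br_le` (`M := 1`); `10 ≤ 2π²`.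
* `dco_int`: `mvt_bound` (`Time.lean`) with `dco_le`.
-/

set_option autoImplicit false

open MeasureTheory Set
open scoped ContDiff

namespace Pool.Agent.Lib.EI

variable {a b M δ T t : ℝ} {Φ : ℝ × ℝ → ℝ} {ψ : ℝ → ℝ × ℝ → ℝ}

theorem Ini.M_nonneg (h : Ini a b M δ T Φ ψ) : 0 ≤ M := (nrm_nonneg _).trans h.hM

namespace BndAux

theorem le_of_sq {x y : ℝ} (hy : 0 ≤ y) (h : x ^ 2 ≤ y ^ 2) : x ≤ y :=
  (le_abs_self x).trans (abs_le_of_sq_le_sq h hy)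

theorem psi0 (h : Ini a b M δ T Φ ψ) : ψ 0 = fun x => VV ![a, 0, b, 0] x + δ * Φ x := by
  funext x
  rw [h.init x, V0_eq_VV]

/-- The enstrophy in terms of the low modes and the remainder. -/
theorem enst {f : ℝ × ℝ → ℝ} (hf : Per f) : tint (fun x => lap f x ^ 2) =
    2 * Real.pi ^ 2 * (∑ i, co f i ^ 2) + nrm (lap (rem f)) ^ 2 := by
  have hV := per_VV (co f)
  have hr := (per_rem hf).lap
  have h1 : (fun x => lap f x ^ 2) = fun x =>
      (VV (co f) x * VV (co f) x + lap (rem f) x ^ 2) - 2 * (VV (co f) x * lap (rem f) x) := by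
    funext x
    have := congrFun (lap_rem hf) x
    have h2 : lap f x = lap (rem f) x - VV (co f) x := by linarith
    rw [h2]
    ring
  have h3 : tint (fun x => VV (co f) x * lap (rem f) x) = 0 := by
    rw [tint_lap_symm hV (per_rem hf), lap_VV]
    have h4 : (fun x => -VV (co f) x * rem f x) = fun x => -(VV (co f) x * rem f x) := by
      funext x; ring
    rw [h4, tint_neg, tint_rem_VV hf, neg_zero]
  rw [h1, tint_sub ((hV.mul hV).add (hr.pow 2)).continuous ((hV.mul hr).const_mul 2).continuous,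
    tint_add (hV.mul hV).continuous (hr.pow 2).continuous, tint_const_mul, h3, tint_VV_VV, nrm_sq]
  have h5 : (∑ i, co f i * co f i) = ∑ i, co f i ^ 2 :=
    Finset.sum_congr rfl fun i _ => by ring
  rw [h5]
  ring

theorem gn_eq {f : ℝ × ℝ → ℝ} (hf : Per f) :
    gn f ^ 2 = tint (fun x => lap f x ^ 2) - qf f := by
  have h1 : qf f = tint (fun x => lap f x ^ 2) + tint (fun x => f x * lap f x) := by
    unfold qf
    rw [← tint_add (hf.lap.pow 2).continuous (hf.mul hf.lap).continuous]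
    congr 1
    funext x
    ring
  rw [h1, tint_mul_lap hf hf, gn_sq]
  have h2 : (fun x => d1 f x * d1 f x + d2 f x * d2 f x) = fun x => d1 f x ^ 2 + d2 f x ^ 2 := by
    funext x; ring
  rw [h2]
  ring

theorem d1_bas_le (i : Fin 4) (x : ℝ × ℝ) : |d1 (bas i) x| ≤ 1 := by
  fin_cases i
  · have e : d1 (bas 0) x = Real.cos x.1 := congrFun d1_s1 x
    show |d1 (bas 0) x| ≤ 1
    rw [e]; exact Real.abs_cos_le_one _
  · have e : d1 (bas 1) x = -Real.sin x.1 := congrFun d1_c1 x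
    show |d1 (bas 1) x| ≤ 1
    rw [e, abs_neg]; exact Real.abs_sin_le_one _
  · have e : d1 (bas 2) x = 0 := congrFun d1_s2 x
    show |d1 (bas 2) x| ≤ 1
    rw [e]; simp
  · have e : d1 (bas 3) x = 0 := congrFun d1_c2 x
    show |d1 (bas 3) x| ≤ 1
    rw [e]; simp

theorem d2_bas_le (i : Fin 4) (x : ℝ × ℝ) : |d2 (bas i) x| ≤ 1 := by
  fin_cases i
  · have e : d2 (bas 0) x = 0 := congrFun d2_s1 x
    show |d2 (bas 0) x| ≤ 1
    rw [e]; simp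
  · have e : d2 (bas 1) x = 0 := congrFun d2_c1 x
    show |d2 (bas 1) x| ≤ 1
    rw [e]; simp
  · have e : d2 (bas 2) x = Real.cos x.2 := congrFun d2_s2 x
    show |d2 (bas 2) x| ≤ 1
    rw [e]; exact Real.abs_cos_le_one _
  · have e : d2 (bas 3) x = -Real.sin x.2 := congrFun d2_c2 x
    show |d2 (bas 3) x| ≤ 1
    rw [e, abs_neg]; exact Real.abs_sin_le_one _

end BndAux

open BndAux

theorem Ini.co0 (h : Ini a b M δ T Φ ψ) : co (ψ 0) = ![a, 0, b, 0] := by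
  have h1 := co_VV ![a, 0, b, 0]
  funext i
  have h2 : co (ψ 0) i = co (VV ![a, 0, b, 0]) i := by
    unfold co
    rw [psi0 h]
    have h3 : (fun x => (VV ![a, 0, b, 0] x + δ * Φ x) * bas i x) =
        fun x => VV ![a, 0, b, 0] x * bas i x + δ * (Φ x * bas i x) := by
      funext x; ring
    rw [h3, tint_add ((per_VV _).mul (per_bas i)).continuous
      ((h.perΦ.mul (per_bas i)).const_mul δ).continuous, tint_const_mul, h.orthΦ i, mul_zero,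
      add_zero]
  rw [h2, h1]

theorem Ini.rem0 (h : Ini a b M δ T Φ ψ) : rem (ψ 0) = fun x => δ * Φ x := by
  funext x
  unfold rem
  rw [h.co0, congrFun (psi0 h) x]
  ring

theorem Ini.q0 (h : Ini a b M δ T Φ ψ) : qf (ψ 0) = δ ^ 2 * qf Φ := by
  have hp := h.sol.tper.per 0
  rw [← qf_const_mul δ h.perΦ, qf_eq hp]
  unfold qf
  congr 1
  funext x
  rw [← g_eq hp x, h.rem0]

theorem Ini.qt (h : Ini a b M δ T Φ ψ) (h0 : 0 ≤ t) (hT : t ≤ T) : qf (ψ t) = δ ^ 2 * qf Φ := by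
  rw [← h.q0]
  exact h.sol.quad h0 hT

theorem Ini.q_le (h : Ini a b M δ T Φ ψ) (h0 : 0 ≤ t) (hT : t ≤ T) : qf (ψ t) ≤ M ^ 2 * δ ^ 2 := by
  rw [h.qt h0 hT]
  have h1 := orth_qf h.perΦ h.meanΦ h.orthΦ
  have h2 : nrm (lap Φ) ^ 2 ≤ M ^ 2 := pow_le_pow_left₀ (nrm_nonneg _) h.hM 2
  have h3 : qf Φ ≤ M ^ 2 := h1.trans h2
  have h4 := mul_le_mul_of_nonneg_left h3 (sq_nonneg δ)
  linarith

theorem Ini.w_le (h : Ini a b M δ T Φ ψ) (h0 : 0 ≤ t) (hT : t ≤ T) :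
    nrm (lap (rem (ψ t))) ≤ 2 * M * δ := by
  have hM := h.M_nonneg
  have hδ := h.hδ0.le
  refine le_of_sq (by positivity) ?_
  have h1 := gap_w (h.sol.tper.per t) (h.sol.mean t)
  have h2 := h.q_le h0 hT
  have h3 : 0 ≤ M ^ 2 * δ ^ 2 := by positivity
  nlinarith

theorem Ini.grad_le (h : Ini a b M δ T Φ ψ) (h0 : 0 ≤ t) (hT : t ≤ T) :
    gn (rem (ψ t)) ≤ M * δ := by
  have hM := h.M_nonneg
  have hδ := h.hδ0.le
  refine le_of_sq (by positivity) ?_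
  have h1 := gap_grad (h.sol.tper.per t) (h.sol.mean t)
  have h2 := h.q_le h0 hT
  rw [mul_pow]
  linarith

theorem Ini.g_le (h : Ini a b M δ T Φ ψ) (h0 : 0 ≤ t) (hT : t ≤ T) :
    nrm (fun x => lap (ψ t) x + ψ t x) ≤ M * δ := by
  have hM := h.M_nonneg
  have hδ := h.hδ0.le
  refine le_of_sq (by positivity) ?_
  have h1 := gap_g (h.sol.tper.per t) (h.sol.mean t)
  have h2 := h.q_le h0 hT
  rw [mul_pow]
  linarith

theorem Ini.s_le (h : Ini a b M δ T Φ ψ) (h0 : 0 ≤ t) (hT : t ≤ T) :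
    |(∑ i, co (ψ t) i ^ 2) - (a ^ 2 + b ^ 2)| ≤ M ^ 2 * δ ^ 2 := by
  have hTn : (0 : ℝ) ≤ T := h0.trans hT
  have h1 := enst (h.sol.tper.per t)
  have h2 := enst (h.sol.tper.per 0)
  have h3 := h.sol.enstrophy h0 hT
  have h4 : (∑ i, co (ψ 0) i ^ 2) = a ^ 2 + b ^ 2 := by
    rw [h.co0]
    simp [Fin.sum_univ_four]
  rw [h4] at h2
  have h5 := gap_w (h.sol.tper.per t) (h.sol.mean t)
  have h6 := gap_w (h.sol.tper.per 0) (h.sol.mean 0)
  have h7 := h.q_le h0 hT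
  have h8 := h.q_le le_rfl hTn
  have h9 := sq_nonneg (nrm (lap (rem (ψ t))))
  have h10 := sq_nonneg (nrm (lap (rem (ψ 0))))
  have hpi : 1 ≤ Real.pi ^ 2 := by nlinarith [Real.pi_gt_three]
  set S := ∑ i, co (ψ t) i ^ 2 with hS
  set D := S - (a ^ 2 + b ^ 2) with hD
  have h11 : 2 * Real.pi ^ 2 * D = nrm (lap (rem (ψ 0))) ^ 2 - nrm (lap (rem (ψ t))) ^ 2 := by
    rw [hD]; linarith
  rw [abs_le]
  have hMd : 0 ≤ M ^ 2 * δ ^ 2 := by positivity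
  constructor
  · by_contra hc
    push Not at hc
    have : 2 * Real.pi ^ 2 * D < -(2 * (M ^ 2 * δ ^ 2)) := by nlinarith
    linarith
  · by_contra hc
    push Not at hc
    have : 2 * (M ^ 2 * δ ^ 2) < 2 * Real.pi ^ 2 * D := by nlinarith
    linarith

theorem Ini.co_le (h : Ini a b M δ T Φ ψ) (h0 : 0 ≤ t) (hT : t ≤ T) (i : Fin 4) :
    |co (ψ t) i| ≤ a + b + M := by
  have hM := h.M_nonneg
  have hb := h.hb
  have ha : 0 < a := h.hb.trans h.hab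
  have h1 := (abs_le.1 (h.s_le h0 hT)).2
  have h2 : co (ψ t) i ^ 2 ≤ ∑ i, co (ψ t) i ^ 2 :=
    Finset.single_le_sum (f := fun i => co (ψ t) i ^ 2) (fun j _ => sq_nonneg _)
      (Finset.mem_univ i)
  have h3 : δ ^ 2 ≤ 1 := pow_le_one₀ h.hδ0.le h.hδ1
  have h4 : M ^ 2 * δ ^ 2 ≤ M ^ 2 := by nlinarith [sq_nonneg M]
  refine abs_le_of_sq_le_sq ?_ (by positivity)
  have h5 : (a + b + M) ^ 2 = a ^ 2 + b ^ 2 + M ^ 2 + 2 * (a * b + a * M + b * M) := by ring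
  have h6 : 0 ≤ a * b + a * M + b * M := by positivity
  linarith

theorem Ini.gpsi_le (h : Ini a b M δ T Φ ψ) (h0 : 0 ≤ t) (hT : t ≤ T) :
    gn (ψ t) ≤ 5 * (a + b + M) := by
  have hM := h.M_nonneg
  have hb := h.hb
  have ha : 0 < a := h.hb.trans h.hab
  have h1 := (abs_le.1 (h.s_le h0 hT)).2
  have h2 := enst (h.sol.tper.per t)
  have h3 := gn_eq (h.sol.tper.per t)
  have h4 := qf_nonneg (h.sol.tper.per t) (h.sol.mean t)
  have h5 := gap_w (h.sol.tper.per t) (h.sol.mean t)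
  have h6 := h.q_le h0 hT
  have h7 : δ ^ 2 ≤ 1 := pow_le_one₀ h.hδ0.le h.hδ1
  have h8 : M ^ 2 * δ ^ 2 ≤ M ^ 2 := by nlinarith [sq_nonneg M]
  have hpi : 2 * Real.pi ^ 2 ≤ 20 := by nlinarith [Real.pi_lt_d2, Real.pi_pos]
  have hS : 0 ≤ ∑ i, co (ψ t) i ^ 2 := Finset.sum_nonneg fun j _ => sq_nonneg _
  have h9 : 2 * Real.pi ^ 2 * (∑ i, co (ψ t) i ^ 2) ≤ 20 * (a ^ 2 + b ^ 2 + M ^ 2) := by
    calc 2 * Real.pi ^ 2 * (∑ i, co (ψ t) i ^ 2) ≤ 20 * (∑ i, co (ψ t) i ^ 2) :=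
          mul_le_mul_of_nonneg_right hpi hS
      _ ≤ 20 * (a ^ 2 + b ^ 2 + M ^ 2) := by linarith
  refine le_of_sq (by positivity) ?_
  have h10 : (5 * (a + b + M)) ^ 2 =
      25 * (a ^ 2 + b ^ 2 + M ^ 2) + 50 * (a * b + a * M + b * M) := by ring
  have h11 : 0 ≤ a * b + a * M + b * M := by positivity
  nlinarith [sq_nonneg a, sq_nonneg b, sq_nonneg M]

theorem Ini.dco_le (h : Ini a b M δ T Φ ψ) (h0 : 0 ≤ t) (hT : t ≤ T) (i : Fin 4) :
    |co (dt ψ t) i| ≤ (a + b + M) * M * δ := by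
  have hM := h.M_nonneg
  have hb := h.hb
  have ha : 0 < a := h.hb.trans h.hab
  have hδ := h.hδ0.le
  have hp := h.sol.tper.per t
  have h1 := h.sol.pair (per_bas i) h0 hT
  have h2 : (fun s => tint fun x => bas i x * lap (ψ s) x) =
      fun s => (-(2 * Real.pi ^ 2)) * co (ψ s) i := by
    funext s
    have h3 : (fun x => bas i x * lap (ψ s) x) = fun x => lap (ψ s) x * bas i x := by
      funext x; ring
    rw [h3, tint_lap_bas (h.sol.tper.per s) i]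
    unfold co
    have : (2 * Real.pi ^ 2) ≠ 0 := by positivity
    field_simp
  rw [h2] at h1
  have h4 := (hasDerivAt_co h.sol.tper i t).const_mul (-(2 * Real.pi ^ 2))
  have h5 := h1.unique h4
  have h6 := tint_cs (f := fun x => lap (ψ t) x + ψ t x) (g := br (ψ t) (bas i))
    (hp.lap.add hp).continuous (hp.br (per_bas i)).continuous
  have h7 := nrm_br_le hp (per_bas i) (d1_bas_le i) (d2_bas_le i)
  have h8 := h.g_le h0 hT
  have h9 := h.gpsi_le h0 hT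
  rw [h5] at h6
  have h10 : nrm (fun x => lap (ψ t) x + ψ t x) * nrm (br (ψ t) (bas i)) ≤
      (M * δ) * (10 * (a + b + M)) :=
    mul_le_mul h8 (h7.trans (by linarith)) (nrm_nonneg _) (by positivity)
  have h11 : |-(2 * Real.pi ^ 2) * co (dt ψ t) i| = 2 * Real.pi ^ 2 * |co (dt ψ t) i| := by
    rw [abs_mul, abs_neg, abs_of_nonneg (by positivity : (0 : ℝ) ≤ 2 * Real.pi ^ 2)]
  rw [h11] at h6
  have hpi : 10 ≤ 2 * Real.pi ^ 2 := by nlinarith [Real.pi_gt_three]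
  have h12 : 10 * |co (dt ψ t) i| ≤ 2 * Real.pi ^ 2 * |co (dt ψ t) i| :=
    mul_le_mul_of_nonneg_right hpi (abs_nonneg _)
  nlinarith

theorem Ini.dco_int (h : Ini a b M δ T Φ ψ) (h0 : 0 ≤ t) (hT : t ≤ T) (i : Fin 4) :
    |co (ψ t) i - co (ψ 0) i| ≤ (a + b + M) * M * δ * t :=
  mvt_bound (φ := fun s => co (ψ s) i) (φ' := fun s => co (dt ψ s) i)
    (fun s _ _ => hasDerivAt_co h.sol.tper i s) (fun _ hs0 hsT => h.dco_le hs0 hsT i) t h0 hT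

end Pool.Agent.Lib.EI
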