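import Pool.Agent.Lib.EI.Defs

/-!
Calculus on the torus, without time.
-/

set_option autoImplicit false

open MeasureTheory Set
open scoped ContDiff

namespace Pool.Agent.Lib.EI

variable {f g h : ℝ × ℝ → ℝ}

/-! ### The class `Per` -/

theorem Per.continuous (hf : Per f) : Continuous f := hf.smooth.continuous

theorem Per.differentiable (hf : Per f) : Differentiable ℝ f :=
  hf.smooth.differentiable (by simp)

theorem Per.diffAt (hf : Per f) (x : ℝ × ℝ) : DifferentiableAt ℝ f x := hf.differentiable x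

theorem per_const (c : ℝ) : Per fun _ => c := ⟨contDiff_const, fun _ _ => rfl, fun _ _ => rfl⟩

theorem Per.add (hf : Per f) (hg : Per g) : Per fun x => f x + g x :=
  ⟨hf.smooth.add hg.smooth, fun x y => by simp only [hf.per1, hg.per1],
    fun x y => by simp only [hf.per2, hg.per2]⟩

theorem Per.sub (hf : Per f) (hg : Per g) : Per fun x => f x - g x :=
  ⟨hf.smooth.sub hg.smooth, fun x y => by simp only [hf.per1, hg.per1],
    fun x y => by simp only [hf.per2, hg.per2]⟩

theorem Per.mul (hf : Per f) (hg : Per g) : Per fun x => f x * g x :=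
  ⟨hf.smooth.mul hg.smooth, fun x y => by simp only [hf.per1, hg.per1],
    fun x y => by simp only [hf.per2, hg.per2]⟩

theorem Per.neg (hf : Per f) : Per fun x => -f x :=
  ⟨hf.smooth.neg, fun x y => by simp only [hf.per1], fun x y => by simp only [hf.per2]⟩

theorem Per.const_mul (c : ℝ) (hf : Per f) : Per fun x => c * f x := (per_const c).mul hf

theorem Per.pow (hf : Per f) (n : ℕ) : Per fun x => f x ^ n :=
  ⟨hf.smooth.pow n, fun x y => by simp only [hf.per1], fun x y => by simp only [hf.per2]⟩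

theorem Per.comp {φ : ℝ → ℝ} (hφ : ContDiff ℝ ∞ φ) (hf : Per f) : Per fun x => φ (f x) :=
  ⟨hφ.comp hf.smooth, fun x y => by simp only [hf.per1], fun x y => by simp only [hf.per2]⟩

theorem Per.shift (hf : Per f) (c : ℝ × ℝ) : Per fun x => f (x + c) := by
  refine ⟨hf.smooth.comp (contDiff_id.add contDiff_const), fun x y => ?_, fun x y => ?_⟩
  · show f (x + 2 * Real.pi + c.1, y + c.2) = f (x + c.1, y + c.2)
    rw [← hf.per1 (x + c.1)]; congr 2; ring
  · show f (x + c.1, y + 2 * Real.pi + c.2) = f (x + c.1, y + c.2)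
    rw [← hf.per2 (x + c.1) (y + c.2)]; congr 2; ring

theorem Per.swap (hf : Per f) : Per fun x => f (x.2, x.1) :=
  ⟨hf.smooth.comp (contDiff_snd.prodMk contDiff_fst), fun _ _ => hf.per2 _ _, fun _ _ => hf.per1 _ _⟩

theorem per_s1 : Per fun x => Real.sin x.1 :=
  ⟨Real.contDiff_sin.comp contDiff_fst, fun x _ => Real.sin_add_two_pi x, fun _ _ => rfl⟩

theorem per_c1 : Per fun x => Real.cos x.1 :=
  ⟨Real.contDiff_cos.comp contDiff_fst, fun x _ => Real.cos_add_two_pi x, fun _ _ => rfl⟩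

theorem per_s2 : Per fun x => Real.sin x.2 :=
  ⟨Real.contDiff_sin.comp contDiff_snd, fun _ _ => rfl, fun _ y => Real.sin_add_two_pi y⟩

theorem per_c2 : Per fun x => Real.cos x.2 :=
  ⟨Real.contDiff_cos.comp contDiff_snd, fun _ _ => rfl, fun _ y => Real.cos_add_two_pi y⟩

theorem per_s12 : Per fun x => Real.sin (x.1 + x.2) := by
  refine ⟨Real.contDiff_sin.comp (contDiff_fst.add contDiff_snd), fun x y => ?_, fun x y => ?_⟩
  · show Real.sin (x + 2 * Real.pi + y) = Real.sin (x + y)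
    rw [← Real.sin_add_two_pi (x + y)]; congr 1; ring
  · show Real.sin (x + (y + 2 * Real.pi)) = Real.sin (x + y)
    rw [← Real.sin_add_two_pi (x + y)]; congr 1; ring

theorem Per.d1 (hf : Per f) : Per (EI.d1 f) := by
  refine ⟨(hf.smooth.fderiv_right (m := ∞) (by simp)).clm_apply contDiff_const, fun x y => ?_,
    fun x y => ?_⟩
  · have h1 : (fun z : ℝ × ℝ => f (z + ((2 * Real.pi, 0) : ℝ × ℝ))) = f := by
      funext z
      show f (z.1 + 2 * Real.pi, z.2 + 0) = f z
      rw [add_zero, hf.per1]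
    have h2 := fderiv_comp_add_right (𝕜 := ℝ) (f := f) (x := (x, y)) ((2 * Real.pi, 0) : ℝ × ℝ)
    rw [h1] at h2
    show fderiv ℝ f (x + 2 * Real.pi, y) (1, 0) = fderiv ℝ f (x, y) (1, 0)
    rw [h2]
    simp
  · have h1 : (fun z : ℝ × ℝ => f (z + ((0, 2 * Real.pi) : ℝ × ℝ))) = f := by
      funext z
      show f (z.1 + 0, z.2 + 2 * Real.pi) = f z
      rw [add_zero, hf.per2]
    have h2 := fderiv_comp_add_right (𝕜 := ℝ) (f := f) (x := (x, y)) ((0, 2 * Real.pi) : ℝ × ℝ)
    rw [h1] at h2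
    show fderiv ℝ f (x, y + 2 * Real.pi) (1, 0) = fderiv ℝ f (x, y) (1, 0)
    rw [h2]
    simp

theorem Per.d2 (hf : Per f) : Per (EI.d2 f) := by
  refine ⟨(hf.smooth.fderiv_right (m := ∞) (by simp)).clm_apply contDiff_const, fun x y => ?_,
    fun x y => ?_⟩
  · have h1 : (fun z : ℝ × ℝ => f (z + ((2 * Real.pi, 0) : ℝ × ℝ))) = f := by
      funext z
      show f (z.1 + 2 * Real.pi, z.2 + 0) = f z
      rw [add_zero, hf.per1]
    have h2 := fderiv_comp_add_right (𝕜 := ℝ) (f := f) (x := (x, y)) ((2 * Real.pi, 0) : ℝ × ℝ)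
    rw [h1] at h2
    show fderiv ℝ f (x + 2 * Real.pi, y) (0, 1) = fderiv ℝ f (x, y) (0, 1)
    rw [h2]
    simp
  · have h1 : (fun z : ℝ × ℝ => f (z + ((0, 2 * Real.pi) : ℝ × ℝ))) = f := by
      funext z
      show f (z.1 + 0, z.2 + 2 * Real.pi) = f z
      rw [add_zero, hf.per2]
    have h2 := fderiv_comp_add_right (𝕜 := ℝ) (f := f) (x := (x, y)) ((0, 2 * Real.pi) : ℝ × ℝ)
    rw [h1] at h2
    show fderiv ℝ f (x, y + 2 * Real.pi) (0, 1) = fderiv ℝ f (x, y) (0, 1)
    rw [h2]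
    simp

theorem Per.lap (hf : Per f) : Per (EI.lap f) := hf.d1.d1.add hf.d2.d2

theorem Per.br (hf : Per f) (hg : Per g) : Per (EI.br f g) := (hf.d1.mul hg.d2).sub (hf.d2.mul hg.d1)

/-! ### Rules of differentiation -/

theorem d1_const (c : ℝ) : d1 (fun _ => c) = fun _ => 0 := by funext x; simp [d1]

theorem d2_const (c : ℝ) : d2 (fun _ => c) = fun _ => 0 := by funext x; simp [d2]

theorem d1_add (hf : Per f) (hg : Per g) : d1 (fun x => f x + g x) = fun x => d1 f x + d1 g x := by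
  funext x
  unfold d1
  rw [fderiv_fun_add (hf.diffAt x) (hg.diffAt x)]
  simp

theorem d2_add (hf : Per f) (hg : Per g) : d2 (fun x => f x + g x) = fun x => d2 f x + d2 g x := by
  funext x
  unfold d2
  rw [fderiv_fun_add (hf.diffAt x) (hg.diffAt x)]
  simp

theorem d1_sub (hf : Per f) (hg : Per g) : d1 (fun x => f x - g x) = fun x => d1 f x - d1 g x := by
  funext x
  unfold d1
  rw [fderiv_fun_sub (hf.diffAt x) (hg.diffAt x)]
  simp

theorem d2_sub (hf : Per f) (hg : Per g) : d2 (fun x => f x - g x) = fun x => d2 f x - d2 g x := by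
  funext x
  unfold d2
  rw [fderiv_fun_sub (hf.diffAt x) (hg.diffAt x)]
  simp

theorem d1_neg : d1 (fun x => -f x) = fun x => -d1 f x := by
  funext x
  unfold d1
  rw [fderiv_fun_neg]
  simp

theorem d2_neg : d2 (fun x => -f x) = fun x => -d2 f x := by
  funext x
  unfold d2
  rw [fderiv_fun_neg]
  simp

theorem d1_mul (hf : Per f) (hg : Per g) :
    d1 (fun x => f x * g x) = fun x => d1 f x * g x + f x * d1 g x := by
  funext x
  unfold d1
  rw [fderiv_fun_mul (hf.diffAt x) (hg.diffAt x)]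
  simp
  ring

theorem d2_mul (hf : Per f) (hg : Per g) :
    d2 (fun x => f x * g x) = fun x => d2 f x * g x + f x * d2 g x := by
  funext x
  unfold d2
  rw [fderiv_fun_mul (hf.diffAt x) (hg.diffAt x)]
  simp
  ring

theorem d1_const_mul (c : ℝ) (hf : Per f) : d1 (fun x => c * f x) = fun x => c * d1 f x := by
  rw [d1_mul (per_const c) hf, d1_const]
  funext x
  simp

theorem d2_const_mul (c : ℝ) (hf : Per f) : d2 (fun x => c * f x) = fun x => c * d2 f x := by
  rw [d2_mul (per_const c) hf, d2_const]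
  funext x
  simp

theorem d1_comp {φ : ℝ → ℝ} (hφ : Differentiable ℝ φ) (hf : Per f) :
    d1 (fun x => φ (f x)) = fun x => deriv φ (f x) * d1 f x := by
  funext x
  unfold d1
  have h1 : HasFDerivAt (fun x => φ (f x)) (deriv φ (f x) • fderiv ℝ f x) x :=
    (hφ (f x)).hasDerivAt.comp_hasFDerivAt x (hf.diffAt x).hasFDerivAt
  rw [h1.fderiv]
  simp

theorem d2_comp {φ : ℝ → ℝ} (hφ : Differentiable ℝ φ) (hf : Per f) :
    d2 (fun x => φ (f x)) = fun x => deriv φ (f x) * d2 f x := by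
  funext x
  unfold d2
  have h1 : HasFDerivAt (fun x => φ (f x)) (deriv φ (f x) • fderiv ℝ f x) x :=
    (hφ (f x)).hasDerivAt.comp_hasFDerivAt x (hf.diffAt x).hasFDerivAt
  rw [h1.fderiv]
  simp

theorem d1_shift (c : ℝ × ℝ) : d1 (fun x => f (x + c)) = fun x => d1 f (x + c) := by
  funext x
  unfold d1
  rw [fderiv_comp_add_right]

theorem d2_shift (c : ℝ × ℝ) : d2 (fun x => f (x + c)) = fun x => d2 f (x + c) := by
  funext x
  unfold d2
  rw [fderiv_comp_add_right]

theorem d1_swap (hf : Per f) : d1 (fun x => f (x.2, x.1)) = fun x => d2 f (x.2, x.1) := by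
  funext x
  unfold d1 d2
  have h1 : HasFDerivAt (fun x : ℝ × ℝ => (x.2, x.1))
      ((ContinuousLinearMap.snd ℝ ℝ ℝ).prod (ContinuousLinearMap.fst ℝ ℝ ℝ)) x :=
    (hasFDerivAt_snd).prodMk (hasFDerivAt_fst)
  have h2 : HasFDerivAt (fun x : ℝ × ℝ => f (x.2, x.1)) _ x :=
    (hf.diffAt (x.2, x.1)).hasFDerivAt.comp x h1
  rw [h2.fderiv]
  simp

theorem d2_swap (hf : Per f) : d2 (fun x => f (x.2, x.1)) = fun x => d1 f (x.2, x.1) := by
  funext x
  unfold d1 d2
  have h1 : HasFDerivAt (fun x : ℝ × ℝ => (x.2, x.1))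
      ((ContinuousLinearMap.snd ℝ ℝ ℝ).prod (ContinuousLinearMap.fst ℝ ℝ ℝ)) x :=
    (hasFDerivAt_snd).prodMk (hasFDerivAt_fst)
  have h2 : HasFDerivAt (fun x : ℝ × ℝ => f (x.2, x.1)) _ x :=
    (hf.diffAt (x.2, x.1)).hasFDerivAt.comp x h1
  rw [h2.fderiv]
  simp

theorem d1_of_fst {φ : ℝ → ℝ} (hφ : Differentiable ℝ φ) :
    d1 (fun x => φ x.1) = fun x => deriv φ x.1 := by
  funext x
  unfold d1
  have h1 : HasFDerivAt (fun x : ℝ × ℝ => φ x.1) (deriv φ x.1 • ContinuousLinearMap.fst ℝ ℝ ℝ) x :=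
    (hφ x.1).hasDerivAt.comp_hasFDerivAt x hasFDerivAt_fst
  rw [h1.fderiv]
  simp

theorem d2_of_fst {φ : ℝ → ℝ} (hφ : Differentiable ℝ φ) : d2 (fun x => φ x.1) = fun _ => 0 := by
  funext x
  unfold d2
  have h1 : HasFDerivAt (fun x : ℝ × ℝ => φ x.1) (deriv φ x.1 • ContinuousLinearMap.fst ℝ ℝ ℝ) x :=
    (hφ x.1).hasDerivAt.comp_hasFDerivAt x hasFDerivAt_fst
  rw [h1.fderiv]
  simp

theorem d1_of_snd {φ : ℝ → ℝ} (hφ : Differentiable ℝ φ) : d1 (fun x => φ x.2) = fun _ => 0 := by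
  funext x
  unfold d1
  have h1 : HasFDerivAt (fun x : ℝ × ℝ => φ x.2) (deriv φ x.2 • ContinuousLinearMap.snd ℝ ℝ ℝ) x :=
    (hφ x.2).hasDerivAt.comp_hasFDerivAt x hasFDerivAt_snd
  rw [h1.fderiv]
  simp

theorem d2_of_snd {φ : ℝ → ℝ} (hφ : Differentiable ℝ φ) :
    d2 (fun x => φ x.2) = fun x => deriv φ x.2 := by
  funext x
  unfold d2
  have h1 : HasFDerivAt (fun x : ℝ × ℝ => φ x.2) (deriv φ x.2 • ContinuousLinearMap.snd ℝ ℝ ℝ) x :=
    (hφ x.2).hasDerivAt.comp_hasFDerivAt x hasFDerivAt_snd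
  rw [h1.fderiv]
  simp

theorem d1_s1 : d1 (fun x => Real.sin x.1) = fun x => Real.cos x.1 := by
  rw [d1_of_fst Real.differentiable_sin, Real.deriv_sin]

theorem d2_s1 : d2 (fun x => Real.sin x.1) = fun _ => 0 := d2_of_fst Real.differentiable_sin

theorem d1_c1 : d1 (fun x => Real.cos x.1) = fun x => -Real.sin x.1 := by
  rw [d1_of_fst Real.differentiable_cos, Real.deriv_cos']

theorem d2_c1 : d2 (fun x => Real.cos x.1) = fun _ => 0 := d2_of_fst Real.differentiable_cos

theorem d1_s2 : d1 (fun x => Real.sin x.2) = fun _ => 0 := d1_of_snd Real.differentiable_sin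

theorem d2_s2 : d2 (fun x => Real.sin x.2) = fun x => Real.cos x.2 := by
  rw [d2_of_snd Real.differentiable_sin, Real.deriv_sin]

theorem d1_c2 : d1 (fun x => Real.cos x.2) = fun _ => 0 := d1_of_snd Real.differentiable_cos

theorem d2_c2 : d2 (fun x => Real.cos x.2) = fun x => -Real.sin x.2 := by
  rw [d2_of_snd Real.differentiable_cos, Real.deriv_cos']

/-- Mixed derivatives commute. -/
theorem d1_d2_comm (hf : Per f) : d1 (d2 f) = d2 (d1 f) := by
  funext x
  have h1 : DifferentiableAt ℝ (fderiv ℝ f) x :=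
    (hf.smooth.fderiv_right (m := 1) (by norm_cast)).differentiable (by simp) x
  have h2 : fderiv ℝ (fun y => fderiv ℝ f y (0, 1)) x (1, 0) = fderiv ℝ (fderiv ℝ f) x (1, 0) (0, 1) := by
    rw [fderiv_clm_apply h1 (differentiableAt_const _)]
    simp
  have h3 : fderiv ℝ (fun y => fderiv ℝ f y (1, 0)) x (0, 1) = fderiv ℝ (fderiv ℝ f) x (0, 1) (1, 0) := by
    rw [fderiv_clm_apply h1 (differentiableAt_const _)]
    simp
  show fderiv ℝ (fun y => fderiv ℝ f y (0, 1)) x (1, 0) = fderiv ℝ (fun y => fderiv ℝ f y (1, 0)) x (0, 1)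
  rw [h2, h3]
  have hs : IsSymmSndFDerivAt ℝ f x :=
    (hf.smooth.contDiffAt).isSymmSndFDerivAt (by simp only [minSmoothness_of_isRCLikeNormedField]; norm_cast)
  exact hs _ _

theorem lap_add (hf : Per f) (hg : Per g) : lap (fun x => f x + g x) = fun x => lap f x + lap g x := by
  funext x
  unfold lap
  rw [d1_add hf hg, d2_add hf hg, d1_add hf.d1 hg.d1, d2_add hf.d2 hg.d2]
  ring

theorem lap_sub (hf : Per f) (hg : Per g) : lap (fun x => f x - g x) = fun x => lap f x - lap g x := by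
  funext x
  unfold lap
  rw [d1_sub hf hg, d2_sub hf hg, d1_sub hf.d1 hg.d1, d2_sub hf.d2 hg.d2]
  ring

theorem lap_const_mul (c : ℝ) (hf : Per f) : lap (fun x => c * f x) = fun x => c * lap f x := by
  funext x
  unfold lap
  rw [d1_const_mul c hf, d2_const_mul c hf, d1_const_mul c hf.d1, d2_const_mul c hf.d2]
  ring

theorem lap_s1 : lap (fun x => Real.sin x.1) = fun x => -Real.sin x.1 := by
  funext x
  unfold lap
  rw [d1_s1, d2_s1, d1_c1, d2_const]
  simp

theorem lap_c1 : lap (fun x => Real.cos x.1) = fun x => -Real.cos x.1 := by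
  funext x
  unfold lap
  rw [d1_c1, d2_c1, d2_const, d1_neg, d1_s1]
  simp

theorem lap_s2 : lap (fun x => Real.sin x.2) = fun x => -Real.sin x.2 := by
  funext x
  unfold lap
  rw [d1_s2, d2_s2, d2_c2, d1_const]
  simp

theorem lap_c2 : lap (fun x => Real.cos x.2) = fun x => -Real.cos x.2 := by
  funext x
  unfold lap
  rw [d1_c2, d2_c2, d1_const, d2_neg, d2_s2]
  simp

end Pool.Agent.Lib.EI
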