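import Pool.Agent.Lib.EI.Zon

/-!
Integrals over the lines `x₁ + x₂ = s`: derivatives, periodicity.
Differentiation under the integral: `hasDerivAt_integral_of_dominated_loc_of_deriv_le` as in `hasDerivAt_tint` (`Time.lean`),
or Mathlib results on parametric interval integrals of smooth functions.
-/

set_option autoImplicit false

open MeasureTheory Set intervalIntegral
open scoped ContDiff Topology

namespace Pool.Agent.Lib.EI

variable {f g : ℝ × ℝ → ℝ}

private theorem cont_line (hf : Continuous f) (s : ℝ) : Continuous fun r : ℝ => f (r, s - r) :=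
  hf.comp (by fun_prop)

/-- (differentiate under the integral) -/
theorem hasDerivAt_zon_space (hf : Per f) (s : ℝ) : HasDerivAt (zon f) (zon (d2 f) s) s := by
  obtain ⟨M, hM0, hM⟩ := hf.d2.bounded
  refine (intervalIntegral.hasDerivAt_integral_of_dominated_loc_of_deriv_le (𝕜 := ℝ)
    (μ := volume) (a := 0) (b := 2 * Real.pi) (F := fun s r => f (r, s - r))
    (F' := fun s r => d2 f (r, s - r)) (x₀ := s) (bound := fun _ => M)
    (s := univ) Filter.univ_mem ?_ ?_ ?_ ?_ ?_ ?_).2
  · exact Filter.Eventually.of_forall fun s => (cont_line hf.continuous s).aestronglyMeasurable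
  · exact (cont_line hf.continuous s).intervalIntegrable _ _
  · exact (cont_line hf.d2.continuous s).aestronglyMeasurable
  · exact Filter.Eventually.of_forall fun r _ s _ => hM _
  · exact intervalIntegrable_const
  · refine Filter.Eventually.of_forall fun r _ s _ => ?_
    have h2 : HasDerivAt (fun s : ℝ => ((r, s - r) : ℝ × ℝ)) (0, 1) s :=
      (hasDerivAt_const s r).prodMk ((hasDerivAt_id s).sub_const r)
    exact (hf.diffAt (r, s - r)).hasFDerivAt.comp_hasDerivAt s h2

theorem hasDerivAt_zon_time {F : ℝ → ℝ × ℝ → ℝ} (hF : TPer F) (s t : ℝ) :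
    HasDerivAt (fun τ => zon (F τ) s) (zon (dt F t) s) t := by
  have hc : Continuous fun z : ℝ × ℝ => dt F z.1 (z.2, s - z.2) :=
    hF.dt.smooth.continuous.comp (f := fun z : ℝ × ℝ => ((z.1, z.2, s - z.2) : ℝ × ℝ × ℝ))
      (by fun_prop)
  have hK : IsCompact (Icc (t - 1) (t + 1) ×ˢ Icc (0 : ℝ) (2 * Real.pi)) :=
    isCompact_Icc.prod isCompact_Icc
  obtain ⟨M, hM⟩ := (hK.image hc.norm).bddAbove
  refine (intervalIntegral.hasDerivAt_integral_of_dominated_loc_of_deriv_le (𝕜 := ℝ)
    (μ := volume) (a := 0) (b := 2 * Real.pi) (F := fun τ r => F τ (r, s - r))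
    (F' := fun τ r => dt F τ (r, s - r)) (x₀ := t) (bound := fun _ => M)
    (s := Ioo (t - 1) (t + 1)) (Ioo_mem_nhds (by linarith) (by linarith)) ?_ ?_ ?_ ?_ ?_ ?_).2
  · exact Filter.Eventually.of_forall fun τ =>
      (cont_line (hF.per τ).continuous s).aestronglyMeasurable
  · exact (cont_line (hF.per t).continuous s).intervalIntegrable _ _
  · exact (cont_line (hF.dt.per t).continuous s).aestronglyMeasurable
  · refine Filter.Eventually.of_forall fun r hr τ hτ => ?_
    rw [uIoc_of_le (by positivity)] at hr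
    exact hM ⟨(τ, r), ⟨⟨hτ.1.le, hτ.2.le⟩, ⟨hr.1.le, hr.2⟩⟩, rfl⟩
  · exact intervalIntegrable_const
  · exact Filter.Eventually.of_forall fun r _ τ _ => hF.hasDerivAt τ (r, s - r)

theorem zon_add (hf : Per f) (hg : Per g) (s : ℝ) :
    zon (fun x => f x + g x) s = zon f s + zon g s :=
  intervalIntegral.integral_add ((cont_line hf.continuous s).intervalIntegrable _ _)
    ((cont_line hg.continuous s).intervalIntegrable _ _)

theorem zon_sub (hf : Per f) (hg : Per g) (s : ℝ) :
    zon (fun x => f x - g x) s = zon f s - zon g s :=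
  intervalIntegral.integral_sub ((cont_line hf.continuous s).intervalIntegrable _ _)
    ((cont_line hg.continuous s).intervalIntegrable _ _)

theorem zon_const_mul (c : ℝ) (f : ℝ × ℝ → ℝ) (s : ℝ) : zon (fun x => c * f x) s = c * zon f s :=
  intervalIntegral.integral_const_mul c _

/-- Periodicity; substitute nothing, only `f (r, s + 2π - r) = f (r, s - r)`. -/
theorem zon_periodic (hf : Per f) (s : ℝ) : zon f (s + 2 * Real.pi) = zon f s := by
  unfold zon
  refine intervalIntegral.integral_congr fun r _ => ?_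
  show f (r, s + 2 * Real.pi - r) = f (r, s - r)
  rw [← hf.per2 r (s - r)]
  congr 2
  ring

/-- `∫ (d1 f - d2 f) (r, s - r) dr = [f (r, s - r)] = 0` by periodicity -/
theorem zon_d1 (hf : Per f) (s : ℝ) : zon (d1 f) s = zon (d2 f) s := by
  have h := zon_sub hf.d1 hf.d2 s
  have h0 : zon (fun x => d1 f x - d2 f x) s = 0 := by
    unfold zon
    have h1 : ∀ r ∈ uIcc (0 : ℝ) (2 * Real.pi),
        HasDerivAt (fun r => f (r, s - r)) (d1 f (r, s - r) - d2 f (r, s - r)) r := by
      intro r _
      have h2 : HasDerivAt (fun r : ℝ => ((r, s - r) : ℝ × ℝ)) (1, -1) r :=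
        (hasDerivAt_id r).prodMk ((hasDerivAt_id r).const_sub s)
      have h3 := (hf.diffAt (r, s - r)).hasFDerivAt.comp_hasDerivAt r h2
      have h4 : fderiv ℝ f (r, s - r) (1, -1) = d1 f (r, s - r) - d2 f (r, s - r) := by
        unfold d1 d2
        rw [← map_sub]
        congr 1
        simp
      rw [h4] at h3
      exact h3
    rw [integral_eq_sub_of_hasDerivAt h1
      ((cont_line (hf.d1.sub hf.d2).continuous s).intervalIntegrable _ _)]
    have h5 := hf.per1 0 (s - 2 * Real.pi)
    have h6 := hf.per2 0 (s - 2 * Real.pi)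
    rw [zero_add] at h5
    rw [h5, ← h6]
    have h7 : s - 2 * Real.pi + 2 * Real.pi = s - 0 := by ring
    rw [h7, sub_self]
  rw [h0] at h
  linarith

/-- `zon (lap f) = 2 zon (d2 (d2 f))`: apply `zon_d1` to `d1 f` and `d2 f`, and `d1_d2_comm`. -/
theorem zon_lap (hf : Per f) (s : ℝ) : zon (lap f) s = 2 * zon (d2 (d2 f)) s := by
  have h1 : zon (lap f) s = zon (d1 (d1 f)) s + zon (d2 (d2 f)) s := zon_add hf.d1.d1 hf.d2.d2 s
  rw [h1, zon_d1 hf.d1, ← d1_d2_comm hf, zon_d1 hf.d2]
  ring

/-- (substitution `r ↦ r + s`, periodicity) -/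
theorem zon_odd (hf : Per f) (hsym : ∀ x : ℝ × ℝ, f (-x.2, -x.1) = -f x) (s : ℝ) :
    zon f (-s) = -zon f s := by
  have hp : Function.Periodic (fun r => f (r, s - r)) (2 * Real.pi) := by
    intro r
    show f (r + 2 * Real.pi, s - (r + 2 * Real.pi)) = f (r, s - r)
    rw [hf.per1, ← hf.per2 r (s - (r + 2 * Real.pi))]
    congr 2
    ring
  have h1 : (∫ r in (0 : ℝ)..2 * Real.pi, f (r + s, s - (r + s))) =
      ∫ r in (0 : ℝ)..2 * Real.pi, f (r, s - r) := by
    rw [intervalIntegral.integral_comp_add_right (fun r => f (r, s - r)), zero_add,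
      add_comm (2 * Real.pi) s, hp.intervalIntegral_add_eq s 0, zero_add]
  unfold zon
  rw [← h1, ← intervalIntegral.integral_neg]
  refine intervalIntegral.integral_congr fun r _ => ?_
  show f (r, -s - r) = -f (r + s, s - (r + s))
  rw [← hsym]
  congr 2 <;> simp <;> ring

end Pool.Agent.Lib.EI
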