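import Pool.Agent.Lib.EI.Zon

/-!
Integrals over the lines `x₁ + x₂ = s`: Fubini and Cauchy-Schwarz.
-/

set_option autoImplicit false

open MeasureTheory Set intervalIntegral
open scoped ContDiff Topology

namespace Pool.Agent.Lib.EI

variable {f g : ℝ × ℝ → ℝ}

private theorem zb_shift {φ : ℝ → ℝ} (hφ : Function.Periodic φ (2 * Real.pi)) (c : ℝ) :
    ∫ x in (0 : ℝ)..2 * Real.pi, φ (x + c) = ∫ x in (0 : ℝ)..2 * Real.pi, φ x := by
  rw [intervalIntegral.integral_comp_add_right, zero_add, add_comm (2 * Real.pi) c,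
    hφ.intervalIntegral_add_eq c 0, zero_add]

/-- (substitution `x₂ = s - x₁` in the inner integral, periodicity, Fubini) -/
theorem tint_zon {φ : ℝ → ℝ} (hφ : Continuous φ) (hper : ∀ s, φ (s + 2 * Real.pi) = φ s)
    (hf : Per f) :
    tint (fun x => φ (x.1 + x.2) * f x) = ∫ s in (0 : ℝ)..2 * Real.pi, φ s * zon f s := by
  have hfc := hf.continuous
  have hc : Continuous fun x : ℝ × ℝ => φ (x.1 + x.2) * f x := by fun_prop
  rw [tint_eq hc]
  have h1 : (∫ x in (0 : ℝ)..2 * Real.pi, ∫ y in (0 : ℝ)..2 * Real.pi, φ (x + y) * f (x, y)) =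
      ∫ x in (0 : ℝ)..2 * Real.pi, ∫ s in (0 : ℝ)..2 * Real.pi, φ s * f (x, s - x) := by
    refine intervalIntegral.integral_congr fun x _ => ?_
    have h2 := zb_shift (φ := fun y => φ (x + y) * f (x, y)) (fun y => by
      show φ (x + (y + 2 * Real.pi)) * f (x, y + 2 * Real.pi) = φ (x + y) * f (x, y)
      rw [hf.per2, ← add_assoc, hper]) (-x)
    show (∫ y in (0 : ℝ)..2 * Real.pi, φ (x + y) * f (x, y)) =
      ∫ s in (0 : ℝ)..2 * Real.pi, φ s * f (x, s - x)
    rw [← h2]
    refine intervalIntegral.integral_congr fun s _ => ?_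
    show φ (x + (s + -x)) * f (x, s + -x) = φ s * f (x, s - x)
    rw [show x + (s + -x) = s by ring, ← sub_eq_add_neg]
  show (∫ x in (0 : ℝ)..2 * Real.pi, ∫ y in (0 : ℝ)..2 * Real.pi, φ (x + y) * f (x, y)) = _
  rw [h1]
  have h3 : (∫ x in (0 : ℝ)..2 * Real.pi, ∫ s in (0 : ℝ)..2 * Real.pi, φ s * f (x, s - x)) =
      ∫ s in (0 : ℝ)..2 * Real.pi, ∫ x in (0 : ℝ)..2 * Real.pi, φ s * f (x, s - x) := by
    apply intervalIntegral_intervalIntegral_swap
    have hc2 : Continuous (Function.uncurry fun x s : ℝ => φ s * f (x, s - x)) := by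
      unfold Function.uncurry
      fun_prop
    exact (hc2.continuousOn.integrableOn_compact (isCompact_uIcc.prod isCompact_uIcc)).mono_set
      (prod_mono uIoc_subset_uIcc uIoc_subset_uIcc)
  rw [h3]
  refine intervalIntegral.integral_congr fun s _ => ?_
  show (∫ x in (0 : ℝ)..2 * Real.pi, φ s * f (x, s - x)) = φ s * zon f s
  rw [intervalIntegral.integral_const_mul]
  rfl

private theorem zb_cont (hf : Per f) : Continuous (zon f) := by
  have hfc := hf.continuous
  unfold zon
  apply intervalIntegral.continuous_parametric_intervalIntegral_of_continuous'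
  unfold Function.uncurry
  fun_prop

private theorem zb_cs (hf : Per f) (s : ℝ) :
    zon f s ^ 2 ≤ 2 * Real.pi * zon (fun x => f x ^ 2) s := by
  have hfc := hf.continuous
  have hpi := Real.pi_pos
  set m : ℝ := zon f s / (2 * Real.pi) with hm
  have h0 : 0 ≤ ∫ r in (0 : ℝ)..2 * Real.pi, (f (r, s - r) - m) ^ 2 :=
    intervalIntegral.integral_nonneg (by positivity) fun r _ => sq_nonneg _
  have h1 : (fun r : ℝ => (f (r, s - r) - m) ^ 2) =
      fun r : ℝ => f (r, s - r) ^ 2 - ((2 * m) * f (r, s - r) - m ^ 2) := by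
    funext r; ring
  have hc1 : Continuous fun r : ℝ => f (r, s - r) ^ 2 := by fun_prop
  have hc2 : Continuous fun r : ℝ => (2 * m) * f (r, s - r) := by fun_prop
  have hc3 : Continuous fun r : ℝ => (2 * m) * f (r, s - r) - m ^ 2 := by fun_prop
  rw [h1, intervalIntegral.integral_sub (hc1.intervalIntegrable _ _)
    (hc3.intervalIntegrable _ _), intervalIntegral.integral_sub (hc2.intervalIntegrable _ _)
    (continuous_const.intervalIntegrable _ _), intervalIntegral.integral_const_mul,
    intervalIntegral.integral_const] at h0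
  have h2 : (∫ r in (0 : ℝ)..2 * Real.pi, f (r, s - r) ^ 2) = zon (fun x => f x ^ 2) s := rfl
  have h3 : (∫ r in (0 : ℝ)..2 * Real.pi, f (r, s - r)) = zon f s := rfl
  rw [h2, h3, sub_zero, smul_eq_mul] at h0
  have h4 : zon f s = m * (2 * Real.pi) := by
    rw [hm]; field_simp
  rw [h4] at h0 ⊢
  nlinarith

/-- Cauchy-Schwarz: `(zon f s)² ≤ 2π ∫ f(r, s - r)² dr`, then `tint_zon` with `φ = 1`. -/
theorem zon_sq (hf : Per f) :
    ∫ s in (0 : ℝ)..2 * Real.pi, zon f s ^ 2 ≤ 2 * Real.pi * tint (fun x => f x ^ 2) := by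
  have hf2 : Per fun x => f x ^ 2 := hf.pow 2
  have h1 := tint_zon (φ := fun _ => 1) continuous_const (fun _ => rfl) hf2
  simp only [one_mul] at h1
  rw [h1, ← intervalIntegral.integral_const_mul]
  apply intervalIntegral.integral_mono_on (by positivity)
  · exact ((zb_cont hf).pow 2).intervalIntegrable _ _
  · exact ((zb_cont hf2).const_mul _ |>.intervalIntegrable _ _)
  · intro s _
    exact zb_cs hf s

end Pool.Agent.Lib.EI
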