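import Pool.Agent.Lib.EI.Cons
import Pool.Agent.Lib.EI.ZonA
import Pool.Agent.Lib.EI.ZonB

/-!
For solutions that are odd under `(x₁, x₂) ↦ (-x₂, -x₁)` the circulation along the line
`x₁ + x₂ = 0` is conserved.

PROOF. By `hasDerivAt_zon_time` (for `fun s => d2 (ψ s)`) and `dt_d2` the derivative of `zon (d2 (ψ t)) 0`
is `zon (d2 (dt ψ t)) 0`; it has to be shown that it is `0` for `0 ≤ t ≤ T` (then `const_of_deriv`).
Fix `t`, `P = ψ t`, `ω = lap P`, `Q = dt ψ t`, `m = (d1 P - d2 P) * ω` (all `Per`). As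
`br P ω = d2 (d1 P * ω) - d1 (d2 P * ω)` (`d1_d2_comm`), `zon_d1` gives `zon (br P ω) = zon (d2 m)`, which is the derivative of
`zon m` (`hasDerivAt_zon_space`). By `Sol.vort` and `zon_lap`: `2 zon (d2 (d2 Q)) = zon (lap Q) = -zon (br P ω)`.
So the function `s ↦ 2 zon (d2 Q) s + zon m s` has derivative `0` and is a constant `c`. Its integral
over `[0, 2π]` is `2 (zon Q (2π) - zon Q 0) + tint m = 0 + 0`: the first by `zon_periodic`, the second since
`tint (d1 P * lap P) = 0` and `tint (d2 P * lap P) = 0` (`d1 P * lap P = d1 ((d1 P)²/2 - (d2 P)²/2) + d2 (d1 P * d2 P)`, `tint_d1`, `tint_d2`;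
similarly for the other). So `c = 0` and `2 zon (d2 Q) 0 = -zon m 0 = 0` because `ω (r, -r) = 0`: the symmetry
`P (-x.2, -x.1) = -P x` passes to `ω = lap P` (as in `Refl.lean`), and `(r, -r)` is a fixed point of the reflection.
-/

set_option autoImplicit false

open MeasureTheory Set
open scoped ContDiff

namespace Pool.Agent.Lib.EI

private theorem hasFDerivAt_refl (x : ℝ × ℝ) :
    HasFDerivAt (fun x : ℝ × ℝ => (-x.2, -x.1))
      ((-ContinuousLinearMap.snd ℝ ℝ ℝ).prod (-ContinuousLinearMap.fst ℝ ℝ ℝ)) x :=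
  (hasFDerivAt_snd.neg).prodMk (hasFDerivAt_fst.neg)

private theorem d1_reflC {f : ℝ × ℝ → ℝ} (hf : Differentiable ℝ f) :
    d1 (fun x => f (-x.2, -x.1)) = fun x => -d2 f (-x.2, -x.1) := by
  funext x
  unfold d1 d2
  have h2 : HasFDerivAt (fun x : ℝ × ℝ => f (-x.2, -x.1)) _ x :=
    (hf (-x.2, -x.1)).hasFDerivAt.comp x (hasFDerivAt_refl x)
  rw [h2.fderiv, ← map_neg]
  simp

private theorem d2_reflC {f : ℝ × ℝ → ℝ} (hf : Differentiable ℝ f) :
    d2 (fun x => f (-x.2, -x.1)) = fun x => -d1 f (-x.2, -x.1) := by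
  funext x
  unfold d1 d2
  have h2 : HasFDerivAt (fun x : ℝ × ℝ => f (-x.2, -x.1)) _ x :=
    (hf (-x.2, -x.1)).hasFDerivAt.comp x (hasFDerivAt_refl x)
  rw [h2.fderiv, ← map_neg]
  simp

private theorem lap_reflC {f : ℝ × ℝ → ℝ} (hf : Per f) :
    lap (fun x => f (-x.2, -x.1)) = fun x => lap f (-x.2, -x.1) := by
  funext x
  unfold lap
  rw [d1_reflC hf.differentiable, d2_reflC hf.differentiable, d1_neg, d2_neg,
    d1_reflC hf.d2.differentiable, d2_reflC hf.d1.differentiable]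
  ring

private theorem lap_negC (f : ℝ × ℝ → ℝ) : lap (fun x => -f x) = fun x => -lap f x := by
  funext x
  unfold lap
  rw [d1_neg, d2_neg, d1_neg, d2_neg]
  ring

private theorem tint_self1 {f : ℝ × ℝ → ℝ} (hf : Per f) : tint (fun x => f x * d1 f x) = 0 := by
  have h := tint_mul_d1 hf hf
  have h2 : (fun x => d1 f x * f x) = fun x => f x * d1 f x := by funext x; ring
  rw [h2] at h
  linarith

private theorem tint_self2 {f : ℝ × ℝ → ℝ} (hf : Per f) : tint (fun x => f x * d2 f x) = 0 := by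
  have h := tint_mul_d2 hf hf
  have h2 : (fun x => d2 f x * f x) = fun x => f x * d2 f x := by funext x; ring
  rw [h2] at h
  linarith

private theorem tint_d1_lap {f : ℝ × ℝ → ℝ} (hf : Per f) :
    tint (fun x => d1 f x * lap f x) = 0 := by
  have h1 : (fun x => d1 f x * lap f x) =
      fun x => d1 f x * d1 (d1 f) x + d1 f x * d2 (d2 f) x := by
    funext x; unfold lap; ring
  rw [h1, tint_add (hf.d1.mul hf.d1.d1).continuous (hf.d1.mul hf.d2.d2).continuous,
    tint_self1 hf.d1, tint_mul_d2 hf.d1 hf.d2]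
  have h2 : (fun x => d2 (d1 f) x * d2 f x) = fun x => d2 f x * d1 (d2 f) x := by
    funext x; rw [d1_d2_comm hf]; ring
  rw [h2, tint_self1 hf.d2]
  simp

private theorem tint_d2_lap {f : ℝ × ℝ → ℝ} (hf : Per f) :
    tint (fun x => d2 f x * lap f x) = 0 := by
  have h1 : (fun x => d2 f x * lap f x) =
      fun x => d2 f x * d1 (d1 f) x + d2 f x * d2 (d2 f) x := by
    funext x; unfold lap; ring
  rw [h1, tint_add (hf.d2.mul hf.d1.d1).continuous (hf.d2.mul hf.d2.d2).continuous,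
    tint_self2 hf.d2, tint_mul_d1 hf.d2 hf.d1]
  have h2 : (fun x => d1 (d2 f) x * d1 f x) = fun x => d1 f x * d2 (d1 f) x := by
    funext x; rw [d1_d2_comm hf]; ring
  rw [h2, tint_self2 hf.d1]
  simp

private theorem zon_br {P w : ℝ × ℝ → ℝ} (hP : Per P) (hw : Per w) (s : ℝ) :
    zon (br P w) s = zon (d2 fun x => (d1 P x - d2 P x) * w x) s := by
  have hA := hP.d1.mul hw
  have hB := hP.d2.mul hw
  have h1 : br P w = fun x => d2 (fun y => d1 P y * w y) x - d1 (fun y => d2 P y * w y) x := by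
    funext x
    rw [d2_mul hP.d1 hw, d1_mul hP.d2 hw, d1_d2_comm hP]
    unfold br
    ring
  have h2 : (fun x => (d1 P x - d2 P x) * w x) = fun x => d1 P x * w x - d2 P x * w x := by
    funext x; ring
  rw [h1, zon_sub hA.d2 hB.d1, zon_d1 hB, ← zon_sub hA.d2 hB.d2, h2, d2_sub hA hB]

theorem Sol.circ {T : ℝ} {ψ : ℝ → ℝ × ℝ → ℝ} (h : Sol T ψ)
    (hsym : ∀ t, 0 ≤ t → t ≤ T → ∀ x : ℝ × ℝ, ψ t (-x.2, -x.1) = -ψ t x) :
    ∀ t, 0 ≤ t → t ≤ T → zon (d2 (ψ t)) 0 = zon (d2 (ψ 0)) 0 := by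
  refine const_of_deriv (φ := fun t => zon (d2 (ψ t)) 0) (T := T) ?_
  intro t ht htT
  have hd := hasDerivAt_zon_time h.tper.d2 0 t
  rw [dt_d2 h.tper t] at hd
  have hP := h.tper.per t
  have hQ := h.tper.dt.per t
  have hm : Per fun x => (d1 (ψ t) x - d2 (ψ t) x) * lap (ψ t) x :=
    (hP.d1.sub hP.d2).mul hP.lap
  -- the function of `s`
  have hF : ∀ s, HasDerivAt (fun s => 2 * zon (d2 (dt ψ t)) s +
      zon (fun x => (d1 (ψ t) x - d2 (ψ t) x) * lap (ψ t) x) s) 0 s := by
    intro s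
    have h1 := ((hasDerivAt_zon_space hQ.d2 s).const_mul 2).add (hasDerivAt_zon_space hm s)
    have h2 : 2 * zon (d2 (d2 (dt ψ t))) s +
        zon (d2 fun x => (d1 (ψ t) x - d2 (ψ t) x) * lap (ψ t) x) s = 0 := by
      rw [← zon_lap hQ, ← zon_br hP hP.lap]
      have h3 : lap (dt ψ t) = fun x => (-1) * br (ψ t) (lap (ψ t)) x := by
        funext x
        rw [h.vort ht htT x]
        ring
      rw [h3, zon_const_mul]
      ring
    rw [h2] at h1
    exact h1
  have hconst : ∀ s, 2 * zon (d2 (dt ψ t)) s +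
      zon (fun x => (d1 (ψ t) x - d2 (ψ t) x) * lap (ψ t) x) s =
      2 * zon (d2 (dt ψ t)) 0 + zon (fun x => (d1 (ψ t) x - d2 (ψ t) x) * lap (ψ t) x) 0 := by
    intro s
    exact is_const_of_deriv_eq_zero (fun x => (hF x).differentiableAt) (fun x => (hF x).deriv) s 0
  have hcont : ∀ {f : ℝ × ℝ → ℝ}, Per f → Continuous (zon f) := fun hf =>
    continuous_iff_continuousAt.2 fun s => (hasDerivAt_zon_space hf s).continuousAt
  have hint : (∫ s in (0 : ℝ)..2 * Real.pi, (2 * zon (d2 (dt ψ t)) s +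
      zon (fun x => (d1 (ψ t) x - d2 (ψ t) x) * lap (ψ t) x) s)) = 0 := by
    rw [intervalIntegral.integral_add (((hcont hQ.d2).const_mul 2).intervalIntegrable _ _)
      ((hcont hm).intervalIntegrable _ _), intervalIntegral.integral_const_mul]
    have h1 : (∫ s in (0 : ℝ)..2 * Real.pi, zon (d2 (dt ψ t)) s) = 0 := by
      rw [intervalIntegral.integral_eq_sub_of_hasDerivAt (fun s _ => hasDerivAt_zon_space hQ s)
        ((hcont hQ.d2).intervalIntegrable _ _)]
      have := zon_periodic hQ 0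
      rw [zero_add] at this
      rw [this, sub_self]
    have h2 : (∫ s in (0 : ℝ)..2 * Real.pi,
        zon (fun x => (d1 (ψ t) x - d2 (ψ t) x) * lap (ψ t) x) s) = 0 := by
      have h3 := tint_zon (φ := fun _ => 1) continuous_const (fun _ => rfl) hm
      simp only [one_mul] at h3
      rw [← h3]
      have h4 : (fun x => (d1 (ψ t) x - d2 (ψ t) x) * lap (ψ t) x) =
          fun x => d1 (ψ t) x * lap (ψ t) x - d2 (ψ t) x * lap (ψ t) x := by
        funext x; ring
      rw [h4, tint_sub (hP.d1.mul hP.lap).continuous (hP.d2.mul hP.lap).continuous,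
        tint_d1_lap hP, tint_d2_lap hP, sub_zero]
    rw [h1, h2]
    simp
  have hc0 : 2 * zon (d2 (dt ψ t)) 0 +
      zon (fun x => (d1 (ψ t) x - d2 (ψ t) x) * lap (ψ t) x) 0 = 0 := by
    rw [intervalIntegral.integral_congr (g := fun _ => 2 * zon (d2 (dt ψ t)) 0 +
      zon (fun x => (d1 (ψ t) x - d2 (ψ t) x) * lap (ψ t) x) 0) (fun s _ => hconst s),
      intervalIntegral.integral_const, smul_eq_mul, sub_zero] at hint
    have hpi : (2 * Real.pi : ℝ) ≠ 0 := by positivity
    rcases mul_eq_zero.1 hint with h1 | h1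
    · exact absurd h1 hpi
    · exact h1
  have hw : ∀ x : ℝ × ℝ, lap (ψ t) (-x.2, -x.1) = -lap (ψ t) x := by
    intro x
    have h1 : (fun x : ℝ × ℝ => ψ t (-x.2, -x.1)) = fun x => -ψ t x := by
      funext x; exact hsym t ht htT x
    have h2 := lap_reflC hP
    rw [h1, lap_negC] at h2
    exact (congrFun h2 x).symm
  have hm0 : zon (fun x => (d1 (ψ t) x - d2 (ψ t) x) * lap (ψ t) x) 0 = 0 := by
    unfold zon
    have h1 : ∀ r : ℝ, lap (ψ t) (r, 0 - r) = 0 := by
      intro r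
      have := hw (r, 0 - r)
      simp only [zero_sub, neg_neg] at this
      rw [zero_sub]
      linarith
    simp only [h1, mul_zero]
    exact intervalIntegral.integral_zero
  have hz : zon (d2 (dt ψ t)) 0 = 0 := by
    rw [hm0] at hc0
    linarith
  rw [hz] at hd
  exact hd

end Pool.Agent.Lib.EI
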