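import Pool.Agent.Lib.EI.JDer

/-!
MODULE Close (2 h). `ω + ψ` stays close to its initial value up to times `K/δ`.

Notation: `w = lap (rem (ψ t))`, `w₀ = δ lap Φ`, `g = lap (ψ t) + ψ t`, `g₀ = δ (lap Φ + Φ)`
(`rem (ψ 0) = δ Φ`, `Ini.rem0`).

Proof. Let `K, C₀` be from `good_small`, `C₁` from `JJ_deriv`, `C₂` from `Hs_diff`. Take this `K`.
(1) `|JJ H ψ t - JJ H ψ 0| ≤ C₁ δ² t` (`mvt_bound` on `[0,t]`, all `s ≤ t` are good).
(2) `JJ H ψ t = ∫ Hs H α β * w` (`Hs_orth`, `lap (ψ t) = w - VV p`, `lap_rem`), and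
    `|∫ Hs H α β * w - ∫ H w| ≤ C₂ (|α|+|β|) ‖w‖ ≤ C₂ · 2 C₀ δ t · 2 M δ` (`Hs_diff`, `Ini.w_le`).
    `JJ H ψ 0 = ∫ H w₀` (`al ψ 0 = be ψ 0 = 0` because `co (ψ 0) = ![a,0,b,0]`; `Hs H 0 0 = H`).
    So `|∫ H w - ∫ H w₀| ≤ C₃ (δ t) δ`.
(3) `u := ψ t - δ Φ` (mean zero, `Per`): `qf u = qf (ψ t) + qf (δΦ) - 2 ∫ lap (ψ t) g₀` (`qf_sub`).
    `qf (ψ t) = δ² qf Φ = qf (δΦ) = ∫ w₀ g₀` (`Ini.qt`, `qf_const_mul`); `∫ lap (ψ t) g₀ = ∫ w g₀`
    (`g₀` is orthogonal to `VV p`: `tint_g_VV` for `f = δΦ` or `Φ`). So `qf u = 2 ∫ (w₀ - w) g₀ =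
    2 δ ∫ (w₀ - w)(lap Φ + Φ) = 2 δ ∫ (w₀ - w) H + 2 δ ∫ (w₀ - w) (lap Φ + Φ - H)
    ≤ 2 C₃ (δ t) δ² + 2 δ (‖w₀‖ + ‖w‖) κ ≤ 2 C₃ (δ t) δ² + 2 δ (M δ + 2 M δ) κ`.
(4) `gap_g` for `u`: `‖lap u + u‖² ≤ qf u`, and `lap u + u = g - g₀` pointwise.
-/

set_option autoImplicit false

open MeasureTheory Set
open scoped ContDiff

namespace Pool.Agent.Lib.EI

private theorem JJ_eq {H : ℝ × ℝ → ℝ} (hH : Per H)
    (horth : ∀ i, tint (fun x => H x * bas i x) = 0)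
    {ψ : ℝ → ℝ × ℝ → ℝ} {t : ℝ} (hf : Per (ψ t)) :
    JJ H ψ t = tint (fun x => Hs H (al ψ t) (be ψ t) x * lap (rem (ψ t)) x) := by
  unfold JJ
  rw [lap_rem hf]
  have h1 : (fun x => Hs H (al ψ t) (be ψ t) x * (lap (ψ t) x + VV (co (ψ t)) x)) =
      fun x => Hs H (al ψ t) (be ψ t) x * lap (ψ t) x +
        Hs H (al ψ t) (be ψ t) x * VV (co (ψ t)) x := by
    funext x; ring
  rw [h1, tint_add ((per_Hs hH _ _).mul hf.lap).continuous
    ((per_Hs hH _ _).mul (per_VV _)).continuous, Hs_orth hH horth, add_zero]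

theorem close {a b M : ℝ} {H : ℝ × ℝ → ℝ} (hb : 0 < b) (hab : b < a) (hM : 0 ≤ M) (hH : Per H)
    (horth : ∀ i, tint (fun x => H x * bas i x) = 0)
    (hbr : ∀ x, br (V0 a b) H x = -(b * Real.cos x.2)) : ∃ K, 0 < K ∧ K ≤ 1 ∧ ∃ C, 0 ≤ C ∧
    ∀ (κ δ T : ℝ) (Φ : ℝ × ℝ → ℝ) (ψ : ℝ → ℝ × ℝ → ℝ), Ini a b M δ T Φ ψ →
      nrm (fun x => lap Φ x + Φ x - H x) ≤ κ →
      ∀ t, 0 ≤ t → t ≤ T → δ * t ≤ K →
        nrm (fun x => (lap (ψ t) x + ψ t x) - δ * (lap Φ x + Φ x)) ^ 2 ≤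
          C * (δ * t + κ) * δ ^ 2 := by
  obtain ⟨K, hK0, hK1, C₀, hC₀, hgood⟩ := good_small hb hab hM
  obtain ⟨C₁, hC₁, hJd⟩ := JJ_deriv hb hab hM hH horth hbr
  obtain ⟨C₂, hC₂, hdiff⟩ := Hs_diff hH
  refine ⟨K, hK0, hK1, 2 * (4 * C₂ * C₀ * M + C₁) + 6 * M, by positivity, ?_⟩
  intro κ δ T Φ ψ hI hκ t ht0 htT hδt
  have hδ := hI.hδ0
  have hpψ : ∀ s, Per (ψ s) := fun s => hI.sol.tper.per s
  have hΦ := hI.perΦ
  have hδΦ : Per (fun x => δ * Φ x) := hΦ.const_mul δ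
  have hg : ∀ s, 0 ≤ s → s ≤ t → δ * s ≤ K := fun s _ h2 =>
    (mul_le_mul_of_nonneg_left h2 hδ.le).trans hδt
  -- (1)
  have h1 : |JJ H ψ t - JJ H ψ 0| ≤ C₁ * δ ^ 2 * t := by
    have hex : ∀ s, 0 ≤ s → s ≤ t → ∃ J', HasDerivAt (JJ H ψ) J' s ∧ |J'| ≤ C₁ * δ ^ 2 := by
      intro s hs0 hst
      exact hJd δ T Φ ψ hI s hs0 (hst.trans htT) ((hg s hs0 hst).trans hK1)
        (hgood δ T Φ ψ hI s hs0 (hst.trans htT) (hg s hs0 hst)).1
    choose! J' hJ1 hJ2 using hex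
    exact mvt_bound (φ := JJ H ψ) (φ' := J') (T := t) hJ1 hJ2 t ht0 le_rfl
  -- (2)
  obtain ⟨_, hal, hbe⟩ := hgood δ T Φ ψ hI t ht0 htT hδt
  have hw := hI.w_le ht0 htT
  set w := lap (rem (ψ t)) with hwd
  have hpw : Per w := (per_rem (hpψ t)).lap
  have hJt : JJ H ψ t = tint (fun x => Hs H (al ψ t) (be ψ t) x * w x) := JJ_eq hH horth (hpψ t)
  have hlap0 : lap (rem (ψ 0)) = fun x => δ * lap Φ x := by
    rw [hI.rem0, lap_const_mul δ hΦ]
  have hal0 : al ψ 0 = 0 := by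
    unfold al
    rw [hI.co0]
    simp
  have hbe0 : be ψ 0 = 0 := by
    unfold be
    rw [hI.co0]
    simp
  have hHs0 : Hs H 0 0 = H := by
    funext x
    unfold Hs
    simp
  have hJ0 : JJ H ψ 0 = tint (fun x => H x * (δ * lap Φ x)) := by
    rw [JJ_eq hH horth (hpψ 0), hal0, hbe0, hHs0, hlap0]
  have h2 := hdiff (al ψ t) (be ψ t) w hpw
  have h3 : |tint (fun x => H x * (δ * lap Φ x)) - tint (fun x => H x * w x)| ≤
      (4 * C₂ * C₀ * M + C₁) * (δ * t) * δ := by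
    have h4 : C₂ * (|al ψ t| + |be ψ t|) * nrm w ≤
        C₂ * (C₀ * (δ * t) + C₀ * (δ * t)) * (2 * M * δ) := by
      have := nrm_nonneg w
      gcongr
    have h5 : tint (fun x => H x * (δ * lap Φ x)) - tint (fun x => H x * w x) =
        -(JJ H ψ t - JJ H ψ 0) + (tint (fun x => Hs H (al ψ t) (be ψ t) x * w x) -
          tint (fun x => H x * w x)) := by
      rw [hJt, hJ0]
      ring
    rw [h5]
    refine (abs_add_le _ _).trans ?_
    rw [abs_neg]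
    calc |JJ H ψ t - JJ H ψ 0| + |tint (fun x => Hs H (al ψ t) (be ψ t) x * w x) -
          tint (fun x => H x * w x)| ≤ C₁ * δ ^ 2 * t +
            C₂ * (C₀ * (δ * t) + C₀ * (δ * t)) * (2 * M * δ) := add_le_add h1 (h2.trans h4)
      _ = (4 * C₂ * C₀ * M + C₁) * (δ * t) * δ := by ring
  -- (3)
  set G : ℝ × ℝ → ℝ := fun x => lap Φ x + Φ x with hGd
  have hpG : Per G := hΦ.lap.add hΦ
  have hlu : lap (fun x => ψ t x - δ * Φ x) = fun x => lap (ψ t) x - δ * lap Φ x := by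
    rw [lap_sub (hpψ t) hδΦ, lap_const_mul δ hΦ]
  have hqu : qf (fun x => ψ t x - δ * Φ x) = 2 * δ * ((tint (fun x => H x * (δ * lap Φ x)) -
      tint (fun x => H x * w x)) + tint (fun x => (δ * lap Φ x - w x) * (G x - H x))) := by
    rw [qf_sub (hpψ t) hδΦ, hI.qt ht0 htT, qf_const_mul δ hΦ]
    have e1 : tint (fun x => lap (ψ t) x * (lap (fun x => δ * Φ x) x + δ * Φ x)) =
        δ * tint (fun x => w x * G x) := by
      have e2 : (fun x => lap (ψ t) x * (lap (fun x => δ * Φ x) x + δ * Φ x)) =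
          fun x => δ * (w x * G x) - δ * (VV (co (ψ t)) x * (lap Φ x + Φ x)) := by
        funext x
        rw [congrFun (lap_const_mul δ hΦ) x, hwd, congrFun (lap_rem (hpψ t)) x, hGd]
        ring
      rw [e2, tint_sub ((hpw.mul hpG).const_mul δ).continuous
        ((((per_VV _).mul hpG)).const_mul δ).continuous, tint_const_mul, tint_const_mul,
        tint_g_VV hΦ]
      ring
    have e3 : qf Φ = tint (fun x => lap Φ x * G x) := rfl
    have e4 : (fun x => (δ * lap Φ x - w x) * (G x - H x)) =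
        fun x => ((δ * (lap Φ x * G x) - w x * G x) - H x * (δ * lap Φ x)) + H x * w x := by
      funext x
      ring
    rw [e1, e3, e4, tint_add (((((hΦ.lap.mul hpG).const_mul δ).sub (hpw.mul hpG)).sub
        (hH.mul (hΦ.lap.const_mul δ)))).continuous (hH.mul hpw).continuous,
      tint_sub (((hΦ.lap.mul hpG).const_mul δ).sub (hpw.mul hpG)).continuous
        (hH.mul (hΦ.lap.const_mul δ)).continuous,
      tint_sub ((hΦ.lap.mul hpG).const_mul δ).continuous (hpw.mul hpG).continuous,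
      tint_const_mul]
    ring
  have h6 : |tint (fun x => (δ * lap Φ x - w x) * (G x - H x))| ≤ 3 * M * δ * κ := by
    refine (tint_cs ((hΦ.lap.const_mul δ).sub hpw).continuous (hpG.sub hH).continuous).trans ?_
    have e1 : nrm (fun x => δ * lap Φ x - w x) ≤ 3 * M * δ := by
      refine (nrm_sub_le (hΦ.lap.const_mul δ).continuous hpw.continuous).trans ?_
      rw [nrm_const_mul, abs_of_pos hδ]
      have := mul_le_mul_of_nonneg_left hI.hM hδ.le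
      linarith
    have e2 : nrm (fun x => G x - H x) ≤ κ := hκ
    exact mul_le_mul e1 e2 (nrm_nonneg _) (by positivity)
  have hκ0 : 0 ≤ κ := (nrm_nonneg _).trans hκ
  have h7 : qf (fun x => ψ t x - δ * Φ x) ≤
      (2 * (4 * C₂ * C₀ * M + C₁) + 6 * M) * (δ * t + κ) * δ ^ 2 := by
    rw [hqu]
    have e1 := (le_abs_self _).trans h3
    have e2 := (le_abs_self _).trans h6
    have e3 : 2 * δ * ((tint (fun x => H x * (δ * lap Φ x)) - tint (fun x => H x * w x)) +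
        tint (fun x => (δ * lap Φ x - w x) * (G x - H x))) ≤
        2 * δ * ((4 * C₂ * C₀ * M + C₁) * (δ * t) * δ + 3 * M * δ * κ) :=
      mul_le_mul_of_nonneg_left (add_le_add e1 e2) (by positivity)
    refine e3.trans ?_
    have e4 : 0 ≤ 2 * (4 * C₂ * C₀ * M + C₁) * κ * δ ^ 2 := by positivity
    have e5 : 0 ≤ 6 * M * (δ * t) * δ ^ 2 := by positivity
    nlinarith
  -- (4)
  have hpu : Per (fun x => ψ t x - δ * Φ x) := (hpψ t).sub hδΦ
  have hu0 : tint (fun x => ψ t x - δ * Φ x) = 0 := by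
    rw [tint_sub (hpψ t).continuous hδΦ.continuous, hI.sol.mean, tint_const_mul, hI.meanΦ]
    ring
  have h8 := gap_g hpu hu0
  have h9 : (fun x => lap (fun x => ψ t x - δ * Φ x) x + (ψ t x - δ * Φ x)) =
      fun x => (lap (ψ t) x + ψ t x) - δ * (lap Φ x + Φ x) := by
    funext x
    rw [congrFun hlu x]
    ring
  rw [h9] at h8
  exact h8.trans h7

end Pool.Agent.Lib.EI
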