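import Pool.Agent.Lib.EI.Time

/-!
Conservation laws of the Euler equations on the torus.
-/

set_option autoImplicit false

open MeasureTheory Set intervalIntegral
open scoped ContDiff Topology

namespace Pool.Agent.Lib.EI

variable {T : ℝ} {ψ : ℝ → ℝ × ℝ → ℝ} {k : ℝ × ℝ → ℝ}

/-- The vorticity equation. -/
theorem Sol.vort (h : Sol T ψ) {t : ℝ} (h0 : 0 ≤ t) (hT : t ≤ T) (x : ℝ × ℝ) :
    lap (dt ψ t) x = -br (ψ t) (lap (ψ t)) x := by
  have h1 := h.euler t h0 hT x
  rw [← congrFun (dt_lap h.tper t) x]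
  unfold br
  linarith

/-- `d/dt ∫ k ω = ∫ (ω + ψ) {ψ, k}` -/
theorem Sol.pair (h : Sol T ψ) (hk : Per k) {t : ℝ} (h0 : 0 ≤ t) (hT : t ≤ T) :
    HasDerivAt (fun s => tint fun x => k x * lap (ψ s) x)
      (tint fun x => (lap (ψ t) x + ψ t x) * br (ψ t) k x) t := by
  have hk' := tper_of_per hk
  have h1 := hasDerivAt_tint (hk'.mul h.tper.lap) t
  have hp := h.tper.per t
  have h2 : tint (dt (fun s x => k x * lap (ψ s) x) t) =
      tint fun x => (lap (ψ t) x + ψ t x) * br (ψ t) k x := by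
    rw [dt_mul hk' h.tper.lap t, dt_const, dt_lap h.tper t]
    have h3 : (fun x => 0 * lap (ψ t) x + k x * lap (dt ψ t) x) =
        fun x => -(k x * br (ψ t) (lap (ψ t)) x) := by
      funext x
      rw [h.vort h0 hT x]
      ring
    rw [h3, tint_neg, tint_br hp hp.lap hk, neg_neg]
    have h4 : (fun x => (lap (ψ t) x + ψ t x) * br (ψ t) k x) =
        fun x => lap (ψ t) x * br (ψ t) k x + ψ t x * br (ψ t) k x := by
      funext x
      ring
    rw [h4, tint_add (hp.lap.mul (hp.br hk)).continuous (hp.mul (hp.br hk)).continuous,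
      tint_br_self_left hp hk, add_zero]
  rw [h2] at h1
  exact h1

/-- Conservation of enstrophy. -/
theorem Sol.enstrophy (h : Sol T ψ) {t : ℝ} (h0 : 0 ≤ t) (hT : t ≤ T) :
    tint (fun x => lap (ψ t) x ^ 2) = tint (fun x => lap (ψ 0) x ^ 2) := by
  refine const_of_deriv (φ := fun s => tint (fun x => lap (ψ s) x ^ 2)) (T := T) ?_ t h0 hT
  intro s hs hsT
  have hp := h.tper.per s
  have h1 := hasDerivAt_tint (h.tper.lap.mul h.tper.lap) s
  rw [dt_mul h.tper.lap h.tper.lap s, dt_lap h.tper s] at h1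
  have h2 : (fun x => lap (dt ψ s) x * lap (ψ s) x + lap (ψ s) x * lap (dt ψ s) x) =
      fun x => (-2) * (lap (ψ s) x * br (ψ s) (lap (ψ s)) x) := by
    funext x
    rw [h.vort hs hsT x]
    ring
  rw [h2, tint_const_mul, tint_br_self_right hp hp.lap, mul_zero] at h1
  have h3 : (fun s => tint (fun x => lap (ψ s) x ^ 2)) =
      fun s => tint fun x => lap (ψ s) x * lap (ψ s) x := by
    funext s
    congr 1
    funext x
    ring
  rw [h3]
  exact h1

/-- Conservation of energy, in the form `∫ ψ ω`. -/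
theorem Sol.energy' (h : Sol T ψ) {t : ℝ} (h0 : 0 ≤ t) (hT : t ≤ T) :
    tint (fun x => ψ t x * lap (ψ t) x) = tint (fun x => ψ 0 x * lap (ψ 0) x) := by
  refine const_of_deriv (φ := fun s => tint (fun x => ψ s x * lap (ψ s) x)) (T := T) ?_ t h0 hT
  intro s hs hsT
  have hp := h.tper.per s
  have hq := h.tper.dt.per s
  have h1 := hasDerivAt_tint (h.tper.mul h.tper.lap) s
  rw [dt_mul h.tper h.tper.lap s, dt_lap h.tper s] at h1
  rw [tint_add (hq.mul hp.lap).continuous (hp.mul hq.lap).continuous, tint_lap_symm hq hp] at h1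
  have h2 : (fun x => lap (dt ψ s) x * ψ s x) = fun x => -(ψ s x * br (ψ s) (lap (ψ s)) x) := by
    funext x
    rw [h.vort hs hsT x]
    ring
  have h3 : (fun x => ψ s x * lap (dt ψ s) x) = fun x => -(ψ s x * br (ψ s) (lap (ψ s)) x) := by
    funext x
    rw [h.vort hs hsT x]
    ring
  rw [h2, h3, tint_neg, tint_br_self_left hp hp.lap] at h1
  simpa using h1

/-- Conservation of energy. -/
theorem Sol.energy (h : Sol T ψ) {t : ℝ} (h0 : 0 ≤ t) (hT : t ≤ T) :
    tint (fun x => d1 (ψ t) x ^ 2 + d2 (ψ t) x ^ 2) =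
      tint (fun x => d1 (ψ 0) x ^ 2 + d2 (ψ 0) x ^ 2) := by
  have h1 : ∀ s, tint (fun x => d1 (ψ s) x ^ 2 + d2 (ψ s) x ^ 2) =
      -tint (fun x => ψ s x * lap (ψ s) x) := by
    intro s
    have hp := h.tper.per s
    rw [tint_mul_lap hp hp, neg_neg]
    congr 1
    funext x
    ring
  rw [h1, h1, h.energy' h0 hT]

/-- The conserved quadratic form `∫ ω (ω + ψ)`. -/
theorem Sol.quad (h : Sol T ψ) {t : ℝ} (h0 : 0 ≤ t) (hT : t ≤ T) :
    tint (fun x => lap (ψ t) x * (lap (ψ t) x + ψ t x)) =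
      tint (fun x => lap (ψ 0) x * (lap (ψ 0) x + ψ 0 x)) := by
  have h1 : ∀ s, tint (fun x => lap (ψ s) x * (lap (ψ s) x + ψ s x)) =
      tint (fun x => lap (ψ s) x ^ 2) + tint (fun x => ψ s x * lap (ψ s) x) := by
    intro s
    have hp := h.tper.per s
    rw [← tint_add (hp.lap.pow 2).continuous (hp.mul hp.lap).continuous]
    congr 1
    funext x
    ring
  rw [h1, h1, h.energy' h0 hT, h.enstrophy h0 hT]

end Pool.Agent.Lib.EI
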