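import Pool.Agent.Lib.EI.TRem

/-!
MODULE Cut (2.2 h). A smooth function on the torus with `{a sin x₁ + b sin x₂, F} = -b cos x₂`
(locally `F = x₁ + ` a function of `V0`).

Construction. Let `m = (a-b)/2 > 0`, `V = V0 a b`, `η : ℝ → ℝ`, `η v = 1 - Real.smoothTransition ((v+m)/(2m))`:
smooth, `η v = 1` for `v ≤ -m`, `η v = 0` for `v ≥ m`, `η (-v) = 1 - η v` (from the definition
`smoothTransition x = e x / (e x + e (1-x))`, `e = expNegInvGlue`, so `sT x + sT (1-x) = 1`).
Let `k x = ⌊(x₁ + π/2)/(2π)⌋`, i.e. `x₁ ∈ [-π/2 + 2πk, 3π/2 + 2πk)`, and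
`G x = k x + (if cos x₁ < 0 then η (V x) else 0)`, `F x = x₁ - 2π G x`.
* Periodic: `G (x₁ + 2π, x₂) = G x + 1`, `G` is periodic in `x₂`.
* Smooth (`contDiff_iff_contDiffAt`; near every point `F` equals one of two smooth functions, use
  `ContDiffAt.congr_of_eventuallyEq`): near a point with `cos x₁ > 0`: `G = k` with `k` locally constant;
  near a point with `cos x₁ < 0`: `G = k + η (V x)`, `k` locally constant. Near a point with `x₁ = π/2 + 2πj`:
  `V x ≥ a - b > m` at the point, so `V > m` near it, `η (V) = 0`, and `G = j` in a neighbourhood (on both sides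
  `k = j`). Near `x₁ = -π/2 + 2πj`: `V < -m` near the point, `η (V) = 1`; for `x₁ < -π/2+2πj` (nearby) `k = j - 1`,
  `cos x₁ < 0`, `G = j - 1 + 1 = j`; for `x₁ ≥ ..` `k = j`, `cos x₁ ≥ 0`, `G = j`. So `G = j` nearby.
  (Any other organisation is fine, e.g. local description: for every integer `j`, on the open strip
  `|x₁ - 2πj| < π/2 + ε₀`... it is enough to know for every point an integer `j` such that near it
  `F = x₁ - 2πj` or `F = x₁ - 2πj - 2π η (V)`.)
* Bracket: near every point `F = x₁ + const` or `F = x₁ + const - 2π η (V)`; `d1 F = 1 - 2π η'(V) V_1`,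
  `d2 F = - 2π η'(V) V_2` (or `1, 0`), so `{V, F} = V_1 F_2 - V_2 F_1 = -V_2 = -b cos x₂` (`d1`, `d2` only see the
  germ: `Filter.EventuallyEq.fderiv_eq`).
* Odd: for `cos x₁ > 0`: `F x = x₁ - 2πk` and `k(-x) = -k(x)` (as `x₁ - 2πk ∈ (-π/2, π/2)`).
  For `cos x₁ < 0`: `x₁ - 2πk ∈ (π/2, 3π/2)`, `-x₁ + 2πk + 2π ∈ (π/2, 3π/2)`, so `k(-x) = -k(x) - 1`, and
  `F(-x) = -x₁ - 2π(-k - 1) - 2π η(-V) = -x₁ + 2πk + 2π - 2π (1 - η V) = -F x`. For `cos x₁ = 0` by continuity
  or directly.
-/

set_option autoImplicit false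

open MeasureTheory Set
open scoped ContDiff

namespace Pool.Agent.Lib.EI


namespace CutAux

open Topology

/-- The cut-off function. -/
noncomputable def eta (m v : ℝ) : ℝ := 1 - Real.smoothTransition ((v + m) / (2 * m))

theorem eta_low {m v : ℝ} (hm : 0 < m) (h : v ≤ -m) : eta m v = 1 := by
  unfold eta
  rw [Real.smoothTransition.zero_of_nonpos, sub_zero]
  apply div_nonpos_of_nonpos_of_nonneg <;> linarith

theorem eta_high {m v : ℝ} (hm : 0 < m) (h : m ≤ v) : eta m v = 0 := by
  unfold eta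
  rw [Real.smoothTransition.one_of_one_le, sub_self]
  rw [le_div_iff₀ (by positivity)]
  linarith

theorem sT_add (x : ℝ) : Real.smoothTransition x + Real.smoothTransition (1 - x) = 1 := by
  have h := Real.smoothTransition.pos_denom x
  unfold Real.smoothTransition
  rw [sub_sub_cancel, add_comm (expNegInvGlue (1 - x)) (expNegInvGlue x), ← add_div, div_self h.ne']

theorem eta_neg {m : ℝ} (hm : 0 < m) (v : ℝ) : eta m (-v) = 1 - eta m v := by
  have h := sT_add ((v + m) / (2 * m))
  have h1 : 1 - (v + m) / (2 * m) = (-v + m) / (2 * m) := by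
    field_simp
    ring
  rw [h1] at h
  unfold eta
  linarith

theorem contDiff_eta (m : ℝ) : ContDiff ℝ ∞ (eta m) := by
  unfold eta
  exact contDiff_const.sub (Real.smoothTransition.contDiff.comp
    ((contDiff_id.add contDiff_const).div_const _))

/-- The number of the period. -/
noncomputable def kap (t : ℝ) : ℤ := ⌊(t + Real.pi / 2) / (2 * Real.pi)⌋

theorem kap_eq {t : ℝ} {j : ℤ} (h1 : -(Real.pi / 2) + 2 * Real.pi * j ≤ t)
    (h2 : t < 3 * Real.pi / 2 + 2 * Real.pi * j) : kap t = j := by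
  have hp := Real.pi_pos
  unfold kap
  rw [Int.floor_eq_iff]
  constructor
  · rw [le_div_iff₀ (by positivity)]
    linarith
  · rw [div_lt_iff₀ (by positivity)]
    linarith

theorem kap_spec (t : ℝ) : -(Real.pi / 2) + 2 * Real.pi * kap t ≤ t ∧
    t < 3 * Real.pi / 2 + 2 * Real.pi * kap t := by
  have hp := Real.pi_pos
  have h := (Int.floor_eq_iff (a := (t + Real.pi / 2) / (2 * Real.pi)) (z := kap t)).mp rfl
  obtain ⟨h1, h2⟩ := h
  rw [le_div_iff₀ (by positivity)] at h1
  rw [div_lt_iff₀ (by positivity)] at h2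
  constructor <;> linarith

theorem cos_shift (t : ℝ) (j : ℤ) : Real.cos (t - 2 * Real.pi * j) = Real.cos t := by
  rw [mul_comm (2 * Real.pi) (j : ℝ), Real.cos_sub_int_mul_two_pi]

theorem sin_shift (t : ℝ) (j : ℤ) : Real.sin (t - 2 * Real.pi * j) = Real.sin t := by
  rw [mul_comm (2 * Real.pi) (j : ℝ), Real.sin_sub_int_mul_two_pi]

theorem cos_nn {t : ℝ} {j : ℤ} (h1 : -(Real.pi / 2) + 2 * Real.pi * j ≤ t)
    (h2 : t ≤ Real.pi / 2 + 2 * Real.pi * j) : 0 ≤ Real.cos t := by
  rw [← cos_shift t j]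
  exact Real.cos_nonneg_of_mem_Icc ⟨by linarith, by linarith⟩

theorem cos_ng {t : ℝ} {j : ℤ} (h1 : Real.pi / 2 + 2 * Real.pi * j < t)
    (h2 : t < 3 * Real.pi / 2 + 2 * Real.pi * j) : Real.cos t < 0 := by
  rw [← cos_shift t j]
  exact Real.cos_neg_of_pi_div_two_lt_of_lt (by linarith) (by linarith)

/-- The function `F`. -/
noncomputable def FF (a b m : ℝ) (x : ℝ × ℝ) : ℝ :=
  x.1 - 2 * Real.pi * kap x.1 - 2 * Real.pi * (if Real.cos x.1 < 0 then eta m (V0 a b x) else 0)

theorem local_desc {a b m : ℝ} (hb : 0 < b) (hm : 0 < m) (hm' : m < a - b) (x : ℝ × ℝ) :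
    ∃ j : ℤ, (∀ᶠ y in 𝓝 x, FF a b m y = y.1 - 2 * Real.pi * j) ∨
      (∀ᶠ y in 𝓝 x, FF a b m y = y.1 - 2 * Real.pi * j - 2 * Real.pi * eta m (V0 a b y)) := by
  have hp := Real.pi_pos
  obtain ⟨h1, h2⟩ := kap_spec x.1
  have hfst : ContinuousAt (fun y : ℝ × ℝ => y.1) x := continuous_fst.continuousAt
  have hV : ContinuousAt (V0 a b) x := (per_V0 a b).continuous.continuousAt
  refine ⟨kap x.1, ?_⟩
  rcases lt_trichotomy x.1 (Real.pi / 2 + 2 * Real.pi * kap x.1) with h | h | h
  · left
    rcases h1.lt_or_eq with h1' | h1'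
    · filter_upwards [hfst.preimage_mem_nhds (Ioo_mem_nhds h1' h)] with y hy
      have hk : kap y.1 = kap x.1 := kap_eq hy.1.le (by linarith [hy.2])
      have hc : ¬ Real.cos y.1 < 0 := not_lt.mpr (cos_nn (j := kap x.1) hy.1.le hy.2.le)
      unfold FF
      rw [hk, if_neg hc]
      ring
    · have hs : Real.sin x.1 = -1 := by
        rw [← sin_shift x.1 (kap x.1)]
        have h0 : x.1 - 2 * Real.pi * kap x.1 = -(Real.pi / 2) := by linarith
        rw [h0, Real.sin_neg, Real.sin_pi_div_two]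
      have hVx : V0 a b x < -m := by
        have h3 := Real.sin_le_one x.2
        have h4 : b * Real.sin x.2 ≤ b * 1 := mul_le_mul_of_nonneg_left h3 hb.le
        unfold V0
        rw [hs]
        linarith
      have hI : x.1 ∈ Ioo (-(3 * Real.pi / 2) + 2 * Real.pi * kap x.1)
          (Real.pi / 2 + 2 * Real.pi * kap x.1) := ⟨by linarith, h⟩
      filter_upwards [hfst.preimage_mem_nhds (Ioo_mem_nhds hI.1 hI.2),
        hV.preimage_mem_nhds (Iio_mem_nhds hVx)] with y hy hy'
      have he : eta m (V0 a b y) = 1 := eta_low hm (le_of_lt hy')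
      by_cases hc : -(Real.pi / 2) + 2 * Real.pi * kap x.1 ≤ y.1
      · have hk : kap y.1 = kap x.1 := kap_eq hc (by linarith [hy.2])
        have hc : ¬ Real.cos y.1 < 0 := not_lt.mpr (cos_nn (j := kap x.1) hc hy.2.le)
        unfold FF
        rw [hk, if_neg hc]
        ring
      · push Not at hc
        have hcast : ((kap x.1 - 1 : ℤ) : ℝ) = (kap x.1 : ℝ) - 1 := by push_cast; ring
        have hy1 : -(3 * Real.pi / 2) + 2 * Real.pi * kap x.1 < y.1 := hy.1
        have hk : kap y.1 = kap x.1 - 1 := by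
          apply kap_eq
          · rw [hcast]
            linarith
          · rw [hcast]
            linarith
        have hc' : Real.cos y.1 < 0 := by
          apply cos_ng (j := kap x.1 - 1)
          · rw [hcast]
            linarith
          · rw [hcast]
            linarith
        unfold FF
        rw [hk, if_pos hc', he, hcast]
        ring
  · left
    have hs : Real.sin x.1 = 1 := by
      rw [← sin_shift x.1 (kap x.1)]
      have : x.1 - 2 * Real.pi * kap x.1 = Real.pi / 2 := by linarith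
      rw [this, Real.sin_pi_div_two]
    have hVx : m < V0 a b x := by
      have h3 := Real.neg_one_le_sin x.2
      have h4 : b * (-1) ≤ b * Real.sin x.2 := mul_le_mul_of_nonneg_left h3 hb.le
      unfold V0
      rw [hs]
      linarith
    have hI : x.1 ∈ Ioo (-(Real.pi / 2) + 2 * Real.pi * kap x.1)
        (3 * Real.pi / 2 + 2 * Real.pi * kap x.1) := ⟨by linarith, h2⟩
    filter_upwards [hfst.preimage_mem_nhds (Ioo_mem_nhds hI.1 hI.2),
      hV.preimage_mem_nhds (Ioi_mem_nhds hVx)] with y hy hy'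
    have he : eta m (V0 a b y) = 0 := eta_high hm (le_of_lt hy')
    have hk : kap y.1 = kap x.1 := kap_eq hy.1.le hy.2
    unfold FF
    rw [hk, he, ite_self]
    ring
  · right
    filter_upwards [hfst.preimage_mem_nhds (Ioo_mem_nhds h h2)] with y hy
    have hy1 : Real.pi / 2 + 2 * Real.pi * kap x.1 < y.1 := hy.1
    have hk : kap y.1 = kap x.1 := kap_eq (by linarith) hy.2
    unfold FF
    rw [hk, if_pos (cos_ng hy.1 hy.2)]

theorem hasFD_lin (j : ℤ) (x : ℝ × ℝ) : HasFDerivAt (fun y : ℝ × ℝ => y.1 - 2 * Real.pi * j)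
    (ContinuousLinearMap.fst ℝ ℝ ℝ) x := hasFDerivAt_fst.sub_const _

theorem hasFD_eta (a b m : ℝ) (x : ℝ × ℝ) :
    HasFDerivAt (fun y : ℝ × ℝ => 2 * Real.pi * eta m (V0 a b y))
      ((2 * Real.pi) • (deriv (eta m) (V0 a b x) • fderiv ℝ (V0 a b) x)) x := by
  have h1 : HasFDerivAt (fun y => eta m (V0 a b y))
      (deriv (eta m) (V0 a b x) • fderiv ℝ (V0 a b) x) x :=
    (((contDiff_eta m).differentiable (by simp)) (V0 a b x)).hasDerivAt.comp_hasFDerivAt x
      ((per_V0 a b).diffAt x).hasFDerivAt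
  exact h1.const_mul (2 * Real.pi)

end CutAux

theorem exists_cut {a b : ℝ} (hb : 0 < b) (hab : b < a) : ∃ F : ℝ × ℝ → ℝ, Per F ∧
    (∀ x : ℝ × ℝ, F (-x.1, -x.2) = -F x) ∧ ∀ x, br (V0 a b) F x = -(b * Real.cos x.2) := by
  have hp := Real.pi_pos
  set m : ℝ := (a - b) / 2 with hmdef
  have hm : 0 < m := by
    rw [hmdef]
    linarith
  have hm' : m < a - b := by
    rw [hmdef]
    linarith
  have hVs : ContDiff ℝ ∞ (V0 a b) := (per_V0 a b).smooth
  refine ⟨CutAux.FF a b m, ⟨?_, ?_, ?_⟩, ?_, ?_⟩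
  · -- smooth
    rw [contDiff_iff_contDiffAt]
    intro x
    obtain ⟨j, h | h⟩ := CutAux.local_desc hb hm hm' x
    · exact ContDiffAt.congr_of_eventuallyEq
        ((contDiff_fst.sub contDiff_const).contDiffAt) h
    · refine ContDiffAt.congr_of_eventuallyEq ?_ h
      exact ((contDiff_fst.sub contDiff_const).sub
        (contDiff_const.mul ((CutAux.contDiff_eta m).comp hVs))).contDiffAt
  · intro x y
    obtain ⟨h1, h2⟩ := CutAux.kap_spec x
    have hcast : ((CutAux.kap x + 1 : ℤ) : ℝ) = (CutAux.kap x : ℝ) + 1 := by push_cast; ring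
    have hk : CutAux.kap (x + 2 * Real.pi) = CutAux.kap x + 1 := by
      apply CutAux.kap_eq
      · rw [hcast]
        linarith
      · rw [hcast]
        linarith
    unfold CutAux.FF V0
    simp only [Real.cos_add_two_pi, Real.sin_add_two_pi]
    rw [hk, hcast]
    ring
  · intro x y
    unfold CutAux.FF V0
    simp only [Real.sin_add_two_pi]
  · intro x
    obtain ⟨h1, h2⟩ := CutAux.kap_spec x.1
    have hV : V0 a b (-x.1, -x.2) = -V0 a b x := by
      unfold V0
      simp only [Real.sin_neg]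
      ring
    by_cases hc : Real.cos x.1 < 0
    · have h3 : Real.pi / 2 + 2 * Real.pi * CutAux.kap x.1 < x.1 := by
        by_contra hcon
        push Not at hcon
        exact absurd hc (not_lt.mpr (CutAux.cos_nn h1 hcon))
      have hcast : ((-CutAux.kap x.1 - 1 : ℤ) : ℝ) = -(CutAux.kap x.1 : ℝ) - 1 := by push_cast; ring
      have hk : CutAux.kap (-x.1) = -CutAux.kap x.1 - 1 := by
        apply CutAux.kap_eq
        · rw [hcast]
          linarith
        · rw [hcast]
          linarith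
      unfold CutAux.FF
      rw [hV]
      simp only [Real.cos_neg]
      rw [if_pos hc, if_pos hc, hk, hcast, CutAux.eta_neg hm]
      ring
    · have h3 : x.1 ≤ Real.pi / 2 + 2 * Real.pi * CutAux.kap x.1 := by
        by_contra hcon
        push Not at hcon
        exact hc (CutAux.cos_ng hcon h2)
      have hcast : ((-CutAux.kap x.1 : ℤ) : ℝ) = -(CutAux.kap x.1 : ℝ) := by push_cast; ring
      have hk : CutAux.kap (-x.1) = -CutAux.kap x.1 := by
        apply CutAux.kap_eq
        · rw [hcast]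
          linarith
        · rw [hcast]
          linarith
      unfold CutAux.FF
      simp only [Real.cos_neg]
      rw [if_neg hc, if_neg hc, hk, hcast]
      ring
  · intro x
    have e1 : fderiv ℝ (V0 a b) x (1, 0) = a * Real.cos x.1 := congrFun (d1_V0 a b) x
    have e2 : fderiv ℝ (V0 a b) x (0, 1) = b * Real.cos x.2 := congrFun (d2_V0 a b) x
    obtain ⟨j, h | h⟩ := CutAux.local_desc hb hm hm' x
    · have hf : fderiv ℝ (CutAux.FF a b m) x = ContinuousLinearMap.fst ℝ ℝ ℝ :=
        ((CutAux.hasFD_lin j x).congr_of_eventuallyEq h).fderiv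
      unfold br d1 d2
      rw [hf, e1, e2]
      simp
    · have hf : fderiv ℝ (CutAux.FF a b m) x = ContinuousLinearMap.fst ℝ ℝ ℝ -
          (2 * Real.pi) • (deriv (CutAux.eta m) (V0 a b x) • fderiv ℝ (V0 a b) x) :=
        (((CutAux.hasFD_lin j x).fun_sub (CutAux.hasFD_eta a b m x)).congr_of_eventuallyEq h).fderiv
      unfold br d1 d2
      rw [hf]
      simp only [sub_apply, smul_apply,
        ContinuousLinearMap.coe_fst', smul_eq_mul]
      rw [e1, e2]
      ring

end Pool.Agent.Lib.EI
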