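import Pool.Agent.Lib.EI.TRem

/-!
MODULE DStat (1.5 h). The drift of `c = ∫ ω cos x₂`, static estimate.

Proof. `g = lap f + f`. `{f, cos x₂} = d1 f · (-sin x₂)` (`d1_c2`, `d2_c2`), and
`f = VV p + rem f`, `d1 f = (p0 cos x₁ - p1 sin x₁) + d1 (rem f)` (`d1_VV`, `rem f x = f x - VV (co f) x`).
So `∫ g {f, cos x₂} = -a ∫ g cos x₁ sin x₂ - ∫ g ((p0 - a) cos x₁ - p1 sin x₁) sin x₂ - ∫ g d1(rem f) sin x₂`.
* second term: `≤ ‖g‖ · 2π (|p0-a| + |p1|)` (`tint_cs`, `nrm_le_of_bound`);
* third term: `≤ ‖g‖ gn (rem f)` (`nrm_mul_le` with `|sin x₂| ≤ 1`, `nrm_d1_le`);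
* first term: `g = (g - δ G) + δ (G - H) + δ H`, `G = lap Φ + Φ`; `‖cos x₁ sin x₂‖ ≤ 2π`; so it is
  `-a δ ∫ H cos x₁ sin x₂` up to `2π a (‖g - δ G‖ + δ κ)`.
* `∫ H cos x₁ sin x₂`: by `tint_br` with `f := V0 a b`, `g := H`, `h := cos x₂`:
  `∫ cos x₂ {V0, H} = -∫ H {V0, cos x₂}`, the left side is `-b ∫ cos² x₂ = -2π² b` (`tint_bas_bas` at
  `i = j = 3`), and `{V0, cos x₂} = a cos x₁ · (-sin x₂)` (`d1_V0`, `d2_V0`). So
  `a ∫ H cos x₁ sin x₂ = -2π² b`, and the main term is `+2π² b δ`.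
-/

set_option autoImplicit false

open MeasureTheory Set
open scoped ContDiff

namespace Pool.Agent.Lib.EI

private theorem br_cos2 {f : ℝ × ℝ → ℝ} (x : ℝ × ℝ) :
    br f (fun y => Real.cos y.2) x = -(d1 f x * Real.sin x.2) := by
  unfold br
  rw [congrFun d1_c2 x, congrFun d2_c2 x]
  ring

private theorem perC : Per fun x : ℝ × ℝ => Real.cos x.1 * Real.sin x.2 := per_c1.mul per_s2

private theorem nrmC : nrm (fun x : ℝ × ℝ => Real.cos x.1 * Real.sin x.2) ≤ 2 * Real.pi := by
  have h := nrm_le_of_bound (M := 1) perC.continuous fun x => by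
    rw [abs_mul]
    calc |Real.cos x.1| * |Real.sin x.2| ≤ 1 * 1 :=
          mul_le_mul (Real.abs_cos_le_one _) (Real.abs_sin_le_one _) (abs_nonneg _) zero_le_one
      _ = 1 := one_mul 1
  linarith

/-- The main term. -/
private theorem mainC {a b : ℝ} {H : ℝ × ℝ → ℝ} (hH : Per H)
    (hbr : ∀ x, br (V0 a b) H x = -(b * Real.cos x.2)) :
    a * tint (fun x => H x * (Real.cos x.1 * Real.sin x.2)) = -(2 * Real.pi ^ 2 * b) := by
  have h1 := tint_br (per_V0 a b) hH per_c2
  have h2 : (fun x : ℝ × ℝ => Real.cos x.2 * br (V0 a b) H x) =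
      fun x => (-b) * (bas 3 x * bas 3 x) := by
    funext x
    rw [hbr x]
    simp only [bas]
    ring
  have h3 : (fun x : ℝ × ℝ => H x * br (V0 a b) (fun y => Real.cos y.2) x) =
      fun x => (-a) * (H x * (Real.cos x.1 * Real.sin x.2)) := by
    funext x
    rw [br_cos2, congrFun (d1_V0 a b) x]
    ring
  rw [h2, h3, tint_const_mul, tint_const_mul, tint_bas_bas, if_pos rfl] at h1
  linarith

theorem dstat {a b κ δ : ℝ} {H Φ f : ℝ × ℝ → ℝ} (ha : 0 ≤ a) (hδ : 0 ≤ δ) (hH : Per H) (hΦ : Per Φ)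
    (hf : Per f) (hbr : ∀ x, br (V0 a b) H x = -(b * Real.cos x.2))
    (hκ : nrm (fun x => lap Φ x + Φ x - H x) ≤ κ) :
    |tint (fun x => (lap f x + f x) * br f (fun y => Real.cos y.2) x) - 2 * Real.pi ^ 2 * b * δ| ≤
      2 * Real.pi * a * (nrm (fun x => (lap f x + f x) - δ * (lap Φ x + Φ x)) + κ * δ) +
        nrm (fun x => lap f x + f x) *
          (2 * Real.pi * (|co f 0 - a| + |co f 1|) + gn (rem f)) := by
  have hg : Per fun x => lap f x + f x := hf.lap.add hf
  have hG : Per fun x => lap Φ x + Φ x := hΦ.lap.add hΦ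
  have hr : Per (rem f) := per_rem hf
  have hE : Per fun x => (lap f x + f x) - δ * (lap Φ x + Φ x) := hg.sub (hG.const_mul δ)
  have hK : Per fun x => lap Φ x + Φ x - H x := hG.sub hH
  have hA2 : Per fun x : ℝ × ℝ =>
      ((co f 0 - a) * Real.cos x.1 - co f 1 * Real.sin x.1) * Real.sin x.2 :=
    ((per_c1.const_mul _).sub (per_s1.const_mul _)).mul per_s2
  have hA3 : Per fun x : ℝ × ℝ => Real.sin x.2 * d1 (rem f) x := per_s2.mul hr.d1
  -- the derivative of `f`
  have hd : ∀ x, d1 f x = (co f 0 * Real.cos x.1 - co f 1 * Real.sin x.1) + d1 (rem f) x := by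
    intro x
    have h1 : rem f = fun x => f x - VV (co f) x := rfl
    rw [h1, congrFun (d1_sub hf (per_VV (co f))) x, congrFun (d1_VV (co f)) x]
    ring
  -- the splitting
  have hsplit : (fun x => (lap f x + f x) * br f (fun y => Real.cos y.2) x) = fun x =>
      (((-a) * (((lap f x + f x) - δ * (lap Φ x + Φ x)) * (Real.cos x.1 * Real.sin x.2)) +
        (-(a * δ)) * ((lap Φ x + Φ x - H x) * (Real.cos x.1 * Real.sin x.2))) +
        (-(a * δ)) * (H x * (Real.cos x.1 * Real.sin x.2))) +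
      ((-1) * ((lap f x + f x) * (((co f 0 - a) * Real.cos x.1 - co f 1 * Real.sin x.1) *
        Real.sin x.2)) +
      (-1) * ((lap f x + f x) * (Real.sin x.2 * d1 (rem f) x))) := by
    funext x
    rw [br_cos2, hd x]
    ring
  have c1 := (hE.mul perC).const_mul (-a)
  have c2 := (hK.mul perC).const_mul (-(a * δ))
  have c3 := (hH.mul perC).const_mul (-(a * δ))
  have c4 := (hg.mul hA2).const_mul (-1)
  have c5 := (hg.mul hA3).const_mul (-1)
  rw [hsplit, tint_add ((c1.add c2).add c3).continuous (c4.add c5).continuous,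
    tint_add (c1.add c2).continuous c3.continuous, tint_add c1.continuous c2.continuous,
    tint_add c4.continuous c5.continuous, tint_const_mul, tint_const_mul, tint_const_mul,
    tint_const_mul, tint_const_mul]
  have hm := mainC hH hbr
  have e1 := tint_cs hE.continuous perC.continuous
  have e2 := tint_cs hK.continuous perC.continuous
  have e4 := tint_cs hg.continuous hA2.continuous
  have e5 := tint_cs hg.continuous hA3.continuous
  have n4 : nrm (fun x : ℝ × ℝ =>
      ((co f 0 - a) * Real.cos x.1 - co f 1 * Real.sin x.1) * Real.sin x.2) ≤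
      2 * Real.pi * (|co f 0 - a| + |co f 1|) := by
    refine nrm_le_of_bound hA2.continuous fun x => ?_
    rw [abs_mul]
    have h1 : |(co f 0 - a) * Real.cos x.1 - co f 1 * Real.sin x.1| ≤ |co f 0 - a| + |co f 1| := by
      refine (abs_sub _ _).trans (add_le_add ?_ ?_)
      · rw [abs_mul]
        exact mul_le_of_le_one_right (abs_nonneg _) (Real.abs_cos_le_one _)
      · rw [abs_mul]
        exact mul_le_of_le_one_right (abs_nonneg _) (Real.abs_sin_le_one _)
    calc _ ≤ (|co f 0 - a| + |co f 1|) * 1 :=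
          mul_le_mul h1 (Real.abs_sin_le_one _) (abs_nonneg _) (by positivity)
      _ = _ := mul_one _
  have n5 : nrm (fun x : ℝ × ℝ => Real.sin x.2 * d1 (rem f) x) ≤ gn (rem f) := by
    have h1 := nrm_mul_le (M := 1) per_s2.continuous hr.d1.continuous
      fun x => Real.abs_sin_le_one _
    have h2 := nrm_d1_le hr
    linarith
  have hn := nrm_nonneg fun x => lap f x + f x
  have f1 : |tint fun x => ((lap f x + f x) - δ * (lap Φ x + Φ x)) *
      (Real.cos x.1 * Real.sin x.2)| ≤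
      nrm (fun x => (lap f x + f x) - δ * (lap Φ x + Φ x)) * (2 * Real.pi) :=
    e1.trans (mul_le_mul_of_nonneg_left nrmC (nrm_nonneg _))
  have f2 : |tint fun x => (lap Φ x + Φ x - H x) * (Real.cos x.1 * Real.sin x.2)| ≤
      κ * (2 * Real.pi) :=
    e2.trans (mul_le_mul hκ nrmC (nrm_nonneg _) ((nrm_nonneg _).trans hκ))
  have f4 := e4.trans (mul_le_mul_of_nonneg_left n4 hn)
  have f5 := e5.trans (mul_le_mul_of_nonneg_left n5 hn)
  have haδ : 0 ≤ a * δ := mul_nonneg ha hδ
  set I1 := tint fun x => ((lap f x + f x) - δ * (lap Φ x + Φ x)) *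
      (Real.cos x.1 * Real.sin x.2) with hI1
  set I2 := tint fun x => (lap Φ x + Φ x - H x) * (Real.cos x.1 * Real.sin x.2) with hI2
  set I3 := tint fun x => H x * (Real.cos x.1 * Real.sin x.2) with hI3
  set I4 := tint fun x => (lap f x + f x) * (((co f 0 - a) * Real.cos x.1 -
      co f 1 * Real.sin x.1) * Real.sin x.2) with hI4
  set I5 := tint fun x => (lap f x + f x) * (Real.sin x.2 * d1 (rem f) x) with hI5
  set N := nrm fun x => lap f x + f x with hN
  set E := nrm fun x => (lap f x + f x) - δ * (lap Φ x + Φ x) with hEd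
  have g1 : |a * I1| ≤ a * (E * (2 * Real.pi)) := by
    rw [abs_mul, abs_of_nonneg ha]
    exact mul_le_mul_of_nonneg_left f1 ha
  have g2 : |a * δ * I2| ≤ a * δ * (κ * (2 * Real.pi)) := by
    rw [abs_mul, abs_of_nonneg haδ]
    exact mul_le_mul_of_nonneg_left f2 haδ
  have g3 : a * δ * I3 = -(2 * Real.pi ^ 2 * b * δ) := by
    calc a * δ * I3 = δ * (a * I3) := by ring
      _ = _ := by rw [hm]; ring
  rw [abs_le] at g1 g2 f4 f5 ⊢
  obtain ⟨g1a, g1b⟩ := g1
  obtain ⟨g2a, g2b⟩ := g2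
  obtain ⟨f4a, f4b⟩ := f4
  obtain ⟨f5a, f5b⟩ := f5
  constructor <;> nlinarith
end Pool.Agent.Lib.EI
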