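import Mathlib

/-!
# Instability of lowest-mode Euler flows on the square torus: definitions

Functions on the torus `ℝ² / (2π ℤ)²` are `2π`-periodic functions on `ℝ × ℝ`.
-/

set_option autoImplicit false

open MeasureTheory Set
open scoped ContDiff

namespace Pool.Agent.Lib.EI

/-- `∂f/∂x₁` -/
noncomputable def d1 (f : ℝ × ℝ → ℝ) (x : ℝ × ℝ) : ℝ := fderiv ℝ f x (1, 0)

/-- `∂f/∂x₂` -/
noncomputable def d2 (f : ℝ × ℝ → ℝ) (x : ℝ × ℝ) : ℝ := fderiv ℝ f x (0, 1)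

/-- The Laplacian `∂²f/∂x₁² + ∂²f/∂x₂²`. -/
noncomputable def lap (f : ℝ × ℝ → ℝ) (x : ℝ × ℝ) : ℝ := d1 (d1 f) x + d2 (d2 f) x

/-- The integral over the torus. -/
noncomputable def tint (f : ℝ × ℝ → ℝ) : ℝ :=
  ∫ x in Icc (0 : ℝ) (2 * Real.pi) ×ˢ Icc (0 : ℝ) (2 * Real.pi), f x

/-- Smooth functions on the torus. -/
structure Per (f : ℝ × ℝ → ℝ) : Prop where
  smooth : ContDiff ℝ ∞ f
  per1 : ∀ x y : ℝ, f (x + 2 * Real.pi, y) = f (x, y)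
  per2 : ∀ x y : ℝ, f (x, y + 2 * Real.pi) = f (x, y)

/-- Smooth time dependent functions on the torus. -/
structure TPer (F : ℝ → ℝ × ℝ → ℝ) : Prop where
  smooth : ContDiff ℝ ∞ fun z : ℝ × ℝ × ℝ => F z.1 z.2
  per1 : ∀ t x y : ℝ, F t (x + 2 * Real.pi, y) = F t (x, y)
  per2 : ∀ t x y : ℝ, F t (x, y + 2 * Real.pi) = F t (x, y)

/-- The derivative in time. -/
noncomputable def dt (F : ℝ → ℝ × ℝ → ℝ) (t : ℝ) (x : ℝ × ℝ) : ℝ := deriv (fun s => F s x) t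

/-- `ψ` is the stream function (of mean zero) of a smooth solution of the Euler equations
`∂ₜω + u·∇ω = 0`, `u = (-∂₂ψ, ∂₁ψ)`, `ω = Δψ`, for times `0 ≤ t ≤ T`. -/
structure Sol (T : ℝ) (ψ : ℝ → ℝ × ℝ → ℝ) : Prop where
  tper : TPer ψ
  mean : ∀ t, tint (ψ t) = 0
  euler : ∀ t, 0 ≤ t → t ≤ T → ∀ x,
    dt (fun s => lap (ψ s)) t x + (-d2 (ψ t) x * d1 (lap (ψ t)) x + d1 (ψ t) x * d2 (lap (ψ t)) x) = 0

/-- The `L²` norm on the torus. -/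
noncomputable def nrm (f : ℝ × ℝ → ℝ) : ℝ := Real.sqrt (tint fun x => f x ^ 2)

/-- `‖u - v‖₂ + ‖curl u - curl v‖₂` for the velocity fields with stream functions `f` and `g`. -/
noncomputable def dst (f g : ℝ × ℝ → ℝ) : ℝ :=
  Real.sqrt (tint fun x => (d1 (fun y => f y - g y) x) ^ 2 + (d2 (fun y => f y - g y) x) ^ 2) +
    nrm (lap fun y => f y - g y)

/-- Quantitative instability of the stationary flow with stream function `ψs`: for every `δ` there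
are smooth initial data at distance at most `δ` from which no smooth solution stays within
distance `ε` for the time `C / δ`. -/
def Unst (ψs : ℝ × ℝ → ℝ) : Prop :=
  ∃ ε > 0, ∃ C > 0, ∀ δ > 0, δ ≤ 1 → ∃ χ : ℝ × ℝ → ℝ, Per χ ∧ tint χ = 0 ∧ dst χ ψs ≤ δ ∧
    ∀ ψ, Sol (C / δ) ψ → (∀ x, ψ 0 x = χ x) → ∃ t, 0 ≤ t ∧ t ≤ C / δ ∧ ε ≤ dst (ψ t) ψs

/-- The Poisson bracket `∂₁f ∂₂g - ∂₂f ∂₁g`. -/
noncomputable def br (f g : ℝ × ℝ → ℝ) (x : ℝ × ℝ) : ℝ := d1 f x * d2 g x - d2 f x * d1 g x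

end Pool.Agent.Lib.EI
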