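import Mathlib

/-!
A one-dimensional inequality.

PROOF. Let `g = 2 f'' + f` and `G s = π sin ((s - π)/√2) / sin (π/√2)` (`sin (π/√2) > 0`). Then
`2 G'' + G = 0`, `G 0 = -π`, `G (2π) = π`, and `(2 G f' - 2 G' f)' = 2 G f'' - 2 G'' f = G g`, so
`∫ G g = 2 G(2π) f'(2π) - 2 G(0) f'(0) = 4 π f'(0)` (fundamental theorem; `f 0 = f (2π) = 0`).
Hence the left side is `|∫ (G + 4 sin) g| ≤ √(∫ (G + 4 sin)²) √(∫ g²)` (Cauchy-Schwarz) and it remains to see
`∫ (G + 4 sin)² ≤ 6π`. Taking `f = sin` above (`g = -sin`): `∫ G sin = -4π`. `∫ 16 sin² = 16π`.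
`∫ G² = (π/sin(π/√2))² (π - sin(√2 π)/√2) ≤ (π/sin(π/√2))² (π + 1/√2)`. So the total is at most
`(π/sin(π/√2))² (π + 1/√2) - 16π`, and this is `≤ 6π` as soon as `sin (π/√2) ≥ 0.742`: indeed
`π² (π + 1/√2) ≤ 37.99` and `37.99 / 0.742² ≤ 69.01 ≤ 22 π`. Finally `sin (π/√2) = sin (π - π/√2)` and
`0.92 < π - π/√2 < 0.9202`, and `Real.sin_bound` gives `sin u ≥ u - u³/6 - (5/96) u⁴ ≥ 0.75`.
-/

set_option autoImplicit false

open MeasureTheory Set intervalIntegral
open scoped ContDiff

namespace Pool.Agent.Lib.EI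

namespace OneDAux

/-- the frequency `√2 / 2 = 1 / √2` -/
noncomputable def w : ℝ := Real.sqrt 2 / 2

theorem w_sq : w * w = 1 / 2 := by
  have h := Real.mul_self_sqrt (show (0 : ℝ) ≤ 2 by norm_num)
  unfold w
  nlinarith

theorem w_pos : 0 < w := by
  unfold w
  positivity

theorem w_lo : 0.7071 < w := by
  have h : (1.4142 : ℝ) < Real.sqrt 2 := by
    apply Real.lt_sqrt_of_sq_lt
    norm_num
  unfold w
  linarith

theorem w_hi : w < 0.7072 := by
  have h : Real.sqrt 2 < 1.4143 := by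
    rw [Real.sqrt_lt' (by norm_num)]
    norm_num
  unfold w
  linarith

/-- `sin (π / √2)` -/
noncomputable def s0 : ℝ := Real.sin (Real.pi * w)

theorem s0_lo : 0.75 ≤ s0 := by
  have h1 : s0 = Real.sin (Real.pi - Real.pi * w) := by
    unfold s0
    rw [Real.sin_pi_sub]
  have hp1 := Real.pi_gt_d4
  have hp2 := Real.pi_lt_d4
  have hw1 := w_lo
  have hw2 := w_hi
  set u : ℝ := Real.pi - Real.pi * w with hu
  have hu1 : 0.9198 ≤ u := by
    rw [hu]
    nlinarith
  have hu2 : u ≤ 0.9203 := by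
    rw [hu]
    nlinarith
  have hb := Real.sin_bound (x := u) (by rw [abs_le]; constructor <;> linarith)
  have hb' := (abs_le.1 hb).1
  have hua : |u| = u := abs_of_nonneg (by linarith)
  rw [hua] at hb'
  rw [h1]
  have h2 : u ^ 3 ≤ 0.7795 := by
    calc u ^ 3 ≤ (0.9203 : ℝ) ^ 3 := by gcongr
      _ ≤ 0.7795 := by norm_num
  have h3 : u ^ 4 ≤ 0.7174 := by
    calc u ^ 4 ≤ (0.9203 : ℝ) ^ 4 := by gcongr
      _ ≤ 0.7174 := by norm_num
  nlinarith

theorem s0_pos : 0 < s0 := lt_of_lt_of_le (by norm_num) s0_lo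

/-- the function `G` -/
noncomputable def G (s : ℝ) : ℝ := Real.pi / s0 * Real.sin ((s - Real.pi) * w)

/-- its derivative -/
noncomputable def G' (s : ℝ) : ℝ := Real.pi / s0 * (Real.cos ((s - Real.pi) * w) * w)

theorem hasDerivAt_lin (s : ℝ) : HasDerivAt (fun s : ℝ => (s - Real.pi) * w) w s := by
  simpa using ((hasDerivAt_id s).sub_const Real.pi).mul_const w

theorem hasDerivAt_G (s : ℝ) : HasDerivAt G (G' s) s := by
  have h := (((hasDerivAt_lin s).sin).const_mul (Real.pi / s0))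
  exact h

theorem hasDerivAt_G' (s : ℝ) : HasDerivAt G' (-(1 / 2) * G s) s := by
  have h := ((((hasDerivAt_lin s).cos).mul_const w).const_mul (Real.pi / s0))
  refine h.congr_deriv ?_
  unfold G
  have := w_sq
  linear_combination (-(Real.pi / s0) * Real.sin ((s - Real.pi) * w)) * this

theorem cont_G : Continuous G := by
  unfold G
  fun_prop

theorem G_zero : G 0 = -Real.pi := by
  unfold G
  have h : (0 - Real.pi) * w = -(Real.pi * w) := by ring
  rw [h, Real.sin_neg]
  have h0 : s0 ≠ 0 := s0_pos.ne'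
  change Real.pi / s0 * (-s0) = -Real.pi
  field_simp

theorem G_two_pi : G (2 * Real.pi) = Real.pi := by
  unfold G
  have h : (2 * Real.pi - Real.pi) * w = Real.pi * w := by ring
  rw [h]
  have h0 : s0 ≠ 0 := s0_pos.ne'
  change Real.pi / s0 * s0 = Real.pi
  field_simp

theorem int_G {f f' f'' : ℝ → ℝ} (hf : ∀ s, HasDerivAt f (f' s) s)
    (hf' : ∀ s, HasDerivAt f' (f'' s) s)
    (hc : Continuous f'') (h0 : f 0 = 0) (h1 : f (2 * Real.pi) = 0)
    (h2 : f' (2 * Real.pi) = f' 0) :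
    ∫ s in (0 : ℝ)..2 * Real.pi, G s * (2 * f'' s + f s) = 4 * Real.pi * f' 0 := by
  have hcf : Continuous f := continuous_iff_continuousAt.2 fun s => (hf s).continuousAt
  have key : ∀ s, HasDerivAt (fun s => 2 * (G s * f' s) - 2 * (G' s * f s))
      (G s * (2 * f'' s + f s)) s := by
    intro s
    have h := (((hasDerivAt_G s).mul (hf' s)).const_mul 2).sub
      (((hasDerivAt_G' s).mul (hf s)).const_mul 2)
    refine h.congr_deriv ?_
    ring
  rw [intervalIntegral.integral_eq_sub_of_hasDerivAt (fun s _ => key s)]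
  · rw [h0, h1, h2, G_zero, G_two_pi]
    ring
  · apply Continuous.intervalIntegrable
    exact cont_G.mul ((continuous_const.mul hc).add hcf)

theorem int_G_sin : ∫ s in (0 : ℝ)..2 * Real.pi, G s * Real.sin s = -(4 * Real.pi) := by
  have h := int_G (f := Real.sin) (f' := Real.cos) (f'' := fun s => -Real.sin s)
    (fun s => Real.hasDerivAt_sin s) (fun s => Real.hasDerivAt_cos s)
    (by fun_prop) Real.sin_zero Real.sin_two_pi (by rw [Real.cos_two_pi, Real.cos_zero])
  have h' : ∀ s : ℝ, G s * (2 * (-Real.sin s) + Real.sin s) = -(G s * Real.sin s) := by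
    intro s
    ring
  simp only [h'] at h
  rw [intervalIntegral.integral_neg, Real.cos_zero] at h
  linarith

theorem int_G_sq : ∫ s in (0 : ℝ)..2 * Real.pi, G s ^ 2 ≤
    (Real.pi / s0) ^ 2 * (Real.pi + w) := by
  have key : ∀ s, HasDerivAt (fun s => (Real.pi / s0) ^ 2 *
      (1 / 2 * s - w / 2 * Real.sin (2 * ((s - Real.pi) * w)))) (G s ^ 2) s := by
    intro s
    have h := (((hasDerivAt_id s).const_mul (1 / 2 : ℝ)).sub
      (((((hasDerivAt_lin s).const_mul 2)).sin).const_mul (w / 2))).const_mul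
      ((Real.pi / s0) ^ 2)
    refine h.congr_deriv ?_
    unfold G
    rw [Real.cos_two_mul]
    have hsc := Real.sin_sq_add_cos_sq ((s - Real.pi) * w)
    have hw := w_sq
    have e : w / 2 * ((2 * Real.cos ((s - Real.pi) * w) ^ 2 - 1) * (2 * w)) =
        (w * w) * (2 * Real.cos ((s - Real.pi) * w) ^ 2 - 1) := by ring
    rw [e, hw]
    have e2 : Real.sin ((s - Real.pi) * w) ^ 2 = 1 - Real.cos ((s - Real.pi) * w) ^ 2 := by
      linarith
    rw [mul_pow, e2]
    ring
  rw [intervalIntegral.integral_eq_sub_of_hasDerivAt (fun s _ => key s)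
    ((cont_G.pow 2).intervalIntegrable _ _)]
  have e1 : 2 * ((2 * Real.pi - Real.pi) * w) = 2 * Real.pi * w := by ring
  have e2 : 2 * ((0 - Real.pi) * w) = -(2 * Real.pi * w) := by ring
  rw [e1, e2, Real.sin_neg]
  have hs : -1 ≤ Real.sin (2 * Real.pi * w) := Real.neg_one_le_sin _
  have hw := w_pos
  have hk : 0 ≤ (Real.pi / s0) ^ 2 := by positivity
  have : (Real.pi / s0) ^ 2 * (1 / 2 * (2 * Real.pi) - w / 2 * Real.sin (2 * Real.pi * w)) -
      (Real.pi / s0) ^ 2 * (1 / 2 * 0 - w / 2 * -Real.sin (2 * Real.pi * w)) =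
      (Real.pi / s0) ^ 2 * (Real.pi - w * Real.sin (2 * Real.pi * w)) := by ring
  rw [this]
  apply mul_le_mul_of_nonneg_left _ hk
  nlinarith

theorem numeric : (Real.pi / s0) ^ 2 * (Real.pi + w) ≤ 22 * Real.pi := by
  have hp1 := Real.pi_gt_d4
  have hp2 := Real.pi_lt_d4
  have hw2 := w_hi
  have hw1 := w_pos
  have hs := s0_lo
  have h1 : Real.pi / s0 ≤ 3.1416 / 0.75 := by
    apply div_le_div₀ (by norm_num) hp2.le (by norm_num) hs
  have h2 : (Real.pi / s0) ^ 2 ≤ (3.1416 / 0.75) ^ 2 := by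
    apply pow_le_pow_left₀ (div_nonneg Real.pi_pos.le s0_pos.le) h1
  have h3 : Real.pi + w ≤ 3.8488 := by linarith
  calc (Real.pi / s0) ^ 2 * (Real.pi + w) ≤ (3.1416 / 0.75) ^ 2 * 3.8488 := by
        apply mul_le_mul h2 h3 (by positivity) (by norm_num)
    _ ≤ 22 * 3.1415 := by norm_num
    _ ≤ 22 * Real.pi := by linarith

theorem cs {u v : ℝ → ℝ} (hu : Continuous u) (hv : Continuous v) {a b : ℝ} (hab : a ≤ b) :
    |∫ s in a..b, u s * v s| ≤
      Real.sqrt (∫ s in a..b, u s ^ 2) * Real.sqrt (∫ s in a..b, v s ^ 2) := by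
  have iuu : IntervalIntegrable (fun s => u s ^ 2) volume a b := (hu.pow 2).intervalIntegrable _ _
  have ivv : IntervalIntegrable (fun s => v s ^ 2) volume a b := (hv.pow 2).intervalIntegrable _ _
  have iuv : IntervalIntegrable (fun s => u s * v s) volume a b :=
    (hu.mul hv).intervalIntegrable _ _
  have hA : 0 ≤ ∫ s in a..b, u s ^ 2 :=
    intervalIntegral.integral_nonneg hab fun s _ => sq_nonneg _
  rw [← Real.sqrt_mul hA]
  apply Real.abs_le_sqrt
  have hq : ∀ t : ℝ, 0 ≤ (∫ s in a..b, v s ^ 2) * (t * t) + (2 * ∫ s in a..b, u s * v s) * t +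
      ∫ s in a..b, u s ^ 2 := by
    intro t
    have h1 : 0 ≤ ∫ s in a..b, (u s + t * v s) ^ 2 :=
      intervalIntegral.integral_nonneg hab fun s _ => sq_nonneg _
    have h2 : ∫ s in a..b, (u s + t * v s) ^ 2 =
        ∫ s in a..b, (u s ^ 2 + ((2 * t) * (u s * v s) + (t * t) * v s ^ 2)) := by
      congr 1
      funext s
      ring
    rw [h2, intervalIntegral.integral_add iuu ((iuv.const_mul _).add (ivv.const_mul _)),
      intervalIntegral.integral_add (iuv.const_mul _) (ivv.const_mul _),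
      intervalIntegral.integral_const_mul, intervalIntegral.integral_const_mul] at h1
    linarith
  have hd := discrim_le_zero hq
  unfold discrim at hd
  nlinarith

end OneDAux

open OneDAux in
theorem oneD {f f' f'' : ℝ → ℝ} (hf : ∀ s, HasDerivAt f (f' s) s) (hf' : ∀ s, HasDerivAt f' (f'' s) s)
    (hc : Continuous f'') (h0 : f 0 = 0) (h1 : f (2 * Real.pi) = 0)
    (h2 : f' (2 * Real.pi) = f' 0) :
    |4 * Real.pi * f' 0 + 4 * ∫ s in (0 : ℝ)..2 * Real.pi, Real.sin s * (2 * f'' s + f s)| ≤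
      Real.sqrt (6 * Real.pi) * Real.sqrt (∫ s in (0 : ℝ)..2 * Real.pi, (2 * f'' s + f s) ^ 2) := by
  have hcf : Continuous f := continuous_iff_continuousAt.2 fun s => (hf s).continuousAt
  have hcg : Continuous (fun s => 2 * f'' s + f s) := (continuous_const.mul hc).add hcf
  have hcs : Continuous (fun s => G s + 4 * Real.sin s) :=
    cont_G.add (continuous_const.mul Real.continuous_sin)
  have hpi : (0 : ℝ) ≤ 2 * Real.pi := by positivity
  have e1 : 4 * Real.pi * f' 0 + 4 * ∫ s in (0 : ℝ)..2 * Real.pi, Real.sin s * (2 * f'' s + f s) =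
      ∫ s in (0 : ℝ)..2 * Real.pi, (G s + 4 * Real.sin s) * (2 * f'' s + f s) := by
    rw [← int_G hf hf' hc h0 h1 h2, ← intervalIntegral.integral_const_mul,
      ← intervalIntegral.integral_add]
    · congr 1
      funext s
      ring
    · exact (cont_G.mul hcg).intervalIntegrable _ _
    · exact (continuous_const.mul (Real.continuous_sin.mul hcg)).intervalIntegrable _ _
  rw [e1]
  refine (cs hcs hcg hpi).trans ?_
  apply mul_le_mul_of_nonneg_right _ (Real.sqrt_nonneg _)
  apply Real.sqrt_le_sqrt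
  have e2 : ∫ s in (0 : ℝ)..2 * Real.pi, (G s + 4 * Real.sin s) ^ 2 =
      ∫ s in (0 : ℝ)..2 * Real.pi, (G s ^ 2 + (8 * (G s * Real.sin s) + 16 * Real.sin s ^ 2)) := by
    congr 1
    funext s
    ring
  have i1 : IntervalIntegrable (fun s => G s ^ 2) volume 0 (2 * Real.pi) :=
    (cont_G.pow 2).intervalIntegrable _ _
  have i2 : IntervalIntegrable (fun s => 8 * (G s * Real.sin s)) volume 0 (2 * Real.pi) :=
    (continuous_const.mul (cont_G.mul Real.continuous_sin)).intervalIntegrable _ _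
  have i3 : IntervalIntegrable (fun s => 16 * Real.sin s ^ 2) volume 0 (2 * Real.pi) :=
    (continuous_const.mul (Real.continuous_sin.pow 2)).intervalIntegrable _ _
  rw [e2, intervalIntegral.integral_add i1 (i2.add i3), intervalIntegral.integral_add i2 i3,
    intervalIntegral.integral_const_mul, intervalIntegral.integral_const_mul, int_G_sin,
    integral_sin_sq]
  have hs2 : Real.sin (2 * Real.pi) = 0 := Real.sin_two_pi
  rw [hs2, Real.sin_zero]
  have hn := numeric
  have hG := int_G_sq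
  linarith

end Pool.Agent.Lib.EI
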