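import Pool.Agent.Lib.EI.Int
import Pool.Agent.Lib.P3e0609.Fourier

/-!
Poincare inequalities on the torus.

PROOF. Fourier series. A complete orthonormal system `ek (2π) k` of `L²` of the period cell `(0, 2π]²` and Parseval's
identity (`parseval`, `fourierC`, `fourierC_eq`) are in `Pool.Agent.Lib.P3e0609.Fourier` (`L = 2 * π`; its
integral `∫ x, f x ∂tm L` is over `Ioc × Ioc`, equal to `tint f` up to a null set); import it. By integration by parts (`tint_mul_d1` with the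
real and imaginary parts of `ek`, i.e. `cos (k·x)` and `sin (k·x)`, which are `Per`) the coefficients of
`d1 f`, `d2 f` are `i k.1 f^(k)`, `i k.2 f^(k)`. So `∫ f² = 4π² ∑ |f^(k)|²` and
`∫ |∇f|² = 4π² ∑ |k|² |f^(k)|²`. The coefficient at `k = 0` vanishes since `tint f = 0`, hence (1). In (2) also the
coefficients at `(±1, 0)` and `(0, ±1)` vanish, and all other `k ≠ 0` have `|k|² ≥ 2`.
-/

set_option autoImplicit false

open MeasureTheory Set
open scoped ContDiff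

namespace Pool.Agent.Lib.EI

namespace PoinAux

open Pool.Agent.Lib.P3e0609 (tm cell ek fourierC fourierC_eq parseval tm_eq)

noncomputable def cK (k : ℤ × ℤ) (x : ℝ × ℝ) : ℝ := Real.cos (k.1 * x.1 + k.2 * x.2)

noncomputable def sK (k : ℤ × ℤ) (x : ℝ × ℝ) : ℝ := Real.sin (k.1 * x.1 + k.2 * x.2)

lemma per_cK (k : ℤ × ℤ) : Per (cK k) := by
  refine ⟨?_, fun x y => ?_, fun x y => ?_⟩
  · unfold cK
    exact Real.contDiff_cos.comp ((contDiff_const.mul contDiff_fst).add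
      (contDiff_const.mul contDiff_snd))
  · show Real.cos (k.1 * (x + 2 * Real.pi) + k.2 * y) = Real.cos (k.1 * x + k.2 * y)
    rw [← Real.cos_add_int_mul_two_pi (k.1 * x + k.2 * y) k.1]
    congr 1; ring
  · show Real.cos (k.1 * x + k.2 * (y + 2 * Real.pi)) = Real.cos (k.1 * x + k.2 * y)
    rw [← Real.cos_add_int_mul_two_pi (k.1 * x + k.2 * y) k.2]
    congr 1; ring

lemma per_sK (k : ℤ × ℤ) : Per (sK k) := by
  refine ⟨?_, fun x y => ?_, fun x y => ?_⟩
  · unfold sK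
    exact Real.contDiff_sin.comp ((contDiff_const.mul contDiff_fst).add
      (contDiff_const.mul contDiff_snd))
  · show Real.sin (k.1 * (x + 2 * Real.pi) + k.2 * y) = Real.sin (k.1 * x + k.2 * y)
    rw [← Real.sin_add_int_mul_two_pi (k.1 * x + k.2 * y) k.1]
    congr 1; ring
  · show Real.sin (k.1 * x + k.2 * (y + 2 * Real.pi)) = Real.sin (k.1 * x + k.2 * y)
    rw [← Real.sin_add_int_mul_two_pi (k.1 * x + k.2 * y) k.2]
    congr 1; ring

lemma lin_hasFDerivAt (k : ℤ × ℤ) (x : ℝ × ℝ) :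
    HasFDerivAt (fun x : ℝ × ℝ => (k.1 : ℝ) * x.1 + (k.2 : ℝ) * x.2)
      ((k.1 : ℝ) • ContinuousLinearMap.fst ℝ ℝ ℝ + (k.2 : ℝ) • ContinuousLinearMap.snd ℝ ℝ ℝ) x :=
  (hasFDerivAt_fst.const_mul _).add (hasFDerivAt_snd.const_mul _)

lemma fderiv_cK (k : ℤ × ℤ) (x v : ℝ × ℝ) :
    fderiv ℝ (cK k) x v = -(((k.1 : ℝ) * v.1 + (k.2 : ℝ) * v.2) * sK k x) := by
  have h1 : HasFDerivAt (cK k) _ x :=
    (Real.hasDerivAt_cos ((k.1 : ℝ) * x.1 + (k.2 : ℝ) * x.2)).comp_hasFDerivAt x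
      (lin_hasFDerivAt k x)
  rw [h1.fderiv]
  simp [sK]
  ring

lemma fderiv_sK (k : ℤ × ℤ) (x v : ℝ × ℝ) :
    fderiv ℝ (sK k) x v = ((k.1 : ℝ) * v.1 + (k.2 : ℝ) * v.2) * cK k x := by
  have h1 : HasFDerivAt (sK k) _ x :=
    (Real.hasDerivAt_sin ((k.1 : ℝ) * x.1 + (k.2 : ℝ) * x.2)).comp_hasFDerivAt x
      (lin_hasFDerivAt k x)
  rw [h1.fderiv]
  simp [cK]
  ring

lemma d1_cK (k : ℤ × ℤ) : d1 (cK k) = fun x => -(k.1 * sK k x) := by
  funext x; rw [d1, fderiv_cK]; simp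

lemma d2_cK (k : ℤ × ℤ) : d2 (cK k) = fun x => -(k.2 * sK k x) := by
  funext x; rw [d2, fderiv_cK]; simp

lemma d1_sK (k : ℤ × ℤ) : d1 (sK k) = fun x => k.1 * cK k x := by
  funext x; rw [d1, fderiv_sK]; simp

lemma d2_sK (k : ℤ × ℤ) : d2 (sK k) = fun x => k.2 * cK k x := by
  funext x; rw [d2, fderiv_sK]; simp

lemma tint_tm (f : ℝ × ℝ → ℝ) : tint f = ∫ x, f x ∂tm (2 * Real.pi) := by
  unfold tint
  rw [tm_eq, Measure.volume_eq_prod, ← Measure.prod_restrict,
    Measure.restrict_congr_set (Ioc_ae_eq_Icc (μ := (volume : Measure ℝ)) (a := 0)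
      (b := 2 * Real.pi))]

lemma memLp_per {f : ℝ × ℝ → ℝ} (hf : Per f) :
    MemLp (fun x => (f x : ℂ)) 2 (tm (2 * Real.pi)) := by
  obtain ⟨M, _, hM⟩ := hf.bounded
  refine MemLp.of_bound (Complex.continuous_ofReal.comp hf.continuous).aestronglyMeasurable M ?_
  exact Filter.Eventually.of_forall fun z => by
    rw [Complex.norm_real]; exact hM z

lemma integrable_per {f : ℝ × ℝ → ℝ} (hf : Per f) : Integrable f (tm (2 * Real.pi)) := by
  obtain ⟨M, _, hM⟩ := hf.bounded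
  refine Integrable.of_bound hf.continuous.aestronglyMeasurable M ?_
  exact Filter.Eventually.of_forall fun z => hM z

/-- the two real coefficients -/
noncomputable def AA (f : ℝ × ℝ → ℝ) (k : ℤ × ℤ) : ℝ := tint fun x => f x * cK k x

noncomputable def BB (f : ℝ × ℝ → ℝ) (k : ℤ × ℤ) : ℝ := tint fun x => f x * sK k x

lemma fourier_per {f : ℝ × ℝ → ℝ} (hf : Per f) (k : ℤ × ℤ) :
    fourierC (2 * Real.pi) (fun x => (f x : ℂ)) k =
      (1 / (2 * Real.pi) ^ 2 : ℝ) * ((AA f k : ℂ) - Complex.I * (BB f k : ℂ)) := by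
  rw [fourierC_eq]
  congr 1
  have h1 : (fun x => (f x : ℂ) * ek (2 * Real.pi) (-k) x) =
      fun x => (((f x * cK k x : ℝ)) : ℂ) - Complex.I * ((f x * sK k x : ℝ) : ℂ) := by
    funext x
    have hp : (2 * Real.pi) / (2 * Real.pi) = 1 := div_self (by positivity)
    have h2 : ek (2 * Real.pi) (-k) x =
        Complex.exp (((-(k.1 * x.1 + k.2 * x.2) : ℝ) : ℂ) * Complex.I) := by
      unfold ek
      rw [hp]
      congr 1
      rw [mul_comm]
      congr 2
      push_cast [Prod.fst_neg, Prod.snd_neg]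
      ring
    rw [h2, Complex.exp_mul_I, ← Complex.ofReal_cos, ← Complex.ofReal_sin, Real.cos_neg,
      Real.sin_neg]
    unfold cK sK
    push_cast
    ring
  rw [h1]
  have i1 : Integrable (fun x => ((f x * cK k x : ℝ) : ℂ)) (tm (2 * Real.pi)) :=
    (integrable_per (hf.mul (per_cK k))).ofReal
  have i2 : Integrable (fun x => Complex.I * ((f x * sK k x : ℝ) : ℂ)) (tm (2 * Real.pi)) :=
    ((integrable_per (hf.mul (per_sK k))).ofReal).const_mul _
  rw [integral_sub i1 i2, integral_const_mul, integral_complex_ofReal, integral_complex_ofReal, AA, BB, tint_tm,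
    tint_tm]

lemma hasSum_per {f : ℝ × ℝ → ℝ} (hf : Per f) :
    HasSum (fun k => 1 / (2 * Real.pi) ^ 2 * (AA f k ^ 2 + BB f k ^ 2))
      (tint fun x => f x ^ 2) := by
  have hp : (0 : ℝ) < 2 * Real.pi := by positivity
  have h1 := parseval hp (memLp_per hf) (memLp_per hf)
  have h2 : (∫ x, (starRingEnd ℂ) (f x : ℂ) * (f x : ℂ) ∂tm (2 * Real.pi)) =
      ((tint fun x => f x ^ 2 : ℝ) : ℂ) := by
    rw [tint_tm, ← integral_complex_ofReal]
    refine integral_congr_ae (Filter.Eventually.of_forall fun x => ?_)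
    simp only [Complex.conj_ofReal]
    push_cast
    ring
  rw [h2] at h1
  have h3 : (fun k => ((2 * Real.pi : ℝ) : ℂ) ^ 2 *
      ((starRingEnd ℂ) (fourierC (2 * Real.pi) (fun x => (f x : ℂ)) k) *
        fourierC (2 * Real.pi) (fun x => (f x : ℂ)) k)) =
      fun k => ((1 / (2 * Real.pi) ^ 2 * (AA f k ^ 2 + BB f k ^ 2) : ℝ) : ℂ) := by
    funext k
    rw [fourier_per hf]
    have hpc : ((2 * Real.pi : ℝ) : ℂ) ≠ 0 := by exact_mod_cast hp.ne'
    simp only [map_mul, map_sub, Complex.conj_ofReal, Complex.conj_I]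
    push_cast
    push_cast at hpc
    field_simp
    ring_nf
    simp only [Complex.I_sq]
    ring
  rw [h3] at h1
  exact_mod_cast h1

lemma AA_d1 {f : ℝ × ℝ → ℝ} (hf : Per f) (k : ℤ × ℤ) : AA (d1 f) k = k.1 * BB f k := by
  have h := tint_mul_d1 hf (per_cK k)
  rw [d1_cK] at h
  have h2 : (fun x => f x * -((k.1 : ℝ) * sK k x)) = fun x => -((k.1 : ℝ)) * (f x * sK k x) := by
    funext x; ring
  rw [h2, tint_const_mul] at h
  unfold AA BB
  linarith

lemma BB_d1 {f : ℝ × ℝ → ℝ} (hf : Per f) (k : ℤ × ℤ) : BB (d1 f) k = -(k.1 * AA f k) := by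
  have h := tint_mul_d1 hf (per_sK k)
  rw [d1_sK] at h
  have h2 : (fun x => f x * ((k.1 : ℝ) * cK k x)) = fun x => ((k.1 : ℝ)) * (f x * cK k x) := by
    funext x; ring
  rw [h2, tint_const_mul] at h
  unfold AA BB
  linarith

lemma AA_d2 {f : ℝ × ℝ → ℝ} (hf : Per f) (k : ℤ × ℤ) : AA (d2 f) k = k.2 * BB f k := by
  have h := tint_mul_d2 hf (per_cK k)
  rw [d2_cK] at h
  have h2 : (fun x => f x * -((k.2 : ℝ) * sK k x)) = fun x => -((k.2 : ℝ)) * (f x * sK k x) := by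
    funext x; ring
  rw [h2, tint_const_mul] at h
  unfold AA BB
  linarith

lemma BB_d2 {f : ℝ × ℝ → ℝ} (hf : Per f) (k : ℤ × ℤ) : BB (d2 f) k = -(k.2 * AA f k) := by
  have h := tint_mul_d2 hf (per_sK k)
  rw [d2_sK] at h
  have h2 : (fun x => f x * ((k.2 : ℝ) * cK k x)) = fun x => ((k.2 : ℝ)) * (f x * cK k x) := by
    funext x; ring
  rw [h2, tint_const_mul] at h
  unfold AA BB
  linarith

lemma hasSum_grad {f : ℝ × ℝ → ℝ} (hf : Per f) :
    HasSum (fun k => 1 / (2 * Real.pi) ^ 2 *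
      (((k.1 : ℝ) ^ 2 + (k.2 : ℝ) ^ 2) * (AA f k ^ 2 + BB f k ^ 2)))
      (tint fun x => d1 f x ^ 2 + d2 f x ^ 2) := by
  have h1 := (hasSum_per hf.d1).add (hasSum_per hf.d2)
  rw [← tint_add (hf.d1.pow 2).continuous (hf.d2.pow 2).continuous] at h1
  refine h1.congr_fun ?_ 
  intro k
  rw [AA_d1 hf, BB_d1 hf, AA_d2 hf, BB_d2 hf]
  ring

end PoinAux

open PoinAux

theorem poincare {f : ℝ × ℝ → ℝ} (hf : Per f) (h0 : tint f = 0) :
    tint (fun x => f x ^ 2) ≤ tint (fun x => d1 f x ^ 2 + d2 f x ^ 2) := by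
  refine hasSum_le ?_ (hasSum_per hf) (hasSum_grad hf)
  rintro ⟨k1, k2⟩
  refine mul_le_mul_of_nonneg_left ?_ (by positivity)
  by_cases hk : k1 = 0 ∧ k2 = 0
  · obtain ⟨rfl, rfl⟩ := hk
    have hA : AA f (0, 0) = 0 := by
      unfold AA cK; simpa using h0
    have hB : BB f (0, 0) = 0 := by
      unfold BB sK; simp [tint_zero]
    rw [hA, hB]; simp
  · have h1 : (1 : ℤ) ≤ k1 ^ 2 + k2 ^ 2 := by
      by_contra hcon
      push Not at hcon
      apply hk
      constructor <;> nlinarith [sq_nonneg k1, sq_nonneg k2]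
    have h2 : (1 : ℝ) ≤ (k1 : ℝ) ^ 2 + (k2 : ℝ) ^ 2 := by exact_mod_cast h1
    have h3 : 0 ≤ AA f (k1, k2) ^ 2 + BB f (k1, k2) ^ 2 := by positivity
    nlinarith

theorem poincare2 {f : ℝ × ℝ → ℝ} (hf : Per f) (h0 : tint f = 0)
    (h1 : tint (fun x => f x * Real.sin x.1) = 0) (h2 : tint (fun x => f x * Real.cos x.1) = 0)
    (h3 : tint (fun x => f x * Real.sin x.2) = 0) (h4 : tint (fun x => f x * Real.cos x.2) = 0) :
    2 * tint (fun x => f x ^ 2) ≤ tint (fun x => d1 f x ^ 2 + d2 f x ^ 2) := by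
  refine hasSum_le ?_ ((hasSum_per hf).mul_left 2) (hasSum_grad hf)
  rintro ⟨k1, k2⟩
  rw [show 2 * (1 / (2 * Real.pi) ^ 2 * (AA f (k1, k2) ^ 2 + BB f (k1, k2) ^ 2)) =
    1 / (2 * Real.pi) ^ 2 * (2 * (AA f (k1, k2) ^ 2 + BB f (k1, k2) ^ 2)) by ring]
  refine mul_le_mul_of_nonneg_left ?_ (by positivity)
  have hneg : tint (fun x => f x * -Real.sin x.1) = 0 := by
    have : (fun x => f x * -Real.sin x.1) = fun x => -(f x * Real.sin x.1) := by funext x; ring
    rw [this, tint_neg, h1, neg_zero]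
  have hneg' : tint (fun x => f x * -Real.sin x.2) = 0 := by
    have : (fun x => f x * -Real.sin x.2) = fun x => -(f x * Real.sin x.2) := by funext x; ring
    rw [this, tint_neg, h3, neg_zero]
  by_cases hk : k1 ^ 2 + k2 ^ 2 < 2
  · have hz : AA f (k1, k2) = 0 ∧ BB f (k1, k2) = 0 := by
      have hk1 : -1 ≤ k1 ∧ k1 ≤ 1 := by constructor <;> nlinarith [sq_nonneg k2]
      have hk2 : -1 ≤ k2 ∧ k2 ≤ 1 := by constructor <;> nlinarith [sq_nonneg k1]
      obtain ⟨a1, a2⟩ := hk1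
      obtain ⟨b1, b2⟩ := hk2
      interval_cases k1 <;> interval_cases k2 <;>
        first
        | (exfalso; revert hk; decide)
        | (unfold AA BB cK sK; constructor <;>
            simp only [Int.cast_neg, Int.cast_one, Int.cast_zero, zero_mul, one_mul, neg_mul,
              zero_add, add_zero, Real.cos_neg, Real.sin_neg, Real.cos_zero,
              Real.sin_zero, mul_one, mul_zero, tint_zero, h0, h1, h2, h3, h4, hneg, hneg'])
    rw [hz.1, hz.2]
    simp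
  · push Not at hk
    have h5 : (2 : ℝ) ≤ (k1 : ℝ) ^ 2 + (k2 : ℝ) ^ 2 := by exact_mod_cast hk
    have h6 : 0 ≤ AA f (k1, k2) ^ 2 + BB f (k1, k2) ^ 2 := by positivity
    nlinarith

end Pool.Agent.Lib.EI
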