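import Pool.Agent.Lib.EI.Uniq

/-!
The reflection `(x₁, x₂) ↦ (-x₂, -x₁)` is respected by the Euler equations.

PROOF. `ψ' t x = -ψ t (-x.2, -x.1)` is a solution: with `R x = (-x.2, -x.1)` one has
`d1 (f ∘ R) = -(d2 f) ∘ R`, `d2 (f ∘ R) = -(d1 f) ∘ R`, `lap (f ∘ R) = (lap f) ∘ R`,
`br (f ∘ R) (g ∘ R) = -(br f g) ∘ R`, `tint (f ∘ R) = tint f` (`tint_swap` and `x ↦ -x`, e.g. by `tint_eq`
and `intervalIntegral.integral_comp_neg` together with periodicity, or by writing `-x = 2π - x`).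
So `dt (lap ψ') = -(dt (lap ψ)) ∘ R = (br ψ (lap ψ)) ∘ R = -br ψ' (lap ψ')`. It has the same
initial values, so `uniq` applies.
-/

set_option autoImplicit false

open MeasureTheory Set
open scoped ContDiff

namespace Pool.Agent.Lib.EI

namespace ReflAux

/-- the reflected function -/
def R (f : ℝ × ℝ → ℝ) : ℝ × ℝ → ℝ := fun x => f (-x.2, -x.1)

variable {f g : ℝ × ℝ → ℝ}

theorem per (hf : Per f) : Per (R f) := by
  refine ⟨hf.smooth.comp (contDiff_snd.neg.prodMk contDiff_fst.neg), fun x y => ?_, fun x y => ?_⟩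
  · show f (-y, -(x + 2 * Real.pi)) = f (-y, -x)
    rw [← hf.per2 (-y) (-(x + 2 * Real.pi))]
    congr 2
    ring
  · show f (-(y + 2 * Real.pi), -x) = f (-y, -x)
    rw [← hf.per1 (-(y + 2 * Real.pi)) (-x)]
    congr 2
    ring

theorem hasF (hf : Per f) (x : ℝ × ℝ) :
    HasFDerivAt (R f) ((fderiv ℝ f (-x.2, -x.1)).comp
      ((-(ContinuousLinearMap.snd ℝ ℝ ℝ)).prod (-(ContinuousLinearMap.fst ℝ ℝ ℝ)))) x := by
  have h1 : HasFDerivAt (fun x : ℝ × ℝ => (-x.2, -x.1))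
      ((-(ContinuousLinearMap.snd ℝ ℝ ℝ)).prod (-(ContinuousLinearMap.fst ℝ ℝ ℝ))) x :=
    (hasFDerivAt_snd).neg.prodMk (hasFDerivAt_fst).neg
  exact (hf.diffAt (-x.2, -x.1)).hasFDerivAt.comp x h1

theorem d1R (hf : Per f) : d1 (R f) = fun x => -R (d2 f) x := by
  funext x
  unfold d1
  rw [(hasF hf x).fderiv]
  show fderiv ℝ f (-x.2, -x.1) (-0, -1) = -fderiv ℝ f (-x.2, -x.1) (0, 1)
  rw [← map_neg]
  congr 1

theorem d2R (hf : Per f) : d2 (R f) = fun x => -R (d1 f) x := by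
  funext x
  unfold d2
  rw [(hasF hf x).fderiv]
  show fderiv ℝ f (-x.2, -x.1) (-1, -0) = -fderiv ℝ f (-x.2, -x.1) (1, 0)
  rw [← map_neg]
  congr 1

theorem lapR (hf : Per f) : lap (R f) = R (lap f) := by
  funext x
  unfold lap
  rw [d1R hf, d2R hf, d1_neg, d2_neg, d1R hf.d2, d2R hf.d1]
  show - -d2 (d2 f) (-x.2, -x.1) + - -d1 (d1 f) (-x.2, -x.1) = _
  rw [neg_neg, neg_neg]
  show _ = d1 (d1 f) (-x.2, -x.1) + d2 (d2 f) (-x.2, -x.1)
  ring

theorem tintR (hf : Per f) : tint (R f) = tint f := by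
  have hc : Continuous fun x : ℝ × ℝ => f (-x.1, -x.2) := hf.continuous.comp (by fun_prop)
  have h1 : tint (R f) = tint (fun x => f (-x.1, -x.2)) := tint_swap hc
  rw [h1, tint_eq hc, tint_eq hf.continuous]
  have key : ∀ φ : ℝ → ℝ, Function.Periodic φ (2 * Real.pi) →
      ∫ x in (0 : ℝ)..2 * Real.pi, φ (-x) = ∫ x in (0 : ℝ)..2 * Real.pi, φ x := by
    intro φ hφ
    rw [intervalIntegral.integral_comp_neg, neg_zero]
    have h2 := hφ.intervalIntegral_add_eq (-(2 * Real.pi)) 0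
    rw [neg_add_cancel, zero_add] at h2
    exact h2
  have h3 : ∀ x : ℝ, ∫ y in (0 : ℝ)..2 * Real.pi, f (-x, -y) =
      ∫ y in (0 : ℝ)..2 * Real.pi, f (-x, y) := fun x =>
    key (fun y => f (-x, y)) fun y => hf.per2 (-x) y
  simp only [h3]
  exact key (fun x => ∫ y in (0 : ℝ)..2 * Real.pi, f (x, y)) fun x => by simp only [hf.per1]

theorem tperR {F : ℝ → ℝ × ℝ → ℝ} (hF : TPer F) : TPer fun t x => -R (F t) x := by
  refine ⟨?_, fun t x y => ?_, fun t x y => ?_⟩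
  · have h1 : ContDiff ℝ ∞ fun z : ℝ × ℝ × ℝ => ((z.1, (-z.2.2, -z.2.1)) : ℝ × ℝ × ℝ) := by
      fun_prop
    exact (hF.smooth.comp h1).neg
  · show -R (F t) (x + 2 * Real.pi, y) = -R (F t) (x, y)
    rw [(per (hF.per t)).per1]
  · show -R (F t) (x, y + 2 * Real.pi) = -R (F t) (x, y)
    rw [(per (hF.per t)).per2]

theorem lap_negR (hf : Per f) : lap (fun x => -R f x) = fun x => -R (lap f) x := by
  have h1 := lap_const_mul (-1) (per hf)
  have h2 : (fun x => -R f x) = fun x => (-1 : ℝ) * R f x := by funext x; ring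
  rw [h2, h1, lapR hf]
  funext x
  ring

end ReflAux

open ReflAux

theorem Sol.refl {T : ℝ} {ψ : ℝ → ℝ × ℝ → ℝ} (h : Sol T ψ)
    (h0 : ∀ x : ℝ × ℝ, ψ 0 (-x.2, -x.1) = -ψ 0 x) :
    ∀ t, 0 ≤ t → t ≤ T → ∀ x : ℝ × ℝ, ψ t (-x.2, -x.1) = -ψ t x := by
  have hS : Sol T (fun t x => -R (ψ t) x) := by
    refine ⟨tperR h.tper, fun t => ?_, fun t ht0 htT x => ?_⟩
    · rw [tint_neg, tintR (h.tper.per t), h.mean t, neg_zero]
    · have h1 := h.euler t ht0 htT (-x.2, -x.1)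
      have h2 : (fun s => lap (fun x => -R (ψ s) x)) = fun s x => -R (lap (ψ s)) x := by
        funext s
        exact lap_negR (h.tper.per s)
      have h3 : dt (fun s => lap (fun x => -R (ψ s) x)) t x =
          -dt (fun s => lap (ψ s)) t (-x.2, -x.1) := by
        rw [h2]
        exact (h.tper.lap.hasDerivAt t (-x.2, -x.1)).neg.deriv
      rw [h3, lap_negR (h.tper.per t), d1_neg, d2_neg, d1_neg, d2_neg, d1R (h.tper.per t).lap,
        d2R (h.tper.per t).lap, d1R (h.tper.per t), d2R (h.tper.per t)]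
      show -dt (fun s => lap (ψ s)) t (-x.2, -x.1) +
        (- -(-d1 (ψ t) (-x.2, -x.1)) * -(-d2 (lap (ψ t)) (-x.2, -x.1)) +
          -(-d2 (ψ t) (-x.2, -x.1)) * -(-d1 (lap (ψ t)) (-x.2, -x.1))) = 0
      linarith
  have h4 := uniq h hS (fun x => by
    show ψ 0 x = -ψ 0 (-x.2, -x.1)
    rw [h0 x, neg_neg])
  intro t ht0 htT x
  have h5 := h4 t ht0 htT x
  show R (ψ t) x = -ψ t x
  rw [h5, neg_neg]

end Pool.Agent.Lib.EI
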