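import Pool.Agent.Lib.EI.TRem
import Pool.Agent.Lib.EI.OneD
import Pool.Agent.Lib.EI.Poin
import Pool.Agent.Lib.EI.Refl
import Pool.Agent.Lib.EI.Circ
import Pool.Agent.Lib.EI.ZonB

/-!
The case of equal amplitudes.
-/

set_option autoImplicit false

open MeasureTheory Set intervalIntegral
open scoped ContDiff

namespace Pool.Agent.Lib.EI

theorem d1_s12 : d1 (fun x => Real.sin (x.1 + x.2)) = fun x => Real.cos (x.1 + x.2) := by
  funext x
  unfold d1
  have h1 : HasFDerivAt (fun x : ℝ × ℝ => Real.sin (x.1 + x.2))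
      (Real.cos (x.1 + x.2) • (ContinuousLinearMap.fst ℝ ℝ ℝ + ContinuousLinearMap.snd ℝ ℝ ℝ)) x :=
    (Real.hasDerivAt_sin _).comp_hasFDerivAt x (hasFDerivAt_fst.add hasFDerivAt_snd)
  rw [h1.fderiv]
  simp

theorem d2_s12 : d2 (fun x => Real.sin (x.1 + x.2)) = fun x => Real.cos (x.1 + x.2) := by
  funext x
  unfold d2
  have h1 : HasFDerivAt (fun x : ℝ × ℝ => Real.sin (x.1 + x.2))
      (Real.cos (x.1 + x.2) • (ContinuousLinearMap.fst ℝ ℝ ℝ + ContinuousLinearMap.snd ℝ ℝ ℝ)) x :=
    (Real.hasDerivAt_sin _).comp_hasFDerivAt x (hasFDerivAt_fst.add hasFDerivAt_snd)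
  rw [h1.fderiv]
  simp

theorem d1_c12 : d1 (fun x => Real.cos (x.1 + x.2)) = fun x => -Real.sin (x.1 + x.2) := by
  funext x
  unfold d1
  have h1 : HasFDerivAt (fun x : ℝ × ℝ => Real.cos (x.1 + x.2))
      (-Real.sin (x.1 + x.2) • (ContinuousLinearMap.fst ℝ ℝ ℝ + ContinuousLinearMap.snd ℝ ℝ ℝ)) x :=
    (Real.hasDerivAt_cos _).comp_hasFDerivAt x (hasFDerivAt_fst.add hasFDerivAt_snd)
  rw [h1.fderiv]
  simp

theorem d2_c12 : d2 (fun x => Real.cos (x.1 + x.2)) = fun x => -Real.sin (x.1 + x.2) := by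
  funext x
  unfold d2
  have h1 : HasFDerivAt (fun x : ℝ × ℝ => Real.cos (x.1 + x.2))
      (-Real.sin (x.1 + x.2) • (ContinuousLinearMap.fst ℝ ℝ ℝ + ContinuousLinearMap.snd ℝ ℝ ℝ)) x :=
    (Real.hasDerivAt_cos _).comp_hasFDerivAt x (hasFDerivAt_fst.add hasFDerivAt_snd)
  rw [h1.fderiv]
  simp

theorem lap_s12 : lap (fun x => Real.sin (x.1 + x.2)) = fun x => -2 * Real.sin (x.1 + x.2) := by
  funext x
  unfold lap
  rw [d1_s12, d2_s12, d1_c12, d2_c12]
  ring

theorem tint_s12_sq : tint (fun x => Real.sin (x.1 + x.2) ^ 2) = 2 * Real.pi ^ 2 := by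
  have h : (fun x : ℝ × ℝ => Real.sin (x.1 + x.2) ^ 2) = fun x =>
      ((Real.sin x.1 * Real.sin x.1) * (Real.cos x.2 * Real.cos x.2) +
        2 * ((Real.sin x.1 * Real.cos x.1) * (Real.sin x.2 * Real.cos x.2))) +
        (Real.cos x.1 * Real.cos x.1) * (Real.sin x.2 * Real.sin x.2) := by
    funext x
    rw [Real.sin_add]
    ring
  rw [h, tint_add (by fun_prop) (by fun_prop), tint_add (by fun_prop) (by fun_prop),
    tint_const_mul,
    tint_prod (φ := fun r => Real.sin r * Real.sin r) (χ := fun r => Real.cos r * Real.cos r)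
      (by fun_prop) (by fun_prop),
    tint_prod (φ := fun r => Real.sin r * Real.cos r) (χ := fun r => Real.sin r * Real.cos r)
      (by fun_prop) (by fun_prop),
    tint_prod (φ := fun r => Real.cos r * Real.cos r) (χ := fun r => Real.sin r * Real.sin r)
      (by fun_prop) (by fun_prop), int_sin_sq, int_cos_sq, int_sin_cos]
  ring

theorem tint_c12_sq : tint (fun x => Real.cos (x.1 + x.2) ^ 2) = 2 * Real.pi ^ 2 := by
  have h : (fun x : ℝ × ℝ => Real.cos (x.1 + x.2) ^ 2) = fun x =>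
      1 - Real.sin (x.1 + x.2) ^ 2 := by
    funext x
    rw [Real.cos_sq']
  rw [h, tint_sub (by fun_prop) (by fun_prop), tint_const, tint_s12_sq]
  ring

/-- `sin (x₁ + x₂)` is orthogonal to the lowest modes. -/
theorem tint_s12_bas (i : Fin 4) : tint (fun x => Real.sin (x.1 + x.2) * bas i x) = 0 := by
  have h1 := tint_lap_symm per_s12 (per_bas i)
  rw [lap_bas, lap_s12] at h1
  have h2 : (fun x : ℝ × ℝ => Real.sin (x.1 + x.2) * -bas i x) =
      fun x => -(Real.sin (x.1 + x.2) * bas i x) := by funext x; ring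
  have h3 : (fun x : ℝ × ℝ => -2 * Real.sin (x.1 + x.2) * bas i x) =
      fun x => -2 * (Real.sin (x.1 + x.2) * bas i x) := by funext x; ring
  rw [h2, h3, tint_neg, tint_const_mul] at h1
  linarith

theorem tint_s12 : tint (fun x => Real.sin (x.1 + x.2)) = 0 := by
  have h1 := tint_lap_symm per_s12 (per_const 1)
  rw [lap_s12] at h1
  have h2 : (fun x : ℝ × ℝ => Real.sin (x.1 + x.2) * lap (fun _ => 1) x) = fun _ => 0 := by
    funext x
    have : lap (fun _ : ℝ × ℝ => (1 : ℝ)) x = 0 := by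
      unfold lap
      rw [d1_const, d2_const, d1_const, d2_const]
      ring
    rw [this, mul_zero]
  have h3 : (fun x : ℝ × ℝ => -2 * Real.sin (x.1 + x.2) * 1) =
      fun x => -2 * Real.sin (x.1 + x.2) := by funext x; ring
  rw [h2, h3, tint_zero, tint_const_mul] at h1
  linarith

/-- `ω + ψ` is controlled by the conserved quadratic form. -/
theorem nrm_g_sq_le {f : ℝ × ℝ → ℝ} (hf : Per f) (h0 : tint f = 0) :
    nrm (fun x => lap f x + f x) ^ 2 ≤ tint (fun x => lap f x * (lap f x + f x)) := by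
  have hc := hf.continuous
  have hl := hf.lap.continuous
  rw [nrm_sq]
  have h1 := poincare hf h0
  have h2 : tint (fun x => d1 f x ^ 2 + d2 f x ^ 2) = -tint (fun x => f x * lap f x) := by
    rw [tint_mul_lap hf hf, neg_neg]
    congr 1
    funext x
    ring
  have h3 : (fun x => (lap f x + f x) ^ 2) =
      fun x => (lap f x * (lap f x + f x) + f x * lap f x) + f x ^ 2 := by
    funext x; ring
  rw [h3, tint_add (by fun_prop) (by fun_prop), tint_add (by fun_prop) (by fun_prop)]
  linarith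

section

variable {A η T : ℝ} {ψ : ℝ → ℝ × ℝ → ℝ}

/-- The initial data. -/
noncomputable def chi (A η : ℝ) (x : ℝ × ℝ) : ℝ := V0 A A x + η * Real.sin (x.1 + x.2)

theorem per_chi : Per (chi A η) := (per_V0 A A).add (per_s12.const_mul η)

theorem lap_chi : lap (chi A η) = fun x => -V0 A A x + -2 * η * Real.sin (x.1 + x.2) := by
  have h : chi A η = fun x => V0 A A x + η * Real.sin (x.1 + x.2) := rfl
  rw [h, lap_add (per_V0 A A) (per_s12.const_mul η), lap_const_mul η per_s12, lap_V0, lap_s12]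
  funext x
  ring

theorem tint_chi : tint (chi A η) = 0 := by
  have h : chi A η = fun x => V0 A A x + η * Real.sin (x.1 + x.2) := rfl
  rw [h, tint_add (per_V0 A A).continuous (per_s12.const_mul η).continuous, tint_V0,
    tint_const_mul, tint_s12]
  ring

theorem tint_V0_s12 (A B : ℝ) : tint (fun x => V0 A B x * Real.sin (x.1 + x.2)) = 0 := by
  rw [V0_eq_VV, tint_VV_mul _ per_s12.continuous]
  simp [tint_s12_bas]

theorem quad_chi : tint (fun x => lap (chi A η) x * (lap (chi A η) x + chi A η x)) =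
    4 * Real.pi ^ 2 * η ^ 2 := by
  have h : (fun x => lap (chi A η) x * (lap (chi A η) x + chi A η x)) =
      fun x => η * (V0 A A x * Real.sin (x.1 + x.2)) + 2 * η ^ 2 * Real.sin (x.1 + x.2) ^ 2 := by
    funext x
    rw [lap_chi]
    unfold chi
    ring
  have hc := per_s12.continuous
  rw [h, tint_add (((per_V0 A A).mul per_s12).const_mul η).continuous (by fun_prop),
    tint_const_mul, tint_const_mul, tint_V0_s12, tint_s12_sq]
  ring

theorem dst_chi (hη : 0 ≤ η) : dst (chi A η) (V0 A A) ≤ 22 * η := by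
  have h1 : (fun y => chi A η y - V0 A A y) = fun x => η * Real.sin (x.1 + x.2) := by
    funext x; unfold chi; ring
  rw [dst_eq, h1, lap_const_mul η per_s12, lap_s12]
  have h2 : gn (fun x => η * Real.sin (x.1 + x.2)) ≤ 7 * η := by
    unfold gn
    rw [d1_const_mul η per_s12, d2_const_mul η per_s12, d1_s12, d2_s12]
    apply Real.sqrt_le_iff.2
    refine ⟨by positivity, ?_⟩
    have h3 : (fun x : ℝ × ℝ => (η * Real.cos (x.1 + x.2)) ^ 2 + (η * Real.cos (x.1 + x.2)) ^ 2) =
        fun x => 2 * η ^ 2 * Real.cos (x.1 + x.2) ^ 2 := by funext x; ring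
    rw [h3, tint_const_mul, tint_c12_sq]
    have : Real.pi ^ 2 ≤ 10 := by nlinarith [Real.pi_lt_d2, Real.pi_pos]
    nlinarith [sq_nonneg η]
  have h4 : nrm (fun x : ℝ × ℝ => η * (-2 * Real.sin (x.1 + x.2))) ≤ 15 * η := by
    unfold nrm
    apply Real.sqrt_le_iff.2
    refine ⟨by positivity, ?_⟩
    have h3 : (fun x : ℝ × ℝ => (η * (-2 * Real.sin (x.1 + x.2))) ^ 2) =
        fun x => 4 * η ^ 2 * Real.sin (x.1 + x.2) ^ 2 := by funext x; ring
    rw [h3, tint_const_mul, tint_s12_sq]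
    have : Real.pi ^ 2 ≤ 10 := by nlinarith [Real.pi_lt_d2, Real.pi_pos]
    nlinarith [sq_nonneg η]
  linarith

theorem zon_chi : zon (d2 (chi A η)) 0 = 2 * Real.pi * η := by
  have h : chi A η = fun x => V0 A A x + η * Real.sin (x.1 + x.2) := rfl
  rw [h, d2_add (per_V0 A A) (per_s12.const_mul η), d2_const_mul η per_s12, d2_s12, d2_V0]
  unfold zon
  have h1 : (fun r : ℝ => A * Real.cos (0 - r) + η * Real.cos (r + (0 - r))) =
      fun r => A * Real.cos r + η := by
    funext r
    rw [zero_sub, Real.cos_neg, add_neg_cancel, Real.cos_zero, mul_one]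
  show ∫ r in (0 : ℝ)..2 * Real.pi, (A * Real.cos (0 - r) + η * Real.cos (r + (0 - r))) = _
  rw [h1, intervalIntegral.integral_add
    ((by fun_prop : Continuous fun r : ℝ => A * Real.cos r).intervalIntegrable _ _)
    (intervalIntegrable_const),
    intervalIntegral.integral_const_mul, int_cos]
  simp

/-- The static part of the argument. -/
theorem N_le (hη : 0 ≤ η) {f : ℝ × ℝ → ℝ} (hf : Per f) (h0 : tint f = 0)
    (hq : tint (fun x => lap f x * (lap f x + f x)) = 4 * Real.pi ^ 2 * η ^ 2)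
    (hz : zon (d2 f) 0 = 2 * Real.pi * η) (hs : ∀ x : ℝ × ℝ, f (-x.2, -x.1) = -f x) :
    tint (fun x => Real.sin (x.1 + x.2) * (lap f x + f x)) ≤ -(Real.pi ^ 2 / 4 * η) := by
  have hg : Per fun x => lap f x + f x := hf.lap.add hf
  have hnr := nrm_g_sq_le hf h0
  rw [hq, nrm_sq] at hnr
  have hfz : ∀ s, zon (fun x => lap f x + f x) s = 2 * zon (d2 (d2 f)) s + zon f s := by
    intro s
    rw [zon_add hf.lap hf, zon_lap hf]
  have hz0 : zon f 0 = 0 := by
    have := zon_odd hf hs 0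
    rw [neg_zero] at this
    linarith
  have hcont : Continuous (zon (d2 (d2 f))) :=
    continuous_iff_continuousAt.2 fun s => (hasDerivAt_zon_space hf.d2.d2 s).continuousAt
  have h1 := oneD (f := zon f) (f' := zon (d2 f)) (f'' := zon (d2 (d2 f)))
    (fun s => hasDerivAt_zon_space hf s) (fun s => hasDerivAt_zon_space hf.d2 s) hcont hz0
    (by rw [← hz0, ← zon_periodic hf 0, zero_add])
    (by rw [← zon_periodic hf.d2 0, zero_add])
  have h2 : ∫ s in (0 : ℝ)..2 * Real.pi, Real.sin s * (2 * zon (d2 (d2 f)) s + zon f s) =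
      tint (fun x => Real.sin (x.1 + x.2) * (lap f x + f x)) := by
    rw [tint_zon (φ := Real.sin) Real.continuous_sin Real.sin_add_two_pi hg]
    refine intervalIntegral.integral_congr fun s _ => ?_
    show Real.sin s * (2 * zon (d2 (d2 f)) s + zon f s) = Real.sin s * _
    rw [hfz]
  have h3 : ∫ s in (0 : ℝ)..2 * Real.pi, (2 * zon (d2 (d2 f)) s + zon f s) ^ 2 ≤
      2 * Real.pi * (4 * Real.pi ^ 2 * η ^ 2) := by
    have h4 := zon_sq hg
    have h5 : ∫ s in (0 : ℝ)..2 * Real.pi, zon (fun x => lap f x + f x) s ^ 2 =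
        ∫ s in (0 : ℝ)..2 * Real.pi, (2 * zon (d2 (d2 f)) s + zon f s) ^ 2 :=
      intervalIntegral.integral_congr fun s _ => by
        show _ ^ 2 = _ ^ 2
        rw [hfz]
    rw [h5] at h4
    exact h4.trans (mul_le_mul_of_nonneg_left hnr (by positivity))
  rw [h2, hz] at h1
  have h6 : Real.sqrt (6 * Real.pi) *
      Real.sqrt (∫ s in (0 : ℝ)..2 * Real.pi, (2 * zon (d2 (d2 f)) s + zon f s) ^ 2) ≤
      7 * Real.pi ^ 2 * η := by
    rw [← Real.sqrt_mul (by positivity)]
    apply Real.sqrt_le_iff.2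
    refine ⟨by positivity, ?_⟩
    calc 6 * Real.pi * ∫ s in (0 : ℝ)..2 * Real.pi, (2 * zon (d2 (d2 f)) s + zon f s) ^ 2
        ≤ 6 * Real.pi * (2 * Real.pi * (4 * Real.pi ^ 2 * η ^ 2)) :=
          mul_le_mul_of_nonneg_left h3 (by positivity)
      _ = 48 * (Real.pi ^ 2 * η) ^ 2 := by ring
      _ ≤ 49 * (Real.pi ^ 2 * η) ^ 2 := by nlinarith [sq_nonneg (Real.pi ^ 2 * η)]
      _ = (7 * Real.pi ^ 2 * η) ^ 2 := by ring
  have h7 := (le_abs_self _).trans (h1.trans h6)
  nlinarith [h7]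

/-- The derivative of `∫ (cos x₁ - cos x₂) ω`. -/
theorem D_static (hA : 0 ≤ A) (hη : 0 ≤ η) {f : ℝ × ℝ → ℝ} (hf : Per f)
    (hg : nrm (fun x => lap f x + f x) ≤ 2 * Real.pi * η)
    (hN : tint (fun x => Real.sin (x.1 + x.2) * (lap f x + f x)) ≤ -(Real.pi ^ 2 / 4 * η))
    (hd : gn (fun x => f x - V0 A A x) ≤ A / 16) :
    tint (fun x => (lap f x + f x) * br f (fun y => Real.cos y.1 - Real.cos y.2) x) ≤
      -(A * η) := by
  set k : ℝ × ℝ → ℝ := fun y => Real.cos y.1 - Real.cos y.2 with hk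
  have hkp : Per k := per_c1.sub per_c2
  have hk1 : d1 k = fun x => -Real.sin x.1 := by
    rw [hk, d1_sub per_c1 per_c2, d1_c1, d1_c2]
    funext x; simp
  have hk2 : d2 k = fun x => Real.sin x.2 := by
    rw [hk, d2_sub per_c1 per_c2, d2_c1, d2_c2]
    funext x; simp
  have hfp : Per fun x => f x - V0 A A x := hf.sub (per_V0 A A)
  have hgp : Per fun x => lap f x + f x := hf.lap.add hf
  have hbr : ∀ x, br f k x = A * Real.sin (x.1 + x.2) + br (fun x => f x - V0 A A x) k x := by
    intro x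
    have h1 : br (fun x => f x - V0 A A x) k x = br f k x - br (V0 A A) k x := by
      unfold br
      rw [d1_sub hf (per_V0 A A), d2_sub hf (per_V0 A A)]
      ring
    rw [h1]
    have h2 : br (V0 A A) k x = A * Real.sin (x.1 + x.2) := by
      unfold br
      rw [hk1, hk2, d1_V0, d2_V0, Real.sin_add]
      ring
    rw [h2]
    ring
  have hsplit : (fun x => (lap f x + f x) * br f k x) =
      fun x => A * (Real.sin (x.1 + x.2) * (lap f x + f x)) +
        (lap f x + f x) * br (fun x => f x - V0 A A x) k x := by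
    funext x
    rw [hbr]
    ring
  rw [hsplit, tint_add ((per_s12.mul hgp).const_mul A).continuous (hgp.mul (hfp.br hkp)).continuous,
    tint_const_mul]
  have h1 := tint_cs hgp.continuous (hfp.br hkp).continuous
  have h2 := nrm_br_le (M := 1) hfp hkp
    (fun x => by rw [hk1]; simpa using Real.abs_sin_le_one x.1)
    (fun x => by rw [hk2]; simpa using Real.abs_sin_le_one x.2)
  have h3 : nrm (fun x => lap f x + f x) * nrm (br (fun x => f x - V0 A A x) k) ≤
      2 * Real.pi * η * (2 * (A / 16)) := by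
    refine mul_le_mul hg (h2.trans ?_) (nrm_nonneg _) (by positivity)
    linarith
  have h4 := (le_abs_self _).trans (h1.trans h3)
  have hpi := Real.pi_gt_three
  have hAη : 0 ≤ A * η := mul_nonneg hA hη
  have h5 : A * tint (fun x => Real.sin (x.1 + x.2) * (lap f x + f x)) ≤
      A * -(Real.pi ^ 2 / 4 * η) := mul_le_mul_of_nonneg_left hN hA
  have h6 : A * -(Real.pi ^ 2 / 4 * η) + 2 * Real.pi * η * (2 * (A / 16)) =
      -(A * η) * (Real.pi ^ 2 / 4 - Real.pi / 4) := by ring
  have h7 : 1 ≤ Real.pi ^ 2 / 4 - Real.pi / 4 := by nlinarith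
  nlinarith

/-- Instability in the case of equal amplitudes. -/
theorem unst_eq (hA : 0 < A) : Unst (V0 A A) := by
  refine ⟨A / 16, by positivity, 22, by norm_num, fun δ hδ hδ1 => ?_⟩
  set η : ℝ := δ / 22 with hη
  have hη0 : 0 < η := by positivity
  refine ⟨chi A η, per_chi, tint_chi, (dst_chi hη0.le).trans (by rw [hη]; linarith), ?_⟩
  intro ψ hsol hinit
  by_contra hcon
  push Not at hcon
  have hψ0 : ψ 0 = chi A η := funext hinit
  have hT0 : 0 ≤ 22 / δ := by positivity
  have hsym := hsol.refl (fun x => by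
    rw [hψ0]
    unfold chi V0
    simp only
    rw [Real.sin_neg, Real.sin_neg, show -x.2 + -x.1 = -(x.1 + x.2) by ring, Real.sin_neg]
    ring)
  have hq : ∀ t, 0 ≤ t → t ≤ 22 / δ →
      tint (fun x => lap (ψ t) x * (lap (ψ t) x + ψ t x)) = 4 * Real.pi ^ 2 * η ^ 2 := by
    intro t h0 hT
    rw [hsol.quad h0 hT, hψ0, quad_chi]
  have hz : ∀ t, 0 ≤ t → t ≤ 22 / δ → zon (d2 (ψ t)) 0 = 2 * Real.pi * η := by
    intro t h0 hT
    rw [hsol.circ hsym t h0 hT, hψ0, zon_chi]
  have hD : ∀ t, 0 ≤ t → t ≤ 22 / δ →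
      tint (fun x => (lap (ψ t) x + ψ t x) * br (ψ t) (fun y => Real.cos y.1 - Real.cos y.2) x) ≤
        -(A * η) := by
    intro t h0 hT
    have hp := hsol.tper.per t
    have hm := hsol.mean t
    refine D_static hA.le hη0.le hp ?_ (N_le hη0.le hp hm (hq t h0 hT) (hz t h0 hT) (hsym t h0 hT)) ?_
    · have h1 := nrm_g_sq_le hp hm
      rw [hq t h0 hT] at h1
      have h2 : nrm (fun x => lap (ψ t) x + ψ t x) ^ 2 ≤ (2 * Real.pi * η) ^ 2 := by
        rw [show (2 * Real.pi * η) ^ 2 = 4 * Real.pi ^ 2 * η ^ 2 by ring]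
        exact h1
      exact abs_le_of_sq_le_sq' h2 (by positivity) |>.2
    · have h1 := hcon t h0 hT
      rw [dst_eq] at h1
      have h2 := nrm_nonneg (lap fun y => ψ t y - V0 A A y)
      linarith
  -- the mean value theorem for D
  have hkp : Per fun y : ℝ × ℝ => Real.cos y.1 - Real.cos y.2 := per_c1.sub per_c2
  set D : ℝ → ℝ := fun s => tint fun x => (Real.cos x.1 - Real.cos x.2) * lap (ψ s) x with hDdef
  have hder : ∀ t, 0 ≤ t → t ≤ 22 / δ → HasDerivAt D
      (tint fun x => (lap (ψ t) x + ψ t x) * br (ψ t) (fun y => Real.cos y.1 - Real.cos y.2) x) t :=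
    fun t h0 hT => hsol.pair hkp h0 hT
  have hV : ∀ x : ℝ × ℝ, Real.cos x.1 - Real.cos x.2 = VV ![0, 1, 0, -1] x := by
    intro x
    rw [VV_eq]
    simp
    ring
  have hkV : tint (fun x => (Real.cos x.1 - Real.cos x.2) * V0 A A x) = 0 := by
    simp only [hV, V0_eq_VV]
    rw [tint_VV_VV]
    simp [Fin.sum_univ_four]
  have hD0 : D 0 = 0 := by
    rw [hDdef]
    simp only [hψ0, lap_chi]
    have h1 : (fun x : ℝ × ℝ => (Real.cos x.1 - Real.cos x.2) *
        (-V0 A A x + -2 * η * Real.sin (x.1 + x.2))) =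
        fun x => -((Real.cos x.1 - Real.cos x.2) * V0 A A x) +
          (-2 * η) * (VV ![0, 1, 0, -1] x * Real.sin (x.1 + x.2)) := by
      funext x
      rw [← hV]
      ring
    rw [h1, tint_add (hkp.mul (per_V0 A A)).neg.continuous
      (((per_VV _).mul per_s12).const_mul _).continuous, tint_neg, hkV, tint_const_mul,
      tint_VV_mul _ per_s12.continuous]
    simp [tint_s12_bas]
  have hmono : D (22 / δ) - D 0 ≤ -(A * η) * (22 / δ - 0) := by
    apply (convex_Icc (0 : ℝ) (22 / δ)).image_sub_le_mul_sub_of_deriv_le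
    · intro s hs
      exact (hder s hs.1 hs.2).continuousAt.continuousWithinAt
    · intro s hs
      rw [interior_Icc] at hs
      exact (hder s hs.1.le hs.2.le).differentiableAt.differentiableWithinAt
    · intro s hs
      rw [interior_Icc] at hs
      rw [(hder s hs.1.le hs.2.le).deriv]
      exact hD s hs.1.le hs.2.le
    · exact left_mem_Icc.2 hT0
    · exact right_mem_Icc.2 hT0
    · exact hT0
  have hηT : η * (22 / δ) = 1 := by
    rw [hη]
    field_simp
  have hDT : D (22 / δ) ≤ -A := by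
    have : -(A * η) * (22 / δ - 0) = -A * (η * (22 / δ)) := by ring
    rw [this, hηT, hD0] at hmono
    linarith
  -- but D is small
  have hclose := hcon (22 / δ) hT0 le_rfl
  rw [dst_eq] at hclose
  have hp := hsol.tper.per (22 / δ)
  have h1 : D (22 / δ) = tint fun x => (Real.cos x.1 - Real.cos x.2) *
      lap (fun y => ψ (22 / δ) y - V0 A A y) x := by
    rw [hDdef, lap_sub hp (per_V0 A A), lap_V0]
    have h2 : (fun x : ℝ × ℝ => (Real.cos x.1 - Real.cos x.2) *
        (lap (ψ (22 / δ)) x - -V0 A A x)) = fun x =>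
        (Real.cos x.1 - Real.cos x.2) * lap (ψ (22 / δ)) x +
        (Real.cos x.1 - Real.cos x.2) * V0 A A x := by
      funext x; ring
    simp only
    rw [h2, tint_add (hkp.mul hp.lap).continuous (hkp.mul (per_V0 A A)).continuous, hkV]
    ring
  have h3 := tint_cs (f := fun x : ℝ × ℝ => Real.cos x.1 - Real.cos x.2)
    (g := lap fun y => ψ (22 / δ) y - V0 A A y) hkp.continuous (hp.sub (per_V0 A A)).lap.continuous
  have h4 : nrm (fun x : ℝ × ℝ => Real.cos x.1 - Real.cos x.2) ≤ 2 * Real.pi * 2 := by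
    refine nrm_le_of_bound hkp.continuous fun x => ?_
    have a1 := Real.abs_cos_le_one x.1
    have a2 := Real.abs_cos_le_one x.2
    have a3 := abs_sub (Real.cos x.1) (Real.cos x.2)
    linarith
  have h5 : nrm (lap fun y => ψ (22 / δ) y - V0 A A y) ≤ A / 16 := by
    have := gn_nonneg fun y => ψ (22 / δ) y - V0 A A y
    linarith
  rw [← h1] at h3
  have h6 : |D (22 / δ)| ≤ 2 * Real.pi * 2 * (A / 16) :=
    h3.trans (mul_le_mul h4 h5 (nrm_nonneg _) (by positivity))
  have h7 := neg_abs_le (D (22 / δ))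
  have hpi := Real.pi_lt_d2
  nlinarith

end

end Pool.Agent.Lib.EI
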