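import Pool.Agent.Lib.EI.Cut
import Pool.Agent.Lib.EI.Pow4

/-!
MODULE HFun (1.8 h). The function `H = F - μ V0³ - λ V0` of mean zero and orthogonal to the lowest modes.

Black boxes: `exists_cut` (`Cut.lean`), `tint_V0_cube_s1`, `tint_V0_cube_s2` (`Pow4.lean`).

Proof. `F` odd (`F (-x) = -F x`), `V0`, `V0³` odd, so `H` is odd; an odd `Per` function `h` has
`tint h = 0` (`tint (fun x => h (-x.1, -x.2)) = tint h` for continuous periodic `h`: by `tint_eq`, substitution
`x ↦ -x` and periodicity, e.g. `intervalIntegral.integral_comp_neg` and `Function.Periodic.intervalIntegral_add_eq`);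
hence `tint H = 0` and, as `cos` is even, `tint (H cos x₁) = tint (H cos x₂) = 0`.
The two equations `tint (H sin x₁) = 0 = tint (H sin x₂)` for `(μ, λ)`: with `A_i = tint (F sin x_i)`,
`tint (V0 sin x₁) = 2π² a`, `tint (V0 sin x₂) = 2π² b` (`V0_eq_VV`, `tint_VV_bas`),
`μ (3π²/2) a (a²+2b²) + λ 2π² a = A₁`, `μ (3π²/2) b (b²+2a²) + λ 2π² b = A₂`; the determinant is
`3π⁴ a b ((a²+2b²) - (b²+2a²)) = 3π⁴ a b (b² - a²) ≠ 0`. Explicitly: dividing the equations by `a`, `b` and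
subtracting, `μ (3π²/2)(b² - a²) = A₁/a - A₂/b`, then `λ = (A₁/a - μ (3π²/2)(a²+2b²))/(2π²)`.
Bracket: `{V0, V0³} = 0 = {V0, V0}` (`d1_mul`, or `d1_comp`), so `{V0, H} = {V0, F} = -b cos x₂`.
-/

set_option autoImplicit false

open MeasureTheory Set
open scoped ContDiff

namespace Pool.Agent.Lib.EI

private theorem neg1 {φ : ℝ → ℝ} (hφ : Function.Periodic φ (2 * Real.pi)) :
    ∫ x in (0 : ℝ)..2 * Real.pi, φ (-x) = ∫ x in (0 : ℝ)..2 * Real.pi, φ x := by
  rw [intervalIntegral.integral_comp_neg, neg_zero]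
  have h := hφ.intervalIntegral_add_eq (-(2 * Real.pi)) 0
  rw [neg_add_cancel, zero_add] at h
  exact h

private theorem tint_refl {h : ℝ × ℝ → ℝ} (hh : Per h) :
    tint (fun x => h (-x.1, -x.2)) = tint h := by
  have h1 : Continuous fun x : ℝ × ℝ => h (-x.1, -x.2) := hh.continuous.comp (by fun_prop)
  rw [tint_eq h1]
  have h2 : (∫ x in (0 : ℝ)..2 * Real.pi, ∫ y in (0 : ℝ)..2 * Real.pi, h (-(x, y).1, -(x, y).2)) =
      ∫ x in (0 : ℝ)..2 * Real.pi, ∫ y in (0 : ℝ)..2 * Real.pi, h (-x, y) := by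
    refine intervalIntegral.integral_congr fun x _ => ?_
    exact neg1 (φ := fun y => h (-x, y)) (fun y => hh.per2 _ _)
  rw [h2, tint_eq hh.continuous]
  exact neg1 (φ := fun x => ∫ y in (0 : ℝ)..2 * Real.pi, h (x, y))
    (fun x => by simp only [hh.per1])

private theorem tint_odd {h : ℝ × ℝ → ℝ} (hh : Per h) (ho : ∀ x : ℝ × ℝ, h (-x.1, -x.2) = -h x) :
    tint h = 0 := by
  have h1 := tint_refl hh
  simp only [ho] at h1
  rw [tint_neg] at h1
  linarith

theorem exists_H {a b : ℝ} (hb : 0 < b) (hab : b < a) : ∃ H : ℝ × ℝ → ℝ, Per H ∧ tint H = 0 ∧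
    (∀ i, tint (fun x => H x * bas i x) = 0) ∧ ∀ x, br (V0 a b) H x = -(b * Real.cos x.2) := by
  obtain ⟨F, hF, hFo, hFb⟩ := exists_cut hb hab
  have ha : 0 < a := hb.trans hab
  have hV := per_V0 a b
  have hVo : ∀ x : ℝ × ℝ, V0 a b (-x.1, -x.2) = -V0 a b x := by
    intro x
    simp only [V0, Real.sin_neg]
    ring
  obtain ⟨μ, lam, e1, e2⟩ : ∃ μ lam : ℝ,
      μ * (3 * Real.pi ^ 2 / 2 * a * (a ^ 2 + 2 * b ^ 2)) + lam * (2 * Real.pi ^ 2 * a) =
        tint (fun x => F x * bas 0 x) ∧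
      μ * (3 * Real.pi ^ 2 / 2 * b * (b ^ 2 + 2 * a ^ 2)) + lam * (2 * Real.pi ^ 2 * b) =
        tint (fun x => F x * bas 2 x) := by
    set A₁ := tint (fun x => F x * bas 0 x)
    set A₂ := tint (fun x => F x * bas 2 x)
    have h1 : b ^ 2 - a ^ 2 ≠ 0 := by
      have : b ^ 2 < a ^ 2 := by nlinarith
      linarith
    have h2 : (Real.pi : ℝ) ≠ 0 := Real.pi_ne_zero
    refine ⟨(A₁ / a - A₂ / b) / (3 * Real.pi ^ 2 / 2 * (b ^ 2 - a ^ 2)),
      (A₁ / a - (A₁ / a - A₂ / b) / (b ^ 2 - a ^ 2) * (a ^ 2 + 2 * b ^ 2)) / (2 * Real.pi ^ 2),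
      ?_, ?_⟩
    · field_simp
      ring
    · field_simp
      ring
  have hV3 : Per fun x => V0 a b x * (V0 a b x * V0 a b x) := hV.mul (hV.mul hV)
  have hH : Per fun x => (F x - μ * (V0 a b x * (V0 a b x * V0 a b x))) - lam * V0 a b x :=
    (hF.sub (hV3.const_mul μ)).sub (hV.const_mul lam)
  have hHo : ∀ x : ℝ × ℝ, (F (-x.1, -x.2) -
      μ * (V0 a b (-x.1, -x.2) * (V0 a b (-x.1, -x.2) * V0 a b (-x.1, -x.2)))) -
      lam * V0 a b (-x.1, -x.2) =
      -((F x - μ * (V0 a b x * (V0 a b x * V0 a b x))) - lam * V0 a b x) := by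
    intro x
    rw [hFo, hVo]
    ring
  have hmul : ∀ i : Fin 4, tint (fun x => ((F x - μ * (V0 a b x * (V0 a b x * V0 a b x))) -
      lam * V0 a b x) * bas i x) = tint (fun x => F x * bas i x) -
      μ * tint (fun x => (a * Real.sin x.1 + b * Real.sin x.2) ^ 3 * bas i x) -
      lam * (2 * Real.pi ^ 2 * (![a, 0, b, 0] : Fin 4 → ℝ) i) := by
    intro i
    have hp := per_bas i
    have h1 : (fun x => ((F x - μ * (V0 a b x * (V0 a b x * V0 a b x))) -
        lam * V0 a b x) * bas i x) = fun x => (F x * bas i x -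
          μ * ((a * Real.sin x.1 + b * Real.sin x.2) ^ 3 * bas i x)) -
          lam * (V0 a b x * bas i x) := by
      funext x
      simp only [V0]
      ring
    have hc : Per fun x : ℝ × ℝ =>
        (a * Real.sin x.1 + b * Real.sin x.2) ^ 3 * bas i x := (hV.pow 3).mul hp
    rw [h1, tint_sub ((hF.mul hp).sub (hc.const_mul μ)).continuous
      ((hV.mul hp).const_mul lam).continuous,
      tint_sub (hF.mul hp).continuous (hc.const_mul μ).continuous, tint_const_mul,
      tint_const_mul]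
    rw [V0_eq_VV, tint_VV_bas]
  refine ⟨_, hH, tint_odd hH hHo, ?_, ?_⟩
  · intro i
    fin_cases i
    · have h1 := hmul 0
      have h2 := tint_V0_cube_s1 a b
      have h3 : tint (fun x => (a * Real.sin x.1 + b * Real.sin x.2) ^ 3 * bas 0 x) =
        3 * Real.pi ^ 2 / 2 * a * (a ^ 2 + 2 * b ^ 2) := h2
      rw [h3, ← e1] at h1
      refine h1.trans ?_
      simp only [Matrix.cons_val_zero]
      ring
    · refine tint_odd (hH.mul (per_bas 1)) fun x => ?_
      have h1 : bas 1 (-x.1, -x.2) = bas 1 x := Real.cos_neg x.1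
      have h2 := hHo x
      show _ * bas 1 (-x.1, -x.2) = -(_ * bas 1 x)
      rw [h1, h2]
      ring
    · have h1 := hmul 2
      have h2 := tint_V0_cube_s2 a b
      have h3 : tint (fun x => (a * Real.sin x.1 + b * Real.sin x.2) ^ 3 * bas 2 x) =
        3 * Real.pi ^ 2 / 2 * b * (b ^ 2 + 2 * a ^ 2) := h2
      rw [h3, ← e2] at h1
      refine h1.trans ?_
      have h4 : (![a, 0, b, 0] : Fin 4 → ℝ) 2 = b := rfl
      rw [h4]
      ring
    · refine tint_odd (hH.mul (per_bas 3)) fun x => ?_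
      have h1 : bas 3 (-x.1, -x.2) = bas 3 x := Real.cos_neg x.2
      have h2 := hHo x
      show _ * bas 3 (-x.1, -x.2) = -(_ * bas 3 x)
      rw [h1, h2]
      ring
  · intro x
    rw [← hFb x]
    unfold br
    rw [d1_sub (hF.sub (hV3.const_mul μ)) (hV.const_mul lam),
      d2_sub (hF.sub (hV3.const_mul μ)) (hV.const_mul lam),
      d1_sub hF (hV3.const_mul μ), d2_sub hF (hV3.const_mul μ),
      d1_const_mul μ hV3, d2_const_mul μ hV3, d1_const_mul lam hV, d2_const_mul lam hV,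
      d1_mul hV (hV.mul hV), d2_mul hV (hV.mul hV), d1_mul hV hV, d2_mul hV hV]
    ring

end Pool.Agent.Lib.EI
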