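import Pool.Agent.Lib.EI.Close
import Pool.Agent.Lib.EI.DStat
import Pool.Agent.Lib.EI.HFun
import Pool.Agent.Lib.EI.Approx

/-!
The case of different amplitudes.
-/

set_option autoImplicit false

open MeasureTheory Set Filter
open scoped ContDiff Topology

namespace Pool.Agent.Lib.EI

theorem gn_const_mul (c : ℝ) {f : ℝ × ℝ → ℝ} (hf : Per f) : gn (fun x => c * f x) = |c| * gn f := by
  unfold gn
  rw [d1_const_mul c hf, d2_const_mul c hf]
  have h1 : (fun x => (c * d1 f x) ^ 2 + (c * d2 f x) ^ 2) =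
      fun x => c ^ 2 * (d1 f x ^ 2 + d2 f x ^ 2) := by funext x; ring
  rw [h1, tint_const_mul, Real.sqrt_mul (sq_nonneg c), Real.sqrt_sq_eq_abs]

private theorem ev_small (L : ℝ) {r : ℝ} (hr : 0 < r) : ∀ᶠ σ in 𝓝[>] (0 : ℝ), L * σ < r := by
  have h1 : Tendsto (fun σ : ℝ => L * σ) (𝓝[>] (0 : ℝ)) (𝓝 0) := by
    have h2 : Tendsto (fun σ : ℝ => L * σ) (𝓝 (0 : ℝ)) (𝓝 (L * 0)) :=
      (continuous_const.mul continuous_id).tendsto 0
    rw [mul_zero] at h2
    exact h2.mono_left nhdsWithin_le_nhds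
  exact h1.eventually (gt_mem_nhds hr)

/-- Instability in the case of different amplitudes. -/
theorem unst_gt {a b : ℝ} (hb : 0 < b) (hab : b < a) : Unst (V0 a b) := by
  have ha : 0 < a := hb.trans hab
  have hpi := Real.pi_pos
  obtain ⟨H, hH, hH0, horth, hbr⟩ := exists_H hb hab
  set M : ℝ := 2 * (nrm H + 1) with hMdef
  have hM : 0 ≤ M := by have := nrm_nonneg H; positivity
  obtain ⟨K2, hK2, hK2', C1, hC1, hclose⟩ := close hb hab hM hH horth hbr
  -- choice of the small parameter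
  obtain ⟨σ, h1, h2, h3, h4, h5, h6, hσ⟩ :
      ∃ σ : ℝ, (C1 * 2) * σ < (Real.pi * b / (8 * a)) ^ 2 ∧ 1 * σ < Real.pi * b / (8 * a) ∧
        (4 * M ^ 2 * (a + b + M)) * σ < Real.pi * b / 4 ∧ (M ^ 2) * σ < Real.pi ^ 2 * b / 4 ∧
        1 * σ < K2 ∧ 1 * σ < 1 ∧ 0 < σ := by
    have e := (ev_small (C1 * 2) (r := (Real.pi * b / (8 * a)) ^ 2) (by positivity)).and
      ((ev_small 1 (r := Real.pi * b / (8 * a)) (by positivity)).and
      ((ev_small (4 * M ^ 2 * (a + b + M)) (r := Real.pi * b / 4) (by positivity)).and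
      ((ev_small (M ^ 2) (r := Real.pi ^ 2 * b / 4) (by positivity)).and
      ((ev_small 1 hK2).and ((ev_small 1 one_pos).and self_mem_nhdsWithin)))))
    obtain ⟨σ, hσ⟩ := e.exists
    exact ⟨σ, hσ⟩
  rw [one_mul] at h2 h5 h6
  obtain ⟨Φ, hΦ, hΦ0, hΦorth, hκ⟩ := approx hH hH0 horth hσ
  have hΦM : nrm (lap Φ) ≤ M := by
    have e1 := orth_lap_le hΦ hΦ0 hΦorth
    have e2 : nrm (fun x => lap Φ x + Φ x) ≤ nrm (fun x => lap Φ x + Φ x - H x) + nrm H := by
      have := nrm_add_le (f := fun x => lap Φ x + Φ x - H x) (g := H)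
        ((hΦ.lap.add hΦ).sub hH).continuous hH.continuous
      have e3 : (fun x => (fun x => lap Φ x + Φ x - H x) x + H x) = fun x => lap Φ x + Φ x := by
        funext x; ring
      rw [e3] at this
      exact this
    have := nrm_nonneg H
    rw [hMdef]
    linarith
  have hgnΦ : gn Φ ≤ M := (orth_grad hΦ hΦ0 hΦorth).trans hΦM
  refine ⟨Real.pi * b * σ / 2, by positivity, 2 * M + 1, by positivity, fun δ hδ hδ1 => ?_⟩
  set η : ℝ := δ * σ / (2 * M + 1) with hη
  have hη0 : 0 < η := by positivity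
  have hηδ : η * (2 * M + 1) = δ * σ := by rw [hη]; field_simp
  have hησ : η ≤ σ := by
    rw [hη, div_le_iff₀ (by positivity)]
    nlinarith [mul_nonneg hM hσ.le]
  have hη1 : η ≤ 1 := by linarith
  have hηT : η * ((2 * M + 1) / δ) = σ := by
    rw [hη]; field_simp
  have hT0 : 0 ≤ (2 * M + 1) / δ := by positivity
  refine ⟨fun x => V0 a b x + η * Φ x, (per_V0 a b).add (hΦ.const_mul η), ?_, ?_, ?_⟩
  · rw [tint_add (per_V0 a b).continuous (hΦ.const_mul η).continuous, tint_V0, tint_const_mul, hΦ0]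
    ring
  · have e1 : (fun y => V0 a b y + η * Φ y - V0 a b y) = fun y => η * Φ y := by funext y; ring
    rw [dst_eq, e1, lap_const_mul η hΦ, nrm_const_mul, gn_const_mul η hΦ, abs_of_pos hη0]
    have e2 : η * gn Φ + η * nrm (lap Φ) ≤ η * (2 * M + 1) := by nlinarith
    rw [hηδ] at e2
    nlinarith
  intro ψ hsol hinit
  have hI : Ini a b M η ((2 * M + 1) / δ) Φ ψ :=
    ⟨hb, hab, hsol, hΦ, hΦ0, hΦorth, hΦM, hη0, hη1, hinit⟩
  refine ⟨(2 * M + 1) / δ, hT0, le_rfl, ?_⟩
  set T : ℝ := (2 * M + 1) / δ with hT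
  have hc2 : Per fun x : ℝ × ℝ => Real.cos x.2 := per_c2
  set c : ℝ → ℝ := fun s => tint fun x => Real.cos x.2 * lap (ψ s) x with hc
  have hder : ∀ t, 0 ≤ t → t ≤ T → HasDerivAt c
      (tint fun x => (lap (ψ t) x + ψ t x) * br (ψ t) (fun y => Real.cos y.2) x) t :=
    fun t h0 hT => hsol.pair hc2 h0 hT
  have hlow : ∀ t, 0 ≤ t → t ≤ T → Real.pi ^ 2 * b * η ≤
      tint fun x => (lap (ψ t) x + ψ t x) * br (ψ t) (fun y => Real.cos y.2) x := by
    intro t ht0 htT
    have hp := hsol.tper.per t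
    have hηt : η * t ≤ σ := by
      rw [← hηT]
      exact mul_le_mul_of_nonneg_left htT hη0.le
    have hηt0 : 0 ≤ η * t := by positivity
    have k1 := dstat ha.le hη0.le hH hΦ hp hbr hκ
    have k2 := hclose σ η T Φ ψ hI hκ t ht0 htT (by linarith)
    have k3 := hI.g_le ht0 htT
    have k4 := hI.grad_le ht0 htT
    have k5 := hI.dco_int ht0 htT 0
    have k6 := hI.dco_int ht0 htT 1
    rw [hI.co0] at k5 k6
    have k5' : |co (ψ t) 0 - a| ≤ (a + b + M) * M * σ := by
      refine (le_trans (by simpa using k5) ?_)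
      rw [mul_assoc _ η t]
      exact mul_le_mul_of_nonneg_left hηt (by positivity)
    have k6' : |co (ψ t) 1| ≤ (a + b + M) * M * σ := by
      refine (le_trans (by simpa using k6) ?_)
      rw [mul_assoc _ η t]
      exact mul_le_mul_of_nonneg_left hηt (by positivity)
    have k7 : nrm (fun x => (lap (ψ t) x + ψ t x) - η * (lap Φ x + Φ x)) ≤
        Real.pi * b / (8 * a) * η := by
      apply abs_le_of_sq_le_sq' _ (by positivity) |>.2
      refine k2.trans ?_
      rw [mul_pow]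
      refine mul_le_mul_of_nonneg_right ?_ (sq_nonneg _)
      have : C1 * (η * t + σ) ≤ C1 * (2 * σ) := mul_le_mul_of_nonneg_left (by linarith) hC1
      linarith
    have k8 : 2 * Real.pi * a * (nrm (fun x => (lap (ψ t) x + ψ t x) - η * (lap Φ x + Φ x)) + σ * η)
        ≤ Real.pi ^ 2 * b / 2 * η := by
      have e1 : nrm (fun x => (lap (ψ t) x + ψ t x) - η * (lap Φ x + Φ x)) + σ * η ≤
          Real.pi * b / (8 * a) * η + Real.pi * b / (8 * a) * η := by
        have := mul_le_mul_of_nonneg_right h2.le hη0.le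
        linarith
      calc 2 * Real.pi * a * (nrm (fun x => (lap (ψ t) x + ψ t x) - η * (lap Φ x + Φ x)) + σ * η)
          ≤ 2 * Real.pi * a * (Real.pi * b / (8 * a) * η + Real.pi * b / (8 * a) * η) :=
            mul_le_mul_of_nonneg_left e1 (by positivity)
        _ = Real.pi ^ 2 * b / 2 * η := by field_simp; ring
    have k9 : nrm (fun x => lap (ψ t) x + ψ t x) *
        (2 * Real.pi * (|co (ψ t) 0 - a| + |co (ψ t) 1|) + gn (rem (ψ t))) ≤
        Real.pi ^ 2 * b / 2 * η := by
      have e1 : 2 * Real.pi * (|co (ψ t) 0 - a| + |co (ψ t) 1|) + gn (rem (ψ t)) ≤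
          2 * Real.pi * ((a + b + M) * M * σ + (a + b + M) * M * σ) + M * σ := by
        have e2 : M * η ≤ M * σ := mul_le_mul_of_nonneg_left hησ hM
        have e3 : 2 * Real.pi * (|co (ψ t) 0 - a| + |co (ψ t) 1|) ≤
            2 * Real.pi * ((a + b + M) * M * σ + (a + b + M) * M * σ) :=
          mul_le_mul_of_nonneg_left (by linarith) (by positivity)
        linarith
      have e0 : 0 ≤ 2 * Real.pi * (|co (ψ t) 0 - a| + |co (ψ t) 1|) + gn (rem (ψ t)) := by
        have := gn_nonneg (rem (ψ t))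
        positivity
      calc nrm (fun x => lap (ψ t) x + ψ t x) *
          (2 * Real.pi * (|co (ψ t) 0 - a| + |co (ψ t) 1|) + gn (rem (ψ t)))
          ≤ (M * η) * (2 * Real.pi * ((a + b + M) * M * σ + (a + b + M) * M * σ) + M * σ) :=
            mul_le_mul k3 e1 e0 (by positivity)
        _ = Real.pi * (4 * M ^ 2 * (a + b + M) * σ) * η + M ^ 2 * σ * η := by ring
        _ ≤ Real.pi * (Real.pi * b / 4) * η + Real.pi ^ 2 * b / 4 * η := by
            have e4 : Real.pi * (4 * M ^ 2 * (a + b + M) * σ) * η ≤ Real.pi * (Real.pi * b / 4) * η :=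
              mul_le_mul_of_nonneg_right (mul_le_mul_of_nonneg_left h3.le hpi.le) hη0.le
            have e5 : M ^ 2 * σ * η ≤ Real.pi ^ 2 * b / 4 * η :=
              mul_le_mul_of_nonneg_right h4.le hη0.le
            linarith
        _ = Real.pi ^ 2 * b / 2 * η := by ring
    have k10 := (abs_le.1 (k1.trans (add_le_add k8 k9))).1
    linarith
  have hc0 : c 0 = 0 := by
    have hψ0 : ψ 0 = fun x => V0 a b x + η * Φ x := funext hinit
    rw [hc]
    simp only
    rw [hψ0, lap_add (per_V0 a b) (hΦ.const_mul η), lap_const_mul η hΦ, lap_V0]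
    have e1 : (fun x : ℝ × ℝ => Real.cos x.2 * (-V0 a b x + η * lap Φ x)) =
        fun x => -(V0 a b x * bas 3 x) + η * (lap Φ x * bas 3 x) := by
      funext x
      show _ = -(V0 a b x * Real.cos x.2) + η * (lap Φ x * Real.cos x.2)
      ring
    rw [e1, tint_add ((per_V0 a b).mul (per_bas 3)).neg.continuous
      ((hΦ.lap.mul (per_bas 3)).const_mul η).continuous, tint_neg, tint_const_mul,
      tint_lap_bas hΦ, hΦorth 3, V0_eq_VV, tint_VV_bas]
    simp
  have hmono : Real.pi ^ 2 * b * η * (T - 0) ≤ c T - c 0 := by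
    apply (convex_Icc (0 : ℝ) T).mul_sub_le_image_sub_of_le_deriv
    · intro s hs
      exact (hder s hs.1 hs.2).continuousAt.continuousWithinAt
    · intro s hs
      rw [interior_Icc] at hs
      exact (hder s hs.1.le hs.2.le).differentiableAt.differentiableWithinAt
    · intro s hs
      rw [interior_Icc] at hs
      rw [(hder s hs.1.le hs.2.le).deriv]
      exact hlow s hs.1.le hs.2.le
    · exact left_mem_Icc.2 hT0
    · exact right_mem_Icc.2 hT0
    · exact hT0
  have hcT : Real.pi ^ 2 * b * σ ≤ c T := by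
    have e1 : Real.pi ^ 2 * b * η * (T - 0) = Real.pi ^ 2 * b * (η * T) := by ring
    rw [e1, hηT, hc0, sub_zero] at hmono
    exact hmono
  have hp := hsol.tper.per T
  have e2 : c T = tint fun x => Real.cos x.2 * lap (fun y => ψ T y - V0 a b y) x := by
    rw [hc, lap_sub hp (per_V0 a b), lap_V0]
    have e3 : (fun x : ℝ × ℝ => Real.cos x.2 * (lap (ψ T) x - -V0 a b x)) = fun x =>
        Real.cos x.2 * lap (ψ T) x + V0 a b x * bas 3 x := by
      funext x
      show _ = Real.cos x.2 * lap (ψ T) x + V0 a b x * Real.cos x.2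
      ring
    simp only
    rw [e3, tint_add (hc2.mul hp.lap).continuous ((per_V0 a b).mul (per_bas 3)).continuous,
      V0_eq_VV, tint_VV_bas]
    simp
  have e4 := tint_cs (f := fun x : ℝ × ℝ => Real.cos x.2)
    (g := lap fun y => ψ T y - V0 a b y) hc2.continuous (hp.sub (per_V0 a b)).lap.continuous
  have e5 : nrm (fun x : ℝ × ℝ => Real.cos x.2) ≤ 2 * Real.pi * 1 :=
    nrm_le_of_bound hc2.continuous fun x => Real.abs_cos_le_one x.2
  rw [← e2] at e4
  have e6 : |c T| ≤ 2 * Real.pi * dst (ψ T) (V0 a b) := by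
    refine e4.trans ?_
    rw [dst_eq]
    have e7 := gn_nonneg fun y => ψ T y - V0 a b y
    have e8 := nrm_nonneg (lap fun y => ψ T y - V0 a b y)
    calc nrm (fun x : ℝ × ℝ => Real.cos x.2) * nrm (lap fun y => ψ T y - V0 a b y)
        ≤ (2 * Real.pi * 1) * nrm (lap fun y => ψ T y - V0 a b y) :=
          mul_le_mul_of_nonneg_right e5 e8
      _ ≤ 2 * Real.pi * ((gn fun y => ψ T y - V0 a b y) + nrm (lap fun y => ψ T y - V0 a b y)) := by
          nlinarith [mul_nonneg hpi.le e7]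
  have e9 := (le_abs_self (c T)).trans e6
  have e10 : Real.pi * (Real.pi * b * σ) ≤ Real.pi * (2 * dst (ψ T) (V0 a b)) := by
    nlinarith [hcT, e9]
  have e11 := le_of_mul_le_mul_left e10 hpi
  linarith

end Pool.Agent.Lib.EI
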