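import Pool.Agent.Lib.EI.TRem

/-!
MODULE Symm (1.8 h). Instability is invariant under translations and under the exchange of the variables.

Proofs. `Unst ψs` (`Defs.lean`): constants `ε, C`, and for every `δ ∈ (0,1]` data `χ` such that every solution
from `χ` leaves the `ε`-neighbourhood of `ψs` before time `C/δ`. Keep `ε, C`.
* `Unst.shift`: take `χ' x = χ (x + c)`. If `ψ'` is a solution from `χ'` then `ψ t x := ψ' t (x - c)`
  (`x + (-c)`) is a solution from `χ` (`Per.shift`, smoothness by composition, `tint_shift`, `d1_shift`, `d2_shift`,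
  and `dt` commutes with the shift definitionally: `dt (fun s => lap (fun y => F s (y + c))) t x =
  dt (fun s => lap (F s)) t (x + c)` after rewriting `lap` of the shift), and
  `dst (ψ' t) (ψs (· + c)) = dst (ψ t) ψs` (everything is a `tint` of a shifted function; the functions are `Per`,
  which is needed for `tint_shift`; assume `Per ψs`).
* `Unst.swap`: take `χ' x = -χ (x.2, x.1)`, `ψ t x := -ψ' t (x.2, x.1)`: `lap` commutes with the swap
  (`d1_swap`, `d2_swap`), the nonlinear term `-d2 ψ d1 ω + d1 ψ d2 ω` changes sign under the swap, and the two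
  minus signs compensate: with `ψ = -S ψ'` (`S f x = f (x.2, x.1)`), `ω = -S ω'`, `dt ω = -S (dt ω')`,
  `-d2 ψ d1 ω + d1 ψ d2 ω = S(-d1 ψ' d2 ω' + d2 ψ' d1 ω') = -S (-d2 ψ' d1 ω' + d1 ψ' d2 ω')`. `tint_swap`.
-/

set_option autoImplicit false

open MeasureTheory Set
open scoped ContDiff

namespace Pool.Agent.Lib.EI

namespace SymmAux

variable {f g : ℝ × ℝ → ℝ}

private theorem lap_shift (c : ℝ × ℝ) : lap (fun x => f (x + c)) = fun x => lap f (x + c) := by
  funext x
  unfold lap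
  rw [d1_shift, d2_shift, d1_shift, d2_shift]

private theorem dst_shift (hf : Per f) (hg : Per g) (c : ℝ × ℝ) :
    dst (fun x => f (x + c)) (fun x => g (x + c)) = dst f g := by
  have hk := hf.sub hg
  have h1 : (fun y : ℝ × ℝ => f (y + c) - g (y + c)) =
      fun y => (fun y => f y - g y) (y + c) := rfl
  unfold dst nrm
  rw [h1, lap_shift (f := fun y => f y - g y) c, d1_shift (f := fun y => f y - g y) c,
    d2_shift (f := fun y => f y - g y) c]
  rw [tint_shift ((hk.d1.pow 2).add (hk.d2.pow 2)) c, tint_shift (hk.lap.pow 2) c]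

private theorem sol_shift {T : ℝ} {ψ : ℝ → ℝ × ℝ → ℝ} (h : Sol T ψ) (c : ℝ × ℝ) :
    Sol T fun t x => ψ t (x + c) := by
  refine ⟨⟨?_, fun t x y => ?_, fun t x y => ?_⟩, fun t => ?_, fun t h0 hT x => ?_⟩
  · have h1 : ContDiff ℝ ∞ fun z : ℝ × ℝ × ℝ => ((z.1, z.2 + c) : ℝ × ℝ × ℝ) := by
      fun_prop
    exact h.tper.smooth.comp h1
  · exact ((h.tper.per t).shift c).per1 x y
  · exact ((h.tper.per t).shift c).per2 x y
  · exact (tint_shift (h.tper.per t) c).trans (h.mean t)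
  · have h1 := h.euler t h0 hT (x + c)
    have h2 : (fun s => lap (fun x => ψ s (x + c))) = fun s x => lap (ψ s) (x + c) := by
      funext s
      exact lap_shift c
    have h3 : dt (fun s => lap (fun x => ψ s (x + c))) t x =
        dt (fun s => lap (ψ s)) t (x + c) := by
      rw [h2]
      rfl
    rw [h3, lap_shift c, d1_shift c, d2_shift c, d1_shift c, d2_shift c]
    exact h1

private theorem d1_sw (hf : Per f) :
    d1 (fun x => -f (x.2, x.1)) = fun x => -d2 f (x.2, x.1) := by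
  rw [d1_neg, d1_swap hf]

private theorem d2_sw (hf : Per f) :
    d2 (fun x => -f (x.2, x.1)) = fun x => -d1 f (x.2, x.1) := by
  rw [d2_neg, d2_swap hf]

private theorem lap_sw (hf : Per f) :
    lap (fun x => -f (x.2, x.1)) = fun x => -lap f (x.2, x.1) := by
  funext x
  unfold lap
  rw [d1_sw hf, d2_sw hf, d1_sw hf.d2, d2_sw hf.d1]
  ring

private theorem tint_sw (hf : Per f) : tint (fun x => -f (x.2, x.1)) = -tint f := by
  rw [tint_neg, tint_swap hf.continuous]

private theorem dst_sw (hf : Per f) (hg : Per g) :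
    dst (fun x => -f (x.2, x.1)) (fun x => -g (x.2, x.1)) = dst f g := by
  have hk := hf.sub hg
  have h1 : (fun y : ℝ × ℝ => -f (y.2, y.1) - -g (y.2, y.1)) =
      fun y => -(fun y => f y - g y) (y.2, y.1) := by
    funext y
    ring
  unfold dst nrm
  rw [h1, lap_sw hk, d1_sw hk, d2_sw hk]
  have h2 : (fun x : ℝ × ℝ => (-d2 (fun y => f y - g y) (x.2, x.1)) ^ 2 +
      (-d1 (fun y => f y - g y) (x.2, x.1)) ^ 2) = fun x =>
      (fun x => d1 (fun y => f y - g y) x ^ 2 + d2 (fun y => f y - g y) x ^ 2) (x.2, x.1) := by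
    funext x
    ring
  have h3 : (fun x : ℝ × ℝ => (-lap (fun y => f y - g y) (x.2, x.1)) ^ 2) = fun x =>
      (fun x => lap (fun y => f y - g y) x ^ 2) (x.2, x.1) := by
    funext x
    ring
  rw [h2, h3, tint_swap ((hk.d1.pow 2).add (hk.d2.pow 2)).continuous,
    tint_swap (hk.lap.pow 2).continuous]

private theorem per_sw (hf : Per f) : Per fun x => -f (x.2, x.1) := hf.swap.neg

private theorem sol_sw {T : ℝ} {ψ : ℝ → ℝ × ℝ → ℝ} (h : Sol T ψ) :
    Sol T fun t x => -ψ t (x.2, x.1) := by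
  refine ⟨⟨?_, fun t x y => ?_, fun t x y => ?_⟩, fun t => ?_, fun t h0 hT x => ?_⟩
  · have h1 : ContDiff ℝ ∞ fun z : ℝ × ℝ × ℝ => ((z.1, (z.2.2, z.2.1)) : ℝ × ℝ × ℝ) := by
      fun_prop
    exact (h.tper.smooth.comp h1).neg
  · exact (per_sw (h.tper.per t)).per1 x y
  · exact (per_sw (h.tper.per t)).per2 x y
  · show tint (fun x => -ψ t (x.2, x.1)) = 0
    rw [tint_sw (h.tper.per t), h.mean t, neg_zero]
  · have h1 := h.euler t h0 hT (x.2, x.1)
    have h2 : (fun s => lap (fun x => -ψ s (x.2, x.1))) = fun s x => -lap (ψ s) (x.2, x.1) := by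
      funext s
      exact lap_sw (h.tper.per s)
    have h3 : dt (fun s => lap (fun x => -ψ s (x.2, x.1))) t x =
        -dt (fun s => lap (ψ s)) t (x.2, x.1) := by
      rw [h2]
      exact (h.tper.lap.hasDerivAt t (x.2, x.1)).neg.deriv
    rw [h3, lap_sw (h.tper.per t), d1_sw (h.tper.per t), d2_sw (h.tper.per t),
      d1_sw (h.tper.per t).lap, d2_sw (h.tper.per t).lap]
    show -dt (fun s => lap (ψ s)) t (x.2, x.1) +
      (- -d1 (ψ t) (x.2, x.1) * -d2 (lap (ψ t)) (x.2, x.1) +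
        -d2 (ψ t) (x.2, x.1) * -d1 (lap (ψ t)) (x.2, x.1)) = 0
    linarith

end SymmAux

open SymmAux

theorem Unst.shift {ψs : ℝ × ℝ → ℝ} (hs : Per ψs) (h : Unst ψs) (c : ℝ × ℝ) :
    Unst fun x => ψs (x + c) := by
  obtain ⟨ε, hε, C, hC, h⟩ := h
  refine ⟨ε, hε, C, hC, fun δ hδ hδ1 => ?_⟩
  obtain ⟨χ, hχ, hm, hd, hs'⟩ := h δ hδ hδ1
  refine ⟨fun x => χ (x + c), hχ.shift c, (tint_shift hχ c).trans hm, ?_, fun ψ hψ h0 => ?_⟩
  · rw [dst_shift hχ hs c]
    exact hd
  · obtain ⟨t, ht0, ht1, ht2⟩ := hs' (fun t x => ψ t (x + -c)) (sol_shift hψ (-c)) (fun x => by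
      show ψ 0 (x + -c) = χ x
      rw [h0]
      show χ (x + -c + c) = χ x
      rw [neg_add_cancel_right])
    refine ⟨t, ht0, ht1, ?_⟩
    have h1 := dst_shift ((hψ.tper.per t).shift (-c)) hs c
    have h2 : (fun x : ℝ × ℝ => ψ t (x + c + -c)) = ψ t := by
      funext x
      rw [add_neg_cancel_right]
    rw [h2] at h1
    rw [h1]
    exact ht2

theorem Unst.swap {ψs : ℝ × ℝ → ℝ} (hs : Per ψs) (h : Unst ψs) :
    Unst fun x => -ψs (x.2, x.1) := by
  obtain ⟨ε, hε, C, hC, h⟩ := h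
  refine ⟨ε, hε, C, hC, fun δ hδ hδ1 => ?_⟩
  obtain ⟨χ, hχ, hm, hd, hs'⟩ := h δ hδ hδ1
  refine ⟨fun x => -χ (x.2, x.1), per_sw hχ, ?_, ?_, fun ψ hψ h0 => ?_⟩
  · rw [tint_sw hχ, hm, neg_zero]
  · rw [dst_sw hχ hs]
    exact hd
  · obtain ⟨t, ht0, ht1, ht2⟩ := hs' (fun t x => -ψ t (x.2, x.1)) (sol_sw hψ) (fun x => by
      show -ψ 0 (x.2, x.1) = χ x
      rw [h0]
      show - -χ (x.1, x.2) = χ x
      rw [neg_neg])
    refine ⟨t, ht0, ht1, ?_⟩
    have h1 := dst_sw (per_sw (hψ.tper.per t)) hs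
    have h2 : (fun x : ℝ × ℝ => - -ψ t ((x.2, x.1) : ℝ × ℝ).swap) = ψ t := by
      funext x
      rw [neg_neg]
      rfl
    have h3 : dst (ψ t) (fun x => -ψs (x.2, x.1)) =
        dst (fun x => -ψ t (x.2, x.1)) ψs := by
      rw [← h1]
      congr 1
      exact h2.symm
    rw [h3]
    exact ht2

end Pool.Agent.Lib.EI
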