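import Pool.Agent.Lib.EI.EqA
import Pool.Agent.Lib.EI.GT
import Pool.Agent.Lib.EI.Symm

/-!
Instability of every non-shear flow in the lowest eigenspace of the square torus.
-/

set_option autoImplicit false

open MeasureTheory Set
open scoped ContDiff

namespace Pool.Agent.Lib.EI

theorem unst_pos {a b : ℝ} (ha : 0 < a) (hb : 0 < b) : Unst (V0 a b) := by
  rcases lt_trichotomy b a with h | h | h
  · exact unst_gt hb h
  · rw [h]; exact unst_eq ha
  · have h1 := ((unst_gt ha h).swap (per_V0 b a)).shift (per_V0 b a).swap.neg (Real.pi, Real.pi)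
    have h2 : (fun x : ℝ × ℝ => -V0 b a ((x + (Real.pi, Real.pi)).2, (x + (Real.pi, Real.pi)).1)) =
        V0 a b := by
      funext x
      show -(b * Real.sin (x.2 + Real.pi) + a * Real.sin (x.1 + Real.pi)) =
        a * Real.sin x.1 + b * Real.sin x.2
      rw [Real.sin_add_pi, Real.sin_add_pi]
      ring
    rw [← h2]
    exact h1

theorem unst_phase {a b : ℝ} (ha : 0 < a) (hb : 0 < b) (p q : ℝ) :
    Unst fun x => a * Real.sin (x.1 + p) + b * Real.sin (x.2 + q) :=
  (unst_pos ha hb).shift (per_V0 a b) (p, q)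

theorem exists_phase (c d : ℝ) (h : c ≠ 0 ∨ d ≠ 0) : ∃ a p : ℝ, 0 < a ∧
    ∀ x, c * Real.sin x + d * Real.cos x = a * Real.sin (x + p) := by
  set z : ℂ := ⟨c, d⟩ with hz
  have hz0 : z ≠ 0 := by
    intro h0
    rcases h with h | h
    · exact h (congrArg Complex.re h0)
    · exact h (congrArg Complex.im h0)
  refine ⟨‖z‖, Complex.arg z, norm_pos_iff.2 hz0, fun x => ?_⟩
  have h1 : ‖z‖ * Real.cos (Complex.arg z) = c := Complex.norm_mul_cos_arg z
  have h2 : ‖z‖ * Real.sin (Complex.arg z) = d := Complex.norm_mul_sin_arg z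
  rw [Real.sin_add, ← h1, ← h2]
  ring

/-- Every flow in the lowest eigenspace of the square torus which is not a shear flow is unstable. -/
theorem unst_all (c₁ c₂ c₃ c₄ : ℝ) (h12 : c₁ ≠ 0 ∨ c₂ ≠ 0) (h34 : c₃ ≠ 0 ∨ c₄ ≠ 0) :
    Unst fun x => c₁ * Real.sin x.1 + c₂ * Real.cos x.1 + c₃ * Real.sin x.2 + c₄ * Real.cos x.2 := by
  obtain ⟨a, p, ha, h1⟩ := exists_phase c₁ c₂ h12
  obtain ⟨b, q, hb, h2⟩ := exists_phase c₃ c₄ h34
  have h3 : (fun x : ℝ × ℝ => c₁ * Real.sin x.1 + c₂ * Real.cos x.1 + c₃ * Real.sin x.2 +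
      c₄ * Real.cos x.2) = fun x => a * Real.sin (x.1 + p) + b * Real.sin (x.2 + q) := by
    funext x
    rw [h1, add_assoc, h2]
  rw [h3]
  exact unst_phase ha hb p q

end Pool.Agent.Lib.EI
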