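import Pool.Agent.Lib.EI.TRem
import Pool.Agent.Lib.EI.Poin

/-!
MODULE Gap (1.5 h). The quadratic form `q f = ∫ Δf (Δf + f)` (conserved by Euler) and the spectral gap.

Tools: `Trig.lean` (`VV`, `co`, `rem`, `tint_g_VV`, `lap_rem`, `g_eq`, `tint_rem_bas`, `tint_rem`, ...),
`Int.lean` (`tint_mul_lap`, `tint_lap_symm`, `tint_cs`, `nrm_*`), `TRem.lean` (`gn`, `gn_sq`),
`Poin.lean` (`poincare`, `poincare2`; black box, its hypotheses for `rem f` are `tint_rem` and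
`tint_rem_bas` at `i = 0, 1, 2, 3` (`bas` unfolds definitionally: `sin x.1, cos x.1, sin x.2, cos x.2`)).

Proofs. Write `r = rem f`, `w = lap r`, `g = lap f + f = w + r` (`g_eq`).
* `qf_eq`: `lap f = w - VV (co f)` (`lap_rem`) and `∫ VV c * g = 0` (`tint_g_VV`).
* identities: `∫ w² + ∫ w r = qf f` (from `qf_eq` and `g = w + r`), `∫ r w = -gn r ^ 2` (`tint_mul_lap`).
  So `qf f = ‖w‖² - ‖∇r‖²`.
* `poincare2` for `r`: `2 ‖r‖² ≤ ‖∇r‖²`. Cauchy-Schwarz: `‖∇r‖² = -∫ r w ≤ ‖r‖ ‖w‖`, hence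
  `‖∇r‖⁴ ≤ ‖r‖² ‖w‖² ≤ ½ ‖∇r‖² ‖w‖²`, so `2 ‖∇r‖² ≤ ‖w‖²`  (if `‖∇r‖ = 0` trivial).
  So `qf f = ‖w‖² - ‖∇r‖² ≥ ½ ‖w‖²`: `gap_w`; `‖∇r‖² ≤ ½ ‖w‖² ≤ qf f`: `gap_grad`.
* `gap_g`: `‖w + r‖² = ‖w‖² + 2 ∫ w r + ‖r‖² = ‖w‖² - 2 ‖∇r‖² + ‖r‖² ≤ ‖w‖² - ‖∇r‖² = qf f`.
* `qf_sub`: expand; `lap (f - g) = lap f - lap g` (`lap_sub`) and `∫ lap g * f = ∫ g * lap f`
  (`tint_lap_symm`).
* `orth_*`: if `Φ` has mean zero and is orthogonal to `bas i` then `co Φ = 0`, so `rem Φ = Φ`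
  (`rem f x = f x - VV (co f) x`, `VV 0 = 0`), and the above apply with `r = Φ`, `w = lap Φ`:
  `gn Φ ^ 2 ≤ ½ ‖lap Φ‖²`; `4 ‖Φ‖² ≤ 2 gn² ≤ ‖lap Φ‖²`; and
  `‖lap Φ‖ ≤ ‖lap Φ + Φ‖ + ‖Φ‖ ≤ ‖lap Φ + Φ‖ + ½ ‖lap Φ‖`; `qf Φ = ‖lap Φ‖² - gn Φ² ≤ ‖lap Φ‖²`.
-/

set_option autoImplicit false

open MeasureTheory Set
open scoped ContDiff

namespace Pool.Agent.Lib.EI

/-- The quadratic form `∫ Δf (Δf + f)`. -/
noncomputable def qf (f : ℝ × ℝ → ℝ) : ℝ := tint fun x => lap f x * (lap f x + f x)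

variable {f g Φ : ℝ × ℝ → ℝ}

private theorem mulLapSelf (hΦ : Per Φ) : tint (fun x => lap Φ x * Φ x) = -gn Φ ^ 2 := by
  have h1 : (fun x => lap Φ x * Φ x) = fun x => Φ x * lap Φ x := by funext x; ring
  rw [h1, tint_mul_lap hΦ hΦ, gn_sq]
  congr 2
  funext x
  ring

private theorem basePoin (hΦ : Per Φ) (h0 : tint Φ = 0)
    (h1 : ∀ i, tint (fun x => Φ x * bas i x) = 0) : 2 * nrm Φ ^ 2 ≤ gn Φ ^ 2 := by
  rw [nrm_sq, gn_sq]
  exact poincare2 hΦ h0 (h1 0) (h1 1) (h1 2) (h1 3)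

private theorem baseGrad (hΦ : Per Φ) (h0 : tint Φ = 0)
    (h1 : ∀ i, tint (fun x => Φ x * bas i x) = 0) : 2 * gn Φ ^ 2 ≤ nrm (lap Φ) ^ 2 := by
  have hP := basePoin hΦ h0 h1
  have hC := tint_cs hΦ.lap.continuous hΦ.continuous
  rw [mulLapSelf hΦ, abs_neg, abs_of_nonneg (sq_nonneg _)] at hC
  have ha := nrm_nonneg Φ
  have hw := nrm_nonneg (lap Φ)
  have hg := gn_nonneg Φ
  set a := nrm Φ
  set w := nrm (lap Φ)
  set γ := gn Φ
  by_contra hcon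
  push Not at hcon
  have hγ : 0 < γ ^ 2 := by nlinarith [sq_nonneg w]
  have h3 : (γ ^ 2) ^ 2 ≤ (w * a) ^ 2 := by
    apply pow_le_pow_left₀ hγ.le hC
  have h4 : (w * a) ^ 2 = w ^ 2 * a ^ 2 := by ring
  rw [h4] at h3
  have h5 : w ^ 2 * (2 * a ^ 2) ≤ w ^ 2 * γ ^ 2 := mul_le_mul_of_nonneg_left hP (sq_nonneg _)
  nlinarith

private theorem sqAdd (hΦ : Per Φ) : nrm (fun x => lap Φ x + Φ x) ^ 2 =
    nrm (lap Φ) ^ 2 - 2 * gn Φ ^ 2 + nrm Φ ^ 2 := by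
  have h1 : (fun x => (lap Φ x + Φ x) ^ 2) =
      fun x => (lap Φ x ^ 2 + 2 * (lap Φ x * Φ x)) + Φ x ^ 2 := by
    funext x; ring
  have c1 := hΦ.continuous
  have c2 := hΦ.lap.continuous
  rw [nrm_sq, h1, tint_add (by fun_prop) (by fun_prop), tint_add (by fun_prop) (by fun_prop),
    tint_const_mul, mulLapSelf hΦ, ← nrm_sq, ← nrm_sq]
  ring

private theorem selfQf (hΦ : Per Φ) : qf Φ = nrm (lap Φ) ^ 2 - gn Φ ^ 2 := by
  have c1 := hΦ.continuous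
  have c2 := hΦ.lap.continuous
  have h1 : (fun x => lap Φ x * (lap Φ x + Φ x)) = fun x => lap Φ x ^ 2 + lap Φ x * Φ x := by
    funext x; ring
  unfold qf
  rw [h1, tint_add (by fun_prop) (by fun_prop), mulLapSelf hΦ, ← nrm_sq]
  ring

theorem qf_eq (hf : Per f) : qf f = tint fun x => lap (rem f) x * (lap f x + f x) := by
  have h1 : (fun x => lap (rem f) x * (lap f x + f x)) =
      fun x => lap f x * (lap f x + f x) + VV (co f) x * (lap f x + f x) := by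
    funext x
    rw [congrFun (lap_rem hf) x]
    ring
  rw [h1, tint_add (hf.lap.mul (hf.lap.add hf)).continuous
    ((per_VV _).mul (hf.lap.add hf)).continuous, tint_g_VV hf, add_zero]
  rfl

private theorem qfRem (hf : Per f) : qf f = qf (rem f) := by
  rw [qf_eq hf]
  unfold qf
  congr 1
  funext x
  rw [g_eq hf]

private theorem qfRem2 (hf : Per f) :
    qf f = nrm (lap (rem f)) ^ 2 - gn (rem f) ^ 2 := by
  rw [qfRem hf, selfQf (per_rem hf)]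

theorem gap_w (hf : Per f) (h0 : tint f = 0) : nrm (lap (rem f)) ^ 2 ≤ 2 * qf f := by
  have h := baseGrad (per_rem hf) (tint_rem hf h0) (tint_rem_bas hf)
  rw [qfRem2 hf]
  linarith

theorem gap_grad (hf : Per f) (h0 : tint f = 0) : gn (rem f) ^ 2 ≤ qf f := by
  have h := baseGrad (per_rem hf) (tint_rem hf h0) (tint_rem_bas hf)
  rw [qfRem2 hf]
  linarith

theorem gap_g (hf : Per f) (h0 : tint f = 0) : nrm (fun x => lap f x + f x) ^ 2 ≤ qf f := by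
  have h := basePoin (per_rem hf) (tint_rem hf h0) (tint_rem_bas hf)
  have h1 : (fun x => lap f x + f x) = fun x => lap (rem f) x + rem f x := by
    funext x
    rw [g_eq hf]
  rw [h1, sqAdd (per_rem hf), qfRem2 hf]
  nlinarith [sq_nonneg (nrm (rem f))]

theorem qf_nonneg (hf : Per f) (h0 : tint f = 0) : 0 ≤ qf f :=
  (sq_nonneg _).trans (gap_grad hf h0)

theorem qf_sub (hf : Per f) (hg : Per g) : qf (fun x => f x - g x) =
    qf f + qf g - 2 * tint (fun x => lap f x * (lap g x + g x)) := by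
  have c1 := hf.continuous
  have c2 := hf.lap.continuous
  have c3 := hg.continuous
  have c4 := hg.lap.continuous
  have h1 : (fun x => lap (fun y => f y - g y) x * (lap (fun y => f y - g y) x + (f x - g x))) =
      fun x => ((lap f x * (lap f x + f x) + lap g x * (lap g x + g x)) -
        2 * (lap f x * (lap g x + g x))) + (lap f x * g x - f x * lap g x) := by
    funext x
    rw [congrFun (lap_sub hf hg) x]
    ring
  have h2 := tint_lap_symm hf hg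
  unfold qf
  rw [h1, tint_add (by fun_prop) (by fun_prop), tint_sub (by fun_prop) (by fun_prop),
    tint_add (by fun_prop) (by fun_prop), tint_const_mul,
    tint_sub (f := fun x => lap f x * g x) (g := fun x => f x * lap g x) (by fun_prop)
      (by fun_prop), h2]
  ring

theorem qf_const_mul (c : ℝ) (hf : Per f) : qf (fun x => c * f x) = c ^ 2 * qf f := by
  unfold qf
  rw [← tint_const_mul]
  congr 1
  funext x
  rw [congrFun (lap_const_mul c hf) x]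
  ring

theorem orth_rem (h1 : ∀ i, tint (fun x => Φ x * bas i x) = 0) :
    co Φ = 0 ∧ rem Φ = Φ := by
  have h2 : co Φ = 0 := by
    funext i
    unfold co
    rw [h1 i, zero_div]
    rfl
  refine ⟨h2, ?_⟩
  funext x
  unfold rem VV
  rw [h2]
  simp

theorem orth_grad (hΦ : Per Φ) (h0 : tint Φ = 0) (h1 : ∀ i, tint (fun x => Φ x * bas i x) = 0) :
    gn Φ ≤ nrm (lap Φ) := by
  have h := baseGrad hΦ h0 h1
  refine abs_le_of_sq_le_sq' ?_ (nrm_nonneg _) |>.2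
  nlinarith [sq_nonneg (gn Φ)]

theorem orth_half (hΦ : Per Φ) (h0 : tint Φ = 0) (h1 : ∀ i, tint (fun x => Φ x * bas i x) = 0) :
    2 * nrm Φ ≤ nrm (lap Φ) := by
  have h := baseGrad hΦ h0 h1
  have h2 := basePoin hΦ h0 h1
  refine abs_le_of_sq_le_sq' ?_ (nrm_nonneg _) |>.2
  nlinarith

theorem orth_lap_le (hΦ : Per Φ) (h0 : tint Φ = 0) (h1 : ∀ i, tint (fun x => Φ x * bas i x) = 0) :
    nrm (lap Φ) ≤ 2 * nrm (fun x => lap Φ x + Φ x) := by
  have h := orth_half hΦ h0 h1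
  have c1 := hΦ.continuous
  have c2 := hΦ.lap.continuous
  have h2 := nrm_sub_le (f := fun x => lap Φ x + Φ x) (g := Φ) (by fun_prop) c1
  have h3 : (fun x => lap Φ x + Φ x - Φ x) = lap Φ := by funext x; ring
  rw [h3] at h2
  linarith

theorem orth_qf (hΦ : Per Φ) (h0 : tint Φ = 0) (h1 : ∀ i, tint (fun x => Φ x * bas i x) = 0) :
    qf Φ ≤ nrm (lap Φ) ^ 2 := by
  rw [selfQf hΦ]
  nlinarith [sq_nonneg (gn Φ)]

end Pool.Agent.Lib.EI
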