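import Pool.Agent.Lib.EI.TRem

/-!
MODULE HShift (1.5 h). Translates of a smooth function on the torus.

`Hs H α β x = H (x.1 - α, x.2 - β)`. It is `fun x => H (x + (-α, -β))` up to `sub_eq_add_neg`
(`Per.shift`, `d1_shift`, `d2_shift`, `tint_shift` in `Calc1.lean`, `Int.lean`).

* `Hs_orth`: `∫ H(x - c) bas_i(x) dx = ∫ H(x) bas_i(x + c) dx` (`tint_shift`), and `bas_i (x + c)` is a
  linear combination of the `bas_j (x)` by the addition theorems, e.g.
  `sin (x₁ + α) = cos α sin x₁ + sin α cos x₁`. Then `tint_VV_mul` for general coefficients `c`.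
* `Hs_d_orth`: `∫ d1 H^ · VV c = -∫ H^ · d1 (VV c)` (`tint_mul_d1`), and `d1 (VV c) = VV ![-c 1, c 0, 0, 0]`
  (`d1_VV`, `VV_eq`); the same for `d2`.
* `Hs_diff`: `|H(x - c) - H(x)| ≤ sup|d1 H| |α| + sup|d2 H| |β|` (mean value inequality:
  `Convex.norm_image_sub_le_of_norm_fderiv_le` on `univ`, or along the two coordinate segments), the partial
  derivatives are bounded (`Per.bounded`), then `tint_cs` and `nrm_le_of_bound`.
-/

set_option autoImplicit false

open MeasureTheory Set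
open scoped ContDiff

namespace Pool.Agent.Lib.EI

/-- The translate of `H` by `(α, β)`. -/
noncomputable def Hs (H : ℝ × ℝ → ℝ) (α β : ℝ) (x : ℝ × ℝ) : ℝ := H (x.1 - α, x.2 - β)

variable {H : ℝ × ℝ → ℝ}

private theorem Hs_eq (α β : ℝ) : Hs H α β = fun x => H (x + (-α, -β)) := by
  funext x
  show H (x.1 - α, x.2 - β) = H (x.1 + -α, x.2 + -β)
  rw [sub_eq_add_neg, sub_eq_add_neg]

theorem per_Hs (hH : Per H) (α β : ℝ) : Per (Hs H α β) := by
  rw [Hs_eq]
  exact hH.shift _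

theorem d1_Hs (α β : ℝ) : d1 (Hs H α β) = Hs (d1 H) α β := by
  rw [Hs_eq, Hs_eq (H := d1 H)]
  exact d1_shift _

theorem d2_Hs (α β : ℝ) : d2 (Hs H α β) = Hs (d2 H) α β := by
  rw [Hs_eq, Hs_eq (H := d2 H)]
  exact d2_shift _

private theorem VV_shift (c : Fin 4 → ℝ) (α β : ℝ) (x : ℝ × ℝ) :
    VV c (x + (α, β)) = VV ![c 0 * Real.cos α - c 1 * Real.sin α, c 0 * Real.sin α + c 1 * Real.cos α,
      c 2 * Real.cos β - c 3 * Real.sin β, c 2 * Real.sin β + c 3 * Real.cos β] x := by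
  rw [VV_eq, VV_eq]
  have e1 : (x + (α, β)).1 = x.1 + α := rfl
  have e2 : (x + (α, β)).2 = x.2 + β := rfl
  rw [e1, e2, Real.sin_add, Real.cos_add, Real.sin_add, Real.cos_add]
  simp
  ring

private theorem orth_VV (hH : Per H) (h1 : ∀ i, tint (fun x => H x * bas i x) = 0)
    (c : Fin 4 → ℝ) : tint (fun x => H x * VV c x) = 0 := by
  have h2 := tint_VV_mul c hH.continuous
  simp only [h1, mul_zero, Finset.sum_const_zero] at h2
  rw [← h2]
  congr 1
  funext x
  ring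

theorem Hs_orth (hH : Per H) (h1 : ∀ i, tint (fun x => H x * bas i x) = 0) (α β : ℝ)
    (c : Fin 4 → ℝ) : tint (fun x => Hs H α β x * VV c x) = 0 := by
  have h2 := tint_shift ((per_Hs hH α β).mul (per_VV c)) (α, β)
  rw [← h2, ← orth_VV hH h1 ![c 0 * Real.cos α - c 1 * Real.sin α,
    c 0 * Real.sin α + c 1 * Real.cos α,
    c 2 * Real.cos β - c 3 * Real.sin β, c 2 * Real.sin β + c 3 * Real.cos β]]
  congr 1
  funext x
  rw [VV_shift c α β x]
  congr 1
  show H (x.1 + α - α, x.2 + β - β) = H x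
  rw [add_sub_cancel_right, add_sub_cancel_right]

theorem Hs_d1_orth (hH : Per H) (h1 : ∀ i, tint (fun x => H x * bas i x) = 0) (α β : ℝ)
    (c : Fin 4 → ℝ) : tint (fun x => Hs (d1 H) α β x * VV c x) = 0 := by
  have h2 := tint_mul_d1 (per_VV c) (per_Hs hH α β)
  have h3 := Hs_orth hH h1 α β ![-c 1, c 0, 0, 0]
  have e1 : (fun x => Hs (d1 H) α β x * VV c x) = fun x => VV c x * d1 (Hs H α β) x := by
    funext x
    rw [d1_Hs]
    ring
  have e2 : (fun x => d1 (VV c) x * Hs H α β x) = fun x => Hs H α β x * VV ![-c 1, c 0, 0, 0] x := by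
    funext x
    rw [d1_VV, VV_eq]
    simp
    ring
  rw [e1, h2, e2, h3, neg_zero]

theorem Hs_d2_orth (hH : Per H) (h1 : ∀ i, tint (fun x => H x * bas i x) = 0) (α β : ℝ)
    (c : Fin 4 → ℝ) : tint (fun x => Hs (d2 H) α β x * VV c x) = 0 := by
  have h2 := tint_mul_d2 (per_VV c) (per_Hs hH α β)
  have h3 := Hs_orth hH h1 α β ![0, 0, -c 3, c 2]
  have e1 : (fun x => Hs (d2 H) α β x * VV c x) = fun x => VV c x * d2 (Hs H α β) x := by
    funext x
    rw [d2_Hs]
    ring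
  have e2 : (fun x => d2 (VV c) x * Hs H α β x) = fun x => Hs H α β x * VV ![0, 0, -c 3, c 2] x := by
    funext x
    rw [d2_VV, VV_eq]
    simp
    ring
  rw [e1, h2, e2, h3, neg_zero]

theorem Hs_diff (hH : Per H) : ∃ C, 0 ≤ C ∧ ∀ (α β : ℝ) (w : ℝ × ℝ → ℝ), Per w →
    |tint (fun x => Hs H α β x * w x) - tint (fun x => H x * w x)| ≤ C * (|α| + |β|) * nrm w := by
  obtain ⟨M1, hM1, hb1⟩ := hH.d1.bounded
  obtain ⟨M2, hM2, hb2⟩ := hH.d2.bounded
  have hfd : ∀ x, ‖fderiv ℝ H x‖ ≤ M1 + M2 := by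
    intro x
    refine ContinuousLinearMap.opNorm_le_bound _ (by positivity) fun v => ?_
    have e1 : fderiv ℝ H x v = v.1 * d1 H x + v.2 * d2 H x := by
      have e2 : v = v.1 • ((1, 0) : ℝ × ℝ) + v.2 • ((0, 1) : ℝ × ℝ) := by
        ext <;> simp
      have e3 : fderiv ℝ H x v =
          fderiv ℝ H x (v.1 • ((1, 0) : ℝ × ℝ) + v.2 • ((0, 1) : ℝ × ℝ)) := by rw [← e2]
      rw [e3, map_add, map_smul, map_smul]
      rfl
    rw [e1, Real.norm_eq_abs]
    have n1 : |v.1| ≤ ‖v‖ := by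
      rw [← Real.norm_eq_abs]
      exact norm_fst_le v
    have n2 : |v.2| ≤ ‖v‖ := by
      rw [← Real.norm_eq_abs]
      exact norm_snd_le v
    calc |v.1 * d1 H x + v.2 * d2 H x| ≤ |v.1 * d1 H x| + |v.2 * d2 H x| := abs_add_le _ _
      _ = |v.1| * |d1 H x| + |v.2| * |d2 H x| := by rw [abs_mul, abs_mul]
      _ ≤ ‖v‖ * M1 + ‖v‖ * M2 := by
        refine add_le_add (mul_le_mul n1 (hb1 x) (abs_nonneg _) (norm_nonneg _))
          (mul_le_mul n2 (hb2 x) (abs_nonneg _) (norm_nonneg _))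
      _ = (M1 + M2) * ‖v‖ := by ring
  refine ⟨2 * Real.pi * (M1 + M2), by positivity, fun α β w hw => ?_⟩
  have hs := per_Hs hH α β
  have hpt : ∀ x, |Hs H α β x - H x| ≤ (M1 + M2) * (|α| + |β|) := by
    intro x
    have h1 := Convex.norm_image_sub_le_of_norm_fderiv_le (𝕜 := ℝ) (f := H) (s := univ)
      (C := M1 + M2) (fun y _ => hH.diffAt y) (fun y _ => hfd y) convex_univ
      (mem_univ x) (mem_univ ((x.1 - α, x.2 - β) : ℝ × ℝ))
    have h2 : ‖((x.1 - α, x.2 - β) : ℝ × ℝ) - x‖ ≤ |α| + |β| := by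
      have e1 : ((x.1 - α, x.2 - β) : ℝ × ℝ) - x = (-α, -β) := by
        ext <;> simp
      rw [e1, Prod.norm_def]
      simp only [norm_neg, Real.norm_eq_abs]
      exact max_le (le_add_of_nonneg_right (abs_nonneg _)) (le_add_of_nonneg_left (abs_nonneg _))
    rw [Real.norm_eq_abs] at h1
    exact h1.trans (mul_le_mul_of_nonneg_left h2 (by positivity))
  have e1 : tint (fun x => Hs H α β x * w x) - tint (fun x => H x * w x) =
      tint (fun x => (Hs H α β x - H x) * w x) := by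
    rw [← tint_sub (hs.mul hw).continuous (hH.mul hw).continuous]
    congr 1
    funext x
    ring
  rw [e1]
  refine (tint_cs (f := fun x => Hs H α β x - H x) (hs.sub hH).continuous hw.continuous).trans ?_
  refine mul_le_mul_of_nonneg_right ?_ (nrm_nonneg _)
  refine (nrm_le_of_bound (hs.sub hH).continuous hpt).trans_eq ?_
  ring

end Pool.Agent.Lib.EI
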