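import Pool.Agent.Lib.EI.Calc1

/-!
Integration on the torus.
-/

set_option autoImplicit false

open MeasureTheory Set intervalIntegral
open scoped ContDiff

namespace Pool.Agent.Lib.EI

variable {f g h : ℝ × ℝ → ℝ}

private theorem isCompact_box :
    IsCompact (Icc (0 : ℝ) (2 * Real.pi) ×ˢ Icc (0 : ℝ) (2 * Real.pi)) :=
  isCompact_Icc.prod isCompact_Icc

private theorem intOn (hf : Continuous f) :
    IntegrableOn f (Icc (0 : ℝ) (2 * Real.pi) ×ˢ Icc (0 : ℝ) (2 * Real.pi)) volume :=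
  hf.continuousOn.integrableOn_compact isCompact_box

theorem tint_add (hf : Continuous f) (hg : Continuous g) :
    tint (fun x => f x + g x) = tint f + tint g := integral_add (intOn hf) (intOn hg)

theorem tint_sub (hf : Continuous f) (hg : Continuous g) :
    tint (fun x => f x - g x) = tint f - tint g := integral_sub (intOn hf) (intOn hg)

theorem tint_const_mul (c : ℝ) (f : ℝ × ℝ → ℝ) : tint (fun x => c * f x) = c * tint f :=
  integral_const_mul c f

theorem tint_neg (f : ℝ × ℝ → ℝ) : tint (fun x => -f x) = -tint f := integral_neg f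

theorem tint_zero : tint (fun _ => 0) = 0 := by simp [tint]

theorem tint_nonneg (hf : ∀ x, 0 ≤ f x) : 0 ≤ tint f := integral_nonneg hf

theorem tint_mono (hf : Continuous f) (hg : Continuous g) (h : ∀ x, f x ≤ g x) :
    tint f ≤ tint g := setIntegral_mono (intOn hf) (intOn hg) h

theorem vol_box : (volume : Measure (ℝ × ℝ)).real
    (Icc (0 : ℝ) (2 * Real.pi) ×ˢ Icc (0 : ℝ) (2 * Real.pi)) = 4 * Real.pi ^ 2 := by
  rw [Measure.real, Measure.volume_eq_prod, Measure.prod_prod, Real.volume_Icc, sub_zero,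
    ENNReal.toReal_mul, ENNReal.toReal_ofReal (by positivity)]
  ring

theorem tint_const (c : ℝ) : tint (fun _ => c) = 4 * Real.pi ^ 2 * c := by
  unfold tint
  rw [setIntegral_const, vol_box, smul_eq_mul]

/-- Fubini, `x₁` outside. -/
theorem tint_eq (hf : Continuous f) :
    tint f = ∫ x in (0 : ℝ)..2 * Real.pi, ∫ y in (0 : ℝ)..2 * Real.pi, f (x, y) := by
  have hp : (0 : ℝ) ≤ 2 * Real.pi := by positivity
  unfold tint
  rw [Measure.volume_eq_prod, setIntegral_prod _ (by rw [← Measure.volume_eq_prod]; exact intOn hf),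
    integral_of_le hp, ← integral_Icc_eq_integral_Ioc]
  refine integral_congr_ae (Filter.Eventually.of_forall fun x => ?_)
  show ∫ y in Icc (0 : ℝ) (2 * Real.pi), f (x, y) = ∫ y in (0 : ℝ)..2 * Real.pi, f (x, y)
  rw [integral_of_le hp, ← integral_Icc_eq_integral_Ioc]

/-- Fubini, `x₂` outside. -/
theorem tint_eq' (hf : Continuous f) :
    tint f = ∫ y in (0 : ℝ)..2 * Real.pi, ∫ x in (0 : ℝ)..2 * Real.pi, f (x, y) := by
  rw [tint_eq hf]
  apply intervalIntegral_intervalIntegral_swap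
  exact (hf.continuousOn.integrableOn_compact (isCompact_uIcc.prod isCompact_uIcc)).mono_set
    (prod_mono uIoc_subset_uIcc uIoc_subset_uIcc)

theorem tint_swap (hf : Continuous f) : tint (fun x => f (x.2, x.1)) = tint f := by
  rw [tint_eq (f := fun x => f (x.2, x.1)) (by fun_prop), tint_eq' hf]

private theorem shift1 {φ : ℝ → ℝ} (hφ : Function.Periodic φ (2 * Real.pi)) (c : ℝ) :
    ∫ x in (0 : ℝ)..2 * Real.pi, φ (x + c) = ∫ x in (0 : ℝ)..2 * Real.pi, φ x := by
  rw [intervalIntegral.integral_comp_add_right, zero_add, add_comm (2 * Real.pi) c,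
    hφ.intervalIntegral_add_eq c 0, zero_add]

theorem tint_shift (hf : Per f) (c : ℝ × ℝ) : tint (fun x => f (x + c)) = tint f := by
  have h1 : Continuous fun x : ℝ × ℝ => f (x + c) := hf.continuous.comp (by fun_prop)
  rw [tint_eq h1]
  have h2 : (∫ x in (0 : ℝ)..2 * Real.pi, ∫ y in (0 : ℝ)..2 * Real.pi, f ((x, y) + c)) =
      ∫ x in (0 : ℝ)..2 * Real.pi, ∫ y in (0 : ℝ)..2 * Real.pi, f (x + c.1, y) := by
    refine intervalIntegral.integral_congr fun x _ => ?_
    exact shift1 (φ := fun y => f (x + c.1, y)) (fun y => hf.per2 _ _) c.2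
  rw [h2, tint_eq hf.continuous]
  exact shift1 (φ := fun x => ∫ y in (0 : ℝ)..2 * Real.pi, f (x, y))
    (fun x => by simp only [hf.per1]) c.1

/-- The integral of a derivative vanishes. -/
theorem tint_d1 (hf : Per f) : tint (d1 f) = 0 := by
  rw [tint_eq' hf.d1.continuous]
  have h : ∀ y : ℝ, ∫ x in (0 : ℝ)..2 * Real.pi, d1 f (x, y) = 0 := by
    intro y
    have h1 : ∀ x ∈ uIcc (0 : ℝ) (2 * Real.pi), HasDerivAt (fun x => f (x, y)) (d1 f (x, y)) x := by
      intro x _
      have h2 : HasDerivAt (fun x : ℝ => ((x, y) : ℝ × ℝ)) (1, 0) x :=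
        (hasDerivAt_id x).prodMk (hasDerivAt_const x y)
      exact (hf.diffAt (x, y)).hasFDerivAt.comp_hasDerivAt x h2
    have h3 : Continuous fun x : ℝ => d1 f (x, y) := hf.d1.continuous.comp (by fun_prop)
    rw [integral_eq_sub_of_hasDerivAt h1 (h3.intervalIntegrable _ _)]
    have h4 := hf.per1 0 y
    rw [zero_add] at h4
    rw [h4, sub_self]
  simp [h]

theorem tint_d2 (hf : Per f) : tint (d2 f) = 0 := by
  have h1 := tint_d1 hf.swap
  rw [d1_swap hf] at h1
  rw [← tint_swap hf.d2.continuous]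
  exact h1

/-! ### Integration by parts -/

theorem tint_mul_d1 (hf : Per f) (hg : Per g) :
    tint (fun x => f x * d1 g x) = -tint (fun x => d1 f x * g x) := by
  have h := tint_d1 (hf.mul hg)
  rw [d1_mul hf hg, tint_add (hf.d1.mul hg).continuous (hf.mul hg.d1).continuous] at h
  linarith

theorem tint_mul_d2 (hf : Per f) (hg : Per g) :
    tint (fun x => f x * d2 g x) = -tint (fun x => d2 f x * g x) := by
  have h := tint_d2 (hf.mul hg)
  rw [d2_mul hf hg, tint_add (hf.d2.mul hg).continuous (hf.mul hg.d2).continuous] at h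
  linarith

/-- `∫ f Δg = -∫ ∇f·∇g` -/
theorem tint_mul_lap (hf : Per f) (hg : Per g) :
    tint (fun x => f x * lap g x) = -tint (fun x => d1 f x * d1 g x + d2 f x * d2 g x) := by
  have h1 : (fun x => f x * lap g x) = fun x => f x * d1 (d1 g) x + f x * d2 (d2 g) x := by
    funext x; unfold lap; ring
  rw [h1, tint_add (hf.mul hg.d1.d1).continuous (hf.mul hg.d2.d2).continuous,
    tint_mul_d1 hf hg.d1, tint_mul_d2 hf hg.d2,
    tint_add (hf.d1.mul hg.d1).continuous (hf.d2.mul hg.d2).continuous]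
  ring

/-- The Laplacian is symmetric. -/
theorem tint_lap_symm (hf : Per f) (hg : Per g) :
    tint (fun x => f x * lap g x) = tint (fun x => lap f x * g x) := by
  have h1 : (fun x => lap f x * g x) = fun x => g x * lap f x := by funext x; ring
  rw [h1, tint_mul_lap hf hg, tint_mul_lap hg hf]
  congr 2
  funext x
  ring

/-- The Poisson bracket is antisymmetric under the integral. -/
theorem tint_br (hf : Per f) (hg : Per g) (hh : Per h) :
    tint (fun x => h x * br f g x) = -tint (fun x => g x * br f h x) := by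
  have h1 := tint_mul_d2 (hh.mul hf.d1) hg
  have h2 := tint_mul_d1 (hh.mul hf.d2) hg
  rw [d2_mul hh hf.d1] at h1
  rw [d1_mul hh hf.d2] at h2
  have h3 : (fun x => h x * br f g x) =
      fun x => h x * d1 f x * d2 g x - h x * d2 f x * d1 g x := by
    funext x; unfold br; ring
  rw [h3, tint_sub ((hh.mul hf.d1).mul hg.d2).continuous ((hh.mul hf.d2).mul hg.d1).continuous,
    h1, h2, ← tint_neg, ← tint_neg, ← tint_neg,
    ← tint_sub (((((hh.d2.mul hf.d1).add (hh.mul hf.d1.d2))).mul hg).neg).continuous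
      (((((hh.d1.mul hf.d2).add (hh.mul hf.d2.d1))).mul hg).neg).continuous]
  congr 1
  funext x
  have h4 := congrFun (d1_d2_comm hf) x
  unfold br
  rw [h4]
  ring

/-- `∫ f {f, g} = 0` -/
theorem tint_br_self_left (hf : Per f) (hg : Per g) : tint (fun x => f x * br f g x) = 0 := by
  rw [tint_br hf hg hf]
  have h1 : (fun x => g x * br f f x) = fun _ => 0 := by
    funext x; unfold br; ring
  rw [h1, tint_zero, neg_zero]

/-- `∫ g {f, g} = 0` -/
theorem tint_br_self_right (hf : Per f) (hg : Per g) : tint (fun x => g x * br f g x) = 0 := by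
  have h := tint_br hf hg hg
  linarith

/-! ### The norm -/

theorem nrm_nonneg (f : ℝ × ℝ → ℝ) : 0 ≤ nrm f := Real.sqrt_nonneg _

theorem nrm_sq (f : ℝ × ℝ → ℝ) : nrm f ^ 2 = tint (fun x => f x ^ 2) :=
  Real.sq_sqrt (tint_nonneg fun _ => sq_nonneg _)

/-- Cauchy-Schwarz. -/
theorem tint_cs (hf : Continuous f) (hg : Continuous g) :
    |tint (fun x => f x * g x)| ≤ nrm f * nrm g := by
  have hA := tint_nonneg (f := fun x => f x ^ 2) fun _ => sq_nonneg _
  have hB := tint_nonneg (f := fun x => g x ^ 2) fun _ => sq_nonneg _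
  set A := tint (fun x => f x ^ 2) with hAd
  set B := tint (fun x => g x ^ 2) with hBd
  set C := tint (fun x => f x * g x) with hC
  have hpoly : ∀ s : ℝ, 0 ≤ A * (s * s) + 2 * C * s + B := by
    intro s
    have h1 : 0 ≤ tint (fun x => (s * f x + g x) ^ 2) := tint_nonneg fun _ => sq_nonneg _
    have h2 : (fun x => (s * f x + g x) ^ 2) =
        fun x => ((s * s) * f x ^ 2 + (2 * s) * (f x * g x)) + g x ^ 2 := by
      funext x; ring
    rw [h2, tint_add (by fun_prop) (by fun_prop), tint_add (by fun_prop) (by fun_prop),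
      tint_const_mul, tint_const_mul] at h1
    linarith
  have hd := discrim_le_zero hpoly
  unfold discrim at hd
  have h3 : C ^ 2 ≤ (nrm f * nrm g) ^ 2 := by
    rw [mul_pow, nrm_sq, nrm_sq]
    nlinarith
  exact abs_le_of_sq_le_sq h3 (mul_nonneg (nrm_nonneg _) (nrm_nonneg _)) |> fun h => h

theorem nrm_add_le (hf : Continuous f) (hg : Continuous g) :
    nrm (fun x => f x + g x) ≤ nrm f + nrm g := by
  apply Real.sqrt_le_iff.2
  refine ⟨add_nonneg (nrm_nonneg _) (nrm_nonneg _), ?_⟩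
  have h1 : (fun x => (f x + g x) ^ 2) = fun x => (f x ^ 2 + 2 * (f x * g x)) + g x ^ 2 := by
    funext x; ring
  rw [h1, tint_add (by fun_prop) (by fun_prop), tint_add (by fun_prop) (by fun_prop),
    tint_const_mul, ← nrm_sq f, ← nrm_sq g]
  nlinarith [le_of_abs_le (tint_cs hf hg)]

theorem nrm_const_mul (c : ℝ) (f : ℝ × ℝ → ℝ) : nrm (fun x => c * f x) = |c| * nrm f := by
  unfold nrm
  have h1 : (fun x => (c * f x) ^ 2) = fun x => c ^ 2 * f x ^ 2 := by funext x; ring
  rw [h1, tint_const_mul, Real.sqrt_mul (sq_nonneg c), Real.sqrt_sq_eq_abs]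

theorem nrm_neg (f : ℝ × ℝ → ℝ) : nrm (fun x => -f x) = nrm f := by
  unfold nrm
  congr 2
  funext x
  ring

theorem nrm_sub_le (hf : Continuous f) (hg : Continuous g) :
    nrm (fun x => f x - g x) ≤ nrm f + nrm g := by
  have h := nrm_add_le hf hg.neg
  rw [show nrm (-g) = nrm g from nrm_neg g] at h
  simpa [sub_eq_add_neg] using h

theorem nrm_mono (hf : Continuous f) (hg : Continuous g) (h : ∀ x, |f x| ≤ |g x|) :
    nrm f ≤ nrm g := by
  apply Real.sqrt_le_sqrt
  exact tint_mono (by fun_prop) (by fun_prop) fun x => sq_le_sq.2 (h x)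

theorem nrm_mul_le {M : ℝ} (hf : Continuous f) (hg : Continuous g) (hM : ∀ x, |f x| ≤ M) :
    nrm (fun x => f x * g x) ≤ M * nrm g := by
  have hM0 : 0 ≤ M := (abs_nonneg _).trans (hM (0, 0))
  have h1 := nrm_mono (f := fun x => f x * g x) (g := fun x => M * g x) (by fun_prop) (by fun_prop)
    fun x => by
      rw [abs_mul, abs_mul, abs_of_nonneg hM0]
      exact mul_le_mul_of_nonneg_right (hM x) (abs_nonneg _)
  rwa [nrm_const_mul, abs_of_nonneg hM0] at h1

theorem nrm_le_of_bound {M : ℝ} (hf : Continuous f) (hM : ∀ x, |f x| ≤ M) :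
    nrm f ≤ 2 * Real.pi * M := by
  have hM0 : 0 ≤ M := (abs_nonneg _).trans (hM (0, 0))
  have h1 := nrm_mul_le (f := f) (g := fun _ => 1) hf continuous_const hM
  have h2 : nrm (fun _ => 1) = 2 * Real.pi := by
    unfold nrm
    rw [show (fun _ : ℝ × ℝ => (1 : ℝ) ^ 2) = fun _ => 1 by funext; ring, tint_const]
    rw [show 4 * Real.pi ^ 2 * 1 = (2 * Real.pi) ^ 2 by ring, Real.sqrt_sq (by positivity)]
  rw [h2] at h1
  simp only [mul_one] at h1
  linarith

/-- A smooth periodic function is bounded. -/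
theorem Per.bounded (hf : Per f) : ∃ M, 0 ≤ M ∧ ∀ x, |f x| ≤ M := by
  obtain ⟨M, hM⟩ := (isCompact_box.image hf.continuous.abs).bddAbove
  have h1 : ∀ x y : ℝ, |f (x, y)| ≤ M := by
    intro x y
    have hp : (0 : ℝ) < 2 * Real.pi := by positivity
    have hx : Function.Periodic (fun x => f (x, y)) (2 * Real.pi) := fun x => hf.per1 x y
    obtain ⟨x', hx', hxe⟩ := hx.exists_mem_Ico₀ hp x
    have hy : Function.Periodic (fun y => f (x', y)) (2 * Real.pi) := fun y => hf.per2 x' y
    obtain ⟨y', hy', hye⟩ := hy.exists_mem_Ico₀ hp y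
    have hxe' : f (x, y) = f (x', y) := hxe
    have hye' : f (x', y) = f (x', y') := hye
    rw [hxe', hye']
    exact hM ⟨(x', y'), ⟨⟨hx'.1, hx'.2.le⟩, ⟨hy'.1, hy'.2.le⟩⟩, rfl⟩
  exact ⟨M, (abs_nonneg _).trans (h1 0 0), fun x => h1 x.1 x.2⟩

/-- A smooth periodic function with `∫ f² ≤ 0` vanishes. -/
theorem eq_zero_of_nrm (hf : Per f) (h : tint (fun x => f x ^ 2) ≤ 0) : ∀ x, f x = 0 := by
  have h0 : tint (fun x => f x ^ 2) = 0 := le_antisymm h (tint_nonneg fun _ => sq_nonneg _)
  have h1 : ∀ x ∈ interior (Icc (0 : ℝ) (2 * Real.pi) ×ˢ Icc (0 : ℝ) (2 * Real.pi)), f x ^ 2 = 0 := by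
    have h2 := (setIntegral_eq_zero_iff_of_nonneg_ae (f := fun x => f x ^ 2)
      (Filter.Eventually.of_forall fun _ => sq_nonneg _)
      (intOn (by have := hf.continuous; fun_prop))).1 h0
    have h3 : (fun x => f x ^ 2) =ᵐ[volume.restrict
        (interior (Icc (0 : ℝ) (2 * Real.pi) ×ˢ Icc (0 : ℝ) (2 * Real.pi)))] (fun _ => 0) :=
      ae_restrict_of_ae_restrict_of_subset interior_subset h2
    have h4 := Measure.eqOn_open_of_ae_eq h3 isOpen_interior
      (by have := hf.continuous; fun_prop) continuousOn_const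
    exact h4
  rw [interior_prod_eq, interior_Icc] at h1
  have h2 : ∀ x ∈ Icc (0 : ℝ) (2 * Real.pi) ×ˢ Icc (0 : ℝ) (2 * Real.pi), f x = 0 := by
    have hcl : closure (Ioo (0 : ℝ) (2 * Real.pi) ×ˢ Ioo (0 : ℝ) (2 * Real.pi)) =
        Icc (0 : ℝ) (2 * Real.pi) ×ˢ Icc (0 : ℝ) (2 * Real.pi) := by
      rw [closure_prod_eq, closure_Ioo (by positivity)]
    have hclosed : IsClosed {x | f x = 0} := isClosed_eq hf.continuous continuous_const
    have hsub : Ioo (0 : ℝ) (2 * Real.pi) ×ˢ Ioo (0 : ℝ) (2 * Real.pi) ⊆ {x | f x = 0} := by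
      intro x hx
      have := h1 x hx
      exact pow_eq_zero_iff (n := 2) (by norm_num) |>.1 this
    intro x hx
    rw [← hcl] at hx
    exact closure_minimal hsub hclosed hx
  have hp : (0 : ℝ) < 2 * Real.pi := by positivity
  rintro ⟨x, y⟩
  have hx : Function.Periodic (fun x => f (x, y)) (2 * Real.pi) := fun x => hf.per1 x y
  obtain ⟨x', hx', hxe⟩ := hx.exists_mem_Ico₀ hp x
  have hy : Function.Periodic (fun y => f (x', y)) (2 * Real.pi) := fun y => hf.per2 x' y
  obtain ⟨y', hy', hye⟩ := hy.exists_mem_Ico₀ hp y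
  have hxe' : f (x, y) = f (x', y) := hxe
  have hye' : f (x', y) = f (x', y') := hye
  rw [hxe', hye']
  exact h2 _ ⟨⟨hx'.1, hx'.2.le⟩, ⟨hy'.1, hy'.2.le⟩⟩

end Pool.Agent.Lib.EI
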