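import Pool.Agent.Lib.EI.HShift

/-!
MODULE JStat (2 h). The main term in the derivative of `J = ∫ H(x - phase) ω`.

Hypothesis: `{V0, H} = -b cos x₂`. Write `H^ = Hs H α β`, `g = lap f + f`, `V = VV (co f)`, `r = rem f`, so
`f = V + r` (definition of `rem`) and by hypothesis `V = ρ1 sin(x₁-α) + ρ2 sin(x₂-β)`, i.e.
`V = Hs (V0 a b) α β + (ρ1-a) sin(x₁-α) + (ρ2-b) sin(x₂-β)`.
`{f, H^} = {V, H^} + {r, H^}` (`br_add_left`).
* `{Hs V0, H^} = Hs ({V0, H})` (`d1_Hs`, `d2_Hs`) `= -b cos (x₂ - β)`, and `cos (x₂-β) = cos β cos x₂ +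
  sin β sin x₂ = VV ![0, 0, sin β, cos β]`, so `∫ g (..) = 0` by `tint_g_VV`.
* `{sin (x₁-α), H^} = cos (x₁-α) H^_2`, `{sin (x₂-β), H^} = -cos (x₂-β) H^_1`, bounded by
  `S = sup |d1 H|, |d2 H|` (`Per.bounded`); so these terms contribute at most
  `‖g‖ · 2π S (|ρ1-a| + |ρ2-b|)` (`tint_cs`, `nrm_le_of_bound`).
* `|∫ g {r, H^}| ≤ ‖g‖ · 2 S gn r` (`nrm_br_le`).
(It may be easiest to compute with `d1 V`, `d2 V` directly: `d1 V = ρ1 cos (x₁-α)`, `d2 V = ρ2 cos (x₂-β)`.)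
-/

set_option autoImplicit false

open MeasureTheory Set
open scoped ContDiff

namespace Pool.Agent.Lib.EI

private theorem d12_V {f : ℝ × ℝ → ℝ} {α β ρ1 ρ2 : ℝ}
    (hV : ∀ x, VV (co f) x = ρ1 * Real.sin (x.1 - α) + ρ2 * Real.sin (x.2 - β)) :
    (∀ x, d1 (VV (co f)) x = ρ1 * Real.cos (x.1 - α)) ∧
      ∀ x, d2 (VV (co f)) x = ρ2 * Real.cos (x.2 - β) := by
  have h1 : VV (co f) = Hs (V0 ρ1 ρ2) α β := by
    funext x
    rw [hV]
    rfl
  rw [h1, d1_Hs, d2_Hs, d1_V0, d2_V0]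
  exact ⟨fun x => rfl, fun x => rfl⟩

theorem jstat {a b : ℝ} {H : ℝ × ℝ → ℝ} (hH : Per H)
    (hbr : ∀ x, br (V0 a b) H x = -(b * Real.cos x.2)) : ∃ C, 0 ≤ C ∧
    ∀ (f : ℝ × ℝ → ℝ) (α β ρ1 ρ2 : ℝ), Per f →
      (∀ x, VV (co f) x = ρ1 * Real.sin (x.1 - α) + ρ2 * Real.sin (x.2 - β)) →
      |tint (fun x => (lap f x + f x) * br f (Hs H α β) x)| ≤
        C * nrm (fun x => lap f x + f x) * (|ρ1 - a| + |ρ2 - b| + gn (rem f)) := by
  obtain ⟨M1, hM1, hb1⟩ := hH.d1.bounded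
  obtain ⟨M2, hM2, hb2⟩ := hH.d2.bounded
  set S : ℝ := M1 + M2 with hS
  have hS0 : 0 ≤ S := add_nonneg hM1 hM2
  refine ⟨S * (2 * Real.pi + 2), by positivity, fun f α β ρ1 ρ2 hf hV => ?_⟩
  obtain ⟨hV1, hV2⟩ := d12_V hV
  have hK := per_Hs hH α β
  have hr := per_rem hf
  have hg : Per fun x => lap f x + f x := hf.lap.add hf
  have hK1 : ∀ x, |d1 (Hs H α β) x| ≤ S := by
    intro x
    rw [d1_Hs]
    exact (hb1 _).trans (by linarith)
  have hK2 : ∀ x, |d2 (Hs H α β) x| ≤ S := by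
    intro x
    rw [d2_Hs]
    exact (hb2 _).trans (by linarith)
  have hc1 : Per (Hs (fun y => Real.cos y.1) α β) := per_Hs per_c1 α β
  have hc2 : Per (Hs (fun y => Real.cos y.2) α β) := per_Hs per_c2 α β
  have hE : Per fun x => (ρ1 - a) * (Hs (fun y => Real.cos y.1) α β x * d2 (Hs H α β) x) -
      (ρ2 - b) * (Hs (fun y => Real.cos y.2) α β x * d1 (Hs H α β) x) :=
    ((hc1.mul hK.d2).const_mul _).sub ((hc2.mul hK.d1).const_mul _)
  set E : ℝ × ℝ → ℝ := fun x => (ρ1 - a) * (Hs (fun y => Real.cos y.1) α β x * d2 (Hs H α β) x) -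
      (ρ2 - b) * (Hs (fun y => Real.cos y.2) α β x * d1 (Hs H α β) x) with hEd
  set c : Fin 4 → ℝ := ![0, 0, -(b * Real.sin β), -(b * Real.cos β)] with hcd
  have hkey : ∀ x, br f (Hs H α β) x = VV c x + E x + br (rem f) (Hs H α β) x := by
    intro x
    have h1 : f = fun x => VV (co f) x + rem f x := by
      funext x
      unfold rem
      ring
    have h2 : br f (Hs H α β) x = br (VV (co f)) (Hs H α β) x + br (rem f) (Hs H α β) x := by
      have h3 := congrFun (br_add_left (k := Hs H α β) (per_VV (co f)) hr) x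
      rw [← h1] at h3
      exact h3
    rw [h2]
    congr 1
    have h4 := hbr (x.1 - α, x.2 - β)
    unfold br at h4 ⊢
    rw [d1_V0, d2_V0] at h4
    rw [hV1, hV2, VV_eq]
    have e1 : d1 (Hs H α β) x = d1 H (x.1 - α, x.2 - β) := by rw [d1_Hs]; rfl
    have e2 : d2 (Hs H α β) x = d2 H (x.1 - α, x.2 - β) := by rw [d2_Hs]; rfl
    have e3 : Hs (fun y => Real.cos y.1) α β x = Real.cos (x.1 - α) := rfl
    have e4 : Hs (fun y => Real.cos y.2) α β x = Real.cos (x.2 - β) := rfl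
    simp only [hEd, e1, e2, e3, e4]
    have e5 : c 0 = 0 := rfl
    have e6 : c 1 = 0 := rfl
    have e7 : c 2 = -(b * Real.sin β) := rfl
    have e8 : c 3 = -(b * Real.cos β) := rfl
    rw [e5, e6, e7, e8]
    have e9 : -(b * Real.cos (x.2 - β)) =
        -(b * Real.sin β) * Real.sin x.2 + -(b * Real.cos β) * Real.cos x.2 := by
      rw [Real.cos_sub]
      ring
    simp only at h4
    linear_combination h4 + e9
  have h5 : (fun x => (lap f x + f x) * br f (Hs H α β) x) = fun x =>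
      (VV c x * (lap f x + f x) + (lap f x + f x) * E x) +
        (lap f x + f x) * br (rem f) (Hs H α β) x := by
    funext x
    rw [hkey x]
    ring
  rw [h5, tint_add (((per_VV c).mul hg).add (hg.mul hE)).continuous (hg.mul (hr.br hK)).continuous,
    tint_add ((per_VV c).mul hg).continuous (hg.mul hE).continuous, tint_g_VV hf, zero_add]
  have h6 : |tint (fun x => (lap f x + f x) * E x)| ≤
      nrm (fun x => lap f x + f x) * (2 * Real.pi * (S * (|ρ1 - a| + |ρ2 - b|))) := by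
    refine (tint_cs hg.continuous hE.continuous).trans ?_
    refine mul_le_mul_of_nonneg_left ?_ (nrm_nonneg _)
    refine nrm_le_of_bound hE.continuous fun x => ?_
    have c1 : |Hs (fun y => Real.cos y.1) α β x| ≤ 1 := Real.abs_cos_le_one _
    have c2 : |Hs (fun y => Real.cos y.2) α β x| ≤ 1 := Real.abs_cos_le_one _
    have t1 : |(ρ1 - a) * (Hs (fun y => Real.cos y.1) α β x * d2 (Hs H α β) x)| ≤
        |ρ1 - a| * S := by
      rw [abs_mul, abs_mul]
      refine mul_le_mul_of_nonneg_left ?_ (abs_nonneg _)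
      calc |Hs (fun y => Real.cos y.1) α β x| * |d2 (Hs H α β) x| ≤ 1 * S :=
            mul_le_mul c1 (hK2 x) (abs_nonneg _) zero_le_one
        _ = S := one_mul _
    have t2 : |(ρ2 - b) * (Hs (fun y => Real.cos y.2) α β x * d1 (Hs H α β) x)| ≤
        |ρ2 - b| * S := by
      rw [abs_mul, abs_mul]
      refine mul_le_mul_of_nonneg_left ?_ (abs_nonneg _)
      calc |Hs (fun y => Real.cos y.2) α β x| * |d1 (Hs H α β) x| ≤ 1 * S :=
            mul_le_mul c2 (hK1 x) (abs_nonneg _) zero_le_one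
        _ = S := one_mul _
    have t3 := abs_sub ((ρ1 - a) * (Hs (fun y => Real.cos y.1) α β x * d2 (Hs H α β) x))
      ((ρ2 - b) * (Hs (fun y => Real.cos y.2) α β x * d1 (Hs H α β) x))
    have t4 : S * (|ρ1 - a| + |ρ2 - b|) = |ρ1 - a| * S + |ρ2 - b| * S := by ring
    rw [t4]
    exact t3.trans (add_le_add t1 t2)
  have h7 : |tint (fun x => (lap f x + f x) * br (rem f) (Hs H α β) x)| ≤
      nrm (fun x => lap f x + f x) * (2 * S * gn (rem f)) := by
    refine (tint_cs hg.continuous (hr.br hK).continuous).trans ?_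
    exact mul_le_mul_of_nonneg_left (nrm_br_le hr hK hK1 hK2) (nrm_nonneg _)
  refine (abs_add_le _ _).trans ((add_le_add h6 h7).trans ?_)
  have hn := nrm_nonneg (fun x => lap f x + f x)
  set G := nrm (fun x => lap f x + f x)
  have hR := gn_nonneg (rem f)
  set R := gn (rem f)
  have hA : 0 ≤ |ρ1 - a| + |ρ2 - b| := by positivity
  set A := |ρ1 - a| + |ρ2 - b|
  have p1 : 0 ≤ G * S * A := by positivity
  have p2 : 0 ≤ G * S * R * Real.pi := by positivity
  nlinarith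

end Pool.Agent.Lib.EI
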