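import Pool.Agent.Lib.EI.Bnd

/-!
MODULE Phase (1.8 h). The phases `α = -arctan (p1/p0)`, `β = -arctan (p3/p2)` of the low mode part.

Proofs.
* `phase_form`: for `c0 > 0`, `θ = arctan (c1/c0)`: `cos θ = c0/√(c0²+c1²)`, `sin θ = c1/√(c0²+c1²)`
  (`Real.cos_arctan`, `Real.sin_arctan`: `cos (arctan x) = 1/√(1+x²)`, `sin (arctan x) = x/√(1+x²)`),
  `√(c0²+c1²) = c0 √(1+(c1/c0)²)`, and `√.. sin (x + θ) = c0 sin x + c1 cos x` (`Real.sin_add`); `VV_eq`.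
* `good_small`: with `D = (a+b+M) M`, `η = D δ t`: `|p_i - p_i(0)| ≤ η` (`Ini.dco_int`), `p(0) = (a,0,b,0)`
  (`Ini.co0`). Choose `K ≤ 1` with `D K ≤ b/2`, `D K ≤ (a-b)/4`. Then `p0 ≥ a - η ≥ a/2`, `p2 ≥ b/2`, and
  `p0²+p1² ≥ (a-η)²`, `p2²+p3² ≤ (b+η)² + η²`, `(a-η)² - (b+η)² - η² = (a-b-2η)(a+b) - η² ≥
  (a-b)(a+b)/2 - (a-b)²/16 ≥ 0`.
  `|al| = |arctan (p1/p0)| ≤ |p1/p0| ≤ η/(a/2)` (`Real.arctan` is 1-Lipschitz; e.g. from
  `Real.abs_arctan_le`? or `arctan x ≤ x` for `x ≥ 0` and oddness), same for `be` with `b/2`.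
* `phase_deriv`: `HasDerivAt.arctan` of `p1/p0`, `|p_i'| ≤ D δ` (`hasDerivAt_co`, `Ini.dco_le`),
  `|(p1/p0)'| = |p1' p0 - p1 p0'|/p0² ≤ 2 (Dδ)(a+b+M)/(a/2)²`, factor `1/(1+x²) ≤ 1`.
-/

set_option autoImplicit false

open MeasureTheory Set
open scoped ContDiff

namespace Pool.Agent.Lib.EI

/-- The phase in `x₁`. -/
noncomputable def al (ψ : ℝ → ℝ × ℝ → ℝ) (t : ℝ) : ℝ := -Real.arctan (co (ψ t) 1 / co (ψ t) 0)

/-- The phase in `x₂`. -/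
noncomputable def be (ψ : ℝ → ℝ × ℝ → ℝ) (t : ℝ) : ℝ := -Real.arctan (co (ψ t) 3 / co (ψ t) 2)

/-- The low mode part is still near the initial one. -/
def Good (a b : ℝ) (f : ℝ × ℝ → ℝ) : Prop :=
  a / 2 ≤ co f 0 ∧ b / 2 ≤ co f 2 ∧ co f 2 ^ 2 + co f 3 ^ 2 ≤ co f 0 ^ 2 + co f 1 ^ 2

namespace PhaseAux

theorem sqrt_form {c0 c1 : ℝ} (h : 0 < c0) :
    Real.sqrt (c0 ^ 2 + c1 ^ 2) = c0 * Real.sqrt (1 + (c1 / c0) ^ 2) := by
  have e : c0 ^ 2 + c1 ^ 2 = c0 ^ 2 * (1 + (c1 / c0) ^ 2) := by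
    field_simp
  rw [e, Real.sqrt_mul (sq_nonneg _), Real.sqrt_sq h.le]

theorem sqrt_cos {c0 c1 : ℝ} (h : 0 < c0) :
    Real.sqrt (c0 ^ 2 + c1 ^ 2) * Real.cos (Real.arctan (c1 / c0)) = c0 := by
  rw [sqrt_form h, Real.cos_arctan]
  have : Real.sqrt (1 + (c1 / c0) ^ 2) ≠ 0 := by positivity
  field_simp

theorem sqrt_sin {c0 c1 : ℝ} (h : 0 < c0) :
    Real.sqrt (c0 ^ 2 + c1 ^ 2) * Real.sin (Real.arctan (c1 / c0)) = c1 := by
  rw [sqrt_form h, Real.sin_arctan]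
  have h1 : Real.sqrt (1 + (c1 / c0) ^ 2) ≠ 0 := by positivity
  generalize Real.sqrt (1 + (c1 / c0) ^ 2) = r at h1
  field_simp

theorem arctan_le {x : ℝ} (hx : 0 ≤ x) : Real.arctan x ≤ x := by
  have h := Real.le_tan (Real.arctan_nonneg.2 hx) (Real.arctan_lt_pi_div_two x)
  rwa [Real.tan_arctan] at h

theorem abs_arctan_le (x : ℝ) : |Real.arctan x| ≤ |x| := by
  rcases le_total 0 x with h | h
  · rw [abs_of_nonneg (Real.arctan_nonneg.2 h), abs_of_nonneg h]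
    exact arctan_le h
  · have h' : 0 ≤ -x := by linarith
    have := arctan_le h'
    rw [Real.arctan_neg] at this
    rw [abs_of_nonpos (Real.arctan_le_zero.2 h), abs_of_nonpos h]
    exact this

/-- derivative of `-arctan (u/v)` -/
theorem deriv_form {u v : ℝ → ℝ} {u' v' t B D m : ℝ} (hu : HasDerivAt u u' t)
    (hv : HasDerivAt v v' t) (hm : 0 < m) (hvm : m ≤ v t) (hu0 : |u t| ≤ B) (hv0 : |v t| ≤ B)
    (hu' : |u'| ≤ D) (hv' : |v'| ≤ D) :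
    ∃ α', HasDerivAt (fun s => -Real.arctan (u s / v s)) α' t ∧ |α'| ≤ 2 * B * D / m ^ 2 := by
  have hv1 : v t ≠ 0 := ne_of_gt (hm.trans_le hvm)
  have hd := ((hu.div hv hv1).arctan).neg
  refine ⟨_, hd, ?_⟩
  have hB : 0 ≤ B := (abs_nonneg _).trans hu0
  have hD : 0 ≤ D := (abs_nonneg _).trans hu'
  rw [abs_neg, abs_mul]
  have h1 : |1 / (1 + ((u / v) t) ^ 2)| ≤ 1 := by
    rw [abs_of_nonneg (by positivity)]
    rw [div_le_one (by positivity)]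
    nlinarith [sq_nonneg ((u / v) t)]
  have h2 : |(u' * v t - u t * v') / v t ^ 2| ≤ 2 * B * D / m ^ 2 := by
    rw [abs_div, abs_of_nonneg (by positivity : 0 ≤ v t ^ 2)]
    have h3 : |u' * v t - u t * v'| ≤ 2 * B * D := by
      have h4 : |u' * v t| ≤ D * B := by
        rw [abs_mul]; exact mul_le_mul hu' hv0 (abs_nonneg _) hD
      have h5 : |u t * v'| ≤ B * D := by
        rw [abs_mul]; exact mul_le_mul hu0 hv' (abs_nonneg _) hB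
      have h6 := abs_sub (u' * v t) (u t * v')
      linarith
    have h7 : m ^ 2 ≤ v t ^ 2 := pow_le_pow_left₀ hm.le hvm 2
    exact div_le_div₀ (by positivity) h3 (by positivity) h7
  calc _ ≤ 1 * (2 * B * D / m ^ 2) := mul_le_mul h1 h2 (abs_nonneg _) zero_le_one
    _ = _ := one_mul _

theorem good_alg {a b η p0 p1 p2 p3 : ℝ} (hb : 0 < b) (hab : b < a) (hη0 : 0 ≤ η)
    (h1 : η ≤ b / 2) (h2 : η ≤ (a - b) / 4) (e0 : |p0 - a| ≤ η) (e1 : |p1| ≤ η)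
    (e2 : |p2 - b| ≤ η) (e3 : |p3| ≤ η) :
    a / 2 ≤ p0 ∧ b / 2 ≤ p2 ∧ p2 ^ 2 + p3 ^ 2 ≤ p0 ^ 2 + p1 ^ 2 := by
  rw [abs_le] at e0 e1 e2 e3
  have hp0 : a - η ≤ p0 := by linarith [e0.1]
  have hp2 : b - η ≤ p2 := by linarith [e2.1]
  have hp2' : p2 ≤ b + η := by linarith [e2.2]
  have f3 : p3 ^ 2 ≤ η ^ 2 := by nlinarith [e3.1, e3.2]
  have f2 : p2 ^ 2 ≤ (b + η) ^ 2 := by
    apply pow_le_pow_left₀ (by linarith) hp2' 2
  have f0 : (a - η) ^ 2 ≤ p0 ^ 2 := pow_le_pow_left₀ (by linarith) hp0 2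
  refine ⟨by linarith, by linarith, ?_⟩
  have key : (b + η) ^ 2 + η ^ 2 ≤ (a - η) ^ 2 := by
    have e : (a - η) ^ 2 - (b + η) ^ 2 = (a - b - 2 * η) * (a + b) := by ring
    have g1 : (a - b) / 2 * (a + b) ≤ (a - b - 2 * η) * (a + b) :=
      mul_le_mul_of_nonneg_right (by linarith) (by linarith)
    have g2 : η ^ 2 ≤ ((a - b) / 4) ^ 2 := pow_le_pow_left₀ hη0 h2 2
    have g3 : ((a - b) / 4) ^ 2 ≤ (a - b) / 2 * (a + b) := by nlinarith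
    linarith
  nlinarith [sq_nonneg p1]

end PhaseAux

open PhaseAux

theorem phase_form {c : Fin 4 → ℝ} (h0 : 0 < c 0) (h2 : 0 < c 2) (x : ℝ × ℝ) :
    VV c x = Real.sqrt (c 0 ^ 2 + c 1 ^ 2) * Real.sin (x.1 + Real.arctan (c 1 / c 0)) +
      Real.sqrt (c 2 ^ 2 + c 3 ^ 2) * Real.sin (x.2 + Real.arctan (c 3 / c 2)) := by
  rw [VV_eq, Real.sin_add, Real.sin_add]
  have a0 := sqrt_cos (c1 := c 1) h0
  have a1 := sqrt_sin (c1 := c 1) h0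
  have a2 := sqrt_cos (c1 := c 3) h2
  have a3 := sqrt_sin (c1 := c 3) h2
  linear_combination (-Real.sin x.1) * a0 - Real.cos x.1 * a1 - Real.sin x.2 * a2 -
    Real.cos x.2 * a3

theorem good_small {a b M : ℝ} (hb : 0 < b) (hab : b < a) (hM : 0 ≤ M) :
    ∃ K, 0 < K ∧ K ≤ 1 ∧ ∃ C, 0 ≤ C ∧
    ∀ (δ T : ℝ) (Φ : ℝ × ℝ → ℝ) (ψ : ℝ → ℝ × ℝ → ℝ), Ini a b M δ T Φ ψ →
      ∀ t, 0 ≤ t → t ≤ T → δ * t ≤ K →
        Good a b (ψ t) ∧ |al ψ t| ≤ C * (δ * t) ∧ |be ψ t| ≤ C * (δ * t) := by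
  set D := (a + b + M) * M with hD
  have hB : 0 < a + b + M := by linarith
  have hD0 : 0 ≤ D := by positivity
  have hab' : 0 < a - b := by linarith
  refine ⟨min 1 (min (b / (2 * (D + 1))) ((a - b) / (4 * (D + 1)))), by positivity,
    min_le_left _ _, 2 * D / b, by positivity, ?_⟩
  intro δ T Φ ψ h t h0 hT hdt
  have hδ0 := h.hδ0
  have hx0 : 0 ≤ δ * t := by positivity
  set x := δ * t with hx
  have hk1 : x ≤ b / (2 * (D + 1)) := hdt.trans ((min_le_right _ _).trans (min_le_left _ _))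
  have hk2 : x ≤ (a - b) / (4 * (D + 1)) := hdt.trans ((min_le_right _ _).trans (min_le_right _ _))
  have hη1 : D * x ≤ b / 2 := by
    rw [le_div_iff₀ (by positivity)] at hk1
    nlinarith
  have hη2 : D * x ≤ (a - b) / 4 := by
    rw [le_div_iff₀ (by positivity)] at hk2
    nlinarith
  have hη0 : 0 ≤ D * x := by positivity
  have hc : ∀ i, |co (ψ t) i - co (ψ 0) i| ≤ D * x := by
    intro i
    have := h.dco_int h0 hT i
    rw [hx, hD]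
    calc _ ≤ _ := this
      _ = _ := by ring
  rw [h.co0] at hc
  have c0 : |co (ψ t) 0 - a| ≤ D * x := by simpa using hc 0
  have c1 : |co (ψ t) 1| ≤ D * x := by simpa using hc 1
  have c2 : |co (ψ t) 2 - b| ≤ D * x := by simpa using hc 2
  have c3 : |co (ψ t) 3| ≤ D * x := by simpa using hc 3
  have hg := good_alg hb hab hη0 hη1 hη2 c0 c1 c2 c3
  have hp0 : b / 2 ≤ co (ψ t) 0 := by linarith [hg.1]
  have hp2 : b / 2 ≤ co (ψ t) 2 := hg.2.1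
  have aux : ∀ p q : ℝ, b / 2 ≤ p → |q| ≤ D * x → |(-Real.arctan (q / p))| ≤ 2 * D / b * x := by
    intro p q hp hq
    rw [abs_neg]
    refine (abs_arctan_le _).trans ?_
    have hp' : 0 < p := by linarith
    rw [abs_div, abs_of_pos hp', div_le_iff₀ hp']
    calc |q| ≤ D * x := hq
      _ = 2 * D / b * x * (b / 2) := by field_simp
      _ ≤ 2 * D / b * x * p := mul_le_mul_of_nonneg_left hp (by positivity)
  exact ⟨⟨hg.1, hg.2.1, hg.2.2⟩, aux _ _ hp0 c1, aux _ _ hp2 c3⟩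

theorem phase_deriv {a b M : ℝ} (hb : 0 < b) (hab : b < a) (hM : 0 ≤ M) : ∃ C, 0 ≤ C ∧
    ∀ (δ T : ℝ) (Φ : ℝ × ℝ → ℝ) (ψ : ℝ → ℝ × ℝ → ℝ), Ini a b M δ T Φ ψ →
      ∀ t, 0 ≤ t → t ≤ T → Good a b (ψ t) → ∃ α' β', HasDerivAt (al ψ) α' t ∧
        HasDerivAt (be ψ) β' t ∧ |α'| ≤ C * δ ∧ |β'| ≤ C * δ := by
  have hB : 0 < a + b + M := by linarith
  refine ⟨2 * (a + b + M) * ((a + b + M) * M) / (b / 2) ^ 2, by positivity, ?_⟩
  intro δ T Φ ψ h t h0 hT hg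
  have hder := fun i => hasDerivAt_co h.sol.tper i t
  have hco := h.co_le h0 hT
  have hdco := h.dco_le h0 hT
  have hp0 : b / 2 ≤ co (ψ t) 0 := by linarith [hg.1]
  have hp2 : b / 2 ≤ co (ψ t) 2 := hg.2.1
  obtain ⟨α', hα, hα2⟩ := deriv_form (hder 1) (hder 0) (by positivity : 0 < b / 2) hp0 (hco 1)
    (hco 0) (hdco 1) (hdco 0)
  obtain ⟨β', hβ, hβ2⟩ := deriv_form (hder 3) (hder 2) (by positivity : 0 < b / 2) hp2 (hco 3)
    (hco 2) (hdco 3) (hdco 2)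
  have e : 2 * (a + b + M) * ((a + b + M) * M * δ) / (b / 2) ^ 2 =
      2 * (a + b + M) * ((a + b + M) * M) / (b / 2) ^ 2 * δ := by ring
  rw [e] at hα2 hβ2
  exact ⟨α', β', hα, hβ, hα2, hβ2⟩

end Pool.Agent.Lib.EI
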