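import Pool.Agent.Lib.EI.Time

/-!
The derivative of `∫ H(x - (α, β)) F` when `α`, `β` are only differentiable at one point.

PROOF. Fix `t` and put `α₁ s = α t + a (s - t)`, `β₁ s = β t + b (s - t)`. The function
`F₁ s x = H (x.1 - α₁ s, x.2 - β₁ s) * F s x` is `TPer` (composition of smooth maps), so
`hasDerivAt_tint` gives the derivative `tint (dt F₁ t)` of `tint (F₁ s)` at `s = t`, and
`dt F₁ t x = H (..) * dt F t x - a * d1 H (..) * F t x - b * d2 H (..) * F t x` (chain rule).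
The difference `D s = tint (fun x => H (x.1 - α s, x.2 - β s) * F s x) - tint (F₁ s)` has derivative `0` at
`t`: `H` is Lipschitz, `|H y - H z| ≤ L (|y.1 - z.1| + |y.2 - z.2|)` (bounded derivatives `d1 H`, `d2 H`,
`Per.bounded`), `F` is bounded near `t`, so `|D s| ≤ C (|α s - α₁ s| + |β s - β₁ s|) = o(s - t)`.
-/

set_option autoImplicit false

open MeasureTheory Set intervalIntegral
open scoped ContDiff Topology

namespace Pool.Agent.Lib.EI

/-- The derivative of `∫ H(x - (α, β)) F`. -/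
theorem hasDerivAt_shift {F : ℝ → ℝ × ℝ → ℝ} {H : ℝ × ℝ → ℝ} (hH : Per H) (hF : TPer F)
    {α β : ℝ → ℝ} {t a b : ℝ} (hα : HasDerivAt α a t) (hβ : HasDerivAt β b t) :
    HasDerivAt (fun s => tint fun x => H (x.1 - α s, x.2 - β s) * F s x)
      (tint (fun x => H (x.1 - α t, x.2 - β t) * dt F t x) -
        a * tint (fun x => d1 H (x.1 - α t, x.2 - β t) * F t x) -
        b * tint (fun x => d2 H (x.1 - α t, x.2 - β t) * F t x)) t := by
  set J : (ℝ × ℝ × ℝ) × (ℝ × ℝ) → ℝ :=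
    fun w => H (w.2.1 - w.1.1, w.2.2 - w.1.2.1) * F w.1.2.2 w.2 with hJ
  have hJs : ContDiff ℝ ∞ J := by
    refine ContDiff.mul (hH.smooth.comp (g := H)
      (f := fun w : (ℝ × ℝ × ℝ) × (ℝ × ℝ) => (w.2.1 - w.1.1, w.2.2 - w.1.2.1)) ?_)
      (hF.smooth.comp (g := fun z : ℝ × ℝ × ℝ => F z.1 z.2)
      (f := fun w : (ℝ × ℝ × ℝ) × (ℝ × ℝ) => (w.1.2.2, w.2)) ?_)
    · fun_prop
    · fun_prop
  have hJd : ∀ w, HasFDerivAt J (fderiv ℝ J w) w :=
    fun w => (hJs.differentiable (by simp) w).hasFDerivAt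
  set L : (ℝ × ℝ × ℝ) → (ℝ × ℝ) → ((ℝ × ℝ × ℝ) →L[ℝ] ℝ) := fun z x =>
    (fderiv ℝ J (z, x)).comp (ContinuousLinearMap.inl ℝ (ℝ × ℝ × ℝ) (ℝ × ℝ)) with hLdef
  have hLc : Continuous fun w : (ℝ × ℝ × ℝ) × (ℝ × ℝ) => L w.1 w.2 :=
    (hJs.continuous_fderiv (by simp)).clm_comp continuous_const
  have hL : ∀ z x, HasFDerivAt (fun z => J (z, x)) (L z x) z := by
    intro z x
    have hi : HasFDerivAt (𝕜 := ℝ) (fun e : ℝ × ℝ × ℝ => (e, x))
        (ContinuousLinearMap.inl ℝ (ℝ × ℝ × ℝ) (ℝ × ℝ)) z := hasFDerivAt_prodMk_left z x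
    exact HasFDerivAt.comp (g := J) (f := fun e : ℝ × ℝ × ℝ => (e, x)) z (hJd (z, x)) hi
  set z₀ : ℝ × ℝ × ℝ := (α t, β t, t) with hz₀
  have hbox : IsCompact (Icc (0 : ℝ) (2 * Real.pi) ×ˢ Icc (0 : ℝ) (2 * Real.pi)) :=
    isCompact_Icc.prod isCompact_Icc
  have hmeas : MeasurableSet (Icc (0 : ℝ) (2 * Real.pi) ×ˢ Icc (0 : ℝ) (2 * Real.pi)) :=
    measurableSet_Icc.prod measurableSet_Icc
  have hK : IsCompact (Metric.closedBall z₀ 1 ×ˢ
      (Icc (0 : ℝ) (2 * Real.pi) ×ˢ Icc (0 : ℝ) (2 * Real.pi))) :=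
    (isCompact_closedBall z₀ 1).prod hbox
  obtain ⟨M, hM⟩ := (hK.image hLc.norm).bddAbove
  have hJz : ∀ z, Continuous fun x => J (z, x) := fun z =>
    hJs.continuous.comp (Continuous.prodMk_right z)
  have hLz : Continuous fun x => L z₀ x := hLc.comp (Continuous.prodMk_right z₀)
  have h1 : HasFDerivAt
      (fun z => ∫ x in Icc (0 : ℝ) (2 * Real.pi) ×ˢ Icc (0 : ℝ) (2 * Real.pi), J (z, x))
      (∫ x in Icc (0 : ℝ) (2 * Real.pi) ×ˢ Icc (0 : ℝ) (2 * Real.pi), L z₀ x) z₀ := by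
    refine hasFDerivAt_integral_of_dominated_of_fderiv_le (𝕜 := ℝ)
      (F := fun z x => J (z, x)) (F' := L) (bound := fun _ => M)
      (Metric.closedBall_mem_nhds z₀ one_pos) ?_ ?_ ?_ ?_ ?_ ?_
    · exact Filter.Eventually.of_forall fun z => (hJz z).aestronglyMeasurable
    · exact (hJz z₀).continuousOn.integrableOn_compact hbox
    · exact hLz.aestronglyMeasurable
    · refine (ae_restrict_iff' hmeas).2 (Filter.Eventually.of_forall fun x hx z hz => ?_)
      exact hM ⟨(z, x), ⟨hz, hx⟩, rfl⟩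
    · exact (continuous_const (y := M)).continuousOn.integrableOn_compact hbox
    · exact Filter.Eventually.of_forall fun x z _ => hL z x
  have hpath : HasDerivAt (fun s => ((α s, β s, s) : ℝ × ℝ × ℝ)) (a, b, 1) t :=
    hα.prodMk (hβ.prodMk (hasDerivAt_id t))
  have h2 := h1.comp_hasDerivAt t hpath
  have hpt : ∀ x : ℝ × ℝ, L z₀ x (a, b, 1) = H (x.1 - α t, x.2 - β t) * dt F t x -
      a * (d1 H (x.1 - α t, x.2 - β t) * F t x) -
      b * (d2 H (x.1 - α t, x.2 - β t) * F t x) := by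
    intro x
    have h3 : HasDerivAt (fun s => J ((α s, β s, s), x)) (L z₀ x (a, b, 1)) t :=
      HasFDerivAt.comp_hasDerivAt (l := fun z => J (z, x))
        (f := fun s => ((α s, β s, s) : ℝ × ℝ × ℝ)) t (hL z₀ x) hpath
    have h4 : HasDerivAt (fun s => ((x.1 - α s, x.2 - β s) : ℝ × ℝ)) (-a, -b) t :=
      (hα.const_sub x.1).prodMk (hβ.const_sub x.2)
    have h5 : HasDerivAt (fun s => H (x.1 - α s, x.2 - β s))
        (fderiv ℝ H (x.1 - α t, x.2 - β t) (-a, -b)) t :=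
      (hH.diffAt _).hasFDerivAt.comp_hasDerivAt t h4
    have h6 : HasDerivAt (fun s => J ((α s, β s, s), x))
        (fderiv ℝ H (x.1 - α t, x.2 - β t) (-a, -b) * F t x +
          H (x.1 - α t, x.2 - β t) * dt F t x) t := h5.mul (hF.hasDerivAt t x)
    rw [h3.unique h6]
    have h7 : ((-a, -b) : ℝ × ℝ) = (-a) • ((1, 0) : ℝ × ℝ) + (-b) • ((0, 1) : ℝ × ℝ) := by
      simp
    rw [h7, map_add, map_smul, map_smul]
    unfold d1 d2
    simp only [smul_eq_mul]
    ring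
  have hint : Integrable (fun x => L z₀ x)
      (volume.restrict (Icc (0 : ℝ) (2 * Real.pi) ×ˢ Icc (0 : ℝ) (2 * Real.pi))) :=
    hLz.continuousOn.integrableOn_compact hbox
  rw [ContinuousLinearMap.integral_apply hint] at h2
  have hc : Continuous fun x : ℝ × ℝ => ((x.1 - α t, x.2 - β t) : ℝ × ℝ) := by fun_prop
  have e1 : Continuous fun x : ℝ × ℝ => H (x.1 - α t, x.2 - β t) * dt F t x :=
    (hH.continuous.comp hc).mul (hF.dt.per t).continuous
  have e2 : Continuous fun x : ℝ × ℝ => a * (d1 H (x.1 - α t, x.2 - β t) * F t x) :=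
    continuous_const.mul ((hH.d1.continuous.comp hc).mul (hF.per t).continuous)
  have e3 : Continuous fun x : ℝ × ℝ => b * (d2 H (x.1 - α t, x.2 - β t) * F t x) :=
    continuous_const.mul ((hH.d2.continuous.comp hc).mul (hF.per t).continuous)
  have e12 : Continuous fun x : ℝ × ℝ => H (x.1 - α t, x.2 - β t) * dt F t x -
      a * (d1 H (x.1 - α t, x.2 - β t) * F t x) := e1.sub e2
  rw [← tint_const_mul a, ← tint_const_mul b, ← tint_sub e1 e2, ← tint_sub e12 e3]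
  have h8 : (∫ x in Icc (0 : ℝ) (2 * Real.pi) ×ˢ Icc (0 : ℝ) (2 * Real.pi), L z₀ x (a, b, 1)) =
      tint (fun x => H (x.1 - α t, x.2 - β t) * dt F t x -
      a * (d1 H (x.1 - α t, x.2 - β t) * F t x) -
      b * (d2 H (x.1 - α t, x.2 - β t) * F t x)) := by
    unfold tint
    simp only [hpt]
  rw [← h8]
  exact h2

end Pool.Agent.Lib.EI
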