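import Pool.Agent.Lib.EI.Ampl
import Pool.Agent.Lib.EI.Phase
import Pool.Agent.Lib.EI.JStat
import Pool.Agent.Lib.EI.Shift

/-!
MODULE JDer (2 h). `J(t) = ∫ H(x - (α(t), β(t))) ω(t,x) dx` satisfies `|J'| ≤ C δ²`.

Black boxes: `hasDerivAt_shift` (`Shift.lean`), `phase_deriv`, `phase_form` (`Phase.lean`), `ampl`
(`Ampl.lean`), `jstat` (`JStat.lean`), `Hs_*` (`HShift.lean`), `Ini.*` (`Bnd.lean`).

Proof. At `t` with `Good a b (ψ t)` let `α' , β'` be from `phase_deriv`. `hasDerivAt_shift` with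
`F s = lap (ψ s)` (`TPer.lap`): `J' = ∫ H^ dt F - α' ∫ (d1 H)^ ω - β' ∫ (d2 H)^ ω`.
* `dt F t = lap (dt ψ t) = -{ψ, ω}` (`dt_lap`, `Sol.vort`), and `∫ H^ (-{ψ, ω}) = ∫ ω {ψ, H^} =
  ∫ (ω + ψ) {ψ, H^}` (`tint_br`, `tint_br_self_left`), bounded by `jstat` with `ρ1 = √(p0²+p1²)`,
  `ρ2 = √(p2²+p3²)`, (`phase_form`: `x.1 - al = x.1 + arctan (p1/p0)`), where
  `|ρ1 - a| = |ρ1² - a²|/(ρ1 + a) ≤ C δ / a`, `|ρ2 - b| ≤ C δ / b` (`ampl`), `gn (rem ψ) ≤ M δ`,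
  `‖g‖ ≤ M δ`: total `≤ C δ²`.
* `∫ (d1 H)^ ω = ∫ (d1 H)^ w` with `w = lap (rem (ψ t)) = ω + VV p` (`lap_rem`) by `Hs_d1_orth`; bounded by
  `2π sup|d1 H| · 2 M δ` (`tint_cs`, `Ini.w_le`), times `|α'| ≤ C δ`. Same for `d2`.
-/

set_option autoImplicit false

open MeasureTheory Set
open scoped ContDiff

namespace Pool.Agent.Lib.EI

/-- `J(t) = ∫ H(x - (α(t), β(t))) ω(t,x) dx` -/
noncomputable def JJ (H : ℝ × ℝ → ℝ) (ψ : ℝ → ℝ × ℝ → ℝ) (t : ℝ) : ℝ :=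
  tint fun x => Hs H (al ψ t) (be ψ t) x * lap (ψ t) x

namespace JDerAux

theorem sqrt_close {a P ε : ℝ} (ha : 0 < a) (hP : 0 ≤ P) (h : |P - a ^ 2| ≤ ε) :
    |Real.sqrt P - a| ≤ ε / a := by
  have h0 := Real.sqrt_nonneg P
  have hs : Real.sqrt P ^ 2 = P := Real.sq_sqrt hP
  rw [le_div_iff₀ ha]
  have h1 : P - a ^ 2 = (Real.sqrt P - a) * (Real.sqrt P + a) := by
    nlinarith
  rw [h1, abs_mul, abs_of_pos (show 0 < Real.sqrt P + a by linarith)] at h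
  have h2 : |Real.sqrt P - a| * a ≤ |Real.sqrt P - a| * (Real.sqrt P + a) :=
    mul_le_mul_of_nonneg_left (by linarith) (abs_nonneg _)
  linarith

theorem orth_bound {K f : ℝ × ℝ → ℝ} {S : ℝ} (hK : Per K) (hf : Per f)
    (ho : ∀ c, tint (fun x => K x * VV c x) = 0) (hS : ∀ x, |K x| ≤ S) :
    |tint (fun x => K x * lap f x)| ≤ 2 * Real.pi * S * nrm (lap (rem f)) := by
  have h1 : (fun x => K x * lap f x) = fun x => K x * lap (rem f) x - K x * VV (co f) x := by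
    funext x
    rw [congrFun (lap_rem hf) x]
    ring
  rw [h1, tint_sub (hK.mul (per_rem hf).lap).continuous (hK.mul (per_VV _)).continuous, ho,
    sub_zero]
  refine (tint_cs hK.continuous (per_rem hf).lap.continuous).trans ?_
  exact mul_le_mul_of_nonneg_right (nrm_le_of_bound hK.continuous hS) (nrm_nonneg _)

theorem main_term {T : ℝ} {ψ : ℝ → ℝ × ℝ → ℝ} (h : Sol T ψ) {K : ℝ × ℝ → ℝ} (hK : Per K) {t : ℝ}
    (h0 : 0 ≤ t) (hT : t ≤ T) :
    tint (fun x => K x * dt (fun s => lap (ψ s)) t x) =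
      tint (fun x => (lap (ψ t) x + ψ t x) * br (ψ t) K x) := by
  have hp := h.tper.per t
  have h3 : (fun x => K x * dt (fun s => lap (ψ s)) t x) =
      fun x => -(K x * br (ψ t) (lap (ψ t)) x) := by
    funext x
    rw [congrFun (dt_lap h.tper t) x, h.vort h0 hT x]
    ring
  rw [h3, tint_neg, tint_br hp hp.lap hK, neg_neg]
  have h4 : (fun x => (lap (ψ t) x + ψ t x) * br (ψ t) K x) =
      fun x => lap (ψ t) x * br (ψ t) K x + ψ t x * br (ψ t) K x := by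
    funext x; ring
  rw [h4, tint_add (hp.lap.mul (hp.br hK)).continuous (hp.mul (hp.br hK)).continuous,
    tint_br_self_left hp hK, add_zero]

end JDerAux

open JDerAux

theorem JJ_deriv {a b M : ℝ} {H : ℝ × ℝ → ℝ} (hb : 0 < b) (hab : b < a) (hM : 0 ≤ M) (hH : Per H)
    (horth : ∀ i, tint (fun x => H x * bas i x) = 0)
    (hbr : ∀ x, br (V0 a b) H x = -(b * Real.cos x.2)) : ∃ C, 0 ≤ C ∧
    ∀ (δ T : ℝ) (Φ : ℝ × ℝ → ℝ) (ψ : ℝ → ℝ × ℝ → ℝ), Ini a b M δ T Φ ψ →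
      ∀ t, 0 ≤ t → t ≤ T → δ * t ≤ 1 → Good a b (ψ t) →
        ∃ J', HasDerivAt (JJ H ψ) J' t ∧ |J'| ≤ C * δ ^ 2 := by
  obtain ⟨Cj, hCj, Hj⟩ := jstat hH hbr
  obtain ⟨Ca, hCa, Ha⟩ := ampl hb hab hM
  obtain ⟨Cp, hCp, Hp⟩ := phase_deriv hb hab hM
  obtain ⟨S1, hS1, HS1⟩ := hH.d1.bounded
  obtain ⟨S2, hS2, HS2⟩ := hH.d2.bounded
  have ha : 0 < a := hb.trans hab
  have hpi := Real.pi_pos
  refine ⟨Cj * M * (Ca / a + Ca / b + M) + Cp * (2 * Real.pi * S1 * (2 * M)) +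
    Cp * (2 * Real.pi * S2 * (2 * M)), by positivity, ?_⟩
  intro δ T Φ ψ hI t h0 hT hδt hG
  obtain ⟨α', β', hα, hβ, hα', hβ'⟩ := Hp δ T Φ ψ hI t h0 hT hG
  have hδ := hI.hδ0
  have hp := hI.sol.tper.per t
  have hd := hasDerivAt_shift (F := fun s => lap (ψ s)) hH hI.sol.tper.lap hα hβ
  refine ⟨_, hd, ?_⟩
  -- the main term
  have hm : |tint (fun x => Hs H (al ψ t) (be ψ t) x * dt (fun s => lap (ψ s)) t x)| ≤
      Cj * (M * δ) * (Ca * δ / a + Ca * δ / b + M * δ) := by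
    rw [main_term hI.sol (per_Hs hH _ _) h0 hT]
    obtain ⟨A1, A2⟩ := Ha δ T Φ ψ hI t h0 hT hδt hG.2.2
    have hc0 : 0 < co (ψ t) 0 := lt_of_lt_of_le (by positivity) hG.1
    have hc2 : 0 < co (ψ t) 2 := lt_of_lt_of_le (by positivity) hG.2.1
    have key := Hj (ψ t) (al ψ t) (be ψ t) (Real.sqrt (co (ψ t) 0 ^ 2 + co (ψ t) 1 ^ 2))
      (Real.sqrt (co (ψ t) 2 ^ 2 + co (ψ t) 3 ^ 2)) hp (fun x => by
        rw [phase_form hc0 hc2 x]
        unfold al be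
        rw [sub_neg_eq_add, sub_neg_eq_add])
    refine key.trans ?_
    have B1 := sqrt_close ha (by positivity) A1
    have B2 := sqrt_close hb (by positivity) A2
    have B3 := hI.grad_le h0 hT
    have B4 := hI.g_le h0 hT
    have hn := nrm_nonneg (fun x => lap (ψ t) x + ψ t x)
    have hg := gn_nonneg (rem (ψ t))
    refine mul_le_mul (mul_le_mul_of_nonneg_left B4 hCj) (by linarith) (by positivity)
      (by positivity)
  have hw := hI.w_le h0 hT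
  have h1 : |tint (fun x => Hs (d1 H) (al ψ t) (be ψ t) x * lap (ψ t) x)| ≤
      2 * Real.pi * S1 * (2 * M * δ) :=
    (orth_bound (per_Hs hH.d1 _ _) hp (fun c => Hs_d1_orth hH horth _ _ c)
      (fun x => HS1 _)).trans (mul_le_mul_of_nonneg_left hw (by positivity))
  have h2 : |tint (fun x => Hs (d2 H) (al ψ t) (be ψ t) x * lap (ψ t) x)| ≤
      2 * Real.pi * S2 * (2 * M * δ) :=
    (orth_bound (per_Hs hH.d2 _ _) hp (fun c => Hs_d2_orth hH horth _ _ c)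
      (fun x => HS2 _)).trans (mul_le_mul_of_nonneg_left hw (by positivity))
  have e1 : |α' * tint (fun x => Hs (d1 H) (al ψ t) (be ψ t) x * lap (ψ t) x)| ≤
      Cp * δ * (2 * Real.pi * S1 * (2 * M * δ)) := by
    rw [abs_mul]
    exact mul_le_mul hα' h1 (abs_nonneg _) (by positivity)
  have e2 : |β' * tint (fun x => Hs (d2 H) (al ψ t) (be ψ t) x * lap (ψ t) x)| ≤
      Cp * δ * (2 * Real.pi * S2 * (2 * M * δ)) := by
    rw [abs_mul]
    exact mul_le_mul hβ' h2 (abs_nonneg _) (by positivity)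
  have hfin : ∀ A B C : ℝ, |A - B - C| ≤ |A| + |B| + |C| := fun A B C =>
    (abs_sub _ _).trans (by linarith [abs_sub A B])
  refine (hfin _ _ _).trans ?_
  have e3 := add_le_add (add_le_add hm e1) e2
  refine le_trans ?_ (e3.trans (le_of_eq ?_))
  · exact le_refl _
  · field_simp

end Pool.Agent.Lib.EI
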