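import Pool.Agent.Lib.EI.Bnd

/-!
MODULE RDer (2 h). The almost conserved quantity `R = ∫ V³ ω + ¾ ∫ V⁴`, `V = VV (co (ψ t))`.

Proof. Fix `t ∈ [0,T]`, `V = VV p`, `p = co (ψ t)`, `V' := VV p'`, `p' = co (dt ψ t)`, `r = rem (ψ t)`,
`w = lap r`, `ω = lap (ψ t) = w - V` (`lap_rem`), `g = ω + ψ t`.
* `k s = fun x => VV (co (ψ s)) x ^ 3` is `TPer` (`TPer.VVco`, `TPer.pow`), `dt k t = 3 V² V'`
  (write the power as a product and use `dt_mul`, or the derivative of `s ↦ VV (co (ψ s)) x ^ 3` through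
  `TPer.hasDerivAt` and `dt_VVco`). `Sol.pairT` (`TRem.lean`):
  `d/dt ∫ V³ ω = ∫ 3 V² V' ω + ∫ g {ψ, V³}`.
* `hasDerivAt_tint`: `d/dt ∫ V⁴ = ∫ 4 V³ V'`.
* So `R' = ∫ 3 V² V' (ω + V) + ∫ g {ψ, V³} = 3 ∫ V² V' w + ∫ g {r, V³}`, because `ω + V = w`, and
  `{V, V³} = 0` with `ψ t = V + r`, `{ψ, V³} = {V, V³} + {r, V³}` (`br_add_left`; `d1 (V³) = 3 V² d1 V`, from
  `d1_comp`/`d1_mul`).
* Bounds, with `B = a + b + M`: `|p_i| ≤ B` (`Ini.co_le`), `|V| ≤ 4B`, `|d1 V|, |d2 V| ≤ 2B`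
  (`abs_VV_le`, `abs_d1_VV_le`, `abs_d2_VV_le`), `|p'_i| ≤ B M δ` (`Ini.dco_le`), `|V'| ≤ 4 B M δ`.
  `|∫ V² V' w| ≤ ‖V² V'‖ ‖w‖ ≤ 2π (16 B²)(4 B M δ) (2 M δ)` (`tint_cs`, `nrm_le_of_bound`, `Ini.w_le`);
  `|d1 (V³)| = 3V²|d1 V| ≤ 96 B³`, so `‖{r, V³}‖ ≤ 2·96 B³ gn r ≤ 192 B³ M δ` (`nrm_br_le`, `Ini.grad_le`), and
  `|∫ g {r, V³}| ≤ M δ · 192 B³ M δ` (`Ini.g_le`). So `C` = a polynomial in `B, M, π`.
-/

set_option autoImplicit false

open MeasureTheory Set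
open scoped ContDiff

namespace Pool.Agent.Lib.EI

/-- The almost conserved quantity. -/
noncomputable def RR (ψ : ℝ → ℝ × ℝ → ℝ) (t : ℝ) : ℝ :=
  tint (fun x => VV (co (ψ t)) x ^ 3 * lap (ψ t) x) + 3 / 4 * tint (fun x => VV (co (ψ t)) x ^ 4)

private theorem d1_cube {f : ℝ × ℝ → ℝ} (hf : Per f) :
    d1 (fun x => f x ^ 3) = fun x => 3 * f x ^ 2 * d1 f x := by
  have h := d1_comp (φ := fun y : ℝ => y ^ 3) (by fun_prop) hf
  rw [h]
  funext x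
  have : deriv (fun y : ℝ => y ^ 3) (f x) = 3 * f x ^ 2 := by
    simp
  rw [this]

private theorem d2_cube {f : ℝ × ℝ → ℝ} (hf : Per f) :
    d2 (fun x => f x ^ 3) = fun x => 3 * f x ^ 2 * d2 f x := by
  have h := d2_comp (φ := fun y : ℝ => y ^ 3) (by fun_prop) hf
  rw [h]
  funext x
  have : deriv (fun y : ℝ => y ^ 3) (f x) = 3 * f x ^ 2 := by
    simp
  rw [this]

private theorem dt_pow {F : ℝ → ℝ × ℝ → ℝ} (hF : TPer F) (n : ℕ) (t : ℝ) :
    dt (fun s x => F s x ^ n) t = fun x => n * F t x ^ (n - 1) * dt F t x := by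
  funext x
  exact ((hF.hasDerivAt t x).fun_pow n).deriv

theorem RR_deriv {a b M : ℝ} (hb : 0 < b) (hab : b < a) (hM : 0 ≤ M) : ∃ C, 0 ≤ C ∧
    ∀ (δ T : ℝ) (Φ : ℝ × ℝ → ℝ) (ψ : ℝ → ℝ × ℝ → ℝ), Ini a b M δ T Φ ψ →
      ∀ t, 0 ≤ t → t ≤ T → ∃ R', HasDerivAt (RR ψ) R' t ∧ |R'| ≤ C * δ ^ 2 := by
  have ha : 0 < a := hb.trans hab
  refine ⟨768 * Real.pi * (a + b + M) ^ 3 * M ^ 2 + 192 * (a + b + M) ^ 3 * M ^ 2, by positivity, ?_⟩
  intro δ T Φ ψ h t h0 hT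
  set B := a + b + M with hB
  have hB0 : 0 ≤ B := by positivity
  have hδ := h.hδ0
  have hp := h.sol.tper.per t
  have hV := h.sol.tper.VVco
  have hVt : Per (VV (co (ψ t))) := per_VV _
  have hVt' : Per (VV (co (dt ψ t))) := per_VV _
  have hr : Per (rem (ψ t)) := per_rem hp
  have hk : TPer fun s x => VV (co (ψ s)) x ^ 3 := hV.pow 3
  have hk4 : TPer fun s x => VV (co (ψ s)) x ^ 4 := hV.pow 4
  have h1 := h.sol.pairT hk h0 hT
  have h2 := (hasDerivAt_tint hk4 t).const_mul (3 / 4)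
  have h3 := h1.add h2
  refine ⟨_, h3, ?_⟩
  have e3 : dt (fun s x => VV (co (ψ s)) x ^ 3) t =
      fun x => 3 * VV (co (ψ t)) x ^ 2 * VV (co (dt ψ t)) x := by
    rw [dt_pow hV 3 t, dt_VVco h.sol.tper t]
    funext x
    norm_num
  have e4 : dt (fun s x => VV (co (ψ s)) x ^ 4) t =
      fun x => 4 * (VV (co (ψ t)) x ^ 3 * VV (co (dt ψ t)) x) := by
    rw [dt_pow hV 4 t, dt_VVco h.sol.tper t]
    funext x
    norm_num
    ring
  have e5 : br (ψ t) (fun x => VV (co (ψ t)) x ^ 3) =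
      br (rem (ψ t)) (fun x => VV (co (ψ t)) x ^ 3) := by
    have hψ : ψ t = fun x => VV (co (ψ t)) x + rem (ψ t) x := by
      funext x
      unfold rem
      ring
    have hz : br (fun x => VV (co (ψ t)) x) (fun x => VV (co (ψ t)) x ^ 3) = fun _ => 0 := by
      funext x
      unfold br
      rw [d1_cube hVt, d2_cube hVt]
      ring
    calc br (ψ t) (fun x => VV (co (ψ t)) x ^ 3)
        = br (fun x => VV (co (ψ t)) x + rem (ψ t) x) (fun x => VV (co (ψ t)) x ^ 3) := by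
          rw [← hψ]
      _ = fun x => br (fun x => VV (co (ψ t)) x) (fun x => VV (co (ψ t)) x ^ 3) x +
            br (rem (ψ t)) (fun x => VV (co (ψ t)) x ^ 3) x := br_add_left hVt hr
      _ = _ := by
          rw [hz]
          funext x
          simp
  have hkt : Per (fun x => VV (co (ψ t)) x ^ 3) := hVt.pow 3
  have e6 : (tint fun x => dt (fun s x => VV (co (ψ s)) x ^ 3) t x * lap (ψ t) x) +
        (tint fun x => (lap (ψ t) x + ψ t x) * br (ψ t) (fun x => VV (co (ψ t)) x ^ 3) x) +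
      3 / 4 * tint (dt (fun s x => VV (co (ψ s)) x ^ 4) t) =
      (tint fun x => (3 * VV (co (ψ t)) x ^ 2 * VV (co (dt ψ t)) x) * lap (rem (ψ t)) x) +
      (tint fun x => (lap (ψ t) x + ψ t x) * br (rem (ψ t)) (fun x => VV (co (ψ t)) x ^ 3) x) := by
    rw [e3, e4, e5, tint_const_mul]
    have e7 : (fun x => (3 * VV (co (ψ t)) x ^ 2 * VV (co (dt ψ t)) x) * lap (rem (ψ t)) x) =
        fun x => (3 * VV (co (ψ t)) x ^ 2 * VV (co (dt ψ t)) x) * lap (ψ t) x +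
          3 * (VV (co (ψ t)) x ^ 3 * VV (co (dt ψ t)) x) := by
      funext x
      rw [congrFun (lap_rem hp) x]
      ring
    rw [e7, tint_add ((((hVt.pow 2).const_mul 3).mul hVt').mul hp.lap).continuous
      ((hkt.mul hVt').const_mul 3).continuous, tint_const_mul]
    ring
  have hco := h.co_le h0 hT
  have hdco := h.dco_le h0 hT
  have hVb : ∀ x, |VV (co (ψ t)) x| ≤ 4 * B := fun x => abs_VV_le hco x
  have hV'b : ∀ x, |VV (co (dt ψ t)) x| ≤ 4 * (B * M * δ) := fun x => abs_VV_le hdco x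
  have hV2 : ∀ x, VV (co (ψ t)) x ^ 2 ≤ 16 * B ^ 2 := fun x => by
    have := hVb x
    rw [← sq_abs]
    nlinarith [abs_nonneg (VV (co (ψ t)) x)]
  have b1 : nrm (fun x => 3 * VV (co (ψ t)) x ^ 2 * VV (co (dt ψ t)) x) ≤
      2 * Real.pi * (192 * B ^ 3 * M * δ) := by
    refine nrm_le_of_bound ((((hVt.pow 2).const_mul 3).mul hVt').continuous) fun x => ?_
    rw [abs_mul, abs_of_nonneg (show (0 : ℝ) ≤ 3 * VV (co (ψ t)) x ^ 2 by positivity)]
    calc 3 * VV (co (ψ t)) x ^ 2 * |VV (co (dt ψ t)) x|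
        ≤ 3 * (16 * B ^ 2) * (4 * (B * M * δ)) :=
          mul_le_mul (by linarith [hV2 x]) (hV'b x) (abs_nonneg _) (by positivity)
      _ = 192 * B ^ 3 * M * δ := by ring
  have b2 : |tint fun x => (3 * VV (co (ψ t)) x ^ 2 * VV (co (dt ψ t)) x) * lap (rem (ψ t)) x| ≤
      (2 * Real.pi * (192 * B ^ 3 * M * δ)) * (2 * M * δ) :=
    (tint_cs ((((hVt.pow 2).const_mul 3).mul hVt').continuous) hr.lap.continuous).trans
      (mul_le_mul b1 (h.w_le h0 hT) (nrm_nonneg _) (by positivity))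
  have hd1 : ∀ x, |d1 (fun x => VV (co (ψ t)) x ^ 3) x| ≤ 96 * B ^ 3 := fun x => by
    rw [d1_cube hVt, abs_mul,
      abs_of_nonneg (show (0 : ℝ) ≤ 3 * VV (co (ψ t)) x ^ 2 by positivity)]
    calc 3 * VV (co (ψ t)) x ^ 2 * |d1 (VV (co (ψ t))) x|
        ≤ 3 * (16 * B ^ 2) * (2 * B) :=
          mul_le_mul (by linarith [hV2 x]) (abs_d1_VV_le hco x) (abs_nonneg _) (by positivity)
      _ = 96 * B ^ 3 := by ring
  have hd2 : ∀ x, |d2 (fun x => VV (co (ψ t)) x ^ 3) x| ≤ 96 * B ^ 3 := fun x => by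
    rw [d2_cube hVt, abs_mul,
      abs_of_nonneg (show (0 : ℝ) ≤ 3 * VV (co (ψ t)) x ^ 2 by positivity)]
    calc 3 * VV (co (ψ t)) x ^ 2 * |d2 (VV (co (ψ t))) x|
        ≤ 3 * (16 * B ^ 2) * (2 * B) :=
          mul_le_mul (by linarith [hV2 x]) (abs_d2_VV_le hco x) (abs_nonneg _) (by positivity)
      _ = 96 * B ^ 3 := by ring
  have b3 : nrm (br (rem (ψ t)) (fun x => VV (co (ψ t)) x ^ 3)) ≤
      2 * (96 * B ^ 3) * (M * δ) :=
    (nrm_br_le hr hkt hd1 hd2).trans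
      (mul_le_mul_of_nonneg_left (h.grad_le h0 hT) (by positivity))
  have b4 : |tint fun x => (lap (ψ t) x + ψ t x) *
      br (rem (ψ t)) (fun x => VV (co (ψ t)) x ^ 3) x| ≤ (M * δ) * (2 * (96 * B ^ 3) * (M * δ)) :=
    (tint_cs (hp.lap.add hp).continuous (hr.br hkt).continuous).trans
      (mul_le_mul (h.g_le h0 hT) b3 (nrm_nonneg _) (by positivity))
  rw [e6]
  refine (abs_add_le _ _).trans ((add_le_add b2 b4).trans (le_of_eq ?_))
  ring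

end Pool.Agent.Lib.EI
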