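import Pool.Agent.Lib.EI.Int

/-!
The four lowest modes.
-/

set_option autoImplicit false

open MeasureTheory Set intervalIntegral
open scoped ContDiff

namespace Pool.Agent.Lib.EI

theorem tint_prod {φ χ : ℝ → ℝ} (hφ : Continuous φ) (hχ : Continuous χ) :
    tint (fun x => φ x.1 * χ x.2) =
      (∫ r in (0 : ℝ)..2 * Real.pi, φ r) * ∫ r in (0 : ℝ)..2 * Real.pi, χ r := by
  rw [tint_eq (f := fun x => φ x.1 * χ x.2) (by fun_prop)]
  simp only [intervalIntegral.integral_const_mul, intervalIntegral.integral_mul_const]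

theorem int_one : ∫ _ in (0 : ℝ)..2 * Real.pi, (1 : ℝ) = 2 * Real.pi := by simp

theorem int_sin : ∫ r in (0 : ℝ)..2 * Real.pi, Real.sin r = 0 := by
  rw [integral_sin]; simp

theorem int_cos : ∫ r in (0 : ℝ)..2 * Real.pi, Real.cos r = 0 := by
  rw [integral_cos]; simp

theorem int_sin_sq : ∫ r in (0 : ℝ)..2 * Real.pi, Real.sin r * Real.sin r = Real.pi := by
  have h := integral_sin_sq (a := (0 : ℝ)) (b := 2 * Real.pi)
  simp only [pow_two] at h
  rw [h]
  simp

theorem int_cos_sq : ∫ r in (0 : ℝ)..2 * Real.pi, Real.cos r * Real.cos r = Real.pi := by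
  have h := integral_cos_sq (a := (0 : ℝ)) (b := 2 * Real.pi)
  simp only [pow_two] at h
  rw [h]
  simp

theorem int_sin_cos : ∫ r in (0 : ℝ)..2 * Real.pi, Real.sin r * Real.cos r = 0 := by
  rw [integral_sin_mul_cos₁]; simp

/-- The four lowest modes `sin x₁, cos x₁, sin x₂, cos x₂`. -/
noncomputable def bas : Fin 4 → ℝ × ℝ → ℝ
  | 0 => fun x => Real.sin x.1
  | 1 => fun x => Real.cos x.1
  | 2 => fun x => Real.sin x.2
  | 3 => fun x => Real.cos x.2

theorem per_bas (i : Fin 4) : Per (bas i) := by
  fin_cases i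
  · exact per_s1
  · exact per_c1
  · exact per_s2
  · exact per_c2

theorem lap_bas (i : Fin 4) : lap (bas i) = fun x => -bas i x := by
  fin_cases i
  · exact lap_s1
  · exact lap_c1
  · exact lap_s2
  · exact lap_c2

theorem abs_bas_le (i : Fin 4) (x : ℝ × ℝ) : |bas i x| ≤ 1 := by
  fin_cases i
  · exact Real.abs_sin_le_one _
  · exact Real.abs_cos_le_one _
  · exact Real.abs_sin_le_one _
  · exact Real.abs_cos_le_one _

private theorem cs : Continuous Real.sin := Real.continuous_sin
private theorem cc : Continuous Real.cos := Real.continuous_cos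

theorem tint_bas (i : Fin 4) : tint (bas i) = 0 := by
  fin_cases i
  · have h := tint_prod cs (continuous_const (y := (1 : ℝ)))
    simp only [mul_one, int_sin, zero_mul] at h
    exact h
  · have h := tint_prod cc (continuous_const (y := (1 : ℝ)))
    simp only [mul_one, int_cos, zero_mul] at h
    exact h
  · have h := tint_prod (continuous_const (y := (1 : ℝ))) cs
    simp only [one_mul, int_sin, mul_zero] at h
    exact h
  · have h := tint_prod (continuous_const (y := (1 : ℝ))) cc
    simp only [one_mul, int_cos, mul_zero] at h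
    exact h

private theorem ss1 : tint (fun x => Real.sin x.1 * Real.sin x.1) = 2 * Real.pi ^ 2 := by
  have h := tint_prod (φ := fun r => Real.sin r * Real.sin r) (by fun_prop) (continuous_const (y := (1 : ℝ)))
  simp only [mul_one, int_sin_sq, int_one] at h
  rw [h]; ring

private theorem cc1 : tint (fun x => Real.cos x.1 * Real.cos x.1) = 2 * Real.pi ^ 2 := by
  have h := tint_prod (φ := fun r => Real.cos r * Real.cos r) (by fun_prop) (continuous_const (y := (1 : ℝ)))
  simp only [mul_one, int_cos_sq, int_one] at h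
  rw [h]; ring

private theorem ss2 : tint (fun x => Real.sin x.2 * Real.sin x.2) = 2 * Real.pi ^ 2 := by
  have h := tint_prod (χ := fun r => Real.sin r * Real.sin r) (continuous_const (y := (1 : ℝ))) (by fun_prop)
  simp only [one_mul, int_sin_sq, int_one] at h
  rw [h]; ring

private theorem cc2 : tint (fun x => Real.cos x.2 * Real.cos x.2) = 2 * Real.pi ^ 2 := by
  have h := tint_prod (χ := fun r => Real.cos r * Real.cos r) (continuous_const (y := (1 : ℝ))) (by fun_prop)
  simp only [one_mul, int_cos_sq, int_one] at h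
  rw [h]; ring

private theorem sc1 : tint (fun x => Real.sin x.1 * Real.cos x.1) = 0 := by
  have h := tint_prod (φ := fun r => Real.sin r * Real.cos r) (by fun_prop) (continuous_const (y := (1 : ℝ)))
  simp only [mul_one, int_sin_cos, zero_mul] at h
  exact h

private theorem sc2 : tint (fun x => Real.sin x.2 * Real.cos x.2) = 0 := by
  have h := tint_prod (χ := fun r => Real.sin r * Real.cos r) (continuous_const (y := (1 : ℝ))) (by fun_prop)
  simp only [one_mul, int_sin_cos, mul_zero] at h
  exact h

private theorem s1s2 : tint (fun x => Real.sin x.1 * Real.sin x.2) = 0 := by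
  rw [tint_prod cs cs, int_sin, zero_mul]

private theorem s1c2 : tint (fun x => Real.sin x.1 * Real.cos x.2) = 0 := by
  rw [tint_prod cs cc, int_sin, zero_mul]

private theorem c1s2 : tint (fun x => Real.cos x.1 * Real.sin x.2) = 0 := by
  rw [tint_prod cc cs, int_cos, zero_mul]

private theorem c1c2 : tint (fun x => Real.cos x.1 * Real.cos x.2) = 0 := by
  rw [tint_prod cc cc, int_cos, zero_mul]

private theorem comm' (f g : ℝ × ℝ → ℝ) : tint (fun x => f x * g x) = tint (fun x => g x * f x) := by
  congr 1; funext x; ring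

theorem tint_bas_bas (i j : Fin 4) :
    tint (fun x => bas i x * bas j x) = if i = j then 2 * Real.pi ^ 2 else 0 := by
  fin_cases i <;> fin_cases j
  · simpa [bas] using ss1
  · simpa [bas] using sc1
  · simpa [bas] using s1s2
  · simpa [bas] using s1c2
  · simpa [bas] using (comm' _ _).trans sc1
  · simpa [bas] using cc1
  · simpa [bas] using c1s2
  · simpa [bas] using c1c2
  · simpa [bas] using (comm' _ _).trans s1s2
  · simpa [bas] using (comm' _ _).trans c1s2
  · simpa [bas] using ss2
  · simpa [bas] using sc2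
  · simpa [bas] using (comm' _ _).trans s1c2
  · simpa [bas] using (comm' _ _).trans c1c2
  · simpa [bas] using (comm' _ _).trans sc2
  · simpa [bas] using cc2

/-- The function in the lowest eigenspace with coefficients `c`. -/
noncomputable def VV (c : Fin 4 → ℝ) (x : ℝ × ℝ) : ℝ := ∑ i, c i * bas i x

/-- The coefficients of `f` with respect to the lowest modes. -/
noncomputable def co (f : ℝ × ℝ → ℝ) (i : Fin 4) : ℝ := tint (fun x => f x * bas i x) / (2 * Real.pi ^ 2)

/-- The part of `f` orthogonal to the lowest modes. -/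
noncomputable def rem (f : ℝ × ℝ → ℝ) (x : ℝ × ℝ) : ℝ := f x - VV (co f) x

theorem VV_eq (c : Fin 4 → ℝ) (x : ℝ × ℝ) : VV c x =
    c 0 * Real.sin x.1 + c 1 * Real.cos x.1 + c 2 * Real.sin x.2 + c 3 * Real.cos x.2 := by
  simp [VV, Fin.sum_univ_four, bas]

theorem VV_fun (c : Fin 4 → ℝ) : VV c =
    fun x => ((c 0 * bas 0 x + c 1 * bas 1 x) + c 2 * bas 2 x) + c 3 * bas 3 x := by
  funext x
  simp [VV, Fin.sum_univ_four]

theorem per_VV (c : Fin 4 → ℝ) : Per (VV c) := by
  rw [VV_fun]
  exact ((((per_bas 0).const_mul _).add ((per_bas 1).const_mul _)).add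
    ((per_bas 2).const_mul _)).add ((per_bas 3).const_mul _)

theorem d1_VV (c : Fin 4 → ℝ) : d1 (VV c) = fun x => c 0 * Real.cos x.1 - c 1 * Real.sin x.1 := by
  rw [VV_fun, d1_add ((((per_bas 0).const_mul _).add ((per_bas 1).const_mul _)).add
    ((per_bas 2).const_mul _)) ((per_bas 3).const_mul _),
    d1_add (((per_bas 0).const_mul _).add ((per_bas 1).const_mul _)) ((per_bas 2).const_mul _),
    d1_add ((per_bas 0).const_mul _) ((per_bas 1).const_mul _),
    d1_const_mul _ (per_bas 0), d1_const_mul _ (per_bas 1), d1_const_mul _ (per_bas 2),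
    d1_const_mul _ (per_bas 3)]
  funext x
  have e0 : d1 (bas 0) x = Real.cos x.1 := congrFun d1_s1 x
  have e1 : d1 (bas 1) x = -Real.sin x.1 := congrFun d1_c1 x
  have e2 : d1 (bas 2) x = 0 := congrFun d1_s2 x
  have e3 : d1 (bas 3) x = 0 := congrFun d1_c2 x
  show c 0 * d1 (bas 0) x + c 1 * d1 (bas 1) x + c 2 * d1 (bas 2) x + c 3 * d1 (bas 3) x = _
  rw [e0, e1, e2, e3]
  ring

theorem d2_VV (c : Fin 4 → ℝ) : d2 (VV c) = fun x => c 2 * Real.cos x.2 - c 3 * Real.sin x.2 := by
  rw [VV_fun, d2_add ((((per_bas 0).const_mul _).add ((per_bas 1).const_mul _)).add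
    ((per_bas 2).const_mul _)) ((per_bas 3).const_mul _),
    d2_add (((per_bas 0).const_mul _).add ((per_bas 1).const_mul _)) ((per_bas 2).const_mul _),
    d2_add ((per_bas 0).const_mul _) ((per_bas 1).const_mul _),
    d2_const_mul _ (per_bas 0), d2_const_mul _ (per_bas 1), d2_const_mul _ (per_bas 2),
    d2_const_mul _ (per_bas 3)]
  funext x
  have e0 : d2 (bas 0) x = 0 := congrFun d2_s1 x
  have e1 : d2 (bas 1) x = 0 := congrFun d2_c1 x
  have e2 : d2 (bas 2) x = Real.cos x.2 := congrFun d2_s2 x
  have e3 : d2 (bas 3) x = -Real.sin x.2 := congrFun d2_c2 x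
  show c 0 * d2 (bas 0) x + c 1 * d2 (bas 1) x + c 2 * d2 (bas 2) x + c 3 * d2 (bas 3) x = _
  rw [e0, e1, e2, e3]
  ring

theorem lap_VV (c : Fin 4 → ℝ) : lap (VV c) = fun x => -VV c x := by
  rw [VV_fun, lap_add ((((per_bas 0).const_mul _).add ((per_bas 1).const_mul _)).add
    ((per_bas 2).const_mul _)) ((per_bas 3).const_mul _),
    lap_add (((per_bas 0).const_mul _).add ((per_bas 1).const_mul _)) ((per_bas 2).const_mul _),
    lap_add ((per_bas 0).const_mul _) ((per_bas 1).const_mul _),
    lap_const_mul _ (per_bas 0), lap_const_mul _ (per_bas 1), lap_const_mul _ (per_bas 2),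
    lap_const_mul _ (per_bas 3)]
  funext x
  show c 0 * lap (bas 0) x + c 1 * lap (bas 1) x + c 2 * lap (bas 2) x + c 3 * lap (bas 3) x = _
  rw [congrFun (lap_bas 0) x, congrFun (lap_bas 1) x, congrFun (lap_bas 2) x,
    congrFun (lap_bas 3) x]
  ring

/-- Integration against a lowest mode function. -/
theorem tint_VV_mul (c : Fin 4 → ℝ) {g : ℝ × ℝ → ℝ} (hg : Continuous g) :
    tint (fun x => VV c x * g x) = ∑ i, c i * tint (fun x => g x * bas i x) := by
  have hb : ∀ i, Continuous (bas i) := fun i => (per_bas i).continuous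
  have h1 : (fun x => VV c x * g x) =
      fun x => ((c 0 * (g x * bas 0 x) + c 1 * (g x * bas 1 x)) + c 2 * (g x * bas 2 x)) +
        c 3 * (g x * bas 3 x) := by
    funext x
    simp only [VV, Fin.sum_univ_four]
    ring
  have e0 := hb 0
  have e1 := hb 1
  have e2 := hb 2
  have e3 := hb 3
  rw [h1, tint_add (by fun_prop) (by fun_prop), tint_add (by fun_prop) (by fun_prop),
    tint_add (by fun_prop) (by fun_prop), tint_const_mul, tint_const_mul, tint_const_mul,
    tint_const_mul, Fin.sum_univ_four]

theorem tint_VV_bas (c : Fin 4 → ℝ) (j : Fin 4) :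
    tint (fun x => VV c x * bas j x) = 2 * Real.pi ^ 2 * c j := by
  rw [tint_VV_mul c (per_bas j).continuous]
  simp only [tint_bas_bas]
  simp
  ring

theorem tint_VV (c : Fin 4 → ℝ) : tint (VV c) = 0 := by
  have h := tint_VV_mul c (continuous_const (y := (1 : ℝ)))
  simp only [mul_one, one_mul] at h
  have h2 : ∀ i, tint (fun x => bas i x) = 0 := tint_bas
  simp only [h2, mul_zero, Finset.sum_const_zero] at h
  exact h

theorem tint_VV_VV (c c' : Fin 4 → ℝ) :
    tint (fun x => VV c x * VV c' x) = 2 * Real.pi ^ 2 * ∑ i, c i * c' i := by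
  rw [tint_VV_mul c (per_VV c').continuous]
  simp only [tint_VV_bas, Finset.mul_sum]
  refine Finset.sum_congr rfl fun i _ => ?_
  ring

theorem co_VV (c : Fin 4 → ℝ) : co (VV c) = c := by
  funext j
  unfold co
  rw [tint_VV_bas]
  have : (2 * Real.pi ^ 2) ≠ 0 := by positivity
  field_simp

section rem

variable {f g : ℝ × ℝ → ℝ}

theorem co_sub (hf : Per f) (hg : Per g) (i : Fin 4) :
    co (fun x => f x - g x) i = co f i - co g i := by
  unfold co
  have h1 : (fun x => (f x - g x) * bas i x) = fun x => f x * bas i x - g x * bas i x := by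
    funext x; ring
  rw [h1, tint_sub (hf.mul (per_bas i)).continuous (hg.mul (per_bas i)).continuous, sub_div]

theorem per_rem (hf : Per f) : Per (rem f) := hf.sub (per_VV _)

theorem tint_rem_bas (hf : Per f) (i : Fin 4) : tint (fun x => rem f x * bas i x) = 0 := by
  have h1 : (fun x => rem f x * bas i x) = fun x => f x * bas i x - VV (co f) x * bas i x := by
    funext x; unfold rem; ring
  rw [h1, tint_sub (hf.mul (per_bas i)).continuous ((per_VV _).mul (per_bas i)).continuous,
    tint_VV_bas]
  unfold co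
  have : (2 * Real.pi ^ 2) ≠ 0 := by positivity
  field_simp
  ring

theorem tint_rem_VV (hf : Per f) (c : Fin 4 → ℝ) : tint (fun x => VV c x * rem f x) = 0 := by
  rw [tint_VV_mul c (per_rem hf).continuous]
  simp [tint_rem_bas hf]

theorem tint_rem (hf : Per f) (h0 : tint f = 0) : tint (rem f) = 0 := by
  have h1 : rem f = fun x => f x - VV (co f) x := rfl
  rw [h1, tint_sub hf.continuous (per_VV _).continuous, h0, tint_VV, sub_zero]

theorem lap_rem (hf : Per f) : lap (rem f) = fun x => lap f x + VV (co f) x := by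
  have h1 : rem f = fun x => f x - VV (co f) x := rfl
  rw [h1, lap_sub hf (per_VV _), lap_VV]
  funext x
  ring

theorem tint_lap_bas (hf : Per f) (i : Fin 4) :
    tint (fun x => lap f x * bas i x) = -tint (fun x => f x * bas i x) := by
  rw [← tint_lap_symm hf (per_bas i), lap_bas, ← tint_neg]
  congr 1
  funext x
  ring

/-- `ω + ψ` is orthogonal to the lowest modes. -/
theorem tint_g_bas (hf : Per f) (i : Fin 4) : tint (fun x => (lap f x + f x) * bas i x) = 0 := by
  have h1 : (fun x => (lap f x + f x) * bas i x) = fun x => lap f x * bas i x + f x * bas i x := by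
    funext x; ring
  rw [h1, tint_add (hf.lap.mul (per_bas i)).continuous (hf.mul (per_bas i)).continuous,
    tint_lap_bas hf]
  ring

theorem tint_g_VV (hf : Per f) (c : Fin 4 → ℝ) :
    tint (fun x => VV c x * (lap f x + f x)) = 0 := by
  rw [tint_VV_mul c (hf.lap.add hf).continuous]
  simp [tint_g_bas hf]

/-- `ω + ψ = w + φ` for `φ = rem ψ`, `w = Δφ`. -/
theorem g_eq (hf : Per f) (x : ℝ × ℝ) : lap (rem f) x + rem f x = lap f x + f x := by
  rw [congrFun (lap_rem hf) x]
  unfold rem
  ring

end rem

end Pool.Agent.Lib.EI
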