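import Pool.Agent.Lib.EI.Cons
import Pool.Agent.Lib.EI.Trig

/-!
Time dependent low mode parts, gradient norms.
-/

set_option autoImplicit false

open MeasureTheory Set
open scoped ContDiff

namespace Pool.Agent.Lib.EI

theorem contDiff_tint {F : ℝ → ℝ × ℝ → ℝ} (hF : TPer F) : ContDiff ℝ ∞ fun t => tint (F t) := by
  rw [contDiff_infty]
  intro n
  induction n generalizing F with
  | zero =>
    rw [show ((0 : ℕ) : WithTop ℕ∞) = 0 from rfl, contDiff_zero]
    exact continuous_iff_continuousAt.2 fun t => (hasDerivAt_tint hF t).continuousAt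
  | succ n ih =>
    rw [show ((n + 1 : ℕ) : WithTop ℕ∞) = (n : WithTop ℕ∞) + 1 by push_cast; rfl,
      contDiff_succ_iff_deriv]
    refine ⟨fun t => (hasDerivAt_tint hF t).differentiableAt, by simp, ?_⟩
    rw [show deriv (fun t => tint (F t)) = fun t => tint (dt F t) from
      funext fun t => (hasDerivAt_tint hF t).deriv]
    exact ih hF.dt

theorem contDiff_co {F : ℝ → ℝ × ℝ → ℝ} (hF : TPer F) (i : Fin 4) :
    ContDiff ℝ ∞ fun t => co (F t) i :=
  (contDiff_tint (hF.mul (tper_of_per (per_bas i)))).div_const _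

theorem hasDerivAt_co {F : ℝ → ℝ × ℝ → ℝ} (hF : TPer F) (i : Fin 4) (t : ℝ) :
    HasDerivAt (fun s => co (F s) i) (co (dt F t) i) t := by
  have h1 := (hasDerivAt_tint (hF.mul (tper_of_per (per_bas i))) t).div_const (2 * Real.pi ^ 2)
  rw [dt_mul hF (tper_of_per (per_bas i)) t] at h1
  have h2 : (fun x => dt F t x * bas i x + F t x * dt (fun _ => bas i) t x) =
      fun x => dt F t x * bas i x := by
    funext x
    rw [congrFun (dt_const (bas i) t) x]
    ring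
  rw [h2] at h1
  exact h1

theorem tper_VV {c : ℝ → Fin 4 → ℝ} (hc : ∀ i, ContDiff ℝ ∞ fun t => c t i) :
    TPer fun t => VV (c t) := by
  have h : (fun t => VV (c t)) = fun t x =>
      ((c t 0 * bas 0 x + c t 1 * bas 1 x) + c t 2 * bas 2 x) + c t 3 * bas 3 x := by
    funext t
    exact VV_fun (c t)
  rw [h]
  exact ((((tper_time (hc 0)).mul (tper_of_per (per_bas 0))).add
    ((tper_time (hc 1)).mul (tper_of_per (per_bas 1)))).add
    ((tper_time (hc 2)).mul (tper_of_per (per_bas 2)))).add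
    ((tper_time (hc 3)).mul (tper_of_per (per_bas 3)))

theorem dt_VV {c c' : ℝ → Fin 4 → ℝ} {t : ℝ} (hc : ∀ i, HasDerivAt (fun s => c s i) (c' t i) t) :
    dt (fun s => VV (c s)) t = VV (c' t) := by
  funext x
  have h : HasDerivAt (fun s => VV (c s) x) (VV (c' t) x) t := by
    unfold VV
    exact HasDerivAt.fun_sum fun i _ => (hc i).mul_const _
  exact h.deriv

theorem TPer.VVco {F : ℝ → ℝ × ℝ → ℝ} (hF : TPer F) : TPer fun t => VV (co (F t)) :=
  tper_VV (c := fun t => co (F t)) (contDiff_co hF)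

theorem TPer.rem {F : ℝ → ℝ × ℝ → ℝ} (hF : TPer F) : TPer fun t => EI.rem (F t) :=
  hF.sub hF.VVco

theorem dt_VVco {F : ℝ → ℝ × ℝ → ℝ} (hF : TPer F) (t : ℝ) :
    dt (fun s => VV (co (F s))) t = VV (co (dt F t)) :=
  dt_VV (c := fun t => co (F t)) (c' := fun t => co (dt F t)) (fun i => hasDerivAt_co hF i t)

/-- Pairing of the vorticity with a time dependent function. -/
theorem Sol.pairT {T : ℝ} {ψ k : ℝ → ℝ × ℝ → ℝ} (h : Sol T ψ) (hk : TPer k) {t : ℝ} (h0 : 0 ≤ t)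
    (hT : t ≤ T) :
    HasDerivAt (fun s => tint fun x => k s x * lap (ψ s) x)
      ((tint fun x => dt k t x * lap (ψ t) x) +
        tint fun x => (lap (ψ t) x + ψ t x) * br (ψ t) (k t) x) t := by
  have h1 := hasDerivAt_tint (hk.mul h.tper.lap) t
  have hp := h.tper.per t
  have hkt := hk.per t
  have hdk := hk.dt.per t
  have h2 : tint (dt (fun s x => k s x * lap (ψ s) x) t) =
      (tint fun x => dt k t x * lap (ψ t) x) +
        tint fun x => (lap (ψ t) x + ψ t x) * br (ψ t) (k t) x := by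
    rw [dt_mul hk h.tper.lap t, dt_lap h.tper t]
    have h3 : (fun x => dt k t x * lap (ψ t) x + k t x * lap (dt ψ t) x) =
        fun x => dt k t x * lap (ψ t) x + -(k t x * br (ψ t) (lap (ψ t)) x) := by
      funext x
      rw [h.vort h0 hT x]
      ring
    rw [h3, tint_add (hdk.mul hp.lap).continuous
      (hkt.mul (hp.br hp.lap)).neg.continuous, tint_neg, tint_br hp hp.lap hkt]
    have h4 : (fun x => (lap (ψ t) x + ψ t x) * br (ψ t) (k t) x) =
        fun x => lap (ψ t) x * br (ψ t) (k t) x + ψ t x * br (ψ t) (k t) x := by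
      funext x; ring
    rw [h4, tint_add (hp.lap.mul (hp.br hkt)).continuous (hp.mul (hp.br hkt)).continuous,
      tint_br_self_left hp hkt]
    ring
  rw [h2] at h1
  exact h1

/-- The `L²` norm of the gradient. -/
noncomputable def gn (f : ℝ × ℝ → ℝ) : ℝ := Real.sqrt (tint fun x => d1 f x ^ 2 + d2 f x ^ 2)

theorem gn_nonneg (f : ℝ × ℝ → ℝ) : 0 ≤ gn f := Real.sqrt_nonneg _

theorem gn_sq (f : ℝ × ℝ → ℝ) : gn f ^ 2 = tint fun x => d1 f x ^ 2 + d2 f x ^ 2 :=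
  Real.sq_sqrt (tint_nonneg fun _ => by positivity)

theorem nrm_d1_le {f : ℝ × ℝ → ℝ} (hf : Per f) : nrm (d1 f) ≤ gn f :=
  Real.sqrt_le_sqrt (tint_mono (hf.d1.pow 2).continuous ((hf.d1.pow 2).add (hf.d2.pow 2)).continuous
    fun x => by nlinarith [sq_nonneg (d2 f x)])

theorem nrm_d2_le {f : ℝ × ℝ → ℝ} (hf : Per f) : nrm (d2 f) ≤ gn f :=
  Real.sqrt_le_sqrt (tint_mono (hf.d2.pow 2).continuous ((hf.d1.pow 2).add (hf.d2.pow 2)).continuous
    fun x => by nlinarith [sq_nonneg (d1 f x)])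

theorem dst_eq {f g : ℝ × ℝ → ℝ} : dst f g = gn (fun y => f y - g y) + nrm (lap fun y => f y - g y) :=
  rfl

/-- `‖{f, k}‖ ≤ 2 M ‖∇f‖` -/
theorem nrm_br_le {f k : ℝ × ℝ → ℝ} {M : ℝ} (hf : Per f) (hk : Per k) (h1 : ∀ x, |d1 k x| ≤ M)
    (h2 : ∀ x, |d2 k x| ≤ M) : nrm (br f k) ≤ 2 * M * gn f := by
  have hM0 : 0 ≤ M := (abs_nonneg _).trans (h1 (0, 0))
  have h3 : 2 * M * gn f = Real.sqrt ((2 * M) ^ 2 * tint fun x => d1 f x ^ 2 + d2 f x ^ 2) := by
    rw [Real.sqrt_mul (sq_nonneg _), Real.sqrt_sq (by positivity)]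
    rfl
  rw [h3, ← tint_const_mul]
  refine Real.sqrt_le_sqrt (tint_mono ((hf.br hk).pow 2).continuous
    (((hf.d1.pow 2).add (hf.d2.pow 2)).const_mul _).continuous fun x => ?_)
  have a1 := abs_le.1 (h1 x)
  have a2 := abs_le.1 (h2 x)
  have b1 : d1 k x ^ 2 ≤ M ^ 2 := sq_le_sq' a1.1 a1.2
  have b2 : d2 k x ^ 2 ≤ M ^ 2 := sq_le_sq' a2.1 a2.2
  unfold br
  have c1 : (d1 f x * d2 k x - d2 f x * d1 k x) ^ 2 ≤
      (d1 f x ^ 2 + d2 f x ^ 2) * (d1 k x ^ 2 + d2 k x ^ 2) := by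
    nlinarith [sq_nonneg (d1 f x * d1 k x + d2 f x * d2 k x)]
  have c2 : (d1 f x ^ 2 + d2 f x ^ 2) * (d1 k x ^ 2 + d2 k x ^ 2) ≤
      (d1 f x ^ 2 + d2 f x ^ 2) * (2 * M ^ 2) :=
    mul_le_mul_of_nonneg_left (by linarith) (by positivity)
  nlinarith [sq_nonneg (d1 f x), sq_nonneg (d2 f x), mul_nonneg (sq_nonneg M) (add_nonneg (sq_nonneg (d1 f x)) (sq_nonneg (d2 f x)))]

/-- bounds for functions in the lowest eigenspace -/
theorem abs_VV_le {c : Fin 4 → ℝ} {B : ℝ} (hc : ∀ i, |c i| ≤ B) (x : ℝ × ℝ) : |VV c x| ≤ 4 * B := by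
  have hB : 0 ≤ B := (abs_nonneg _).trans (hc 0)
  have h : ∀ i, |c i * bas i x| ≤ B := fun i => by
    rw [abs_mul]
    calc |c i| * |bas i x| ≤ B * 1 := mul_le_mul (hc i) (abs_bas_le i x) (abs_nonneg _) hB
      _ = B := mul_one B
  unfold VV
  calc |∑ i, c i * bas i x| ≤ ∑ i : Fin 4, |c i * bas i x| := Finset.abs_sum_le_sum_abs _ _
    _ ≤ ∑ _i : Fin 4, B := Finset.sum_le_sum fun i _ => h i
    _ = 4 * B := by simp

theorem abs_d1_VV_le {c : Fin 4 → ℝ} {B : ℝ} (hc : ∀ i, |c i| ≤ B) (x : ℝ × ℝ) :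
    |d1 (VV c) x| ≤ 2 * B := by
  have hB : 0 ≤ B := (abs_nonneg _).trans (hc 0)
  rw [d1_VV]
  have h1 : |c 0 * Real.cos x.1| ≤ B := by
    rw [abs_mul]
    calc |c 0| * |Real.cos x.1| ≤ B * 1 :=
          mul_le_mul (hc 0) (Real.abs_cos_le_one _) (abs_nonneg _) hB
      _ = B := mul_one B
  have h2 : |c 1 * Real.sin x.1| ≤ B := by
    rw [abs_mul]
    calc |c 1| * |Real.sin x.1| ≤ B * 1 :=
          mul_le_mul (hc 1) (Real.abs_sin_le_one _) (abs_nonneg _) hB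
      _ = B := mul_one B
  have h3 := abs_sub (c 0 * Real.cos x.1) (c 1 * Real.sin x.1)
  linarith

theorem abs_d2_VV_le {c : Fin 4 → ℝ} {B : ℝ} (hc : ∀ i, |c i| ≤ B) (x : ℝ × ℝ) :
    |d2 (VV c) x| ≤ 2 * B := by
  have hB : 0 ≤ B := (abs_nonneg _).trans (hc 0)
  rw [d2_VV]
  have h1 : |c 2 * Real.cos x.2| ≤ B := by
    rw [abs_mul]
    calc |c 2| * |Real.cos x.2| ≤ B * 1 :=
          mul_le_mul (hc 2) (Real.abs_cos_le_one _) (abs_nonneg _) hB
      _ = B := mul_one B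
  have h2 : |c 3 * Real.sin x.2| ≤ B := by
    rw [abs_mul]
    calc |c 3| * |Real.sin x.2| ≤ B * 1 :=
          mul_le_mul (hc 3) (Real.abs_sin_le_one _) (abs_nonneg _) hB
      _ = B := mul_one B
  have h3 := abs_sub (c 2 * Real.cos x.2) (c 3 * Real.sin x.2)
  linarith

theorem br_add_left {f g k : ℝ × ℝ → ℝ} (hf : Per f) (hg : Per g) :
    br (fun x => f x + g x) k = fun x => br f k x + br g k x := by
  funext x
  unfold br
  rw [d1_add hf hg, d2_add hf hg]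
  ring

/-- The stationary flow `a sin x₁ + b sin x₂`. -/
noncomputable def V0 (a b : ℝ) (x : ℝ × ℝ) : ℝ := a * Real.sin x.1 + b * Real.sin x.2

theorem per_V0 (a b : ℝ) : Per (V0 a b) := (per_s1.const_mul a).add (per_s2.const_mul b)

theorem d1_V0 (a b : ℝ) : d1 (V0 a b) = fun x => a * Real.cos x.1 := by
  have h : V0 a b = fun x => a * Real.sin x.1 + b * Real.sin x.2 := rfl
  rw [h, d1_add (per_s1.const_mul a) (per_s2.const_mul b), d1_const_mul a per_s1,
    d1_const_mul b per_s2, d1_s1, d1_s2]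
  funext x
  simp

theorem d2_V0 (a b : ℝ) : d2 (V0 a b) = fun x => b * Real.cos x.2 := by
  have h : V0 a b = fun x => a * Real.sin x.1 + b * Real.sin x.2 := rfl
  rw [h, d2_add (per_s1.const_mul a) (per_s2.const_mul b), d2_const_mul a per_s1,
    d2_const_mul b per_s2, d2_s1, d2_s2]
  funext x
  simp

theorem lap_V0 (a b : ℝ) : lap (V0 a b) = fun x => -V0 a b x := by
  have h : V0 a b = fun x => a * Real.sin x.1 + b * Real.sin x.2 := rfl
  rw [h, lap_add (per_s1.const_mul a) (per_s2.const_mul b), lap_const_mul a per_s1,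
    lap_const_mul b per_s2, lap_s1, lap_s2]
  funext x
  simp only
  ring

theorem V0_eq_VV (a b : ℝ) : V0 a b = VV ![a, 0, b, 0] := by
  funext x
  rw [VV_eq]
  simp [V0]

theorem tint_V0 (a b : ℝ) : tint (V0 a b) = 0 := by rw [V0_eq_VV, tint_VV]

/-- A solution with the initial data `a sin x₁ + b sin x₂ + δ Φ`, `Φ` orthogonal to the constants and
to the lowest modes. -/
structure Ini (a b M δ T : ℝ) (Φ : ℝ × ℝ → ℝ) (ψ : ℝ → ℝ × ℝ → ℝ) : Prop where
  hb : 0 < b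
  hab : b < a
  sol : Sol T ψ
  perΦ : Per Φ
  meanΦ : tint Φ = 0
  orthΦ : ∀ i, tint (fun x => Φ x * bas i x) = 0
  hM : nrm (lap Φ) ≤ M
  hδ0 : 0 < δ
  hδ1 : δ ≤ 1
  init : ∀ x, ψ 0 x = V0 a b x + δ * Φ x

end Pool.Agent.Lib.EI
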