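import Pool.Agent.Lib.EI.Int

/-!
Time dependent functions on the torus.
-/

set_option autoImplicit false

open MeasureTheory Set intervalIntegral
open scoped ContDiff Topology

namespace Pool.Agent.Lib.EI

variable {F G : ℝ → ℝ × ℝ → ℝ} {f : ℝ × ℝ → ℝ}

theorem TPer.per (hF : TPer F) (t : ℝ) : Per (F t) :=
  ⟨hF.smooth.comp (contDiff_const.prodMk contDiff_id), hF.per1 t, hF.per2 t⟩

theorem tper_of_per (hf : Per f) : TPer fun _ => f :=
  ⟨hf.smooth.comp contDiff_snd, fun _ => hf.per1, fun _ => hf.per2⟩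

theorem tper_time {a : ℝ → ℝ} (ha : ContDiff ℝ ∞ a) : TPer fun t _ => a t :=
  ⟨ha.comp contDiff_fst, fun _ _ _ => rfl, fun _ _ _ => rfl⟩

theorem TPer.add (hF : TPer F) (hG : TPer G) : TPer fun t x => F t x + G t x :=
  ⟨hF.smooth.add hG.smooth, fun t x y => by simp only [hF.per1, hG.per1],
    fun t x y => by simp only [hF.per2, hG.per2]⟩

theorem TPer.sub (hF : TPer F) (hG : TPer G) : TPer fun t x => F t x - G t x :=
  ⟨hF.smooth.sub hG.smooth, fun t x y => by simp only [hF.per1, hG.per1],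
    fun t x y => by simp only [hF.per2, hG.per2]⟩

theorem TPer.mul (hF : TPer F) (hG : TPer G) : TPer fun t x => F t x * G t x :=
  ⟨hF.smooth.mul hG.smooth, fun t x y => by simp only [hF.per1, hG.per1],
    fun t x y => by simp only [hF.per2, hG.per2]⟩

theorem TPer.neg (hF : TPer F) : TPer fun t x => -F t x :=
  ⟨hF.smooth.neg, fun t x y => by simp only [hF.per1], fun t x y => by simp only [hF.per2]⟩

theorem TPer.pow (hF : TPer F) (n : ℕ) : TPer fun t x => F t x ^ n :=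
  ⟨hF.smooth.pow n, fun t x y => by simp only [hF.per1], fun t x y => by simp only [hF.per2]⟩

theorem TPer.const_mul (c : ℝ) (hF : TPer F) : TPer fun t x => c * F t x :=
  (tper_of_per (per_const c)).mul hF

/-- the partial derivatives of `F t` are derivatives of the function on `ℝ × ℝ × ℝ` -/
private theorem d1_eq (hF : TPer F) (t : ℝ) (x : ℝ × ℝ) :
    EI.d1 (F t) x = fderiv ℝ (fun z : ℝ × ℝ × ℝ => F z.1 z.2) (t, x) (0, 1, 0) := by
  have h1 : HasFDerivAt (fun y : ℝ × ℝ => ((t, y) : ℝ × ℝ × ℝ))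
      ((0 : (ℝ × ℝ) →L[ℝ] ℝ).prod (ContinuousLinearMap.id ℝ (ℝ × ℝ))) x :=
    (hasFDerivAt_const t x).prodMk (hasFDerivAt_id x)
  have h2 : DifferentiableAt ℝ (fun z : ℝ × ℝ × ℝ => F z.1 z.2) (t, x) :=
    hF.smooth.differentiable (by simp) _
  have h3 : HasFDerivAt (F t) _ x := h2.hasFDerivAt.comp x h1
  unfold EI.d1
  rw [h3.fderiv]
  simp

private theorem d2_eq (hF : TPer F) (t : ℝ) (x : ℝ × ℝ) :
    EI.d2 (F t) x = fderiv ℝ (fun z : ℝ × ℝ × ℝ => F z.1 z.2) (t, x) (0, 0, 1) := by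
  have h1 : HasFDerivAt (fun y : ℝ × ℝ => ((t, y) : ℝ × ℝ × ℝ))
      ((0 : (ℝ × ℝ) →L[ℝ] ℝ).prod (ContinuousLinearMap.id ℝ (ℝ × ℝ))) x :=
    (hasFDerivAt_const t x).prodMk (hasFDerivAt_id x)
  have h2 : DifferentiableAt ℝ (fun z : ℝ × ℝ × ℝ => F z.1 z.2) (t, x) :=
    hF.smooth.differentiable (by simp) _
  have h3 : HasFDerivAt (F t) _ x := h2.hasFDerivAt.comp x h1
  unfold EI.d2
  rw [h3.fderiv]
  simp

private theorem dt_eq (hF : TPer F) (t : ℝ) (x : ℝ × ℝ) :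
    HasDerivAt (fun s => F s x) (fderiv ℝ (fun z : ℝ × ℝ × ℝ => F z.1 z.2) (t, x) (1, 0, 0)) t := by
  have h1 : HasDerivAt (fun s : ℝ => ((s, x) : ℝ × ℝ × ℝ)) (1, 0) t :=
    (hasDerivAt_id t).prodMk (hasDerivAt_const t x)
  have h2 : DifferentiableAt ℝ (fun z : ℝ × ℝ × ℝ => F z.1 z.2) (t, x) :=
    hF.smooth.differentiable (by simp) _
  exact h2.hasFDerivAt.comp_hasDerivAt t h1

theorem TPer.hasDerivAt (hF : TPer F) (t : ℝ) (x : ℝ × ℝ) :
    HasDerivAt (fun s => F s x) (dt F t x) t := by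
  have h := dt_eq hF t x
  unfold dt
  rw [h.deriv]
  exact h

theorem TPer.d1 (hF : TPer F) : TPer fun t => EI.d1 (F t) := by
  refine ⟨?_, fun t x y => (hF.per t).d1.per1 x y, fun t x y => (hF.per t).d1.per2 x y⟩
  have h : (fun z : ℝ × ℝ × ℝ => EI.d1 (F z.1) z.2) =
      fun z => fderiv ℝ (fun z : ℝ × ℝ × ℝ => F z.1 z.2) z (0, 1, 0) := by
    funext z
    exact d1_eq hF z.1 z.2
  rw [h]
  exact (hF.smooth.fderiv_right (m := ∞) (by simp)).clm_apply contDiff_const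

theorem TPer.d2 (hF : TPer F) : TPer fun t => EI.d2 (F t) := by
  refine ⟨?_, fun t x y => (hF.per t).d2.per1 x y, fun t x y => (hF.per t).d2.per2 x y⟩
  have h : (fun z : ℝ × ℝ × ℝ => EI.d2 (F z.1) z.2) =
      fun z => fderiv ℝ (fun z : ℝ × ℝ × ℝ => F z.1 z.2) z (0, 0, 1) := by
    funext z
    exact d2_eq hF z.1 z.2
  rw [h]
  exact (hF.smooth.fderiv_right (m := ∞) (by simp)).clm_apply contDiff_const

theorem TPer.dt (hF : TPer F) : TPer (EI.dt F) := by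
  refine ⟨?_, fun t x y => ?_, fun t x y => ?_⟩
  · have h : (fun z : ℝ × ℝ × ℝ => EI.dt F z.1 z.2) =
        fun z => fderiv ℝ (fun z : ℝ × ℝ × ℝ => F z.1 z.2) z (1, 0, 0) := by
      funext z
      exact (dt_eq hF z.1 z.2).deriv
    rw [h]
    exact (hF.smooth.fderiv_right (m := ∞) (by simp)).clm_apply contDiff_const
  · unfold EI.dt
    simp only [hF.per1]
  · unfold EI.dt
    simp only [hF.per2]

theorem TPer.lap (hF : TPer F) : TPer fun t => EI.lap (F t) := hF.d1.d1.add hF.d2.d2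

theorem TPer.br (hF : TPer F) (hG : TPer G) : TPer fun t => EI.br (F t) (G t) :=
  (hF.d1.mul hG.d2).sub (hF.d2.mul hG.d1)

private theorem snd_symm (hF : TPer F) (z v w : ℝ × ℝ × ℝ) :
    fderiv ℝ (fun y => fderiv ℝ (fun z : ℝ × ℝ × ℝ => F z.1 z.2) y v) z w =
      fderiv ℝ (fun y => fderiv ℝ (fun z : ℝ × ℝ × ℝ => F z.1 z.2) y w) z v := by
  set Φ := fun z : ℝ × ℝ × ℝ => F z.1 z.2 with hΦ
  have h1 : DifferentiableAt ℝ (fderiv ℝ Φ) z :=
    (hF.smooth.fderiv_right (m := 1) (by norm_cast)).differentiable (by simp) z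
  have h2 : ∀ a b : ℝ × ℝ × ℝ, fderiv ℝ (fun y => fderiv ℝ Φ y a) z b =
      fderiv ℝ (fderiv ℝ Φ) z b a := by
    intro a b
    rw [fderiv_clm_apply h1 (differentiableAt_const _)]
    simp
  rw [h2, h2]
  have hs : IsSymmSndFDerivAt ℝ Φ z :=
    (hF.smooth.contDiffAt).isSymmSndFDerivAt
      (by simp only [minSmoothness_of_isRCLikeNormedField]; norm_cast)
  exact hs _ _

/-- Derivatives in time and space commute. -/
theorem dt_d1 (hF : TPer F) (t : ℝ) : dt (fun s => d1 (F s)) t = d1 (dt F t) := by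
  funext x
  have h1 : (fun z : ℝ × ℝ × ℝ => d1 (F z.1) z.2) =
      fun z => fderiv ℝ (fun z : ℝ × ℝ × ℝ => F z.1 z.2) z (0, 1, 0) := by
    funext z
    exact d1_eq hF z.1 z.2
  have h2 : (fun z : ℝ × ℝ × ℝ => dt F z.1 z.2) =
      fun z => fderiv ℝ (fun z : ℝ × ℝ × ℝ => F z.1 z.2) z (1, 0, 0) := by
    funext z
    exact (dt_eq hF z.1 z.2).deriv
  have h3 := (dt_eq hF.d1 t x).deriv
  rw [h1] at h3
  have h4 := d1_eq hF.dt t x
  rw [h2] at h4
  unfold dt at h4 ⊢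
  rw [h3, h4]
  exact snd_symm hF _ _ _

theorem dt_d2 (hF : TPer F) (t : ℝ) : dt (fun s => d2 (F s)) t = d2 (dt F t) := by
  funext x
  have h1 : (fun z : ℝ × ℝ × ℝ => d2 (F z.1) z.2) =
      fun z => fderiv ℝ (fun z : ℝ × ℝ × ℝ => F z.1 z.2) z (0, 0, 1) := by
    funext z
    exact d2_eq hF z.1 z.2
  have h2 : (fun z : ℝ × ℝ × ℝ => dt F z.1 z.2) =
      fun z => fderiv ℝ (fun z : ℝ × ℝ × ℝ => F z.1 z.2) z (1, 0, 0) := by
    funext z
    exact (dt_eq hF z.1 z.2).deriv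
  have h3 := (dt_eq hF.d2 t x).deriv
  rw [h1] at h3
  have h4 := d2_eq hF.dt t x
  rw [h2] at h4
  unfold dt at h4 ⊢
  rw [h3, h4]
  exact snd_symm hF _ _ _

theorem dt_add (hF : TPer F) (hG : TPer G) (t : ℝ) :
    dt (fun s x => F s x + G s x) t = fun x => dt F t x + dt G t x := by
  funext x
  exact ((hF.hasDerivAt t x).add (hG.hasDerivAt t x)).deriv

theorem dt_sub (hF : TPer F) (hG : TPer G) (t : ℝ) :
    dt (fun s x => F s x - G s x) t = fun x => dt F t x - dt G t x := by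
  funext x
  exact ((hF.hasDerivAt t x).sub (hG.hasDerivAt t x)).deriv

theorem dt_mul (hF : TPer F) (hG : TPer G) (t : ℝ) :
    dt (fun s x => F s x * G s x) t = fun x => dt F t x * G t x + F t x * dt G t x := by
  funext x
  exact ((hF.hasDerivAt t x).mul (hG.hasDerivAt t x)).deriv

theorem dt_const (f : ℝ × ℝ → ℝ) (t : ℝ) : dt (fun _ => f) t = fun _ => 0 := by
  funext x
  simp [dt]

theorem dt_lap (hF : TPer F) (t : ℝ) : dt (fun s => lap (F s)) t = lap (dt F t) := by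
  have h1 : (fun s => lap (F s)) = fun s x => d1 (d1 (F s)) x + d2 (d2 (F s)) x := rfl
  rw [h1, dt_add hF.d1.d1 hF.d2.d2 t, dt_d1 hF.d1, dt_d2 hF.d2, dt_d1 hF, dt_d2 hF]
  rfl

/-- Differentiation under the integral. -/
theorem hasDerivAt_tint (hF : TPer F) (t : ℝ) :
    HasDerivAt (fun s => tint (F s)) (tint (dt F t)) t := by
  have hc : Continuous fun z : ℝ × ℝ × ℝ => dt F z.1 z.2 := hF.dt.smooth.continuous
  have hK : IsCompact (Icc (t - 1) (t + 1) ×ˢ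
      (Icc (0 : ℝ) (2 * Real.pi) ×ˢ Icc (0 : ℝ) (2 * Real.pi))) :=
    isCompact_Icc.prod (isCompact_Icc.prod isCompact_Icc)
  obtain ⟨M, hM⟩ := (hK.image hc.norm).bddAbove
  have hbox : IsCompact (Icc (0 : ℝ) (2 * Real.pi) ×ˢ Icc (0 : ℝ) (2 * Real.pi)) :=
    isCompact_Icc.prod isCompact_Icc
  have hmeas : MeasurableSet (Icc (0 : ℝ) (2 * Real.pi) ×ˢ Icc (0 : ℝ) (2 * Real.pi)) :=
    measurableSet_Icc.prod measurableSet_Icc
  refine (hasDerivAt_integral_of_dominated_loc_of_deriv_le (𝕜 := ℝ)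
    (μ := volume.restrict (Icc (0 : ℝ) (2 * Real.pi) ×ˢ Icc (0 : ℝ) (2 * Real.pi)))
    (F := fun s x => F s x) (F' := fun s x => dt F s x) (x₀ := t) (bound := fun _ => M)
    (s := Ioo (t - 1) (t + 1)) (Ioo_mem_nhds (by linarith) (by linarith)) ?_ ?_ ?_ ?_ ?_ ?_).2
  · exact Filter.Eventually.of_forall fun s => (hF.per s).continuous.aestronglyMeasurable
  · exact (hF.per t).continuous.continuousOn.integrableOn_compact hbox
  · exact (hF.dt.per t).continuous.aestronglyMeasurable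
  · refine (ae_restrict_iff' hmeas).2 (Filter.Eventually.of_forall fun x hx s hs => ?_)
    exact hM ⟨(s, x), ⟨⟨hs.1.le, hs.2.le⟩, hx⟩, rfl⟩
  · exact (continuous_const (y := M)).continuousOn.integrableOn_compact hbox
  · exact Filter.Eventually.of_forall fun x s _ => hF.hasDerivAt s x

/-- A smooth time dependent periodic function is bounded on compact time intervals. -/
theorem TPer.bounded (hF : TPer F) (T : ℝ) :
    ∃ M, 0 ≤ M ∧ ∀ t, 0 ≤ t → t ≤ T → ∀ x, |F t x| ≤ M := by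
  have hK : IsCompact (Icc (0 : ℝ) T ×ˢ
      (Icc (0 : ℝ) (2 * Real.pi) ×ˢ Icc (0 : ℝ) (2 * Real.pi))) :=
    isCompact_Icc.prod (isCompact_Icc.prod isCompact_Icc)
  obtain ⟨M, hM⟩ := (hK.image hF.smooth.continuous.abs).bddAbove
  refine ⟨max M 0, le_max_right _ _, fun t ht0 htT x => le_max_of_le_left ?_⟩
  have hp : (0 : ℝ) < 2 * Real.pi := by positivity
  obtain ⟨x, y⟩ := x
  have hx : Function.Periodic (fun x => F t (x, y)) (2 * Real.pi) := fun x => hF.per1 t x y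
  obtain ⟨x', hx', hxe⟩ := hx.exists_mem_Ico₀ hp x
  have hy : Function.Periodic (fun y => F t (x', y)) (2 * Real.pi) := fun y => hF.per2 t x' y
  obtain ⟨y', hy', hye⟩ := hy.exists_mem_Ico₀ hp y
  have hxe' : F t (x, y) = F t (x', y) := hxe
  have hye' : F t (x', y) = F t (x', y') := hye
  rw [hxe', hye']
  exact hM ⟨(t, x', y'), ⟨⟨ht0, htT⟩, ⟨hx'.1, hx'.2.le⟩, ⟨hy'.1, hy'.2.le⟩⟩, rfl⟩

/-- Mean value inequality on `[0, T]`. -/
theorem mvt_bound {φ φ' : ℝ → ℝ} {T C : ℝ} (h : ∀ t, 0 ≤ t → t ≤ T → HasDerivAt φ (φ' t) t)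
    (hb : ∀ t, 0 ≤ t → t ≤ T → |φ' t| ≤ C) : ∀ t, 0 ≤ t → t ≤ T → |φ t - φ 0| ≤ C * t := by
  intro t ht0 htT
  have h1 := (convex_Icc (0 : ℝ) t).norm_image_sub_le_of_norm_hasDerivWithin_le
    (f := φ) (f' := φ') (C := C) (fun s hs => (h s hs.1 (hs.2.trans htT)).hasDerivWithinAt)
    (fun s hs => hb s hs.1 (hs.2.trans htT)) (left_mem_Icc.2 ht0) (right_mem_Icc.2 ht0)
  rwa [Real.norm_eq_abs, Real.norm_eq_abs, sub_zero, abs_of_nonneg ht0] at h1

/-- A function with vanishing derivative on `[0, T]` is constant. -/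
theorem const_of_deriv {φ : ℝ → ℝ} {T : ℝ} (h : ∀ t, 0 ≤ t → t ≤ T → HasDerivAt φ 0 t) :
    ∀ t, 0 ≤ t → t ≤ T → φ t = φ 0 := by
  intro t ht0 htT
  have h1 := mvt_bound (φ := φ) (φ' := fun _ => 0) (C := 0) h (fun _ _ _ => by simp) t ht0 htT
  rw [zero_mul] at h1
  have h2 := abs_nonpos_iff.1 h1
  linarith

end Pool.Agent.Lib.EI
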