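import Pool.Agent.Lib.EI.TRem
import Pool.Agent.Lib.P3e0609.Fourier

/-!
MODULE TrigDense (2 h). The Fourier partial sums of a smooth function on the torus converge in `L²`.

`A_k = (1/4π²) ∫ H cos (k·y)`, `B_k = (1/4π²) ∫ H sin (k·y)`, `k·y = k.1 y.1 + k.2 y.2`. The complex Fourier
coefficient is `c_k = A_k - i B_k` and `Re (c_k e^{ik·x}) = A_k cos (k·x) + B_k sin (k·x)`.
For every `κ > 0` there is a finite set `s` with `‖H - Σ_{k ∈ s} c_k e_k‖ ≤ κ` in complex `L²`, and the real part of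
a function has smaller norm.

Suggested source: `Pool.Agent.Lib.P3e0609.Fourier` (landed; `Z2`, `ek L k x = exp (i 2π/L k·x)`, `tm L`,
`fourierC L f k`, Hilbert basis `BB`, `BB_repr`, `parseval`, `complete2`; take `L = 2π`): with
`S = Σ_{k∈s} c_k e_k`, `‖H - S‖² = ‖H‖² - 4π² Σ_{k ∈ s} |c_k|²` (orthogonality, `integral_ek`) and
`Σ_k |c_k|²` has sum `‖H‖²/(4π²)` (`parseval`); or: the Hilbert basis expansion `HilbertBasis.hasSum_repr` in
`L²` directly, whose partial sums are `S` a.e.; or any other way (Mathlib's `UnitAddTorus.mFourier`,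
`AddCircle`, iterated one dimensional Fourier series; even uniform approximation is fine as long as the
coefficients are the Fourier coefficients of `H`).
`tint f = ∫ over Icc ×ˢ Icc` equals the integral over `Ioc ×ˢ Ioc` (null sets; see `tint_eq`).
-/

set_option autoImplicit false

open MeasureTheory Set
open scoped ContDiff

namespace Pool.Agent.Lib.EI

/-- The phase `k·x`. -/
noncomputable def kx (k : ℤ × ℤ) (x : ℝ × ℝ) : ℝ := k.1 * x.1 + k.2 * x.2

/-- Cosine and sine coefficients. -/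
noncomputable def fcA (H : ℝ × ℝ → ℝ) (k : ℤ × ℤ) : ℝ :=
  tint (fun y => H y * Real.cos (kx k y)) / (4 * Real.pi ^ 2)
noncomputable def fcB (H : ℝ × ℝ → ℝ) (k : ℤ × ℤ) : ℝ :=
  tint (fun y => H y * Real.sin (kx k y)) / (4 * Real.pi ^ 2)

private theorem tint_tm (f : ℝ × ℝ → ℝ) :
    tint f = ∫ x, f x ∂P3e0609.tm (2 * Real.pi) := by
  unfold tint
  rw [P3e0609.tm_eq, restrict_Ioc_eq_restrict_Icc, Measure.prod_restrict]
  rfl

private theorem ek_kx (k : ℤ × ℤ) (x : ℝ × ℝ) : P3e0609.ek (2 * Real.pi) k x =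
    (Real.cos (kx k x) : ℂ) + Complex.I * (Real.sin (kx k x) : ℂ) := by
  unfold P3e0609.ek kx
  have h1 : 2 * Real.pi / (2 * Real.pi) * ((k.1 : ℝ) * x.1 + k.2 * x.2) =
      (k.1 : ℝ) * x.1 + k.2 * x.2 := by
    rw [div_self (by positivity), one_mul]
  rw [h1, mul_comm, Complex.exp_mul_I, ← Complex.ofReal_cos, ← Complex.ofReal_sin]
  ring

private theorem ek_neg_kx (k : ℤ × ℤ) (x : ℝ × ℝ) : P3e0609.ek (2 * Real.pi) (-k) x =
    (Real.cos (kx k x) : ℂ) - Complex.I * (Real.sin (kx k x) : ℂ) := by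
  have h1 : kx (-k) x = - kx k x := by
    unfold kx
    push_cast [Prod.fst_neg, Prod.snd_neg]
    ring
  rw [ek_kx, h1, Real.cos_neg, Real.sin_neg]
  push_cast
  ring

private theorem continuous_kx (k : ℤ × ℤ) : Continuous (kx k) := by
  unfold kx
  fun_prop

private theorem integrable_tm {f : ℝ × ℝ → ℝ} (hf : Continuous f) :
    Integrable f (P3e0609.tm (2 * Real.pi)) := by
  rw [P3e0609.tm_eq, restrict_Ioc_eq_restrict_Icc, Measure.prod_restrict]
  exact hf.continuousOn.integrableOn_compact (isCompact_Icc.prod isCompact_Icc)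

private theorem fourier_AB {H : ℝ × ℝ → ℝ} (hH : Continuous H) (k : ℤ × ℤ) :
    P3e0609.fourierC (2 * Real.pi) (fun x => (H x : ℂ)) k =
      (fcA H k : ℂ) - Complex.I * (fcB H k : ℂ) := by
  rw [P3e0609.fourierC_eq]
  have hc : Continuous (fun x => H x * Real.cos (kx k x)) :=
    hH.mul (Real.continuous_cos.comp (continuous_kx k))
  have hs : Continuous (fun x => H x * Real.sin (kx k x)) :=
    hH.mul (Real.continuous_sin.comp (continuous_kx k))
  have h1 : ∀ x, (H x : ℂ) * P3e0609.ek (2 * Real.pi) (-k) x =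
      ((H x * Real.cos (kx k x) : ℝ) : ℂ) - Complex.I * ((H x * Real.sin (kx k x) : ℝ) : ℂ) := by
    intro x
    rw [ek_neg_kx]
    push_cast
    ring
  simp_rw [h1]
  rw [integral_sub (integrable_tm hc).ofReal ((integrable_tm hs).ofReal.const_mul _),
    integral_const_mul, integral_complex_ofReal, integral_complex_ofReal]
  unfold fcA fcB
  rw [tint_tm, tint_tm]
  push_cast
  have hp : (Real.pi : ℂ) ≠ 0 := by exact_mod_cast Real.pi_ne_zero
  field_simp
  ring

private theorem re_AB {H : ℝ × ℝ → ℝ} (hH : Continuous H) (k : ℤ × ℤ) (x : ℝ × ℝ) :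
    (P3e0609.fourierC (2 * Real.pi) (fun x => (H x : ℂ)) k * P3e0609.ek (2 * Real.pi) k x).re =
      fcA H k * Real.cos (kx k x) + fcB H k * Real.sin (kx k x) := by
  rw [fourier_AB hH, ek_kx]
  simp [-Complex.ofReal_cos, -Complex.ofReal_sin]

private theorem norm_sq_C2 {L : ℝ} (G : P3e0609.C2 L) :
    ∫ x, ‖G x‖ ^ 2 ∂P3e0609.tm L = ‖G‖ ^ 2 := by
  have h1 := L2.inner_def (𝕜 := ℂ) G G
  rw [inner_self_eq_norm_sq_to_K] at h1
  have h2 : ∀ x, inner ℂ (G x) (G x) = ((‖G x‖ ^ 2 : ℝ) : ℂ) := by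
    intro x
    rw [inner_self_eq_norm_sq_to_K]
    push_cast
    rfl
  simp_rw [h2] at h1
  rw [integral_complex_ofReal] at h1
  have h3 : ((‖G‖ ^ 2 : ℝ) : ℂ) = ((∫ x, ‖G x‖ ^ 2 ∂P3e0609.tm L : ℝ) : ℂ) := by
    rw [← h1]
    push_cast
    rfl
  exact (Complex.ofReal_injective h3).symm

private theorem sum_ae {L : ℝ} (hL : 0 < L) (F : P3e0609.C2 L) (s : Finset (ℤ × ℤ)) :
    ((∑ k ∈ s, (P3e0609.BB hL).repr F k • (P3e0609.BB hL) k : P3e0609.C2 L) : ℝ × ℝ → ℂ)
      =ᵐ[P3e0609.tm L] fun x => ∑ k ∈ s, P3e0609.fourierC L F k * P3e0609.ek L k x := by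
  classical
  induction s using Finset.induction_on with
  | empty =>
    simp only [Finset.sum_empty]
    filter_upwards [Lp.coeFn_zero ℂ 2 (P3e0609.tm L)] with x hx
    rw [hx]
    rfl
  | insert k s hk ih =>
    rw [Finset.sum_insert hk]
    have h1 : ((P3e0609.BB hL).repr F k • (P3e0609.BB hL) k : P3e0609.C2 L) =
        (P3e0609.fourierC L F k) • (P3e0609.memLp_ek L k).toLp (P3e0609.ek L k) := by
      rw [P3e0609.BB_repr, P3e0609.BB, HilbertBasis.coe_mkOfOrthogonalEqBot, P3e0609.bk, smul_smul]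
      congr 1
      have hL' : (L : ℂ) ≠ 0 := by exact_mod_cast hL.ne'
      push_cast
      field_simp
    rw [h1]
    filter_upwards [ih, Lp.coeFn_add ((P3e0609.fourierC L F k) •
      (P3e0609.memLp_ek L k).toLp (P3e0609.ek L k))
      (∑ k ∈ s, (P3e0609.BB hL).repr F k • (P3e0609.BB hL) k),
      Lp.coeFn_smul (P3e0609.fourierC L F k) ((P3e0609.memLp_ek L k).toLp (P3e0609.ek L k)),
      (P3e0609.memLp_ek L k).coeFn_toLp] with x hx1 hx2 hx3 hx4
    rw [hx2, Pi.add_apply, hx3, Pi.smul_apply, hx4, hx1, Finset.sum_insert hk, smul_eq_mul]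

theorem trig_dense {H : ℝ × ℝ → ℝ} (hH : Per H) {κ : ℝ} (hκ : 0 < κ) : ∃ s : Finset (ℤ × ℤ),
    nrm (fun x => H x - ∑ k ∈ s, (fcA H k * Real.cos (kx k x) + fcB H k * Real.sin (kx k x))) ≤ κ := by
  have hp : (0 : ℝ) < 2 * Real.pi := by positivity
  have hHc := hH.continuous
  obtain ⟨M, hM0, hM⟩ := hH.bounded
  have hF : MemLp (fun x => (H x : ℂ)) 2 (P3e0609.tm (2 * Real.pi)) := by
    refine MemLp.of_bound (Complex.continuous_ofReal.comp hHc).aestronglyMeasurable M ?_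
    refine Filter.Eventually.of_forall fun x => ?_
    rw [Complex.norm_real, Real.norm_eq_abs]
    exact hM x
  have hsum := (P3e0609.BB hp).hasSum_repr (hF.toLp _)
  obtain ⟨s, hs⟩ := (hsum.eventually (Metric.ball_mem_nhds _ hκ)).exists
  rw [dist_eq_norm, ← norm_neg, neg_sub] at hs
  refine ⟨s, ?_⟩
  apply Real.sqrt_le_iff.2
  refine ⟨hκ.le, ?_⟩
  rw [tint_tm]
  set G : P3e0609.C2 (2 * Real.pi) := hF.toLp _ - ∑ k ∈ s, (P3e0609.BB hp).repr (hF.toLp _) k •
    (P3e0609.BB hp) k with hG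
  have h1 : ∫ x, ‖G x‖ ^ 2 ∂P3e0609.tm (2 * Real.pi) ≤ κ ^ 2 := by
    rw [norm_sq_C2]
    exact pow_le_pow_left₀ (norm_nonneg _) hs.le 2
  refine le_trans ?_ h1
  refine integral_mono_of_nonneg (Filter.Eventually.of_forall fun x => sq_nonneg _)
    ((Lp.memLp G).integrable_norm_pow (by norm_num)) ?_
  have h2 : ∀ k, P3e0609.fourierC (2 * Real.pi) (hF.toLp _) k =
      P3e0609.fourierC (2 * Real.pi) (fun x => (H x : ℂ)) k := fun k =>
    P3e0609.fourierC_congr hF.coeFn_toLp k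
  filter_upwards [Lp.coeFn_sub (hF.toLp _) (∑ k ∈ s, (P3e0609.BB hp).repr (hF.toLp _) k •
    (P3e0609.BB hp) k), sum_ae hp (hF.toLp _) s, hF.coeFn_toLp] with x hx1 hx2 hx3
  rw [hG, hx1, Pi.sub_apply, hx2, hx3]
  have h3 : H x - ∑ k ∈ s, (fcA H k * Real.cos (kx k x) + fcB H k * Real.sin (kx k x)) =
      ((H x : ℂ) - ∑ k ∈ s, P3e0609.fourierC (2 * Real.pi) (hF.toLp _) k *
        P3e0609.ek (2 * Real.pi) k x).re := by
    rw [Complex.sub_re, Complex.ofReal_re, Complex.re_sum]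
    congr 1
    refine Finset.sum_congr rfl fun k _ => ?_
    rw [h2, re_AB hHc]
  rw [h3, ← sq_abs]
  exact pow_le_pow_left₀ (abs_nonneg _) (Complex.abs_re_le_norm _) 2

end Pool.Agent.Lib.EI
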