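import Pool.Agent.Lib.EI.Cons
import Pool.Agent.Lib.EI.Poin

/-!
Uniqueness of smooth solutions.

PROOF. Let `D = ψ - ψ'` (`TPer`), `Ω = lap D`. By `Sol.vort`, for `0 ≤ t ≤ T`,
`lap (dt D) = -(br ψ Ω + br D (lap ψ'))`, i.e. `-br ψ (lap ψ) + br ψ' (lap ψ') = -br ψ Ω - br D (lap ψ')`.
Put `E t = tint (d1 D ^ 2 + d2 D ^ 2) = -tint (D * lap D)` (`tint_mul_lap`). Then
`E' = -2 tint (D * lap (dt D)) = 2 tint (D * br ψ Ω) + 2 tint (D * br D (lap ψ')) = -2 tint (Ω * br ψ D) + 0`
(`tint_br`, `tint_br_self_left`). Integrating by parts (`tint_mul_lap`), with `ψ₁ = d1 ψ` etc.,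
`-tint (Ω * br ψ D) = tint (d1 D * d1 (br ψ D) + d2 D * d2 (br ψ D))`, and
`d1 D * d1 (br ψ D) + d2 D * d2 (br ψ D) = R + br ψ ((d1 D ^ 2 + d2 D ^ 2) / 2)` where
`R = d1 D * (ψ₁₁ D₂ - ψ₁₂ D₁) + d2 D * (ψ₁₂ D₂ - ψ₂₂ D₁)`, `|R| ≤ 4 M (D₁² + D₂²)` if the second
derivatives of `ψ` are bounded by `M` on `[0, T]` (`TPer.bounded`); the integral of `br ψ q` vanishes
(`tint_br` with `h = 1`). So `|E'| ≤ 8 M E` on `[0, T]`, `E 0 = 0`, hence `E = 0` on `[0, T]` (Gronwall:
`norm_le_gronwallBound_of_norm_deriv_right_le`, or: `E t * exp (-8 M t)` is nonincreasing). Then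
`∫ D² ≤ E = 0` by `poincare` (`tint D = 0`) and `D = 0` (`eq_zero_of_nrm`).
-/

set_option autoImplicit false

open MeasureTheory Set
open scoped ContDiff

namespace Pool.Agent.Lib.EI

namespace UniqAux

variable {p D : ℝ × ℝ → ℝ}

/-- the remainder in the energy estimate -/
private noncomputable def rem (p D : ℝ × ℝ → ℝ) (x : ℝ × ℝ) : ℝ :=
  d1 D x * (d1 (d1 p) x * d2 D x - d1 (d2 p) x * d1 D x) +
    d2 D x * (d1 (d2 p) x * d2 D x - d2 (d2 p) x * d1 D x)

private theorem rem_per (hp : Per p) (hD : Per D) : Per (rem p D) :=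
  (hD.d1.mul ((hp.d1.d1.mul hD.d2).sub (hp.d2.d1.mul hD.d1))).add
    (hD.d2.mul ((hp.d2.d1.mul hD.d2).sub (hp.d2.d2.mul hD.d1)))

private theorem q_per (hD : Per D) : Per fun x => d1 D x * d1 D x + d2 D x * d2 D x :=
  (hD.d1.mul hD.d1).add (hD.d2.mul hD.d2)

private theorem tint_br_one (hp : Per p) (hD : Per D) : tint (br p D) = 0 := by
  have h := tint_br hp hD (per_const 1)
  have h1 : (fun x => (1 : ℝ) * br p D x) = br p D := by funext x; ring
  have h2 : (fun x => D x * br p (fun _ => (1 : ℝ)) x) = fun _ => 0 := by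
    funext x
    unfold br
    rw [d1_const, d2_const]
    ring
  rw [h1, h2, tint_zero, neg_zero] at h
  exact h

private theorem key (hp : Per p) (hD : Per D) :
    tint (fun x => D x * br p (lap D) x) = tint (rem p D) := by
  rw [tint_br hp hD.lap hD]
  have h1 : (fun x => lap D x * br p D x) = fun x => br p D x * lap D x := by
    funext x; ring
  rw [h1, tint_mul_lap (hp.br hD) hD, neg_neg]
  have hq := q_per hD
  have e1 : d1 (br p D) = fun x => (d1 (d1 p) x * d2 D x + d1 p x * d1 (d2 D) x) -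
      (d1 (d2 p) x * d1 D x + d2 p x * d1 (d1 D) x) := by
    show d1 (fun x => d1 p x * d2 D x - d2 p x * d1 D x) = _
    rw [d1_sub (hp.d1.mul hD.d2) (hp.d2.mul hD.d1), d1_mul hp.d1 hD.d2, d1_mul hp.d2 hD.d1]
  have e2 : d2 (br p D) = fun x => (d2 (d1 p) x * d2 D x + d1 p x * d2 (d2 D) x) -
      (d2 (d2 p) x * d1 D x + d2 p x * d2 (d1 D) x) := by
    show d2 (fun x => d1 p x * d2 D x - d2 p x * d1 D x) = _
    rw [d2_sub (hp.d1.mul hD.d2) (hp.d2.mul hD.d1), d2_mul hp.d1 hD.d2, d2_mul hp.d2 hD.d1]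
  have e3 : d1 (fun x => d1 D x * d1 D x + d2 D x * d2 D x) = fun x =>
      (d1 (d1 D) x * d1 D x + d1 D x * d1 (d1 D) x) +
      (d1 (d2 D) x * d2 D x + d2 D x * d1 (d2 D) x) := by
    rw [d1_add (hD.d1.mul hD.d1) (hD.d2.mul hD.d2), d1_mul hD.d1 hD.d1, d1_mul hD.d2 hD.d2]
  have e4 : d2 (fun x => d1 D x * d1 D x + d2 D x * d2 D x) = fun x =>
      (d2 (d1 D) x * d1 D x + d1 D x * d2 (d1 D) x) +
      (d2 (d2 D) x * d2 D x + d2 D x * d2 (d2 D) x) := by
    rw [d2_add (hD.d1.mul hD.d1) (hD.d2.mul hD.d2), d2_mul hD.d1 hD.d1, d2_mul hD.d2 hD.d2]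
  have e5 : (fun x => d1 (br p D) x * d1 D x + d2 (br p D) x * d2 D x) =
      fun x => rem p D x + (1 / 2) * br p (fun x => d1 D x * d1 D x + d2 D x * d2 D x) x := by
    funext x
    rw [e1, e2]
    unfold rem
    show _ = _ + 1 / 2 * (d1 p x * d2 (fun x => d1 D x * d1 D x + d2 D x * d2 D x) x -
      d2 p x * d1 (fun x => d1 D x * d1 D x + d2 D x * d2 D x) x)
    rw [e3, e4, d1_d2_comm hp, d1_d2_comm hD]
    ring
  rw [e5, tint_add (rem_per hp hD).continuous ((hp.br hq).const_mul (1 / 2)).continuous,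
    tint_const_mul, tint_br_one hp hq, mul_zero, add_zero]

private theorem rem_le {M : ℝ} {x : ℝ × ℝ} (h1 : |d1 (d1 p) x| ≤ M) (h2 : |d1 (d2 p) x| ≤ M)
    (h3 : |d2 (d2 p) x| ≤ M) : |rem p D x| ≤ (2 * M) * (d1 D x ^ 2 + d2 D x ^ 2) := by
  have hM : 0 ≤ M := (abs_nonneg _).trans h1
  unfold rem
  set a := d1 D x
  set b := d2 D x
  set u := d1 (d1 p) x
  set v := d1 (d2 p) x
  set w := d2 (d2 p) x
  have e : a * (u * b - v * a) + b * (v * b - w * a) = (u - w) * (a * b) + v * (b ^ 2 - a ^ 2) := by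
    ring
  rw [e]
  have i1 : |(u - w) * (a * b)| ≤ (2 * M) * ((a ^ 2 + b ^ 2) / 2) := by
    rw [abs_mul]
    apply mul_le_mul _ _ (abs_nonneg _) (by positivity)
    · calc |u - w| ≤ |u| + |w| := abs_sub _ _
        _ ≤ 2 * M := by linarith
    · rw [abs_le]
      constructor
      · nlinarith [sq_nonneg (a + b)]
      · nlinarith [sq_nonneg (a - b)]
  have i2 : |v * (b ^ 2 - a ^ 2)| ≤ M * (a ^ 2 + b ^ 2) := by
    rw [abs_mul]
    apply mul_le_mul h2 _ (abs_nonneg _) hM
    rw [abs_le]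
    constructor
    · nlinarith [sq_nonneg b]
    · nlinarith [sq_nonneg a]
  calc |(u - w) * (a * b) + v * (b ^ 2 - a ^ 2)|
      ≤ |(u - w) * (a * b)| + |v * (b ^ 2 - a ^ 2)| := abs_add_le _ _
    _ ≤ (2 * M) * ((a ^ 2 + b ^ 2) / 2) + M * (a ^ 2 + b ^ 2) := add_le_add i1 i2
    _ = (2 * M) * (a ^ 2 + b ^ 2) := by ring

private theorem abs_tint_le {f g : ℝ × ℝ → ℝ} (hf : Continuous f) (hg : Continuous g)
    (h : ∀ x, |f x| ≤ g x) : |tint f| ≤ tint g := by
  rw [abs_le]
  constructor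
  · rw [← tint_neg]
    exact tint_mono (by fun_prop) hf fun x => (abs_le.1 (h x)).1
  · exact tint_mono hf hg fun x => (abs_le.1 (h x)).2

end UniqAux

open UniqAux in
theorem uniq {T : ℝ} {ψ ψ' : ℝ → ℝ × ℝ → ℝ} (h : Sol T ψ) (h' : Sol T ψ')
    (h0 : ∀ x, ψ 0 x = ψ' 0 x) : ∀ t, 0 ≤ t → t ≤ T → ∀ x, ψ t x = ψ' t x := by
  set D : ℝ → ℝ × ℝ → ℝ := fun t x => ψ t x - ψ' t x with hDdef
  have hT : TPer D := h.tper.sub h'.tper
  obtain ⟨M1, -, hM1⟩ := h.tper.d1.d1.bounded T
  obtain ⟨M2, -, hM2⟩ := h.tper.d2.d1.bounded T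
  obtain ⟨M3, -, hM3⟩ := h.tper.d2.d2.bounded T
  set M := max M1 (max M2 M3) with hMd
  have hDlap : ∀ t, lap (D t) = fun x => lap (ψ t) x - lap (ψ' t) x := fun t =>
    lap_sub (h.tper.per t) (h'.tper.per t)
  -- the derivative of the energy
  have hE : ∀ t, 0 ≤ t → t ≤ T → HasDerivAt (fun s => tint (fun x => D s x * lap (D s) x))
      (-2 * tint (rem (ψ t) (D t))) t := by
    intro s hs hsT
    have hp := h.tper.per s
    have hp' := h'.tper.per s
    have hd := hT.per s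
    have hq := hT.dt.per s
    have h1 := hasDerivAt_tint (hT.mul hT.lap) s
    rw [dt_mul hT hT.lap s, dt_lap hT s] at h1
    rw [tint_add (hq.mul hd.lap).continuous (hd.mul hq.lap).continuous, tint_lap_symm hq hd] at h1
    have hl : ∀ x, lap (dt D s) x = -br (ψ s) (lap (D s)) x - br (D s) (lap (ψ' s)) x := by
      intro x
      have e0 : dt D s = fun x => dt ψ s x - dt ψ' s x := dt_sub h.tper h'.tper s
      rw [e0, lap_sub (h.tper.dt.per s) (h'.tper.dt.per s)]
      show lap (dt ψ s) x - lap (dt ψ' s) x = _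
      rw [h.vort hs hsT x, h'.vort hs hsT x]
      unfold br
      have e1 : d1 (lap (D s)) = fun x => d1 (lap (ψ s)) x - d1 (lap (ψ' s)) x := by
        rw [hDlap]; exact d1_sub hp.lap hp'.lap
      have e2 : d2 (lap (D s)) = fun x => d2 (lap (ψ s)) x - d2 (lap (ψ' s)) x := by
        rw [hDlap]; exact d2_sub hp.lap hp'.lap
      have e3 : d1 (D s) = fun x => d1 (ψ s) x - d1 (ψ' s) x := d1_sub hp hp'
      have e4 : d2 (D s) = fun x => d2 (ψ s) x - d2 (ψ' s) x := d2_sub hp hp'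
      rw [e1, e2, e3, e4]
      ring
    have i1 : (fun x => D s x * lap (dt D s) x) = fun x =>
        -(D s x * br (ψ s) (lap (D s)) x) - D s x * br (D s) (lap (ψ' s)) x := by
      funext x
      rw [hl x]
      ring
    have i2 : (fun x => lap (dt D s) x * D s x) = fun x => D s x * lap (dt D s) x := by
      funext x
      ring
    rw [i2, i1, tint_sub (hd.mul (hp.br hd.lap)).neg.continuous
      (hd.mul (hd.br hp'.lap)).continuous, tint_neg, tint_br_self_left hd hp'.lap, key hp hd] at h1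
    convert h1 using 1
    ring
  have hEeq : ∀ s, tint (fun x => D s x * lap (D s) x) =
      -tint (fun x => d1 (D s) x ^ 2 + d2 (D s) x ^ 2) := by
    intro s
    rw [tint_mul_lap (hT.per s) (hT.per s)]
    congr 2
    funext x
    ring
  intro t ht0 htT
  have hz : tint (fun x => D t x * lap (D t) x) = 0 := by
    refine eq_zero_of_abs_deriv_le_mul_abs_self_of_eq_zero_right
      (f := fun s => tint (fun x => D s x * lap (D s) x))
      (f' := fun s => -2 * tint (rem (ψ s) (D s))) (K := 4 * M) (a := 0) (b := T)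
      (fun s hs => (hE s hs.1 hs.2).continuousAt.continuousWithinAt)
      (fun s hs => (hE s hs.1 hs.2.le).hasDerivWithinAt) ?_ ?_ t ⟨ht0, htT⟩
    · have e0 : D 0 = fun _ => 0 := by
        funext x
        simp only [hDdef, h0 x, sub_self]
      have e1 : (fun x => D 0 x * lap (D 0) x) = fun _ => 0 := by
        funext x
        rw [e0]
        ring
      show tint (fun x => D 0 x * lap (D 0) x) = 0
      rw [e1, tint_zero]
    · intro s hs
      have hd := hT.per s
      have hp := h.tper.per s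
      show |(-2) * tint (rem (ψ s) (D s))| ≤ 4 * M * |tint (fun x => D s x * lap (D s) x)|
      rw [hEeq s, abs_neg, abs_of_nonneg (a := tint fun x => d1 (D s) x ^ 2 + d2 (D s) x ^ 2)
        (tint_nonneg fun x => by positivity), abs_mul]
      have h1 : |tint (rem (ψ s) (D s))| ≤
          tint (fun x => (2 * M) * (d1 (D s) x ^ 2 + d2 (D s) x ^ 2)) := by
        refine abs_tint_le (rem_per hp hd).continuous
          (((hd.d1.pow 2).add (hd.d2.pow 2)).const_mul (2 * M)).continuous fun x => ?_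
        exact rem_le ((hM1 s hs.1 hs.2.le x).trans (le_max_left _ _))
          ((hM2 s hs.1 hs.2.le x).trans ((le_max_left _ _).trans (le_max_right _ _)))
          ((hM3 s hs.1 hs.2.le x).trans ((le_max_right _ _).trans (le_max_right _ _)))
      rw [tint_const_mul] at h1
      have h2 : |(-2 : ℝ)| = 2 := by norm_num
      rw [h2]
      linarith
  have hd := hT.per t
  have hg : tint (fun x => d1 (D t) x ^ 2 + d2 (D t) x ^ 2) = 0 := by
    have := hEeq t
    linarith
  have hm : tint (D t) = 0 := by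
    show tint (fun x => ψ t x - ψ' t x) = 0
    rw [tint_sub (h.tper.per t).continuous (h'.tper.per t).continuous, h.mean, h'.mean, sub_zero]
  have hle := poincare hd hm
  rw [hg] at hle
  intro x
  have := eq_zero_of_nrm hd hle x
  simp only [hDdef] at this
  linarith

end Pool.Agent.Lib.EI
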