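import Pool.Agent.Lib.EI.Time

/-!
Integrals over the lines `x₁ + x₂ = s`: definition.
-/

set_option autoImplicit false

open MeasureTheory Set intervalIntegral
open scoped ContDiff Topology

namespace Pool.Agent.Lib.EI

/-- The integral of `f` over the line `x₁ + x₂ = s`. -/
noncomputable def zon (f : ℝ × ℝ → ℝ) (s : ℝ) : ℝ := ∫ r in (0 : ℝ)..2 * Real.pi, f (r, s - r)

end Pool.Agent.Lib.EI
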